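import Pool.Agent.Lib.MP_d16af7_co.Defs

section

set_option autoImplicit false

namespace HX

open Finset Classical

/-! JOB HG-B1 (easy): basic facts on degrees and numbers of arcs. Short proofs from the definitions
(`dOut`, `dIn` are cardinalities of filters). -/

section
variable {V : Type} (E : V → V → Prop)

theorem dOut_le_card (x : V) (Y : Finset V) : dOut E x Y ≤ Y.card := by
  exact card_filter_le _ _

theorem dIn_le_card (y : V) (X : Finset V) : dIn E y X ≤ X.card := by
  exact card_filter_le _ _

theorem dOut_mono (x : V) {Y Z : Finset V} (h : Y ⊆ Z) : dOut E x Y ≤ dOut E x Z := by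
  exact card_le_card (filter_subset_filter _ h)

theorem dIn_mono (y : V) {X Z : Finset V} (h : X ⊆ Z) : dIn E y X ≤ dIn E y Z := by
  exact card_le_card (filter_subset_filter _ h)

theorem dOut_union (x : V) {Y Z : Finset V} (h : Disjoint Y Z) :
    dOut E x (Y ∪ Z) = dOut E x Y + dOut E x Z := by
  unfold dOut
  rw [filter_union, card_union_of_disjoint (disjoint_filter_filter h)]

theorem dIn_union (y : V) {X Z : Finset V} (h : Disjoint X Z) :
    dIn E y (X ∪ Z) = dIn E y X + dIn E y Z := by
  unfold dIn
  rw [filter_union, card_union_of_disjoint (disjoint_filter_filter h)]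

theorem dOut_union_le (x : V) (Y Z : Finset V) : dOut E x (Y ∪ Z) ≤ dOut E x Y + dOut E x Z := by
  unfold dOut
  rw [filter_union]
  exact card_union_le _ _

theorem dIn_union_le (y : V) (X Z : Finset V) : dIn E y (X ∪ Z) ≤ dIn E y X + dIn E y Z := by
  unfold dIn
  rw [filter_union]
  exact card_union_le _ _

/-- removing at most `|Y \ Z|` vertices -/
theorem dOut_le_sdiff (x : V) (Y Z : Finset V) : dOut E x Y ≤ dOut E x Z + (Y \ Z).card := by
  have h1 : Y ⊆ Z ∪ Y \ Z := by
    intro v hv
    by_cases h : v ∈ Z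
    · exact mem_union_left _ h
    · exact mem_union_right _ (mem_sdiff.2 ⟨hv, h⟩)
  exact (dOut_mono E x h1).trans ((dOut_union_le E x Z (Y \ Z)).trans
    (Nat.add_le_add_left (dOut_le_card E x _) _))

theorem dIn_le_sdiff (y : V) (X Z : Finset V) : dIn E y X ≤ dIn E y Z + (X \ Z).card := by
  have h1 : X ⊆ Z ∪ X \ Z := by
    intro v hv
    by_cases h : v ∈ Z
    · exact mem_union_left _ h
    · exact mem_union_right _ (mem_sdiff.2 ⟨hv, h⟩)
  exact (dIn_mono E y h1).trans ((dIn_union_le E y Z (X \ Z)).trans
    (Nat.add_le_add_left (dIn_le_card E y _) _))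

theorem dOut_compl [Fintype V] (x : V) (Y : Finset V) :
    dOut E x univ = dOut E x Y + dOut E x Yᶜ := by
  rw [← dOut_union E x disjoint_compl_right, union_compl]

theorem dIn_compl [Fintype V] (y : V) (X : Finset V) :
    dIn E y univ = dIn E y X + dIn E y Xᶜ := by
  rw [← dIn_union E y disjoint_compl_right, union_compl]

/-- in an oriented graph the outdegree and the indegree of `v` in `Y` count different vertices -/
theorem dOut_add_dIn_le (h : ∀ x y, E x y → ¬ E y x) (v : V) (Y : Finset V) :
    dOut E v Y + dIn E v Y ≤ Y.card := by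
  unfold dOut dIn
  rw [← card_union_of_disjoint]
  · exact card_le_card (union_subset (filter_subset _ _) (filter_subset _ _))
  · rw [disjoint_filter]
    exact fun y _ h1 => h v y h1

theorem dOut_add_dIn_lt (h : ∀ x y, E x y → ¬ E y x) {v : V} {Y : Finset V} (hv : v ∈ Y) :
    dOut E v Y + dIn E v Y + 1 ≤ Y.card := by
  have h0 : ¬ E v v := fun h1 => h v v h1 h1
  have h1 : dOut E v (Y.erase v) = dOut E v Y := by
    unfold dOut
    congr 1
    ext y
    simp only [mem_filter, mem_erase]
    exact ⟨fun h2 => ⟨h2.1.2, h2.2⟩, fun h2 => ⟨⟨fun h3 => h0 (h3 ▸ h2.2), h2.1⟩, h2.2⟩⟩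
  have h2 : dIn E v (Y.erase v) = dIn E v Y := by
    unfold dIn
    congr 1
    ext y
    simp only [mem_filter, mem_erase]
    exact ⟨fun h2 => ⟨h2.1.2, h2.2⟩, fun h2 => ⟨⟨fun h3 => h0 (h3 ▸ h2.2), h2.1⟩, h2.2⟩⟩
  have h3 := dOut_add_dIn_le E h v (Y.erase v)
  rw [h1, h2, card_erase_of_mem hv] at h3
  have h4 : 0 < Y.card := card_pos.2 ⟨v, hv⟩
  omega

/-- double counting -/
theorem eb_eq_sum_dIn (X Y : Finset V) : eb E X Y = ∑ y ∈ Y, dIn E y X := by
  unfold eb dOut dIn
  simp only [card_filter]
  exact sum_comm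

theorem eb_rev (X Y : Finset V) : eb (fun x y => E y x) Y X = eb E X Y := by
  rw [eb_eq_sum_dIn E X Y]
  rfl

theorem eb_le_mul (X Y : Finset V) : eb E X Y ≤ X.card * Y.card := by
  unfold eb
  calc ∑ x ∈ X, dOut E x Y ≤ ∑ _x ∈ X, Y.card := sum_le_sum fun x _ => dOut_le_card E x Y
    _ = X.card * Y.card := by rw [sum_const, smul_eq_mul]

theorem eb_mono {X X' Y Y' : Finset V} (hX : X ⊆ X') (hY : Y ⊆ Y') : eb E X Y ≤ eb E X' Y' := by
  unfold eb
  exact (sum_le_sum fun x _ => dOut_mono E x hY).trans (sum_le_sum_of_subset hX)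

theorem eb_union_left {X X' : Finset V} (h : Disjoint X X') (Y : Finset V) :
    eb E (X ∪ X') Y = eb E X Y + eb E X' Y := by
  unfold eb
  exact sum_union h

theorem eb_union_right (X : Finset V) {Y Y' : Finset V} (h : Disjoint Y Y') :
    eb E X (Y ∪ Y') = eb E X Y + eb E X Y' := by
  unfold eb
  rw [← sum_add_distrib]
  exact sum_congr rfl fun x _ => dOut_union E x h

/-- arcs inside `X` of an oriented graph: sum `dOut_add_dIn_lt` over `X` -/
theorem eb_self (h : ∀ x y, E x y → ¬ E y x) (X : Finset V) :
    2 * eb E X X + X.card ≤ X.card * X.card := by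
  have h1 : 2 * eb E X X + X.card = ∑ x ∈ X, (dOut E x X + dIn E x X + 1) := by
    rw [sum_add_distrib, sum_add_distrib, ← eb_eq_sum_dIn, sum_const, smul_eq_mul, mul_one]
    unfold eb
    ring
  rw [h1]
  calc ∑ x ∈ X, (dOut E x X + dIn E x X + 1) ≤ ∑ _x ∈ X, X.card :=
        sum_le_sum fun x hx => dOut_add_dIn_lt E h hx
    _ = X.card * X.card := by rw [sum_const, smul_eq_mul]

end

end HX
end

section

set_option autoImplicit false

namespace HX

open Finset Classical

private lemma gm_perm {V : Type} {F : V → V → Prop} {U : Finset V} {L L' : List (List V)}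
    (h : L.Perm L') (hL : PP F U L) : PP F U L' := by
  obtain ⟨h1, h2, h3⟩ := hL
  have h4 := h.flatten
  refine ⟨fun l hl => h1 l (h.mem_iff.mpr hl), h4.nodup_iff.mp h2, fun v => ?_⟩
  rw [← h4.mem_iff]
  exact h3 v

/-- the list of the first elements -/
private lemma gm_heads {V : Type} : ∀ L : List (List V), (∀ l ∈ L, l ≠ []) → L.flatten.Nodup →
    ∃ H : List V, H.length = L.length ∧ H.Nodup ∧ (∀ z, z ∈ H ↔ ∃ l ∈ L, l.head? = some z) ∧
      ∀ z ∈ H, z ∈ L.flatten := by
  intro L
  induction L with
  | nil => intro _ _; exact ⟨[], rfl, List.nodup_nil, by simp, by simp⟩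
  | cons l L ih =>
    intro hne hnd
    rw [List.flatten_cons, List.nodup_append] at hnd
    obtain ⟨hl, hLn, hdis⟩ := hnd
    obtain ⟨H, h1, h2, h3, h4⟩ := ih (fun l hl => hne l (List.mem_cons_of_mem _ hl)) hLn
    obtain ⟨a, t, rfl⟩ := List.exists_cons_of_ne_nil (hne l List.mem_cons_self)
    refine ⟨a :: H, by simp [h1], ?_, ?_, ?_⟩
    · rw [List.nodup_cons]
      exact ⟨fun ha => hdis a List.mem_cons_self a (h4 a ha) rfl, h2⟩
    · intro z
      rw [List.mem_cons, h3 z]
      constructor
      · rintro (rfl | ⟨l, hl, hz⟩)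
        · exact ⟨_, List.mem_cons_self, rfl⟩
        · exact ⟨l, List.mem_cons_of_mem _ hl, hz⟩
      · rintro ⟨l, hl, hz⟩
        rcases List.mem_cons.mp hl with rfl | hl
        · left
          simpa using hz.symm
        · exact Or.inr ⟨l, hl, hz⟩
    · intro z hz
      rw [List.flatten_cons, List.mem_append]
      rcases List.mem_cons.mp hz with rfl | hz
      · exact Or.inl List.mem_cons_self
      · exact Or.inr (h4 z hz)

/-- put an element in front of a list of the partition -/
private lemma gm_push {V : Type} {F : V → V → Prop} {U : Finset V} {v : V} (hv : v ∈ U)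
    {b : V} {Q : List V} {N : List (List V)} (hF : F v b) (hb : Q.head? = some b)
    (hL : PP F (U.erase v) (Q :: N)) : PP F U ((v :: Q) :: N) := by
  obtain ⟨h1, h2, h3⟩ := hL
  have hvn : v ∉ (Q :: N).flatten := fun h => by
    have := (h3 v).mp h
    exact (Finset.mem_erase.mp this).1 rfl
  obtain ⟨t, rfl⟩ : ∃ t, Q = b :: t := by
    cases Q with
    | nil => simp at hb
    | cons c t => exact ⟨t, by simp at hb; rw [hb]⟩
  refine ⟨?_, ?_, ?_⟩
  · intro l hl
    rcases List.mem_cons.mp hl with rfl | hl
    · refine ⟨by simp, ?_⟩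
      exact List.isChain_cons_cons.mpr ⟨hF, (h1 _ List.mem_cons_self).2⟩
    · exact h1 l (List.mem_cons_of_mem _ hl)
  · have e : ((v :: b :: t) :: N).flatten = v :: ((b :: t) :: N).flatten := by simp
    rw [e, List.nodup_cons]
    exact ⟨hvn, h2⟩
  · intro x
    have e : ((v :: b :: t) :: N).flatten = v :: ((b :: t) :: N).flatten := by simp
    rw [e, List.mem_cons, h3 x, Finset.mem_erase]
    constructor
    · rintro (rfl | ⟨-, h⟩)
      · exact hv
      · exact h
    · intro h
      by_cases hx : x = v
      · exact Or.inl hx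
      · exact Or.inr ⟨hx, h⟩

private lemma gm_single {V : Type} {F : V → V → Prop} {U : Finset V} {v : V} (hv : v ∈ U)
    {N : List (List V)} (hL : PP F (U.erase v) N) : PP F U ([v] :: N) := by
  obtain ⟨h1, h2, h3⟩ := hL
  have hvn : v ∉ N.flatten := fun h => by
    have := (h3 v).mp h
    exact (Finset.mem_erase.mp this).1 rfl
  refine ⟨?_, ?_, ?_⟩
  · intro l hl
    rcases List.mem_cons.mp hl with rfl | hl
    · exact ⟨by simp, by simp⟩
    · exact h1 l hl
  · have e : ([v] :: N).flatten = v :: N.flatten := by simp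
    rw [e, List.nodup_cons]
    exact ⟨hvn, h2⟩
  · intro x
    have e : ([v] :: N).flatten = v :: N.flatten := by simp
    rw [e, List.mem_cons, h3 x, Finset.mem_erase]
    constructor
    · rintro (rfl | ⟨-, h⟩)
      · exact hv
      · exact h
    · intro h
      by_cases hx : x = v
      · exact Or.inl hx
      · exact Or.inr ⟨hx, h⟩

private lemma gm_aux {V : Type} (F : V → V → Prop) : ∀ (n : ℕ) (U : Finset V)
    (L : List (List V)), U.card + L.length ≤ n → PP F U L →
    ∃ (L' : List (List V)) (I : Finset V), PP F U L' ∧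
      (∀ l ∈ L', ∀ z, l.head? = some z → ∃ l₀ ∈ L, l₀.head? = some z) ∧ I ⊆ U ∧
      (∀ x ∈ I, ∀ y ∈ I, x ≠ y → ¬ F x y) ∧ I.card = L'.length := by
  intro n
  induction n with
  | zero =>
    intro U L hn hL
    have hl : L = [] := List.length_eq_zero_iff.mp (by omega)
    subst hl
    exact ⟨[], ∅, hL, by simp, Finset.empty_subset _, by simp, by simp⟩
  | succ n ih =>
    intro U L hn hL
    obtain ⟨H, hH1, hH2, hH3, hH4⟩ := gm_heads L (fun l hl => (hL.1 l hl).1) hL.2.1
    by_cases hind : ∀ x ∈ H, ∀ y ∈ H, x ≠ y → ¬ F x y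
    · refine ⟨L, H.toFinset, hL, fun l hl z hz => ⟨l, hl, hz⟩, ?_, ?_, ?_⟩
      · intro z hz
        exact (hL.2.2 z).mp (hH4 z (List.mem_toFinset.mp hz))
      · intro x hx y hy
        exact hind x (List.mem_toFinset.mp hx) y (List.mem_toFinset.mp hy)
      · rw [List.toFinset_card_of_nodup hH2, hH1]
    push Not at hind
    obtain ⟨v1, hv1, v2, hv2, hne, hF⟩ := hind
    obtain ⟨P1, hP1, hP1h⟩ := (hH3 v1).mp hv1
    obtain ⟨P2, hP2, hP2h⟩ := (hH3 v2).mp hv2
    have hPne : P2 ≠ P1 := by
      rintro rfl
      rw [hP1h] at hP2h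
      exact hne (Option.some.inj hP2h)
    have hp1 : L.Perm (P1 :: L.erase P1) := List.perm_cons_erase hP1
    have hP2' : P2 ∈ L.erase P1 := (List.mem_erase_of_ne hPne).mpr hP2
    have hp2 : (L.erase P1).Perm (P2 :: (L.erase P1).erase P2) := List.perm_cons_erase hP2'
    obtain ⟨M, hM⟩ : ∃ M, M = (L.erase P1).erase P2 := ⟨_, rfl⟩
    rw [← hM] at hp2
    have hperm : L.Perm (P1 :: P2 :: M) := hp1.trans (hp2.cons P1)
    have hlen : L.length = M.length + 2 := by rw [hperm.length_eq]; rfl
    have hL0 := gm_perm hperm hL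
    have hmemM : ∀ l ∈ M, l ∈ L := fun l hl =>
      hperm.mem_iff.mpr (List.mem_cons_of_mem _ (List.mem_cons_of_mem _ hl))
    have hv1U : v1 ∈ U := (hL.2.2 v1).mp (hH4 v1 hv1)
    obtain ⟨t1, rfl⟩ : ∃ t, P1 = v1 :: t := by
      cases P1 with
      | nil => simp at hP1h
      | cons c t => exact ⟨t, by simp at hP1h; rw [hP1h]⟩
    obtain ⟨t2, rfl⟩ : ∃ t, P2 = v2 :: t := by
      cases P2 with
      | nil => simp at hP2h
      | cons c t => exact ⟨t, by simp at hP2h; rw [hP2h]⟩
    cases t1 with
    | nil =>
      -- merge the two lists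
      have hL1 : PP F U ((v1 :: v2 :: t2) :: M) := by
        obtain ⟨h1, h2, h3⟩ := hL0
        refine ⟨?_, ?_, ?_⟩
        · intro l hl
          rcases List.mem_cons.mp hl with rfl | hl
          · refine ⟨by simp, List.isChain_cons_cons.mpr ⟨hF, ?_⟩⟩
            exact (h1 _ (List.mem_cons_of_mem _ List.mem_cons_self)).2
          · exact h1 l (List.mem_cons_of_mem _ (List.mem_cons_of_mem _ hl))
        · simpa using h2
        · intro x
          rw [← h3 x]
          simp
      obtain ⟨L', I, g1, g2, g3⟩ := ih U _ (by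
        simp only [List.length_cons]
        omega) hL1
      refine ⟨L', I, g1, fun l hl z hz => ?_, g3⟩
      obtain ⟨l₀, hl₀, hz₀⟩ := g2 l hl z hz
      rcases List.mem_cons.mp hl₀ with rfl | hl₀
      · exact ⟨_, hP1, by simpa using hz₀⟩
      · exact ⟨l₀, hmemM _ hl₀, hz₀⟩
    | cons v t =>
      have hF1 : F v1 v := (List.isChain_cons_cons.mp (hL0.1 _ List.mem_cons_self).2).1
      have hL1 : PP F (U.erase v1) ((v :: t) :: (v2 :: t2) :: M) := by
        obtain ⟨h1, h2, h3⟩ := hL0
        have e : ((v1 :: v :: t) :: (v2 :: t2) :: M).flatten =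
            v1 :: ((v :: t) :: (v2 :: t2) :: M).flatten := by simp
        rw [e, List.nodup_cons] at h2
        refine ⟨?_, h2.2, ?_⟩
        · intro l hl
          rcases List.mem_cons.mp hl with rfl | hl
          · exact ⟨by simp, (List.isChain_cons_cons.mp (h1 _ List.mem_cons_self).2).2⟩
          · exact h1 l (List.mem_cons_of_mem _ hl)
        · intro x
          rw [Finset.mem_erase, ← h3 x, e, List.mem_cons]
          constructor
          · intro hx
            refine ⟨?_, Or.inr hx⟩
            rintro rfl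
            exact h2.1 hx
          · rintro ⟨h4, h5 | h5⟩
            · exact absurd h5 h4
            · exact h5
      have hcard : (U.erase v1).card + 1 = U.card := Finset.card_erase_add_one hv1U
      obtain ⟨L'', I, g1, g2, g3, g4, g5⟩ := ih (U.erase v1) _ (by
        simp only [List.length_cons]
        omega) hL1
      have g3' : I ⊆ U := g3.trans (Finset.erase_subset _ _)
      have g2' : ∀ l ∈ L'', ∀ z, l.head? = some z → z = v ∨ z = v2 ∨
          ∃ l₀ ∈ M, l₀.head? = some z := by
        intro l hl z hz
        obtain ⟨l₀, hl₀, hz₀⟩ := g2 l hl z hz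
        rcases List.mem_cons.mp hl₀ with rfl | hl₀
        · left; simpa using hz₀.symm
        rcases List.mem_cons.mp hl₀ with rfl | hl₀
        · right; left; simpa using hz₀.symm
        · exact Or.inr (Or.inr ⟨l₀, hl₀, hz₀⟩)
      have hhead1 : ∃ l₀ ∈ L, l₀.head? = some v1 := ⟨_, hP1, by simp⟩
      have hhead2 : ∃ l₀ ∈ L, l₀.head? = some v2 := ⟨_, hP2, by simp⟩
      by_cases ha : ∃ Q ∈ L'', Q.head? = some v
      · obtain ⟨Q, hQ, hQv⟩ := ha
        have hp3 : L''.Perm (Q :: L''.erase Q) := List.perm_cons_erase hQ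
        have hpp := gm_perm hp3 g1
        refine ⟨(v1 :: Q) :: L''.erase Q, I, gm_push hv1U hF1 hQv hpp, ?_, g3', g4, ?_⟩
        · intro l hl z hz
          rcases List.mem_cons.mp hl with rfl | hl
          · have : v1 = z := by simpa using hz
            rw [← this]
            exact hhead1
          · have hl' : l ∈ L'' := List.mem_of_mem_erase hl
            rcases g2' l hl' z hz with rfl | rfl | ⟨l₀, hl₀, hz₀⟩
            · exfalso
              have hnd := hpp.2.1
              rw [List.flatten_cons, List.nodup_append] at hnd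
              refine hnd.2.2 z ?_ z ?_ rfl
              · exact List.mem_of_mem_head? hQv
              · exact List.mem_flatten.mpr ⟨l, hl, List.mem_of_mem_head? hz⟩
            · exact hhead2
            · exact ⟨l₀, hmemM _ hl₀, hz₀⟩
        · rw [g5, hp3.length_eq]; rfl
      by_cases hb : ∃ Q ∈ L'', Q.head? = some v2
      · obtain ⟨Q, hQ, hQv⟩ := hb
        have hp3 : L''.Perm (Q :: L''.erase Q) := List.perm_cons_erase hQ
        have hpp := gm_perm hp3 g1
        refine ⟨(v1 :: Q) :: L''.erase Q, I, gm_push hv1U hF hQv hpp, ?_, g3', g4, ?_⟩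
        · intro l hl z hz
          rcases List.mem_cons.mp hl with rfl | hl
          · have : v1 = z := by simpa using hz
            rw [← this]
            exact hhead1
          · have hl' : l ∈ L'' := List.mem_of_mem_erase hl
            rcases g2' l hl' z hz with rfl | rfl | ⟨l₀, hl₀, hz₀⟩
            · exact absurd ⟨l, hl', hz⟩ ha
            · exact hhead2
            · exact ⟨l₀, hmemM _ hl₀, hz₀⟩
        · rw [g5, hp3.length_eq]; rfl
      · -- fewer lists
        have hMne : ∀ l ∈ M, l ≠ [] := fun l hl => (hL.1 l (hmemM l hl)).1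
        have hMnd : M.flatten.Nodup := by
          have h2 := hL0.2.1
          rw [List.flatten_cons, List.nodup_append] at h2
          have h3 := h2.2.1
          rw [List.flatten_cons, List.nodup_append] at h3
          exact h3.2.1
        obtain ⟨HM, m1, m2, m3, -⟩ := gm_heads M hMne hMnd
        obtain ⟨H2, k1, k2, k3, -⟩ := gm_heads L'' (fun l hl => (g1.1 l hl).1) g1.2.1
        have hsub : H2.toFinset ⊆ HM.toFinset := by
          intro z hz
          rw [List.mem_toFinset] at hz ⊢
          obtain ⟨l, hl, hlz⟩ := (k3 z).mp hz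
          rcases g2' l hl z hlz with rfl | rfl | h
          · exact absurd ⟨l, hl, hlz⟩ ha
          · exact absurd ⟨l, hl, hlz⟩ hb
          · exact (m3 z).mpr h
        have hle : L''.length ≤ M.length := by
          have h4 := Finset.card_le_card hsub
          rw [List.toFinset_card_of_nodup k2, List.toFinset_card_of_nodup m2, k1, m1] at h4
          exact h4
        obtain ⟨L', I', w1, w2, w3⟩ := ih U ([v1] :: L'') (by
          simp only [List.length_cons]
          omega) (gm_single hv1U g1)
        refine ⟨L', I', w1, fun l hl z hz => ?_, w3⟩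
        obtain ⟨l₀, hl₀, hz₀⟩ := w2 l hl z hz
        rcases List.mem_cons.mp hl₀ with rfl | hl₀
        · have : v1 = z := by simpa using hz₀
          rw [← this]
          exact hhead1
        · rcases g2' l₀ hl₀ z hz₀ with rfl | rfl | ⟨l1, hl1, hz1⟩
          · exact absurd ⟨l₀, hl₀, hz₀⟩ ha
          · exact absurd ⟨l₀, hl₀, hz₀⟩ hb
          · exact ⟨l1, hmemM _ hl1, hz1⟩

/-- JOB HG-GM1 (medium). **Strong Gallai-Milgram theorem**: for every path partition `L` of `U` there is a path
partition `L'` of `U` whose first elements are first elements of `L`, and an independent set with `|L'|` elements.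

Proof. Strong induction on `(|U|, |L|)` (lexicographic; or on `|U| + |L|`).  If no two different first elements
`v1`, `v2` of lists of `L` satisfy `F v1 v2`: `L' = L`, `I` = set of first elements (`|I| = |L|` by disjointness).
Otherwise let `P1`, `P2` be the lists with first elements `v1`, `v2`, `F v1 v2`.
(1) `P1 = [v1]`: replace `P1`, `P2` by `v1 :: P2`; one list less; use the induction hypothesis.
(2) `P1 = v1 :: P1'`, `P1' ≠ []` with first element `v`.  `L1` = `L` with `P1` replaced by `P1'` is a path partition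
of `U \ {v1}`; the induction hypothesis gives `L''`, `I`, with first elements in `{v} ∪ {first elements ≠ v1 of L}`.
(2a) `v` is the first element of a list `Q` of `L''`: replace `Q` by `v1 :: Q` (`F v1 v` since `P1` is a chain):
done, same length.  (2b) otherwise, if `v2` is the first element of `Q ∈ L''`: replace `Q` by `v1 :: Q`: done.
(2c) otherwise the first elements of `L''` are among those of `L` different from `v1`, `v2`, so
`|L''| ≤ |L| - 2`; `[v1] :: L''` is a path partition of `U` with fewer lists than `L` and first elements among those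
of `L`: induction hypothesis. -/
theorem gallai_milgram {V : Type} (F : V → V → Prop) (U : Finset V) (L : List (List V))
    (hL : PP F U L) :
    ∃ (L' : List (List V)) (I : Finset V), PP F U L' ∧
      (∀ l ∈ L', ∀ z, l.head? = some z → ∃ l₀ ∈ L, l₀.head? = some z) ∧ I ⊆ U ∧
      (∀ x ∈ I, ∀ y ∈ I, x ≠ y → ¬ F x y) ∧ I.card = L'.length :=
  gm_aux F _ U L le_rfl hL

end HX
end

section

set_option autoImplicit false

namespace HX

open Finset Classical

/-! JOB HG-B2 (easy): reversal, and heads and lasts of path partitions. -/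

/-- reversed arcs -/
theorem Hag.rev {V : Type} [Fintype V] {E : V → V → Prop} {D p q : ℕ} (h : Hag E D p q) :
    Hag (fun x y => E y x) D q p := by
  -- `dOut (fun x y => E y x) v Z = dIn E v Z` and conversely hold by `rfl`
  exact ⟨fun x y hxy => h.ori y x hxy, fun v => by
      have := h.deg v
      rw [add_comm] at this
      exact this, fun v => h.inn v, fun v => h.out v, by have := h.sum; omega⟩

/-- reverse the list of the Hamilton cycle (`List.isChain_reverse`) -/
theorem Ham.of_rev {V : Type} {E : V → V → Prop} (h : Ham (fun x y => E y x)) : Ham E := by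
  obtain ⟨a, l, hn, hm, hc⟩ := h
  refine ⟨a, l.reverse, ?_, ?_, ?_⟩
  · have h1 := hn
    rw [List.nodup_cons] at h1 ⊢
    exact ⟨fun h => h1.1 (List.mem_reverse.1 h), List.nodup_reverse.2 h1.2⟩
  · intro v
    have h1 := hm v
    rw [List.mem_cons] at h1 ⊢
    rcases h1 with h1 | h1
    · exact Or.inl h1
    · exact Or.inr (List.mem_reverse.2 h1)
  · have h1 : a :: (l.reverse ++ [a]) = (a :: (l ++ [a])).reverse := by simp
    rw [h1, List.isChain_reverse]
    exact hc

theorem Hag.mono_D {V : Type} [Fintype V] {E : V → V → Prop} {D p q : ℕ} (h : Hag E D p q) :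
    Hag E (max D (p + q)) p q := by
  refine ⟨h.ori, fun v => max_le (h.deg v) (add_le_add (h.out v) (h.inn v)), h.out, h.inn, ?_⟩
  have h1 := h.sum
  have h2 := le_max_left D (p + q)
  omega

private theorem b2_pred {V : Type} (F : V → V → Prop) (l : List V) (hl : l.IsChain F) (v : V) (hv : v ∈ l) :
    l.head? = some v ∨ ∃ u, F u v := by
  obtain ⟨l1, l2, rfl⟩ := List.append_of_mem hv
  rcases List.eq_nil_or_concat l1 with rfl | ⟨l3, u, rfl⟩
  · left; rfl
  · right
    refine ⟨u, ?_⟩
    have h1 : l3 ++ [u] ++ v :: l2 = l3 ++ u :: v :: l2 := by simp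
    rw [List.concat_eq_append, h1, List.isChain_append] at hl
    exact (List.isChain_cons_cons.1 hl.2.1).1

private theorem b2_succ {V : Type} (F : V → V → Prop) (l : List V) (hl : l.IsChain F) (v : V) (hv : v ∈ l) :
    l.getLast? = some v ∨ ∃ u, F v u := by
  obtain ⟨l1, l2, rfl⟩ := List.append_of_mem hv
  rcases l2 with _ | ⟨u, l2⟩
  · left; simp
  · right
    refine ⟨u, ?_⟩
    rw [List.isChain_append] at hl
    exact (List.isChain_cons_cons.1 hl.2.1).1

/-- indices, first elements `h i` and last elements `g i` of the lists of a path partition: `h` and `g` are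
injective; a vertex which is not a first element has a predecessor; a vertex which is not a last element has a
successor.
(Induction on lists: in a nodup chain every element but the first has a predecessor in the chain.) -/
theorem pp_index {V : Type} [Fintype V] (F : V → V → Prop) (L : List (List V)) (hL : PP F univ L) :
    ∃ h g : Fin L.length → V, (∀ i, (L.get i).head? = some (h i)) ∧
      (∀ i, (L.get i).getLast? = some (g i)) ∧ Function.Injective h ∧ Function.Injective g ∧
      (∀ v, (∃ i, h i = v) ∨ ∃ u, F u v) ∧ (∀ v, (∃ i, g i = v) ∨ ∃ u, F v u) := by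
  have hne : ∀ i : Fin L.length, L.get i ≠ [] := fun i => (hL.1 _ (List.get_mem L i)).1
  have hnd := List.nodup_flatten.1 hL.2.1
  have hdisj : ∀ i j : Fin L.length, i ≠ j → ∀ v, v ∈ L.get i → v ∉ L.get j := by
    have h1 := List.pairwise_iff_get.1 hnd.2
    intro i j hij v hi hj
    rcases lt_or_gt_of_ne hij with h2 | h2
    · exact h1 i j h2 hi hj
    · exact h1 j i h2 hj hi
  refine ⟨fun i => (L.get i).head (hne i), fun i => (L.get i).getLast (hne i),
    fun i => List.head?_eq_some_head (hne i), fun i => List.getLast?_eq_some_getLast (hne i), ?_, ?_, ?_, ?_⟩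
  · intro i j hij
    by_contra h1
    have h2 : (L.get i).head (hne i) ∈ L.get i := List.head_mem _
    have h3 : (L.get j).head (hne j) ∈ L.get j := List.head_mem _
    exact hdisj i j h1 _ h2 (by
      have : (L.get i).head (hne i) = (L.get j).head (hne j) := hij
      rw [this]; exact h3)
  · intro i j hij
    by_contra h1
    have h2 : (L.get i).getLast (hne i) ∈ L.get i := List.getLast_mem _
    have h3 : (L.get j).getLast (hne j) ∈ L.get j := List.getLast_mem _
    exact hdisj i j h1 _ h2 (by
      have : (L.get i).getLast (hne i) = (L.get j).getLast (hne j) := hij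
      rw [this]; exact h3)
  · intro v
    have h1 : v ∈ L.flatten := (hL.2.2 v).2 (mem_univ v)
    obtain ⟨l, hl, hv⟩ := List.mem_flatten.1 h1
    obtain ⟨i, rfl⟩ := List.mem_iff_get.1 hl
    rcases b2_pred F _ (hL.1 _ hl).2 v hv with h2 | h2
    · left
      refine ⟨i, ?_⟩
      have h3 := List.head?_eq_some_head (hne i)
      rw [h2] at h3
      exact (Option.some_inj.1 h3).symm
    · exact Or.inr h2
  · intro v
    have h1 : v ∈ L.flatten := (hL.2.2 v).2 (mem_univ v)
    obtain ⟨l, hl, hv⟩ := List.mem_flatten.1 h1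
    obtain ⟨i, rfl⟩ := List.mem_iff_get.1 hl
    rcases b2_succ F _ (hL.1 _ hl).2 v hv with h2 | h2
    · left
      refine ⟨i, ?_⟩
      have h3 := List.getLast?_eq_some_getLast (hne i)
      rw [h2] at h3
      exact (Option.some_inj.1 h3).symm
    · exact Or.inr h2

theorem pp_length_le {V : Type} {F : V → V → Prop} {U : Finset V} {L : List (List V)}
    (hL : PP F U L) : L.length ≤ U.card := by
  have h1 : U = L.flatten.toFinset := by
    ext v
    rw [List.mem_toFinset, hL.2.2 v]
  rw [h1, List.toFinset_card_of_nodup hL.2.1]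
  have h2 : ∀ L : List (List V), (∀ l ∈ L, l ≠ []) → L.length ≤ L.flatten.length := by
    intro L
    induction L with
    | nil => intro _; simp
    | cons l L ih =>
      intro h
      have h3 := ih fun l' hl' => h l' (List.mem_cons_of_mem _ hl')
      have h4 : 0 < l.length := List.length_pos_iff.2 (h l List.mem_cons_self)
      rw [List.length_cons, List.flatten_cons, List.length_append]
      omega
  exact h2 L fun l hl => (hL.1 l hl).1

/-- contraction of a path partition -/
theorem ham_of_pp {V : Type} (E : V → V → Prop) (L : List (List V))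
    (hc : ∀ l ∈ L, l ≠ [] ∧ l.IsChain E) (hn : L.flatten.Nodup) (hcov : ∀ v, v ∈ L.flatten)
    (h g : Fin L.length → V) (hh : ∀ i, (L.get i).head? = some (h i))
    (hg : ∀ i, (L.get i).getLast? = some (g i)) (H : Ham (fun i j => E (g i) (h j))) : Ham E := by
  -- `contract` with `P i = L.get i`
  have hnd := List.nodup_flatten.1 hn
  refine contract E (fun i => L.get i) (fun i => ⟨(hc _ (List.get_mem L i)).1, (hc _ (List.get_mem L i)).2,
    hnd.1 _ (List.get_mem L i)⟩) ?_ ?_ ?_
  · have h1 := List.pairwise_iff_get.1 hnd.2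
    intro i j hij
    rcases lt_or_gt_of_ne hij with h2 | h2
    · exact h1 i j h2
    · exact (h1 j i h2).symm
  · intro v
    obtain ⟨l, hl, hv⟩ := List.mem_flatten.1 (hcov v)
    obtain ⟨i, rfl⟩ := List.mem_iff_get.1 hl
    exact ⟨i, hv⟩
  · obtain ⟨a, l, h1, h2, h3⟩ := H
    refine ⟨a, l, h1, h2, h3.imp ?_⟩
    intro i j hij x hx y hy
    rw [hg i] at hx
    rw [hh j] at hy
    rw [Option.mem_some_iff] at hx hy
    rw [← hx, ← hy]
    exact hij

end HX
end
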