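import Pool.Agent.Lib.HX.Defs
import Pool.Agent.Lib.HX.Cut
import Pool.Agent.Lib.HX.GadgetsJoin

section

set_option autoImplicit false

namespace HX

open Finset Classical

private theorem chain_cyc_iff {V : Type} (E : V → V → Prop) (a : V) (l : List V) :
    List.IsChain E (a :: (l ++ [a])) ↔
      ∀ (i : ℕ) (h : i < (a :: l).length),
        E (a :: l)[i] ((a :: l)[(i + 1) % (a :: l).length]'(Nat.mod_lt _ (i.zero_le.trans_lt h))) := by
  have h0 : a :: (l ++ [a]) = (a :: l) ++ [a] := rfl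
  have hlen : ((a :: l) ++ [a]).length = (a :: l).length + 1 := by simp
  have key : ∀ (i : ℕ) (h : i < (a :: l).length),
      ((a :: l) ++ [a])[i + 1]'(by rw [hlen]; omega) =
        (a :: l)[(i + 1) % (a :: l).length]'(Nat.mod_lt _ (i.zero_le.trans_lt h)) := by
    intro i h
    rcases Nat.lt_or_ge (i + 1) (a :: l).length with h1 | h1
    · rw [List.getElem_append_left h1]
      congr 1
      exact (Nat.mod_eq_of_lt h1).symm
    · have h2 : i + 1 = (a :: l).length := by omega
      rw [List.getElem_append_right h1]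
      have h3 : (i + 1) % (a :: l).length = 0 := by rw [h2, Nat.mod_self]
      simp only [h3, List.getElem_cons_zero, List.getElem_singleton]
  rw [h0, List.isChain_iff_getElem]
  constructor
  · intro H i h
    have h1 := H i (by rw [hlen]; omega)
    rw [key i h, List.getElem_append_left h] at h1
    exact h1
  · intro H i h
    have h' : i < (a :: l).length := by rw [hlen] at h; omega
    rw [key i h', List.getElem_append_left h']
    exact H i h'

/-- JOB HX-HP (easy). A Hamilton cycle (list form) on at least two vertices is a cyclic permutation along arcs,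
and conversely.

Proof. `σ = (a :: l).formPerm`; `List.isCycle_formPerm` (length `≥ 2`), `List.formPerm_apply_lt_getElem`,
`List.formPerm_apply_getLast` / `List.formPerm_apply_mem_ne_self...`; the arcs come from the chain condition
(`List.isChain_iff_getElem` for `a :: (l ++ [a])`).  Converse: `l = (List.range (n-1)).map (fun k => (σ^(k+1)) a)`
or `Equiv.Perm.toList σ a` (`Equiv.Perm.toList`, `Equiv.Perm.formPerm_toList`, `mem_toList_iff`). -/
theorem Ham.exists_perm {V : Type} [Fintype V] (E : V → V → Prop) (h : Ham E)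
    (hcard : 2 ≤ Fintype.card V) : ∃ σ : Equiv.Perm V, σ.IsCycle ∧ ∀ v, E v (σ v) := by
  obtain ⟨a, l, hnd, hmem, hch⟩ := h
  have hlen : 2 ≤ (a :: l).length := by
    rw [← List.toFinset_card_of_nodup hnd]
    have : (a :: l).toFinset = univ := by
      ext v
      simpa using hmem v
    rw [this, card_univ]
    exact hcard
  refine ⟨(a :: l).formPerm, List.isCycle_formPerm hnd hlen, fun v => ?_⟩
  obtain ⟨i, hi, rfl⟩ := List.getElem_of_mem (hmem v)
  rw [List.formPerm_apply_getElem _ hnd i hi]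
  exact (chain_cyc_iff E a l).1 hch i hi

theorem Ham.of_perm {V : Type} [Fintype V] (E : V → V → Prop) (hcard : 2 ≤ Fintype.card V)
    (σ : Equiv.Perm V) (hσ : σ.IsCycle) (hσ2 : ∀ v, σ v ≠ v) (h : ∀ v, E v (σ v)) : Ham E := by
  have hpos : 0 < Fintype.card V := by omega
  obtain ⟨a⟩ := Fintype.card_pos_iff.1 hpos
  have ha : a ∈ σ.support := by
    rw [Equiv.Perm.mem_support]
    exact hσ2 a
  have hmem : ∀ v, v ∈ σ.toList a := by
    intro v
    rw [Equiv.Perm.mem_toList_iff]
    exact ⟨hσ.sameCycle (hσ2 a) (hσ2 v), ha⟩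
  obtain ⟨b, l, hbl⟩ : ∃ b l, σ.toList a = b :: l := by
    apply List.exists_cons_of_ne_nil
    intro h0
    have := hmem a
    rw [h0] at this
    simp at this
  have hnd : (σ.toList a).Nodup := Equiv.Perm.nodup_toList σ a
  have hform : (σ.toList a).formPerm = σ := by
    rw [Equiv.Perm.formPerm_toList]
    ext v
    rw [Equiv.Perm.SameCycle.cycleOf_apply (hσ.sameCycle (hσ2 a) (hσ2 v))]
  rw [hbl] at hmem hnd hform
  refine ⟨b, l, hnd, hmem, ?_⟩
  rw [chain_cyc_iff]
  intro i hi
  rw [← List.formPerm_apply_getElem _ hnd i hi, hform]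
  exact h _

end HX
end

section

set_option autoImplicit false

namespace HX

open Finset Classical

/-- JOB HX-Re (medium; uses `colouring`, `grow`). A small reservoir outside a given small set `Ab`.

Proof. We may assume `ρ ≤ 1`.  `K = ⌈2/ρ⌉₊`, `ε' = min (ρ/2) (ν/(4K))`, `θ0 = ν / (2K)`.  By `grow` all the sets
`D_{x,j,w} = {z ∈ Oset E (ν n) x j : E z w}` with (`j < J`, `w ∈ Oset E (ν n) x (j+1)`) or `j = J` have at least
`ν n` elements, so at least `3 ν n / 4` elements outside `Ab`.  Apply `colouring K ε' 4` to the sets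
`D_{x,j,w} \ Ab` (index type `V × Fin (J+1) × V`) and to `univ` (so index type `(V × Fin (J+1) × V) ⊕ Unit` with
`(J+1) n^2 + 1 ≤ n^4` elements for large `n`), let `R` be the colour class `0` minus `Ab`.  Then
`|R| ≤ n/K + ε' n ≤ ρ n` and `|D_{x,j,w} ∩ R| ≥ (3/4) ν n / K - ε' n ≥ ν n / (2K) = θ0 n`. -/
theorem reservoir (η ν : ℝ) (hν : 0 < ν) (hνη : ν ≤ η / 2) (hη : η ≤ 1) (J : ℕ) (hJ : 1 ≤ ν * J)
    (ρ : ℝ) (hρ : 0 < ρ) :
    ∃ θ0 : ℝ, 0 < θ0 ∧ ∃ n0 : ℕ, ∀ (V : Type) [Fintype V] (E : V → V → Prop),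
      n0 ≤ Fintype.card V → Expander E η ν →
      ∀ Ab : Finset V, (Ab.card : ℝ) ≤ ν / 4 * (Fintype.card V : ℝ) →
        ∃ R : Finset V, (∀ v ∈ R, v ∉ Ab) ∧ (R.card : ℝ) ≤ ρ * (Fintype.card V : ℝ) ∧
          Res E (ν * (Fintype.card V : ℝ)) J (θ0 * (Fintype.card V : ℝ)) R := by
  set ρ' : ℝ := min ρ 1 with hρ'
  have hρ'0 : 0 < ρ' := lt_min hρ one_pos
  set K : ℕ := ⌈2 / ρ'⌉₊ with hK
  have hK0 : 0 < K := Nat.ceil_pos.mpr (by positivity)
  have hKR : (0 : ℝ) < K := by exact_mod_cast hK0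
  have hK2 : 2 / ρ' ≤ (K : ℝ) := Nat.le_ceil _
  set ε' : ℝ := min (ρ' / 2) (ν / (4 * K)) with hε'
  have hε'0 : 0 < ε' := lt_min (by positivity) (by positivity)
  have hε1 : ε' ≤ ρ' / 2 := min_le_left _ _
  have hε2 : ε' ≤ ν / (4 * K) := min_le_right _ _
  obtain ⟨n1, hn1⟩ := colouring K hK0 ε' hε'0 4
  refine ⟨ν / (2 * K), by positivity, max n1 (J + 2), ?_⟩
  intro V _ E hn hE Ab hAb
  have hnJ : J + 2 ≤ Fintype.card V := (le_max_right _ _).trans hn
  have hnn1 : n1 ≤ Fintype.card V := (le_max_left _ _).trans hn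
  have hV : 0 < Fintype.card V := by omega
  have hgrow := grow E η ν hν hνη hη hE hV J hJ
  set N : ℕ := Fintype.card V with hN
  have hNR : (0 : ℝ) < (N : ℝ) := by exact_mod_cast hV
  set c := ν * (N : ℝ) with hc
  obtain ⟨col, hcol⟩ := hn1 V ((V × Fin (J + 1) × V) ⊕ Unit)
    (Sum.elim (fun p => (Oset E c p.1 p.2.1).filter fun z => E z p.2.2 ∧ z ∉ Ab)
      fun _ => univ) hnn1 (by
      rw [Fintype.card_sum, Fintype.card_prod, Fintype.card_prod, Fintype.card_fin,
        Fintype.card_unit, ← hN]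
      have h1 : N ^ 4 = N * (N * N) * N := by ring
      have h2 : (J + 2) * N ≤ N * N := Nat.mul_le_mul_right _ hnJ
      have h3 : 1 ≤ N := hV
      have h4 : 1 ≤ N * N := Nat.mul_pos hV hV
      calc N * ((J + 1) * N) + 1 ≤ N * ((J + 1) * N) + N * N := by omega
        _ = N * ((J + 2) * N) := by ring
        _ ≤ N * (N * N) := Nat.mul_le_mul_left _ h2
        _ = N * (N * N) * 1 := by ring
        _ ≤ N * (N * N) * N := Nat.mul_le_mul_left _ h3
        _ = N ^ 4 := h1.symm)
  set k0 : Fin K := ⟨0, hK0⟩ with hk0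
  set R : Finset V := univ.filter fun v => col v = k0 ∧ v ∉ Ab with hR
  have hRmem : ∀ v, v ∈ R ↔ col v = k0 ∧ v ∉ Ab := by
    intro v
    simp [hR]
  have hmain : ∀ (x : V) (j : ℕ) (w : V), j ≤ J →
      ν * (N : ℝ) ≤ (((Oset E c x j).filter fun z => E z w ∧ z ∈ (univ : Finset V)).card : ℝ) →
      ν / (2 * K) * (N : ℝ) ≤ (((Oset E c x j).filter fun z => E z w ∧ z ∈ R).card : ℝ) := by
    intro x j w hj hD
    have h1 := hcol (Sum.inl (x, ⟨j, by omega⟩, w)) k0
    simp only [Sum.elim_inl] at h1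
    have h2 : (((Oset E c x j).filter fun z => E z w ∧ z ∈ (univ : Finset V)).card : ℝ) ≤
        (((Oset E c x j).filter fun z => E z w ∧ z ∉ Ab).card : ℝ) + (Ab.card : ℝ) := by
      have : ((Oset E c x j).filter fun z => E z w ∧ z ∈ (univ : Finset V)).card ≤
          ((Oset E c x j).filter fun z => E z w ∧ z ∉ Ab).card + Ab.card := by
        refine (Finset.card_le_card (t := ((Oset E c x j).filter fun z => E z w ∧ z ∉ Ab) ∪ Ab)
          fun z hz => ?_).trans (Finset.card_union_le _ _)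
        simp only [Finset.mem_filter, Finset.mem_univ, and_true, Finset.mem_union] at hz ⊢
        by_cases hzA : z ∈ Ab
        · exact Or.inr hzA
        · exact Or.inl ⟨hz.1, hz.2, hzA⟩
      exact_mod_cast this
    have h3 : 3 / 4 * (ν * (N : ℝ)) ≤
        (((Oset E c x j).filter fun z => E z w ∧ z ∉ Ab).card : ℝ) := by linarith
    have h4 : (((Oset E c x j).filter fun z => E z w ∧ z ∉ Ab).filter
        fun v => col v = k0).card ≤ ((Oset E c x j).filter fun z => E z w ∧ z ∈ R).card := by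
      refine Finset.card_le_card fun z hz => ?_
      simp only [Finset.mem_filter, hRmem] at hz ⊢
      tauto
    have h5 : ((((Oset E c x j).filter fun z => E z w ∧ z ∉ Ab).filter
        fun v => col v = k0).card : ℝ) ≤
        (((Oset E c x j).filter fun z => E z w ∧ z ∈ R).card : ℝ) := by exact_mod_cast h4
    have h6 := (abs_le.mp h1).1
    have h7 : 3 / 4 * (ν * (N : ℝ)) / K ≤
        (((Oset E c x j).filter fun z => E z w ∧ z ∉ Ab).card : ℝ) / K := by gcongr
    have h8 : ε' * (N : ℝ) ≤ ν / (4 * K) * N := by gcongr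
    have h9 : 3 / 4 * (ν * (N : ℝ)) / K - ν / (4 * K) * N = ν / (2 * K) * N := by
      field_simp
      ring
    linarith
  refine ⟨R, fun v hv => ((hRmem v).mp hv).2, ?_, ?_, ?_⟩
  · have h1 := hcol (Sum.inr ()) k0
    simp only [Sum.elim_inr] at h1
    have h2 := (abs_le.mp h1).2
    have h3 : (R.card : ℝ) ≤ ((univ.filter fun v => col v = k0).card : ℝ) := by
      have : R.card ≤ (univ.filter fun v => col v = k0).card := by
        refine Finset.card_le_card fun z hz => ?_
        simp only [Finset.mem_filter, Finset.mem_univ, true_and, hRmem] at hz ⊢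
        exact hz.1
      exact_mod_cast this
    have h4 : ((univ : Finset V).card : ℝ) / K ≤ ρ' / 2 * N := by
      rw [Finset.card_univ, ← hN, div_le_iff₀ hKR]
      rw [div_le_iff₀ hρ'0] at hK2
      nlinarith
    have h5 : ε' * (N : ℝ) ≤ ρ' / 2 * N := by gcongr
    have h6 : ρ' * (N : ℝ) ≤ ρ * N := by
      have := min_le_left ρ 1
      gcongr
    linarith
  · intro x j hj w hw
    exact hmain x j w hj.le (hgrow.1 x j hj w hw)
  · intro x y
    exact hmain x J y le_rfl (hgrow.2 x y)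

end HX
end

section

set_option autoImplicit false

namespace HX

open Finset Classical

private theorem vs_length_tuples {V : Type} (T : List (V × V)) : (vs T).length = 2 * T.length := by
  induction T with
  | nil => rfl
  | cons p T ih =>
    have h1 : vs (p :: T) = [p.1, p.2] ++ vs T := by simp [vs]
    rw [h1, List.length_append, ih, List.length_cons]
    simp only [List.length_cons, List.length_nil]
    omega

private theorem log_le_tuples {c x : ℝ} (hc : 0 < c) (hx : (2 / c) ^ 2 ≤ x) : Real.log x ≤ c * x := by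
  have hc2 : 0 < 2 / c := by positivity
  have hx0 : 0 < x := lt_of_lt_of_le (by positivity) hx
  have h1 : Real.log x = 2 * Real.log (√x) := by
    rw [Real.log_sqrt hx0.le]
    ring
  have h2 : Real.log (√x) ≤ √x := by
    have := Real.log_le_sub_one_of_pos (Real.sqrt_pos.mpr hx0)
    linarith
  have h3 : 2 / c ≤ √x := Real.le_sqrt_of_sq_le hx
  have h4 : √x * √x = x := Real.mul_self_sqrt hx0.le
  have h5 : 2 ≤ c * √x := by
    rw [div_le_iff₀ hc] at h3
    linarith
  have h6 : 0 ≤ √x := Real.sqrt_nonneg x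
  rw [h1]
  calc 2 * Real.log (√x) ≤ 2 * √x := by linarith
    _ ≤ (c * √x) * √x := mul_le_mul_of_nonneg_right h5 h6
    _ = c * x := by rw [mul_assoc, h4]

/-- JOB HX-S3 (medium; uses `count_abs`, `select`, `TupCount`). Linearly many disjoint lists of arcs such that
every vertex is absorbed by linearly many of them.

Proof. `t = i + 1`, `a = (ν^3/4)^t ≤ 1`, `m = ⌊β n⌋₊`,
`𝒯 = {T ∈ tups V t : (vs T).Nodup ∧ ∀ p ∈ T, E p.1 p.2}`, `vset T = (vs T).toFinset` (card at most `2t = s`),
`Δ = 2 t n^(2t-1)` (`card_tups_mem`), `A v` = the set from `count_abs` (it is contained in `𝒯` by `mem_tups`;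
`n` is large).  `|𝒯| ≤ n^(2t)` and `|𝒯| ≥ |A v| ≥ a n^(2t)`; so `|A v| ≥ a |𝒯|` and
`m s Δ ≤ β n * 4 t^2 n^(2t-1) ≤ a^2/2 n^(2t) ≤ a/2 |𝒯|`.  `log n ≤ a m / 8` for large `n` as `m ≥ β n / 2`.
`select` gives the lists, with at least `a m / 8 ≥ a β n / 16` indices `k` with `T k ∈ A v`. -/
theorem tuples (η ν : ℝ) (hν : 0 < ν) (hνη : ν ≤ η / 2) (hη : η ≤ 1) (i : ℕ) (hi : 2 ≤ ν * i)
    (β : ℝ) (hβ : 0 < β) (hβ2 : 8 * ((i : ℝ) + 1) ^ 2 * β ≤ ((ν ^ 3 / 4) ^ (i + 1)) ^ 2) :
    ∃ n0 : ℕ, ∀ (V : Type) [Fintype V] (E : V → V → Prop), n0 ≤ Fintype.card V → Expander E η ν →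
      ∃ T : Fin ⌊β * (Fintype.card V : ℝ)⌋₊ → List (V × V),
        (∀ k, (T k).length = i + 1 ∧ (vs (T k)).Nodup ∧ ∀ p ∈ T k, E p.1 p.2) ∧
        (∀ k k', k ≠ k' → List.Disjoint (vs (T k)) (vs (T k'))) ∧
        ∀ v, (ν ^ 3 / 4) ^ (i + 1) * β / 16 * (Fintype.card V : ℝ) ≤
          ((univ.filter fun k => AbsL E v (T k)).card : ℝ) := by
  set a : ℝ := (ν ^ 3 / 4) ^ (i + 1) with ha
  have hν1 : ν ≤ 1 := by linarith
  have ha0 : 0 < a := by positivity
  have ha1 : a ≤ 1 := by
    refine pow_le_one₀ (by positivity) ?_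
    have : ν ^ 3 ≤ 1 := pow_le_one₀ hν.le hν1
    linarith
  set c : ℝ := a * β / 16 with hc
  have hc0 : 0 < c := by positivity
  refine ⟨⌈2 / β + (2 / c) ^ 2 + 4 * ((i : ℝ) + 1) / ν ^ 2 + 1⌉₊, ?_⟩
  intro V _ E hn hE
  set n : ℝ := (Fintype.card V : ℝ) with hnn
  have hn' : 2 / β + (2 / c) ^ 2 + 4 * ((i : ℝ) + 1) / ν ^ 2 + 1 ≤ n := Nat.ceil_le.mp hn
  have p1 : 0 < 2 / β := by positivity
  have p2 : 0 < (2 / c) ^ 2 := by positivity
  have p3 : 0 < 4 * ((i : ℝ) + 1) / ν ^ 2 := by positivity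
  have hn0 : 0 < n := by linarith
  have hV : 0 < Fintype.card V := by
    rw [hnn] at hn0
    exact_mod_cast hn0
  have hn1 : 2 * ((i : ℝ) + 1) ≤ ν ^ 2 / 2 * n := by
    have h1 : 4 * ((i : ℝ) + 1) / ν ^ 2 ≤ n := by linarith
    rw [div_le_iff₀ (by positivity)] at h1
    linarith
  set m : ℕ := ⌊β * n⌋₊ with hm
  have hm1 : (m : ℝ) ≤ β * n := Nat.floor_le (by positivity)
  have hm2 : β * n / 2 ≤ (m : ℝ) := by
    have h1 : β * n < (m : ℝ) + 1 := Nat.lt_floor_add_one _
    have h2 : 2 / β ≤ n := by linarith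
    rw [div_le_iff₀ hβ] at h2
    linarith
  set 𝒯 : Finset (List (V × V)) :=
    (tups V (i + 1)).filter fun T => (vs T).Nodup ∧ ∀ p ∈ T, E p.1 p.2 with h𝒯
  have hmem : ∀ T, T ∈ 𝒯 ↔ T.length = i + 1 ∧ (vs T).Nodup ∧ ∀ p ∈ T, E p.1 p.2 := by
    intro T
    rw [h𝒯, Finset.mem_filter, mem_tups]
  have hcardT : (𝒯.card : ℝ) ≤ n ^ (2 * (i + 1)) := by
    have h1 : 𝒯.card ≤ (Fintype.card V) ^ (2 * (i + 1)) := by
      rw [← card_tups]
      exact Finset.card_filter_le _ _
    rw [hnn]
    exact_mod_cast h1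
  have hAc' : ∀ v, a * n ^ (2 * (i + 1)) ≤ ((𝒯.filter fun T => AbsL E v T).card : ℝ) := by
    intro v
    obtain ⟨A, hA, hAc⟩ := count_abs E η ν hν hνη hη hE hV i hi hn1 v
    refine hAc.trans ?_
    have : A.card ≤ (𝒯.filter fun T => AbsL E v T).card := by
      refine Finset.card_le_card fun T hT => ?_
      obtain ⟨h1, h2, h3⟩ := hA T hT
      rw [Finset.mem_filter, hmem]
      exact ⟨⟨h1, h2, h3.1⟩, h3⟩
    exact_mod_cast this
  have hAc : ∀ v, a * (𝒯.card : ℝ) ≤ ((𝒯.filter fun T => AbsL E v T).card : ℝ) := fun v =>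
    (mul_le_mul_of_nonneg_left hcardT ha0.le).trans (hAc' v)
  obtain ⟨v0⟩ : Nonempty V := Fintype.card_pos_iff.mp hV
  have h𝒯low : a * n ^ (2 * (i + 1)) ≤ (𝒯.card : ℝ) := by
    refine (hAc' v0).trans ?_
    exact_mod_cast Finset.card_filter_le _ _
  have h𝒯ne : 𝒯.Nonempty := by
    rw [← Finset.card_pos]
    have h1 : (0 : ℝ) < a * n ^ (2 * (i + 1)) := by positivity
    exact_mod_cast h1.trans_le h𝒯low
  obtain ⟨T, hT1, hT2, hT3⟩ := select 𝒯 (fun T => (vs T).toFinset) (2 * (i + 1))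
    (by
      intro T hT
      refine (List.toFinset_card_le _).trans ?_
      rw [vs_length_tuples, ((hmem T).mp hT).1])
    (2 * ((i : ℝ) + 1) * n ^ (2 * (i + 1) - 1)) a ha0 ha1
    (by
      intro x
      have h1 : (𝒯.filter fun T => x ∈ (vs T).toFinset).card ≤
          2 * (i + 1) * (Fintype.card V) ^ (2 * (i + 1) - 1) := by
        refine le_trans (Finset.card_le_card fun T hT => ?_) (card_tups_mem (i + 1) x)
        rw [Finset.mem_filter, h𝒯, Finset.mem_filter] at hT
        rw [Finset.mem_filter]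
        exact ⟨hT.1.1, List.mem_toFinset.mp hT.2⟩
      have h2 : ((𝒯.filter fun T => x ∈ (vs T).toFinset).card : ℝ) ≤
          ((2 * (i + 1) * (Fintype.card V) ^ (2 * (i + 1) - 1) : ℕ) : ℝ) := by
        exact_mod_cast h1
      push_cast at h2
      exact h2)
    (fun v => 𝒯.filter fun T => AbsL E v T) (fun v => Finset.filter_subset _ _) hAc m
    (by
      have e1 : n * n ^ (2 * (i + 1) - 1) = n ^ (2 * (i + 1)) := by
        rw [← pow_succ']
        congr 1
      have h1 : (m : ℝ) * ((2 * (i + 1) : ℕ) : ℝ) * (2 * ((i : ℝ) + 1) * n ^ (2 * (i + 1) - 1)) ≤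
          (β * n) * ((2 * (i + 1) : ℕ) : ℝ) * (2 * ((i : ℝ) + 1) * n ^ (2 * (i + 1) - 1)) := by
        gcongr
      refine h1.trans ?_
      have h2 : (β * n) * ((2 * (i + 1) : ℕ) : ℝ) * (2 * ((i : ℝ) + 1) * n ^ (2 * (i + 1) - 1)) =
          4 * ((i : ℝ) + 1) ^ 2 * β * (n * n ^ (2 * (i + 1) - 1)) := by
        push_cast
        ring
      rw [h2, e1]
      have h3 : 4 * ((i : ℝ) + 1) ^ 2 * β ≤ a ^ 2 / 2 := by linarith
      calc 4 * ((i : ℝ) + 1) ^ 2 * β * n ^ (2 * (i + 1)) ≤ a ^ 2 / 2 * n ^ (2 * (i + 1)) := by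
            gcongr
        _ = a / 2 * (a * n ^ (2 * (i + 1))) := by ring
        _ ≤ a / 2 * (𝒯.card : ℝ) := by gcongr)
    hV h𝒯ne
    (by
      have h1 : (2 / c) ^ 2 ≤ n := by linarith
      refine (log_le_tuples hc0 h1).trans ?_
      rw [hc]
      have : a * (β * n / 2) ≤ a * m := by gcongr
      linarith)
  refine ⟨T, fun k => (hmem _).mp (hT1 k), fun k k' hk => ?_, fun v => ?_⟩
  · have h1 := hT2 k k' hk
    exact List.disjoint_toFinset_iff_disjoint.mp h1
  · refine le_trans ?_ ((hT3 v).trans (Nat.cast_le.mpr (Finset.card_le_card ?_)))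
    · have : a * (β * n / 2) ≤ a * m := by gcongr
      rw [hc]
      linarith
    · intro k hk
      simp only [Finset.mem_filter, Finset.mem_univ, true_and] at hk ⊢
      exact hk.2

end HX
end

section

set_option autoImplicit false

namespace HX

open Finset Classical

/-- JOB HX-Fo2 (medium; uses `factors`, `colouring`, `forest_aux`). Spanning linear forest with few paths.

Proof. We may assume `δ ≤ 1`.  `K := ⌈4/δ⌉₊` (so `K > 0`, `1/K ≤ δ/4`), `ε' := ν δ / (64 K)`, `n` large,
`r := ⌊ν n / 4⌋₊`, so `ν n / 8 ≤ r` for `n ≥ 8/ν` and `r > 0`.  `factors` gives `f`.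
`colouring K ε' 2` for the family indexed by `V ⊕ V ⊕ Unit` (`2n + 1 ≤ n^2` for `n ≥ 3`): for `x ∈ U` the set
`{f j x : j < r}` (it has exactly `r` elements by `hf3`; empty set for `x ∉ U`), for `y ∈ U` the set
`{x ∈ U : ∃ j < r, f j x = y}`, which has exactly `r` elements: for every `j < r`, `f j` is an injective map
`U → U`, hence bijective on `U`, so there is exactly one `x ∈ U` with `f j x = y`, and different `j` give
different `x`; and the set `U`.  With `e := ε' n` we have `e < r / K` and the hypotheses `h1, h2, h3` of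
`forest_aux`.  Its bound: `|U|/K ≤ δ n / 4`, `e ≤ δ n / 64`, `K ≤ δ n / 8` for `n ≥ 8 K / δ`,
`|U| 2 e K / r ≤ n * 2 ε' K * 8 / ν = δ n / 4`.  Sum `≤ δ n`. -/
theorem forest (η ν δ : ℝ) (hν : 0 < ν) (hνη : ν ≤ η / 2) (hη : η ≤ 1) (hδ : 0 < δ) :
    ∃ n0 : ℕ, ∀ (V : Type) [Fintype V] (E : V → V → Prop), n0 ≤ Fintype.card V → Expander E η ν →
      ∀ U : Finset V, (Fintype.card V : ℝ) - ν / 2 * (Fintype.card V : ℝ) ≤ (U.card : ℝ) →
      ∃ L : List (List V), (∀ l ∈ L, l ≠ [] ∧ l.IsChain E) ∧ L.flatten.Nodup ∧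
        (∀ v, v ∈ L.flatten ↔ v ∈ U) ∧ (L.length : ℝ) ≤ δ * (Fintype.card V : ℝ) := by
  obtain ⟨δ', hδ'0, hδ'1, hδ'δ⟩ : ∃ δ' : ℝ, 0 < δ' ∧ δ' ≤ 1 ∧ δ' ≤ δ :=
    ⟨min δ 1, lt_min hδ one_pos, min_le_right _ _, min_le_left _ _⟩
  set K : ℕ := ⌈4 / δ'⌉₊ with hKdef
  have hKr : 4 / δ' ≤ (K : ℝ) := Nat.le_ceil _
  have hK4 : (4 : ℝ) ≤ K := by
    refine le_trans ?_ hKr
    rw [le_div_iff₀ hδ'0]
    linarith
  have hK0 : (0 : ℝ) < K := by linarith
  have hK : 0 < K := by exact_mod_cast hK0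
  have hKδ : 4 ≤ δ' * K := by
    rw [div_le_iff₀ hδ'0] at hKr
    linarith
  set ε' : ℝ := ν * δ' / (64 * K) with hε'
  have hε'0 : 0 < ε' := by positivity
  obtain ⟨n1, hn1⟩ := colouring K hK ε' hε'0 2
  refine ⟨max n1 (max 3 (max ⌈8 / ν⌉₊ ⌈8 * K / δ'⌉₊)), ?_⟩
  intro V _ E hn hE U hU
  have hnn1 : n1 ≤ Fintype.card V := (le_max_left _ _).trans hn
  have hn3 : 3 ≤ Fintype.card V := ((le_max_left _ _).trans (le_max_right _ _)).trans hn
  have hnν : ⌈8 / ν⌉₊ ≤ Fintype.card V :=
    (((le_max_left _ _).trans (le_max_right _ _)).trans (le_max_right _ _)).trans hn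
  have hnK : ⌈8 * K / δ'⌉₊ ≤ Fintype.card V :=
    (((le_max_right _ _).trans (le_max_right _ _)).trans (le_max_right _ _)).trans hn
  have hV : 0 < Fintype.card V := by omega
  have hN : (0 : ℝ) < (Fintype.card V : ℝ) := by exact_mod_cast hV
  have hNν : 8 ≤ ν * (Fintype.card V : ℝ) := by
    have h1 : 8 / ν ≤ (Fintype.card V : ℝ) := (Nat.le_ceil _).trans (by exact_mod_cast hnν)
    rw [div_le_iff₀ hν] at h1
    linarith
  have hNK : 8 * (K : ℝ) ≤ δ' * (Fintype.card V : ℝ) := by
    have h1 : 8 * K / δ' ≤ (Fintype.card V : ℝ) := (Nat.le_ceil _).trans (by exact_mod_cast hnK)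
    rw [div_le_iff₀ hδ'0] at h1
    linarith
  set r : ℕ := ⌊ν / 4 * (Fintype.card V : ℝ)⌋₊ with hrdef
  have hr1 : (r : ℝ) ≤ ν / 4 * (Fintype.card V : ℝ) := Nat.floor_le (by positivity)
  have hr2 : ν / 8 * (Fintype.card V : ℝ) ≤ (r : ℝ) := by
    have h1 := Nat.lt_floor_add_one (ν / 4 * (Fintype.card V : ℝ))
    rw [← hrdef] at h1
    linarith
  have hr0 : (0 : ℝ) < r := by linarith
  have hr : 0 < r := by exact_mod_cast hr0
  obtain ⟨f, hf1, hf2, hf3⟩ := factors E η ν hν hνη hη hE hV U hU r hr1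
  let S : V ⊕ (V ⊕ Unit) → Finset V := Sum.elim
    (fun x => if x ∈ U then (range r).image (fun j => f j x) else ∅)
    (Sum.elim (fun y => if y ∈ U then U.filter (fun x => ∃ j < r, f j x = y) else ∅)
      (fun _ => U))
  obtain ⟨c, hc⟩ := hn1 V (V ⊕ (V ⊕ Unit)) S hnn1 (by
    rw [Fintype.card_sum, Fintype.card_sum, Fintype.card_unit]
    nlinarith)
  set e : ℝ := ε' * (Fintype.card V : ℝ) with he
  have he0 : 0 ≤ e := by positivity
  have heK : e * K = ν * δ' / 64 * (Fintype.card V : ℝ) := by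
    rw [he, hε']
    field_simp
  have hνδ : ν * δ' * (Fintype.card V : ℝ) ≤ ν * (Fintype.card V : ℝ) := by
    have : ν * (Fintype.card V : ℝ) * δ' ≤ ν * (Fintype.card V : ℝ) * 1 :=
      mul_le_mul_of_nonneg_left hδ'1 (by positivity)
    linarith
  have her : e < (r : ℝ) / K := by
    rw [lt_div_iff₀ hK0, heK]
    linarith
  obtain ⟨L, hL1, hL2, hL3, hL4⟩ := forest_aux E U r K hK hr f hf1 hf3 c e he0 her (by
      intro x hx k
      have h1 := hc (Sum.inl x) k
      have hS : S (Sum.inl x) = (range r).image (fun j => f j x) := if_pos hx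
      have hinj : Set.InjOn (fun j => f j x) ((range r : Finset ℕ) : Set ℕ) := by
        intro i hi j hj hij
        have hi' : i < r := by simpa using hi
        have hj' : j < r := by simpa using hj
        by_contra hne
        exact hf3 i hi' j hj' hne x hx hij
      have h2 : ((S (Sum.inl x)).card : ℝ) = r := by
        rw [hS, card_image_of_injOn hinj, card_range]
      have h3 : (((S (Sum.inl x)).filter fun v => c v = k).card : ℝ) =
          (((range r).filter fun j => c (f j x) = k).card : ℝ) := by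
        rw [hS, filter_image, card_image_of_injOn]
        intro i hi j hj hij
        have hi' : i ∈ (range r).filter fun j => c (f j x) = k := hi
        have hj' : j ∈ (range r).filter fun j => c (f j x) = k := hj
        exact hinj (mem_coe.2 (mem_filter.1 hi').1) (mem_coe.2 (mem_filter.1 hj').1) hij
      rw [h2, h3] at h1
      have h4 := (abs_le.1 h1).1
      linarith) (by
      intro y hy k
      have h1 := hc (Sum.inr (Sum.inl y)) k
      have hS : S (Sum.inr (Sum.inl y)) = U.filter (fun x => ∃ j < r, f j x = y) := if_pos hy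
      have h2 : ((S (Sum.inr (Sum.inl y))).card : ℝ) ≤ r := by
        rw [hS]
        have h3 : ∀ x ∈ U.filter (fun x => ∃ j < r, f j x = y), ∃ j, j < r ∧ f j x = y :=
          fun x hx => (mem_filter.1 hx).2
        choose! j hj1 hj2 using h3
        have h4 : (U.filter (fun x => ∃ j < r, f j x = y)).card ≤ (range r).card := by
          refine card_le_card_of_injOn j (fun x hx => ?_) ?_
          · exact mem_coe.2 (mem_range.2 (hj1 x hx))
          · intro x hx x' hx' hxx
            have h5 := hj2 x hx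
            have h6 := hj2 x' hx'
            rw [← hxx, ← h5] at h6
            exact (hf2 (j x) (hj1 x hx) (mem_coe.2 (mem_filter.1 (mem_coe.1 hx')).1)
              (mem_coe.2 (mem_filter.1 (mem_coe.1 hx)).1) h6).symm
        rw [card_range] at h4
        exact_mod_cast h4
      have h3 : (((S (Sum.inr (Sum.inl y))).filter fun v => c v = k).card : ℝ) =
          ((U.filter fun x => c x = k ∧ ∃ j < r, f j x = y).card : ℝ) := by
        rw [hS, filter_filter]
        congr 2
        ext x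
        simp only [mem_filter]
        tauto
      rw [h3] at h1
      have h4 := (abs_le.1 h1).2
      have h5 : ((S (Sum.inr (Sum.inl y))).card : ℝ) / K ≤ (r : ℝ) / K :=
        div_le_div_of_nonneg_right h2 hK0.le
      linarith) (by
      intro k
      have h1 := hc (Sum.inr (Sum.inr ())) k
      have hS : S (Sum.inr (Sum.inr ())) = U := rfl
      rw [hS] at h1
      have h4 := (abs_le.1 h1).2
      linarith)
  refine ⟨L, hL1, hL2, hL3, hL4.trans ?_⟩
  have hUN : (U.card : ℝ) ≤ (Fintype.card V : ℝ) := by exact_mod_cast card_le_univ U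
  have hb1 : (U.card : ℝ) / K ≤ δ' / 4 * (Fintype.card V : ℝ) := by
    rw [div_le_iff₀ hK0]
    have h1 : 4 * (Fintype.card V : ℝ) ≤ δ' * K * (Fintype.card V : ℝ) :=
      mul_le_mul_of_nonneg_right hKδ hN.le
    linarith
  have hb2 : e ≤ δ' / 64 * (Fintype.card V : ℝ) := by
    have h1 : e * 1 ≤ e * K := mul_le_mul_of_nonneg_left (by linarith) he0
    have h2 : ν * (δ' * (Fintype.card V : ℝ)) ≤ 1 * (δ' * (Fintype.card V : ℝ)) :=
      mul_le_mul_of_nonneg_right (by linarith) (by positivity)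
    linarith
  have hb3 : (K : ℝ) ≤ δ' / 8 * (Fintype.card V : ℝ) := by linarith
  have hb4 : (U.card : ℝ) * (2 * e * K / r) ≤ δ' / 4 * (Fintype.card V : ℝ) := by
    have h1 : 2 * e * K / r ≤ δ' / 4 := by
      rw [div_le_iff₀ hr0]
      have h2 : δ' / 4 * (ν / 8 * (Fintype.card V : ℝ)) ≤ δ' / 4 * r :=
        mul_le_mul_of_nonneg_left hr2 (by positivity)
      linarith
    have h2 : (U.card : ℝ) * (2 * e * K / r) ≤ (U.card : ℝ) * (δ' / 4) :=
      mul_le_mul_of_nonneg_left h1 (Nat.cast_nonneg _)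
    have h3 : (U.card : ℝ) * (δ' / 4) ≤ (Fintype.card V : ℝ) * (δ' / 4) :=
      mul_le_mul_of_nonneg_right hUN (by positivity)
    linarith
  have hb5 : δ' * (Fintype.card V : ℝ) ≤ δ * (Fintype.card V : ℝ) :=
    mul_le_mul_of_nonneg_right hδ'δ hN.le
  have hb6 : 0 < δ' * (Fintype.card V : ℝ) := by positivity
  linarith

end HX
end

section

set_option autoImplicit false

namespace HX

open Finset Classical

private theorem vs_length_absPath {V : Type} (T : List (V × V)) : (vs T).length = 2 * T.length := by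
  induction T with
  | nil => rfl
  | cons p T ih =>
    have h1 : vs (p :: T) = [p.1, p.2] ++ vs T := by simp [vs]
    rw [h1, List.length_append, ih, List.length_cons]
    simp only [List.length_cons, List.length_nil]
    omega

private theorem flatMap_vs_length_absPath {V : Type} (t : ℕ) (G : List (List (V × V)))
    (hG : ∀ T ∈ G, T.length = t) : (G.flatMap vs).length = G.length * (2 * t) := by
  induction G with
  | nil => simp
  | cons T G ih =>
    rw [List.flatMap_cons, List.length_append, ih fun T hT => hG T (List.mem_cons_of_mem _ hT),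
      vs_length_absPath, hG T List.mem_cons_self, List.length_cons]
    ring

/-- JOB HX-AP (medium; uses `tuples`, `gadgets_join`, `grow`). The absorbing path.

Proof. `J = ⌈1/ν⌉₊`, `i = 2 J` (so `2 ≤ ν i`, `t = i + 1` odd), `a = (ν^3/4)^t`, `β > 0` so small that
`8 t^2 β ≤ a^2`, `2 t β ≤ ν/4` and `β (t+1)(J+3) ≤ ν/4`; `c' = a β / 16`.  For large `n`, `m = ⌊β n⌋₊ ≥ 1` and `tuples`
gives `T : Fin m → _`; `G = List.ofFn T`, `F` = the set of all vertices in the `vs (T k)`, `|F| ≤ 2 t m ≤ ν n / 4`;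
`Res E (ν n) J (ν n) univ` by `grow`; `gadgets_join` (θ = `ν n`) gives `P` with
`|P| ≤ m (t+1)(J+3) ≤ ν n / 4`.
Given `W` with `|W| ≤ c' n`, disjoint from `P`: every `v ∈ W` has at least `c' n ≥ |W|` indices `k` with
`AbsL E v (T k)`; by Hall (or greedily) there is an injective `g : W → Fin m` with `AbsL E v (T (g v))`.
Let `os = List.ofFn (fun k => if h : ∃ v ∈ W, g v = k then some v else none)`.  Then `Forall₂` holds,
`os.reduceOption` is nodup (a vertex `v` appears only at position `g v`) and its members are exactly `W`. -/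
theorem absorbing_path (η ν : ℝ) (hν : 0 < ν) (hνη : ν ≤ η / 2) (hη : η ≤ 1) :
    ∃ c' : ℝ, 0 < c' ∧ ∃ n0 : ℕ, ∀ (V : Type) [Fintype V] (E : V → V → Prop),
      n0 ≤ Fintype.card V → Expander E η ν →
      ∃ P : List V, P ≠ [] ∧ P.IsChain E ∧ P.Nodup ∧ (P.length : ℝ) ≤ ν / 4 * (Fintype.card V : ℝ) ∧
        ∀ W : Finset V, (∀ v ∈ W, v ∉ P) → (W.card : ℝ) ≤ c' * (Fintype.card V : ℝ) →
          ∃ P' : List V, P'.Nodup ∧ P'.IsChain E ∧ P'.head? = P.head? ∧ P'.getLast? = P.getLast? ∧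
            ∀ x, x ∈ P' ↔ x ∈ P ∨ x ∈ W := by
  set J : ℕ := ⌈1 / ν⌉₊ with hJdef
  have hJ : 1 ≤ ν * J := by
    have h1 : 1 / ν ≤ (J : ℝ) := Nat.le_ceil _
    rw [div_le_iff₀ hν] at h1
    linarith
  set i : ℕ := 2 * J with hidef
  have hi : 2 ≤ ν * (i : ℝ) := by
    rw [hidef]
    push_cast
    linarith
  set a : ℝ := (ν ^ 3 / 4) ^ (i + 1) with ha
  have ha0 : 0 < a := by positivity
  set b1 : ℝ := a ^ 2 / (8 * ((i : ℝ) + 1) ^ 2) with hb1
  set b2 : ℝ := ν / (8 * ((i : ℝ) + 1)) with hb2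
  set b3 : ℝ := ν / (4 * (((i : ℝ) + 1 + 1) * ((J : ℝ) + 3))) with hb3
  set β : ℝ := min b1 (min b2 b3) with hβdef
  have hb10 : 0 < b1 := by positivity
  have hb20 : 0 < b2 := by positivity
  have hb30 : 0 < b3 := by positivity
  have hβ : 0 < β := lt_min hb10 (lt_min hb20 hb30)
  have hβ1 : β ≤ b1 := min_le_left _ _
  have hβ2 : β ≤ b2 := (min_le_right _ _).trans (min_le_left _ _)
  have hβ3 : β ≤ b3 := (min_le_right _ _).trans (min_le_right _ _)
  have e1 : 8 * ((i : ℝ) + 1) ^ 2 * β ≤ a ^ 2 := by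
    rw [hb1, le_div_iff₀ (by positivity)] at hβ1
    linarith
  have e2 : β * (2 * ((i : ℝ) + 1)) ≤ ν / 4 := by
    rw [hb2, le_div_iff₀ (by positivity)] at hβ2
    linarith
  have e3 : β * (((i : ℝ) + 1 + 1) * ((J : ℝ) + 3)) ≤ ν / 4 := by
    rw [hb3, le_div_iff₀ (by positivity)] at hβ3
    linarith
  obtain ⟨n0, htup⟩ := tuples η ν hν hνη hη i hi β hβ e1
  refine ⟨a * β / 16, by positivity, max n0 ⌈1 / β⌉₊, ?_⟩
  intro V _ E hn hE
  have hn2 : 1 / β ≤ (Fintype.card V : ℝ) :=
    (Nat.le_ceil _).trans (by exact_mod_cast (le_max_right _ _).trans hn)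
  have hn0' : (0 : ℝ) < (Fintype.card V : ℝ) := lt_of_lt_of_le (by positivity) hn2
  have hV : 0 < Fintype.card V := by exact_mod_cast hn0'
  have hβn : 1 ≤ β * (Fintype.card V : ℝ) := by
    rw [div_le_iff₀ hβ] at hn2
    linarith
  obtain ⟨m, hm1, hm2, T, hT1, hT2, hT3⟩ : ∃ m : ℕ, 1 ≤ m ∧ (m : ℝ) ≤ β * (Fintype.card V : ℝ) ∧
      ∃ T : Fin m → List (V × V),
        (∀ k, (T k).length = i + 1 ∧ (vs (T k)).Nodup ∧ ∀ p ∈ T k, E p.1 p.2) ∧
        (∀ k k', k ≠ k' → List.Disjoint (vs (T k)) (vs (T k'))) ∧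
        ∀ v, a * β / 16 * (Fintype.card V : ℝ) ≤
          ((univ.filter fun k => AbsL E v (T k)).card : ℝ) := by
    obtain ⟨T, hT1, hT2, hT3⟩ := htup V E ((le_max_left _ _).trans hn) hE
    exact ⟨_, Nat.one_le_floor_iff _ |>.mpr hβn, Nat.floor_le (by positivity), T, hT1, hT2, hT3⟩
  set n : ℝ := (Fintype.card V : ℝ) with hnn
  have hn0 : 0 < n := hn0'
  set G : List (List (V × V)) := (List.finRange m).map T with hGdef
  have hGl : G.length = m := by rw [hGdef, List.length_map, List.length_finRange]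
  have hGne : G ≠ [] := by
    intro h
    rw [h, List.length_nil] at hGl
    omega
  have hGt : ∀ T' ∈ G, T'.length = i + 1 ∧ ∀ p ∈ T', E p.1 p.2 := by
    intro T' hT'
    rw [hGdef, List.mem_map] at hT'
    obtain ⟨k, -, rfl⟩ := hT'
    exact ⟨(hT1 k).1, (hT1 k).2.2⟩
  have hnd : (G.flatMap vs).Nodup := by
    rw [List.nodup_flatMap]
    refine ⟨?_, ?_⟩
    · intro T' hT'
      rw [hGdef, List.mem_map] at hT'
      obtain ⟨k, -, rfl⟩ := hT'
      exact (hT1 k).2.1
    · rw [hGdef, List.pairwise_map]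
      exact (List.nodup_finRange m).imp fun {k k'} hk => hT2 k k' hk
  have hFcard : (((G.flatMap vs).toFinset.card : ℕ) : ℝ) ≤ ν / 4 * n := by
    have h1 : (G.flatMap vs).toFinset.card ≤ m * (2 * (i + 1)) := by
      refine (List.toFinset_card_le _).trans ?_
      rw [flatMap_vs_length_absPath (i + 1) G fun T' hT' => (hGt T' hT').1, hGl]
    have h2 : (((G.flatMap vs).toFinset.card : ℕ) : ℝ) ≤ ((m * (2 * (i + 1)) : ℕ) : ℝ) := by
      exact_mod_cast h1
    push_cast at h2
    calc (((G.flatMap vs).toFinset.card : ℕ) : ℝ) ≤ (m : ℝ) * (2 * ((i : ℝ) + 1)) := h2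
      _ ≤ (β * n) * (2 * ((i : ℝ) + 1)) := by gcongr
      _ = (β * (2 * ((i : ℝ) + 1))) * n := by ring
      _ ≤ ν / 4 * n := by gcongr
  have hlen : (m : ℝ) * (((i : ℝ) + 1 + 1) * ((J : ℝ) + 3)) ≤ ν / 4 * n := by
    calc (m : ℝ) * (((i : ℝ) + 1 + 1) * ((J : ℝ) + 3)) ≤
          (β * n) * (((i : ℝ) + 1 + 1) * ((J : ℝ) + 3)) := by gcongr
      _ = (β * (((i : ℝ) + 1 + 1) * ((J : ℝ) + 3))) * n := by ring
      _ ≤ ν / 4 * n := by gcongr
  have hodd : Odd (i + 1) := ⟨J, by rw [hidef]⟩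
  obtain ⟨P, hP1, hP2, hP3, -, hP5, hP6⟩ := gadgets_join E (ν * n) J (ν * n)
    (grow E η ν hν hνη hη hE hV J hJ) (i + 1) hodd G hGne hGt hnd (G.flatMap vs).toFinset
    (fun x hx => List.mem_toFinset.mpr hx) (by
      rw [hGl]
      push_cast
      have h1 : 0 ≤ ν * n := by positivity
      linarith)
  refine ⟨P, hP1, hP2, hP3, ?_, ?_⟩
  · have h1 : (P.length : ℝ) ≤ ((G.length * ((i + 1 + 1) * (J + 3)) : ℕ) : ℝ) := by
      exact_mod_cast hP5
    rw [hGl] at h1
    push_cast at h1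
    linarith
  · intro W hW hWc
    have hcard : ∀ v : {v // v ∈ W}, W.card ≤
        (univ.filter fun k => AbsL E (v : V) (T k)).card := by
      intro v
      have h1 := hT3 v
      have h2 := hWc.trans h1
      exact_mod_cast h2
    obtain ⟨g, hg, hgk⟩ := (Finset.all_card_le_biUnion_card_iff_exists_injective
      (fun v : {v // v ∈ W} => univ.filter fun k => AbsL E (v : V) (T k))).mp (by
        intro s
        rcases Finset.eq_empty_or_nonempty s with rfl | ⟨v, hv⟩
        · simp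
        · have h1 : s.card ≤ W.card := by
            have := Finset.card_le_univ s
            rwa [Fintype.card_coe] at this
          exact h1.trans ((hcard v).trans
            (Finset.card_le_card (Finset.subset_biUnion_of_mem
              (fun v : {v // v ∈ W} => univ.filter fun k => AbsL E (v : V) (T k)) hv))))
    have hgA : ∀ v : {v // v ∈ W}, AbsL E (v : V) (T (g v)) := fun v =>
      (Finset.mem_filter.mp (hgk v)).2
    set o : Fin m → Option V := fun k =>
      if h : ∃ v : {v // v ∈ W}, g v = k then some (h.choose : V) else none with hodef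
    have ho : ∀ k v, v ∈ o k ↔ ∃ hv : v ∈ W, g ⟨v, hv⟩ = k := by
      intro k v
      by_cases h : ∃ v : {v // v ∈ W}, g v = k
      · have h1 : o k = some (h.choose : V) := by
          rw [hodef]
          exact dif_pos h
        rw [h1, Option.mem_some_iff]
        constructor
        · rintro rfl
          exact ⟨h.choose.2, h.choose_spec⟩
        · rintro ⟨hv, hgv⟩
          have h2 := hg (h.choose_spec.trans hgv.symm)
          exact congrArg Subtype.val h2
      · have h1 : o k = none := by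
          rw [hodef]
          exact dif_neg h
        rw [h1]
        constructor
        · intro h2
          exact absurd h2 (by simp)
        · rintro ⟨hv, hgv⟩
          exact absurd ⟨⟨v, hv⟩, hgv⟩ h
    have hos : ((List.finRange m).map o).reduceOption = (List.finRange m).filterMap o := by
      rw [List.reduceOption, List.filterMap_map]
      rfl
    have hosm : ∀ v, v ∈ ((List.finRange m).map o).reduceOption ↔ v ∈ W := by
      intro v
      rw [hos, List.mem_filterMap]
      constructor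
      · rintro ⟨k, -, hk⟩
        exact ((ho k v).mp hk).1
      · intro hv
        exact ⟨g ⟨v, hv⟩, List.mem_finRange _, (ho _ _).mpr ⟨hv, rfl⟩⟩
    obtain ⟨P', h1, h2, h3, h4, h5⟩ := hP6 ((List.finRange m).map o)
      (by
        rw [hGdef, List.forall₂_map_left_iff, List.forall₂_map_right_iff, List.forall₂_same]
        intro k _ v hv
        obtain ⟨hv', hgv⟩ := (ho k v).mp hv
        have := hgA ⟨v, hv'⟩
        rwa [hgv] at this)
      (by
        rw [hos]
        refine List.Nodup.filterMap (fun k k' v hk hk' => ?_) (List.nodup_finRange m)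
        obtain ⟨hv, h1⟩ := (ho k v).mp hk
        obtain ⟨hv', h2⟩ := (ho k' v).mp hk'
        rw [← h1, ← h2])
      (fun v hv => hW v ((hosm v).mp hv))
    refine ⟨P', h1, h2, h3, h4, fun x => ?_⟩
    rw [h5, hosm]

end HX
end

section

set_option autoImplicit false

namespace HX

open Finset Classical

private theorem thmr_glue {V : Type} {E : V → V → Prop} {A B C : List V} {x y : V} (hA : A.IsChain E)
    (hx : A.getLast? = some x) (hB : B.IsChain E) (hy : B.head? = some y)
    (hC : List.IsChain E (x :: (C ++ [y]))) : List.IsChain E (A ++ C ++ B) := by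
  obtain ⟨A', rfl⟩ := List.getLast?_eq_some_iff.1 hx
  obtain ⟨B', rfl⟩ := List.head?_eq_some_iff.1 hy
  have h1 : List.IsChain E (((x :: C) ++ [y])) := by simpa using hC
  have h2 : List.IsChain E ((x :: C) ++ y :: B') := List.isChain_split.2 ⟨h1, hB⟩
  have h3 : List.IsChain E (A' ++ x :: (C ++ y :: B')) := List.isChain_split.2 ⟨hA, by simpa using h2⟩
  simpa using h3

/-- JOB HX-R (medium; uses `absorbing_path`, `reservoir`, `forest`, `join`, `connect`).
**Theorem R**: every dense robust expander has a Hamilton cycle.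

Proof. `J = ⌈1/ν⌉₊`; `c'` from `absorbing_path`; `ρ = min c' (ν/4)`; `θ0` from `reservoir`;
`δ = θ0 / (4 (J+1))`; `n` large (in particular `3 (J+1) ≤ θ0 n / 4`).  Let `P` be the absorbing path, `Ab` its set
of vertices, `R` the reservoir, `U = univ \ (Ab ∪ R)`: `n - |U| ≤ ν n / 4 + ν n / 4`.  `forest` gives `L` with at
most `δ n` lists (`L ≠ []` as `U ≠ ∅`).  `join` with `F = U` (`U ∩ R = ∅`) gives `M`, `W ⊆ R`,
`|W| ≤ L.length (J+1) ≤ θ0 n / 4`.  `connect` (reservoir `R`) from the last element of `P` to the first element of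
`M`, avoiding `W`: `C1`; from the last element of `M` to the first element of `P`, avoiding `W` and `C1`: `C2`.
`W0 = R \ (W ∪ C1 ∪ C2)` has at most `c' n` elements and is disjoint from `P`; absorb it: `P'`.  The cycle is
`P' ++ C1 ++ M ++ C2`: write `P' = a :: P''` (the first element `a` is that of `P`), `l = P'' ++ C1 ++ M ++ C2`. -/
theorem ham_of_expander (η ν : ℝ) (hν : 0 < ν) (hνη : ν ≤ η / 2) (hη : η ≤ 1) :
    ∃ n0 : ℕ, ∀ (V : Type) [Fintype V] (E : V → V → Prop), n0 ≤ Fintype.card V →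
      Expander E η ν → Ham E := by
  have hν2 : ν ≤ 1 / 2 := by linarith
  obtain ⟨J, hJ0⟩ := exists_nat_gt (1 / ν)
  have hJ : 1 ≤ ν * (J : ℝ) := by
    have h1 : 1 / ν ≤ (J : ℝ) := hJ0.le
    rw [div_le_iff₀ hν] at h1
    linarith
  obtain ⟨c', hc', n1, hP⟩ := absorbing_path η ν hν hνη hη
  have hρ : 0 < min c' (ν / 4) := lt_min hc' (by positivity)
  obtain ⟨θ0, hθ0, n2, hRes⟩ := reservoir η ν hν hνη hη J hJ (min c' (ν / 4)) hρ
  have hJ1 : (0 : ℝ) < (J : ℝ) + 1 := by positivity
  have hδ : 0 < θ0 / (4 * ((J : ℝ) + 1)) := by positivity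
  obtain ⟨n3, hFo⟩ := forest η ν (θ0 / (4 * ((J : ℝ) + 1))) hν hνη hη hδ
  obtain ⟨n4, hn4⟩ := exists_nat_gt (12 * ((J : ℝ) + 1) / θ0)
  refine ⟨max (max n1 n2) (max n3 (n4 + 1)), fun V _ E hn hE => ?_⟩
  have k1 : n1 ≤ Fintype.card V := ((le_max_left _ _).trans (le_max_left _ _)).trans hn
  have k2 : n2 ≤ Fintype.card V := ((le_max_right _ _).trans (le_max_left _ _)).trans hn
  have k3 : n3 ≤ Fintype.card V := ((le_max_left _ _).trans (le_max_right _ _)).trans hn
  have k4 : n4 + 1 ≤ Fintype.card V := ((le_max_right _ _).trans (le_max_right _ _)).trans hn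
  obtain ⟨P, hP0, hPc, hPn, hPl, hPW⟩ := hP V E k1 hE
  set n : ℝ := (Fintype.card V : ℝ) with hndef
  have hnpos : 0 < n := by
    have : 0 < Fintype.card V := by omega
    rw [hndef]
    exact_mod_cast this
  have hnJ : 12 * ((J : ℝ) + 1) ≤ θ0 * n := by
    have h1 : (n4 : ℝ) ≤ n := by
      rw [hndef]
      have : n4 ≤ Fintype.card V := by omega
      exact_mod_cast this
    have h2 : 12 * ((J : ℝ) + 1) / θ0 ≤ n := hn4.le.trans h1
    rw [div_le_iff₀ hθ0] at h2
    linarith
  have hAb : ((P.toFinset.card : ℕ) : ℝ) ≤ ν / 4 * n := by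
    have : P.toFinset.card ≤ P.length := List.toFinset_card_le P
    exact le_trans (by exact_mod_cast this) hPl
  obtain ⟨R, hRA, hRc, hR⟩ := hRes V E k2 hE P.toFinset hAb
  have hRc1 : (R.card : ℝ) ≤ c' * n :=
    hRc.trans (mul_le_mul_of_nonneg_right (min_le_left _ _) hnpos.le)
  have hRc2 : (R.card : ℝ) ≤ ν / 4 * n :=
    hRc.trans (mul_le_mul_of_nonneg_right (min_le_right _ _) hnpos.le)
  have hRP : ∀ v ∈ R, v ∉ P := fun v hv h => hRA v hv (List.mem_toFinset.2 h)
  -- the rest
  have hUc : n - ν / 2 * n ≤ ((univ \ (P.toFinset ∪ R)).card : ℝ) := by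
    have h1 : (univ : Finset V).card ≤ (univ \ (P.toFinset ∪ R)).card + (P.toFinset ∪ R).card :=
      Finset.card_le_card_sdiff_add_card
    have h2 : (P.toFinset ∪ R).card ≤ P.toFinset.card + R.card := Finset.card_union_le _ _
    have h3 : Fintype.card V ≤ (univ \ (P.toFinset ∪ R)).card + (P.toFinset.card + R.card) := by
      have : (univ : Finset V).card = Fintype.card V := Finset.card_univ
      omega
    have h4 : n ≤ ((univ \ (P.toFinset ∪ R)).card : ℝ) + ((P.toFinset.card : ℝ) + (R.card : ℝ)) := by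
      rw [hndef]
      exact_mod_cast h3
    linarith
  obtain ⟨L, hLc, hLn, hLm, hLl⟩ := hFo V E k3 hE (univ \ (P.toFinset ∪ R)) hUc
  have hL0 : L ≠ [] := by
    intro h0
    have hpos : 0 < ((univ \ (P.toFinset ∪ R)).card : ℝ) := by
      refine lt_of_lt_of_le ?_ hUc
      nlinarith
    have hpos' : 0 < (univ \ (P.toFinset ∪ R)).card := by exact_mod_cast hpos
    obtain ⟨v, hv⟩ := Finset.card_pos.1 hpos'
    have := (hLm v).2 hv
    rw [h0] at this
    simp at this
  have hUR : ∀ v ∈ univ \ (P.toFinset ∪ R), v ∉ R := by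
    intro v hv h
    simp only [Finset.mem_sdiff, Finset.mem_univ, true_and, Finset.mem_union, not_or] at hv
    exact hv.2 h
  have hfe : (univ \ (P.toFinset ∪ R)).filter (· ∈ R) = ∅ :=
    Finset.filter_eq_empty_iff.2 fun v hv => hUR v hv
  have hLJ : (L.length : ℝ) * ((J : ℝ) + 1) ≤ θ0 * n / 4 := by
    have h1 : (L.length : ℝ) * ((J : ℝ) + 1) ≤ θ0 / (4 * ((J : ℝ) + 1)) * n * ((J : ℝ) + 1) :=
      mul_le_mul_of_nonneg_right hLl hJ1.le
    have h2 : θ0 / (4 * ((J : ℝ) + 1)) * n * ((J : ℝ) + 1) = θ0 * n / 4 := by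
      field_simp
    linarith
  have hθn : 0 < θ0 * n := mul_pos hθ0 hnpos
  obtain ⟨M, hMc, hMn, hM0, W, hWR, hWF, hWc, hMm⟩ := join E (ν * n) J (θ0 * n) R hR
    (univ \ (P.toFinset ∪ R)) L hL0 hLc hLn (fun v hv => (hLm v).1 hv) (by
      rw [hfe, Finset.card_empty, Nat.cast_zero, zero_add]
      linarith)
  have hWc' : (W.card : ℝ) ≤ θ0 * n / 4 := by
    have : (W.card : ℝ) ≤ (L.length : ℝ) * ((J : ℝ) + 1) := by exact_mod_cast hWc
    linarith
  obtain ⟨y, hy⟩ : ∃ y, M.head? = some y := by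
    cases M with
    | nil => exact absurd rfl hM0
    | cons a t => exact ⟨a, rfl⟩
  obtain ⟨x', hx'⟩ : ∃ x', M.getLast? = some x' := ⟨M.getLast hM0, List.getLast?_eq_some_getLast hM0⟩
  obtain ⟨a, ha⟩ : ∃ a, P.head? = some a := by
    cases P with
    | nil => exact absurd rfl hP0
    | cons a t => exact ⟨a, rfl⟩
  obtain ⟨x, hx⟩ : ∃ x, P.getLast? = some x := ⟨P.getLast hP0, List.getLast?_eq_some_getLast hP0⟩
  have hWf : ((W.filter (· ∈ R)).card : ℝ) ≤ (W.card : ℝ) := by
    exact_mod_cast Finset.card_filter_le _ _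
  obtain ⟨C1, hC1l, hC1n, hC1m, hC1c⟩ := connect E (ν * n) J (θ0 * n) R W hR (by linarith) x y
  have hFc : (((W ∪ C1.toFinset).filter (· ∈ R)).card : ℝ) ≤ (W.card : ℝ) + ((J : ℝ) + 1) := by
    have h1 : ((W ∪ C1.toFinset).filter (· ∈ R)).card ≤ (W ∪ C1.toFinset).card :=
      Finset.card_filter_le _ _
    have h2 : (W ∪ C1.toFinset).card ≤ W.card + C1.toFinset.card := Finset.card_union_le _ _
    have h3 : C1.toFinset.card ≤ C1.length := List.toFinset_card_le C1
    have h4 : ((W ∪ C1.toFinset).filter (· ∈ R)).card ≤ W.card + (J + 1) := by omega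
    exact_mod_cast h4
  obtain ⟨C2, hC2l, hC2n, hC2m, hC2c⟩ := connect E (ν * n) J (θ0 * n) R (W ∪ C1.toFinset) hR
    (by linarith) x' a
  have hC2W : ∀ z ∈ C2, z ∉ W := fun z hz h => (hC2m z hz).2 (Finset.mem_union_left _ h)
  have hC2C1 : ∀ z ∈ C2, z ∉ C1 := fun z hz h =>
    (hC2m z hz).2 (Finset.mem_union_right _ (List.mem_toFinset.2 h))
  -- the leftover vertices of the reservoir
  obtain ⟨P', hPn', hPc', hPh', hPg', hPm'⟩ := hPW (R \ (W ∪ C1.toFinset ∪ C2.toFinset))
    (fun v hv => hRP v (Finset.mem_sdiff.1 hv).1) (by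
      have h1 : (R \ (W ∪ C1.toFinset ∪ C2.toFinset)).card ≤ R.card :=
        Finset.card_le_card Finset.sdiff_subset
      have h2 : ((R \ (W ∪ C1.toFinset ∪ C2.toFinset)).card : ℝ) ≤ (R.card : ℝ) := by exact_mod_cast h1
      linarith)
  rw [ha] at hPh'
  rw [hx] at hPg'
  have hW0 : ∀ v, v ∈ R \ (W ∪ C1.toFinset ∪ C2.toFinset) ↔ v ∈ R ∧ v ∉ W ∧ v ∉ C1 ∧ v ∉ C2 := by
    intro v
    simp only [Finset.mem_sdiff, Finset.mem_union, List.mem_toFinset, not_or, and_assoc]
  have hMU : ∀ v ∈ M, v ∉ P ∧ (v ∈ R → v ∈ W) := by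
    intro v hv
    rcases (hMm v).1 hv with h | h
    · have h1 := (hLm v).1 h
      simp only [Finset.mem_sdiff, Finset.mem_univ, true_and, Finset.mem_union, not_or,
        List.mem_toFinset] at h1
      exact ⟨h1.1, fun h2 => absurd h2 h1.2⟩
    · exact ⟨hRP v (hWR h), fun _ => h⟩
  have hWM : ∀ v ∈ W, v ∈ M := fun v hv => (hMm v).2 (Or.inr hv)
  -- membership in `P'`
  have hP'1 : ∀ v ∈ P', v ∉ C1 := by
    intro v hv h
    rcases (hPm' v).1 hv with h1 | h1
    · exact hRP v (hC1m v h).1 h1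
    · exact ((hW0 v).1 h1).2.2.1 h
  have hP'2 : ∀ v ∈ P', v ∉ C2 := by
    intro v hv h
    rcases (hPm' v).1 hv with h1 | h1
    · exact hRP v (hC2m v h).1 h1
    · exact ((hW0 v).1 h1).2.2.2 h
  have hP'M : ∀ v ∈ P', v ∉ M := by
    intro v hv h
    rcases (hPm' v).1 hv with h1 | h1
    · exact (hMU v h).1 h1
    · have h2 := (hW0 v).1 h1
      exact h2.2.1 ((hMU v h).2 h2.1)
  have hC1M : ∀ v ∈ C1, v ∉ M := by
    intro v hv h
    exact (hC1m v hv).2 ((hMU v h).2 (hC1m v hv).1)
  have hMC2 : ∀ v ∈ M, v ∉ C2 := by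
    intro v hv h
    exact hC2W v h ((hMU v hv).2 (hC2m v h).1)
  obtain ⟨P'', rfl⟩ := List.head?_eq_some_iff.1 hPh'
  refine ⟨a, P'' ++ C1 ++ M ++ C2, ?_, ?_, ?_⟩
  · have e : a :: (P'' ++ C1 ++ M ++ C2) = (a :: P'') ++ C1 ++ M ++ C2 := by simp
    rw [e, List.nodup_append', List.nodup_append', List.nodup_append']
    refine ⟨⟨⟨hPn', hC1n, fun v hv h => hP'1 v hv h⟩, hMn, ?_⟩, hC2n, ?_⟩
    · intro v hv h
      rcases List.mem_append.1 hv with h1 | h1
      · exact hP'M v h1 h
      · exact hC1M v h1 h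
    · intro v hv h
      rcases List.mem_append.1 hv with h1 | h1
      · rcases List.mem_append.1 h1 with h2 | h2
        · exact hP'2 v h2 h
        · exact hC2C1 v h h2
      · exact hMC2 v h1 h
  · intro v
    have e : v ∈ a :: (P'' ++ C1 ++ M ++ C2) ↔ v ∈ a :: P'' ∨ v ∈ C1 ∨ v ∈ M ∨ v ∈ C2 := by
      simp only [List.mem_cons, List.mem_append]
      tauto
    rw [e]
    by_cases h1 : v ∈ P
    · exact Or.inl ((hPm' v).2 (Or.inl h1))
    by_cases h2 : v ∈ R
    · by_cases h3 : v ∈ W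
      · exact Or.inr (Or.inr (Or.inl (hWM v h3)))
      by_cases h4 : v ∈ C1
      · exact Or.inr (Or.inl h4)
      by_cases h5 : v ∈ C2
      · exact Or.inr (Or.inr (Or.inr h5))
      exact Or.inl ((hPm' v).2 (Or.inr ((hW0 v).2 ⟨h2, h3, h4, h5⟩)))
    · refine Or.inr (Or.inr (Or.inl ((hMm v).2 (Or.inl ((hLm v).2 ?_)))))
      simp only [Finset.mem_sdiff, Finset.mem_univ, true_and, Finset.mem_union, not_or,
        List.mem_toFinset]
      exact ⟨h1, h2⟩
  · have g1 : List.IsChain E ((a :: P'') ++ C1 ++ M) := thmr_glue hPc' hPg' hMc hy hC1c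
    have g1l : ((a :: P'') ++ C1 ++ M).getLast? = some x' := by
      rw [List.getLast?_append, hx']
      rfl
    have g2 : List.IsChain E ((a :: P'') ++ C1 ++ M ++ C2 ++ [a]) :=
      thmr_glue g1 g1l (List.isChain_singleton a) rfl hC2c
    simpa using g2

end HX
end

section

set_option autoImplicit false

namespace HX

open Finset Classical

private theorem card_sub_blockHam {V : Type} [Fintype V] (I : Finset V) (p : V → Prop) :
    (univ.filter fun y : {y // y ∈ I} => p (y : V)).card = (I.filter p).card := by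
  rw [← Finset.card_image_of_injective (univ.filter fun y : {y // y ∈ I} => p (y : V))
    Subtype.val_injective]
  congr 1
  ext v
  simp only [Finset.mem_image, Finset.mem_filter, Finset.mem_univ, true_and, Subtype.exists,
    exists_and_left, exists_prop, exists_eq_right_right]
  tauto

private theorem dIn_image_blockHam {V : Type} [Fintype V] (E : V → V → Prop) (I : Finset V)
    (φ : V → V) (hφ : Set.InjOn φ (I : Set V)) (Z : Finset {y // y ∈ I}) (y : {y // y ∈ I}) :
    dIn (fun x y : {y // y ∈ I} => E (φ x) y) y Z =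
      dIn E (y : V) (Z.image fun x : {y // y ∈ I} => φ x) := by
  have hinj : Function.Injective fun x : {y // y ∈ I} => φ x := fun a b h =>
    Subtype.ext (hφ a.2 b.2 h)
  unfold dIn
  rw [← Finset.card_image_of_injective _ hinj]
  congr 1
  ext v
  simp only [Finset.mem_image, Finset.mem_filter]
  constructor
  · rintro ⟨x, ⟨h1, h2⟩, rfl⟩
    exact ⟨⟨x, h1, rfl⟩, h2⟩
  · rintro ⟨⟨x, h1, rfl⟩, h2⟩
    exact ⟨x, ⟨h1, h2⟩, rfl⟩

/-- JOB HX-TB0 (medium; uses `ham_of_expander`). In a block expander with out-side `O` and in-side `I`, for every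
bijection `φ : I → O` the digraph on `I` with arcs `x → y` iff `E (φ x) y` has a Hamilton cycle.

Proof. Apply `ham_of_expander η ν` to the type `{y // y ∈ I}` and the relation `fun x y => E (φ x) y`.  `φ` maps `I`
bijectively onto `O` (`|O| = |I|`).  Outdegree of `x`: `dOut E (φ x) I`.  Indegree of `y`: `dIn E y O`.  For
`Z ⊆ I`: the in-neighbours of `w` in `Z` correspond to the in-neighbours of `w` (for `E`) in `φ '' Z ⊆ O`, so the
robust neighbourhood is the set in the definition of `BExp` for `φ '' Z`.  Then map the Hamilton cycle back with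
`Subtype.val` (`List.isChain_map`). -/
theorem block_ham (η ν : ℝ) (hν : 0 < ν) (hνη : ν ≤ η / 2) (hη : η ≤ 1) :
    ∃ n0 : ℕ, ∀ (V : Type) [Fintype V] (E : V → V → Prop) (O I : Finset V), n0 ≤ I.card →
      BExp E O I η ν → ∀ φ : V → V, (∀ y ∈ I, φ y ∈ O) → Set.InjOn φ (I : Set V) →
      ∃ (a : V) (l : List V), (a :: l).Nodup ∧ (∀ v, v ∈ a :: l ↔ v ∈ I) ∧
        List.IsChain (fun x y => E (φ x) y) (a :: (l ++ [a])) := by
  obtain ⟨n0, hn0⟩ := ham_of_expander η ν hν hνη hη
  refine ⟨n0, ?_⟩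
  intro V _ E O I hI hB φ hφO hφ
  obtain ⟨hOI, hout, hin, hexp⟩ := hB
  have hcard : Fintype.card {y // y ∈ I} = I.card := Fintype.card_coe I
  have hinj : Function.Injective fun x : {y // y ∈ I} => φ x := fun a b h =>
    Subtype.ext (hφ a.2 b.2 h)
  have himg : (univ.image fun x : {y // y ∈ I} => φ x) = O := by
    refine Finset.eq_of_subset_of_card_le ?_ ?_
    · intro v hv
      rw [Finset.mem_image] at hv
      obtain ⟨x, -, rfl⟩ := hv
      exact hφO _ x.2
    · rw [Finset.card_image_of_injective _ hinj, Finset.card_univ, hcard, hOI]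
  have hE : Expander (fun x y : {y // y ∈ I} => E (φ x) y) η ν := by
    rw [Expander, hcard, ← hOI]
    refine ⟨?_, ?_, ?_⟩
    · intro x
      refine (hout (φ x) (hφO _ x.2)).trans (le_of_eq ?_)
      unfold dOut
      rw [card_sub_blockHam I fun y => E (φ x) y]
    · intro y
      refine (hin y y.2).trans (le_of_eq ?_)
      rw [dIn_image_blockHam E I φ hφ, himg]
    · intro Z h1 h2
      have hZc : (Z.image fun x : {y // y ∈ I} => φ x).card = Z.card :=
        Finset.card_image_of_injective _ hinj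
      have hZO : (Z.image fun x : {y // y ∈ I} => φ x) ⊆ O := by
        intro v hv
        rw [Finset.mem_image] at hv
        obtain ⟨x, -, rfl⟩ := hv
        exact hφO _ x.2
      have h3 := hexp _ hZO (by rw [hZc]; exact h1) (by rw [hZc]; exact h2)
      rw [hZc] at h3
      refine h3.trans (le_of_eq ?_)
      unfold RN
      simp only [dIn_image_blockHam E I φ hφ]
      rw [card_sub_blockHam I fun w =>
        ν * (O.card : ℝ) ≤ (dIn E w (Z.image fun x : {y // y ∈ I} => φ x) : ℝ)]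
  obtain ⟨a, l, hnd, hmem, hch⟩ := hn0 {y // y ∈ I} _ (by rw [hcard]; exact hI) hE
  refine ⟨a, l.map Subtype.val, ?_, ?_, ?_⟩
  · have := hnd.map Subtype.val_injective
    simpa using this
  · intro v
    have h1 : ((a : V) :: l.map Subtype.val) = (a :: l).map Subtype.val := rfl
    rw [h1, List.mem_map]
    constructor
    · rintro ⟨x, -, rfl⟩
      exact x.2
    · intro hv
      exact ⟨⟨v, hv⟩, hmem _, rfl⟩
  · have h1 : ((a : V) :: (l.map Subtype.val ++ [(a : V)])) =
        (a :: (l ++ [a])).map Subtype.val := by simp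
    rw [h1, List.isChain_map]
    exact hch

end HX
end

section

set_option autoImplicit false

namespace HX

open Finset Classical

/-- JOB HX-TB2 (hard; uses `block_ham`, `cut`, `cyc_rotate`, `contract`). **Two-block lemma**.

Proof. `B = N \ S`, `D = S \ N`, `|B| = |D| ≥ 1`; let `g` be a bijection `D → B` and `φ2 x = g x` for `x ∈ D`,
`φ2 x = x` otherwise.  `φ2` maps `Nᶜ = (S ∪ N)ᶜ ∪ D` injectively into `Sᶜ = (S ∪ N)ᶜ ∪ B`.  `block_ham` for
`(Sᶜ, Nᶜ)` and `φ2` gives a cyclic list on `Nᶜ`; by `cyc_rotate` it starts with an element `a ∈ D`, say `a :: l`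
(a nodup enumeration of `Nᶜ`); `cut` (with `y = a`) gives `Q, L`.  Let `LL = (φ2 a :: Q) :: L`: chains of `E`;
`LL.flatten` is a permutation of `φ2 a :: l ++ a :: map φ2 (D ∩ l)`, hence nodup with members exactly `Nᶜ ∪ B`
(`φ2` maps `D = {a} ∪ (D ∩ l)` bijectively to `B`); the first elements of the lists of `LL` are `φ2 x`, `x ∈ D`,
each exactly once, so every `b ∈ B` is the first element of exactly one list; the last elements are the elements
of `D`, each exactly once.
For `y ∈ N` let `P y = [y]` if `y ∈ S` and `P y` = the list of `LL` starting with `y` if `y ∈ B`; the chains `P y`,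
`y ∈ N`, are disjoint, nodup and cover `V` (`V = (S ∩ N) ∪ Nᶜ ∪ B`).  `φ1 y` = last element of `P y` is an injective
map `N → S` (`S = (S ∩ N) ∪ D`).  `block_ham` for `(S, N)` and `φ1` gives a cyclic list on `N` for the relation
`E (last (P x)) y`, `y` = first element of `P y`.  `contract` with `ι = {y // y ∈ N}`. -/
theorem two_block (η ν : ℝ) (hν : 0 < ν) (hνη : ν ≤ η / 2) (hη : η ≤ 1) :
    ∃ n0 : ℕ, ∀ (V : Type) [Fintype V] (E : V → V → Prop) (S N : Finset V), S.card = N.card →
      (∃ x ∈ N, x ∉ S) → BExp E S N η ν → BExp E Sᶜ Nᶜ η ν → n0 ≤ N.card → n0 ≤ (Nᶜ).card →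
      Ham E := by
  obtain ⟨n0, hn0⟩ := block_ham η ν hν hνη hη
  refine ⟨n0, ?_⟩
  intro V _ E S N hSN hne hB1 hB2 hN hNc
  set B : Finset V := N \ S with hB
  set D : Finset V := S \ N with hD
  have hcard : D.card = B.card := card_sdiff_comm hSN
  have hBne : B.Nonempty := by
    obtain ⟨x, hx1, hx2⟩ := hne
    exact ⟨x, mem_sdiff.2 ⟨hx1, hx2⟩⟩
  have hDne : D.Nonempty := by
    rw [← card_pos, hcard, card_pos]
    exact hBne
  let e : D ≃ B := Finset.equivOfCardEq hcard
  let φ2 : V → V := fun x => if h : x ∈ D then (e ⟨x, h⟩ : V) else x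
  have hφD : ∀ x (h : x ∈ D), φ2 x = e ⟨x, h⟩ := fun x h => dif_pos h
  have hφn : ∀ x, x ∉ D → φ2 x = x := fun x h => dif_neg h
  have hφB : ∀ x ∈ D, φ2 x ∈ B := fun x h => by
    rw [hφD x h]; exact (e ⟨x, h⟩).2
  have hφinjD : ∀ x ∈ D, ∀ y ∈ D, φ2 x = φ2 y → x = y := by
    intro x hx y hy h
    rw [hφD x hx, hφD y hy] at h
    have h1 := e.injective (Subtype.ext h)
    exact congrArg Subtype.val h1
  have hφsurj : ∀ b ∈ B, ∃ x ∈ D, φ2 x = b := by
    intro b hb
    refine ⟨(e.symm ⟨b, hb⟩ : V), (e.symm ⟨b, hb⟩).2, ?_⟩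
    rw [hφD _ (e.symm ⟨b, hb⟩).2]
    have h1 : (⟨(e.symm ⟨b, hb⟩ : V), (e.symm ⟨b, hb⟩).2⟩ : D) = e.symm ⟨b, hb⟩ := rfl
    rw [h1, Equiv.apply_symm_apply]
  have hDN : ∀ x ∈ D, x ∈ Nᶜ := fun x hx => mem_compl.2 (mem_sdiff.1 hx).2
  have hBN : ∀ x ∈ B, x ∈ N := fun x hx => (mem_sdiff.1 hx).1
  have hφ2map : ∀ y ∈ Nᶜ, φ2 y ∈ Sᶜ := by
    intro y hy
    by_cases h : y ∈ D
    · exact mem_compl.2 (mem_sdiff.1 (hφB y h)).2
    · rw [hφn y h, mem_compl]
      intro hS
      exact h (mem_sdiff.2 ⟨hS, mem_compl.1 hy⟩)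
  have hφ2inj : Set.InjOn φ2 (Nᶜ : Finset V) := by
    intro x hx y hy h
    rw [mem_coe] at hx hy
    by_cases hxD : x ∈ D
    · by_cases hyD : y ∈ D
      · exact hφinjD x hxD y hyD h
      · exfalso
        rw [hφn y hyD] at h
        have h1 := hBN _ (hφB x hxD)
        rw [h] at h1
        exact mem_compl.1 hy h1
    · by_cases hyD : y ∈ D
      · exfalso
        rw [hφn x hxD] at h
        have h1 := hBN _ (hφB y hyD)
        rw [← h] at h1
        exact mem_compl.1 hx h1
      · rwa [hφn x hxD, hφn y hyD] at h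
  obtain ⟨a0, l0, hnd0, hmem0, hch0⟩ := hn0 V E Sᶜ Nᶜ hNc hB2 φ2 hφ2map hφ2inj
  obtain ⟨d, hd⟩ := hDne
  obtain ⟨l, hperm, hch⟩ := cyc_rotate (fun x y => E (φ2 x) y) a0 l0 hch0 d
    ((hmem0 d).2 (hDN d hd))
  have hnd : (d :: l).Nodup := hperm.nodup_iff.2 hnd0
  have hmem : ∀ v, v ∈ d :: l ↔ v ∈ Nᶜ := fun v => by rw [hperm.mem_iff, hmem0]
  obtain ⟨Q, L, hQ, hQch, hLch, hLh, hLl, hLp⟩ := cut E D φ2 hφn d hd l d hch
  set F : List V := l.filter (· ∈ D) with hF
  have hFD : ∀ x ∈ F, x ∈ D := by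
    intro x hx
    have := (List.mem_filter.1 hx).2
    simpa using this
  set LL : List (List V) := (φ2 d :: Q) :: L with hLL
  have hLLch : ∀ P ∈ LL, P.IsChain E := by
    intro P hP
    rw [hLL, List.mem_cons] at hP
    rcases hP with rfl | hP
    · exact hQch
    · exact hLch P hP
  have hLLh : LL.map List.head? = (d :: F).map (fun x => some (φ2 x)) := by
    rw [hLL, List.map_cons, List.map_cons, hLh]
    rfl
  have hLLl : LL.map List.getLast? = (F ++ [d]).map some := by
    rw [hLL, List.map_cons, ← hLl]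
    congr 1
    obtain ⟨q, Q', rfl⟩ := List.exists_cons_of_ne_nil hQ
    exact List.getLast?_cons_cons
  have hperm2 : (LL.flatten).Perm ((d :: l) ++ (d :: F).map φ2) := by
    have h1 : LL.flatten = φ2 d :: (Q ++ L.flatten) := by
      rw [hLL, List.flatten_cons]
      rfl
    rw [h1]
    refine (hLp.cons (φ2 d)).trans ?_
    refine ((List.perm_middle (l₁ := l)).cons (φ2 d)).trans ?_
    refine (List.Perm.swap _ _ _).trans ?_
    rw [List.cons_append, List.map_cons]
    exact (List.perm_middle (l₁ := l)).symm.cons d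
  have hmemF : ∀ x, x ∈ d :: F ↔ x ∈ D := by
    intro x
    constructor
    · intro hx
      rw [List.mem_cons] at hx
      rcases hx with rfl | hx
      · exact hd
      · exact hFD x hx
    · intro hx
      have h1 := (hmem x).2 (hDN x hx)
      rw [List.mem_cons] at h1 ⊢
      rcases h1 with h1 | h1
      · exact Or.inl h1
      · exact Or.inr (List.mem_filter.2 ⟨h1, by simpa using hx⟩)
  have hndF : (d :: F).Nodup := by
    refine hnd.sublist ?_
    exact (List.filter_sublist).cons_cons d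
  have hndLL : (LL.flatten).Nodup := by
    rw [hperm2.nodup_iff, List.nodup_append']
    refine ⟨hnd, ?_, ?_⟩
    · refine List.Nodup.map_on ?_ hndF
      intro x hx y hy h
      exact hφinjD x ((hmemF x).1 hx) y ((hmemF y).1 hy) h
    · intro x hx1 hx2
      rw [List.mem_map] at hx2
      obtain ⟨z, hz, rfl⟩ := hx2
      have h1 := hBN _ (hφB z ((hmemF z).1 hz))
      exact mem_compl.1 ((hmem _).1 hx1) h1
  have hmemLL : ∀ x, x ∈ LL.flatten ↔ x ∈ Nᶜ ∨ x ∈ B := by
    intro x
    rw [hperm2.mem_iff, List.mem_append, hmem]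
    refine or_congr Iff.rfl ?_
    rw [List.mem_map]
    constructor
    · rintro ⟨z, hz, rfl⟩
      exact hφB z ((hmemF z).1 hz)
    · intro hx
      obtain ⟨z, hz, rfl⟩ := hφsurj x hx
      exact ⟨z, (hmemF z).2 hz, rfl⟩
  obtain ⟨hLLnd, hLLdis⟩ := List.nodup_flatten.1 hndLL
  have hLLdis' : ∀ P1 ∈ LL, ∀ P2 ∈ LL, P1 ≠ P2 → List.Disjoint P1 P2 := by
    intro P1 h1 P2 h2 hne
    have hsym : Std.Symm (α := List V) List.Disjoint := ⟨fun _ _ h => h.symm⟩
    exact List.Pairwise.forall hLLdis h1 h2 hne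
  have hheadB : ∀ P ∈ LL, ∃ b ∈ B, P.head? = some b := by
    intro P hP
    have h1 : P.head? ∈ LL.map List.head? := List.mem_map_of_mem hP
    rw [hLLh, List.mem_map] at h1
    obtain ⟨z, hz, hz2⟩ := h1
    exact ⟨φ2 z, hφB z ((hmemF z).1 hz), hz2.symm⟩
  have hlastD : ∀ P ∈ LL, ∃ z ∈ D, P.getLast? = some z := by
    intro P hP
    have h1 : P.getLast? ∈ LL.map List.getLast? := List.mem_map_of_mem hP
    rw [hLLl, List.mem_map] at h1
    obtain ⟨z, hz, hz2⟩ := h1
    refine ⟨z, ?_, hz2.symm⟩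
    rw [List.mem_append, List.mem_singleton] at hz
    rcases hz with hz | rfl
    · exact hFD z hz
    · exact hd
  have hexB : ∀ y ∈ B, ∃ P ∈ LL, P.head? = some y := by
    intro y hy
    obtain ⟨z, hz, rfl⟩ := hφsurj y hy
    have h1 : some (φ2 z) ∈ LL.map List.head? := by
      rw [hLLh, List.mem_map]
      exact ⟨z, (hmemF z).2 hz, rfl⟩
    rw [List.mem_map] at h1
    obtain ⟨P, hP, hP2⟩ := h1
    exact ⟨P, hP, hP2⟩
  let P : V → List V := fun y => if h : y ∈ B then Classical.choose (hexB y h) else [y]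
  have hPB : ∀ y (h : y ∈ B), P y ∈ LL ∧ (P y).head? = some y := by
    intro y h
    have h1 : P y = Classical.choose (hexB y h) := dif_pos h
    rw [h1]
    exact Classical.choose_spec (hexB y h)
  have hPn : ∀ y, y ∉ B → P y = [y] := fun y h => dif_neg h
  have hPhead : ∀ y, (P y).head? = some y := by
    intro y
    by_cases h : y ∈ B
    · exact (hPB y h).2
    · rw [hPn y h]; rfl
  have hmemhead : ∀ (l : List V) (x : V), l.head? = some x → x ∈ l := by
    intro l x h
    exact List.mem_of_head? h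
  have hPself : ∀ y, y ∈ P y := fun y => hmemhead _ _ (hPhead y)
  have hPne : ∀ y, P y ≠ [] := fun y h => by
    have := hPself y
    rw [h] at this
    exact absurd this List.not_mem_nil
  have hPch : ∀ y, (P y).IsChain E := by
    intro y
    by_cases h : y ∈ B
    · exact hLLch _ (hPB y h).1
    · rw [hPn y h]; exact List.isChain_singleton y
  have hPnd : ∀ y, (P y).Nodup := by
    intro y
    by_cases h : y ∈ B
    · exact hLLnd _ (hPB y h).1
    · rw [hPn y h]; exact List.nodup_singleton y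
  have hPdis : ∀ x ∈ N, ∀ y ∈ N, x ≠ y → List.Disjoint (P x) (P y) := by
    have aux : ∀ x ∈ N, x ∉ B → ∀ y ∈ B, List.Disjoint (P x) (P y) := by
      intro x hx hxB y hy z hz1 hz2
      rw [hPn x hxB, List.mem_singleton] at hz1
      rw [hz1] at hz2
      have h1 : x ∈ LL.flatten := List.mem_flatten.2 ⟨P y, (hPB y hy).1, hz2⟩
      rcases (hmemLL x).1 h1 with h2 | h2
      · exact mem_compl.1 h2 hx
      · exact hxB h2
    intro x hx y hy hxy
    by_cases hxB : x ∈ B
    · by_cases hyB : y ∈ B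
      · refine hLLdis' _ (hPB x hxB).1 _ (hPB y hyB).1 ?_
        intro h
        have h1 := hPhead x
        rw [h, hPhead y] at h1
        exact hxy (Option.some.inj h1).symm
      · exact (aux y hy hyB x hxB).symm
    · by_cases hyB : y ∈ B
      · exact aux x hx hxB y hyB
      · rw [hPn x hxB, hPn y hyB]
        intro z hz1 hz2
        rw [List.mem_singleton] at hz1 hz2
        exact hxy (hz1.symm.trans hz2)
  have hPlast : ∀ y ∈ N, ∃ z ∈ S, (P y).getLast? = some z := by
    intro y hy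
    by_cases h : y ∈ B
    · obtain ⟨z, hz, hz2⟩ := hlastD _ (hPB y h).1
      exact ⟨z, (mem_sdiff.1 hz).1, hz2⟩
    · refine ⟨y, ?_, by rw [hPn y h]; rfl⟩
      by_contra hyS
      exact h (mem_sdiff.2 ⟨hy, hyS⟩)
  let φ1 : V → V := fun y => ((P y).getLast?).getD y
  have hφ1 : ∀ y ∈ N, (P y).getLast? = some (φ1 y) ∧ φ1 y ∈ S := by
    intro y hy
    obtain ⟨z, hz, hz2⟩ := hPlast y hy
    have h1 : φ1 y = z := by
      show ((P y).getLast?).getD y = z
      rw [hz2]; rfl
    rw [h1]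
    exact ⟨hz2, hz⟩
  have hφ1inj : Set.InjOn φ1 (N : Set V) := by
    intro x hx y hy h
    rw [mem_coe] at hx hy
    by_contra hne
    have h1 := List.mem_of_getLast? (hφ1 x hx).1
    have h2 := List.mem_of_getLast? (hφ1 y hy).1
    rw [h] at h1
    exact hPdis x hx y hy hne h1 h2
  obtain ⟨a1, l1, hnd1, hmem1, hch1⟩ := hn0 V E S N hN hB1 φ1 (fun y hy => (hφ1 y hy).2) hφ1inj
  refine contract (ι := {y // y ∈ N}) E (fun y => P y.1) ?_ ?_ ?_ ?_
  · intro i
    exact ⟨hPne _, hPch _, hPnd _⟩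
  · intro i j hij
    exact hPdis i.1 i.2 j.1 j.2 fun h => hij (Subtype.ext h)
  · intro v
    by_cases hv : v ∈ N ∧ v ∉ B
    · exact ⟨⟨v, hv.1⟩, hPself v⟩
    · have h1 : v ∈ LL.flatten := by
        rw [hmemLL]
        by_cases hvN : v ∈ N
        · right
          by_contra h
          exact hv ⟨hvN, h⟩
        · exact Or.inl (mem_compl.2 hvN)
      obtain ⟨P1, hP1, hvP1⟩ := List.mem_flatten.1 h1
      obtain ⟨b, hb, hb2⟩ := hheadB P1 hP1
      refine ⟨⟨b, hBN b hb⟩, ?_⟩
      show v ∈ P b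
      have h2 : P b = P1 := by
        by_contra hne
        exact hLLdis' _ (hPB b hb).1 _ hP1 hne (hPself b) (hmemhead _ _ hb2)
      rw [h2]
      exact hvP1
  · have hN1 : ∀ x ∈ a1 :: l1, x ∈ N := fun x hx => (hmem1 x).1 hx
    obtain ⟨L1, hL1⟩ : ∃ L1 : List {y // y ∈ N}, L1.map Subtype.val = l1 := by
      refine ⟨l1.pmap (fun y h => ⟨y, h⟩) fun x hx => hN1 x (List.mem_cons_of_mem _ hx), ?_⟩
      rw [List.map_pmap]
      simp
    let A1 : {y // y ∈ N} := ⟨a1, hN1 a1 List.mem_cons_self⟩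
    have hmap : (A1 :: L1).map Subtype.val = a1 :: l1 := by
      rw [List.map_cons, hL1]
    refine ⟨A1, L1, ?_, ?_, ?_⟩
    · refine List.Nodup.of_map Subtype.val ?_
      rw [hmap]
      exact hnd1
    · intro v
      have h1 : v.1 ∈ (A1 :: L1).map Subtype.val := by
        rw [hmap, hmem1]
        exact v.2
      rw [List.mem_map] at h1
      obtain ⟨u, hu, huv⟩ := h1
      rw [← Subtype.ext huv]
      exact hu
    · have h1 : (A1 :: (L1 ++ [A1])).map Subtype.val = a1 :: (l1 ++ [a1]) := by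
        rw [List.map_cons, List.map_append, hL1]
        rfl
      rw [← h1, List.isChain_map] at hch1
      refine List.IsChain.imp ?_ hch1
      intro i j hij x hx y hy
      rw [(hφ1 i.1 i.2).1, Option.mem_some_iff] at hx
      rw [hPhead j.1, Option.mem_some_iff] at hy
      rw [← hx, ← hy]
      exact hij

end HX
end

section

/-!
# Haeggkvist's conjecture for all large n: definitions

Everything is in namespace `HX`, on top of `Pool.Agent.Lib.HX` (Theorem R and the two-block lemma).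

* `eb E X Y` : number of arcs from `X` to `Y`
* `PP F U L` : `L` is a partition of `U` into nonempty chains (paths) of `F`
* `Hag E D p q` : `E` is oriented, `D`, `p`, `q` are lower bounds for all degrees, outdegrees, indegrees, and
  `2 (D + p + q) ≥ 3 n - 2`
* `Good E Y` : there is a path partition with all arcs ending in `Y`, in which every vertex of `Y` has a predecessor
-/

set_option autoImplicit false

namespace HX

open Finset Classical

/-- number of arcs from `X` to `Y` -/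
noncomputable def eb {V : Type} (E : V → V → Prop) (X Y : Finset V) : ℕ := ∑ x ∈ X, dOut E x Y

/-- `L` is a partition of `U` into nonempty chains of `F` -/
def PP {V : Type} (F : V → V → Prop) (U : Finset V) (L : List (List V)) : Prop :=
  (∀ l ∈ L, l ≠ [] ∧ l.IsChain F) ∧ L.flatten.Nodup ∧ ∀ v, v ∈ L.flatten ↔ v ∈ U

/-- oriented graph with lower bounds `D`, `p`, `q` for the degrees, outdegrees and indegrees,
`2 (D + p + q) ≥ 3 n - 2` -/
structure Hag {V : Type} [Fintype V] (E : V → V → Prop) (D p q : ℕ) : Prop where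
  ori : ∀ x y, E x y → ¬ E y x
  deg : ∀ v, D ≤ dOut E v univ + dIn E v univ
  out : ∀ v, p ≤ dOut E v univ
  inn : ∀ v, q ≤ dIn E v univ
  sum : 3 * Fintype.card V ≤ 2 * (D + p + q) + 2

/-- every vertex of `Y` gets a predecessor in a path partition all of whose arcs end in `Y` -/
def Good {V : Type} [Fintype V] (E : V → V → Prop) (Y : Finset V) : Prop :=
  ∃ L : List (List V), PP (fun x y => E x y ∧ y ∈ Y) univ L ∧ L.length + Y.card = Fintype.card V

end HX
end
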