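import Pool.Agent.Lib.MP_d16af7_co.Basic2
import Pool.Agent.Lib.MP_d16af7_co.Defs

section

section

set_option autoImplicit false

namespace HX

open Finset Classical

/-- JOB HG-N1 (easy). Upper bound for the minimum degree.

Proof. `n = card V > 0`.  If `|B| ≤ z n`: some vertex has degree `≤ n` (`dOut_add_dIn_le`), so `D ≤ n`, fine.
Otherwise sum the degrees over `B`: `D |B| ≤ ∑_{v ∈ B} (dOut E v Bᶜ + dIn E v Bᶜ) + 2 eb E B B ≤ |B| (n - |B|) +
2 z² n²` (`dOut_compl`, `dOut_add_dIn_le` for `Bᶜ`, `eb_eq_sum_dIn`); divide by `|B| ≥ z n`. -/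
theorem num_u1 {V : Type} [Fintype V] [Nonempty V] {E : V → V → Prop} {D p q : ℕ}
    (h : Hag E D p q) (B : Finset V) (z : ℝ) (hz : 0 < z)
    (hB : (eb E B B : ℝ) ≤ z ^ 2 * (Fintype.card V : ℝ) ^ 2) :
    (D : ℝ) ≤ (Fintype.card V : ℝ) - (B.card : ℝ) + 2 * z * (Fintype.card V : ℝ) := by
  have hn : (0 : ℝ) < (Fintype.card V : ℝ) := by exact_mod_cast Fintype.card_pos
  have hzn : 0 < z * (Fintype.card V : ℝ) := mul_pos hz hn
  rcases le_or_gt (B.card : ℝ) (z * (Fintype.card V : ℝ)) with hb | hb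
  · obtain ⟨v⟩ := (inferInstance : Nonempty V)
    have h1 : D ≤ Fintype.card V := (h.deg v).trans (by
      have := dOut_add_dIn_le E h.ori v univ
      rwa [card_univ] at this)
    have h2 : (D : ℝ) ≤ (Fintype.card V : ℝ) := by exact_mod_cast h1
    linarith
  · have h1 : B.card * D ≤ 2 * eb E B B + B.card * Bᶜ.card := by
      calc B.card * D = ∑ _v ∈ B, D := by rw [sum_const, smul_eq_mul]
        _ ≤ ∑ v ∈ B, (dOut E v univ + dIn E v univ) := sum_le_sum fun v _ => h.deg v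
        _ = ∑ v ∈ B, (dOut E v B + dIn E v B + (dOut E v Bᶜ + dIn E v Bᶜ)) := by
            refine sum_congr rfl fun v _ => ?_
            rw [dOut_compl E v B, dIn_compl E v B]
            ring
        _ = 2 * eb E B B + ∑ v ∈ B, (dOut E v Bᶜ + dIn E v Bᶜ) := by
            rw [sum_add_distrib, sum_add_distrib, ← eb_eq_sum_dIn]
            unfold eb
            ring
        _ ≤ 2 * eb E B B + ∑ _v ∈ B, Bᶜ.card :=
            Nat.add_le_add_left (sum_le_sum fun v _ => dOut_add_dIn_le E h.ori v Bᶜ) _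
        _ = 2 * eb E B B + B.card * Bᶜ.card := by rw [sum_const, smul_eq_mul]
    have h2 : ((Bᶜ.card : ℕ) : ℝ) = (Fintype.card V : ℝ) - (B.card : ℝ) := by
      have h3 := card_compl_add_card B
      have h4 : ((Bᶜ.card : ℕ) : ℝ) + (B.card : ℝ) = (Fintype.card V : ℝ) := by exact_mod_cast h3
      linarith
    have h3 : (B.card : ℝ) * (D : ℝ) ≤ 2 * (eb E B B : ℝ) + (B.card : ℝ) * ((Bᶜ.card : ℕ) : ℝ) := by
      exact_mod_cast h1
    rw [h2] at h3
    have hb0 : (0 : ℝ) < (B.card : ℝ) := hzn.trans hb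
    refine le_of_mul_le_mul_left ?_ hb0
    have h4 : z ^ 2 * (Fintype.card V : ℝ) ^ 2 ≤ (B.card : ℝ) * (z * (Fintype.card V : ℝ)) := by
      have h5 := mul_le_mul_of_nonneg_right hb.le hzn.le
      nlinarith
    nlinarith

/-- JOB HG-N1, second statement (easy). Upper bound for the minimum outdegree.

Proof. `A = S ∩ T`, `B = S \ T`, `D' = T \ S`; `univ = T ∪ Tᶜ`, `T = A ∪ D'`.
If `|A| ≥ z n`: `p |A| ≤ ∑_{v ∈ A} dOut E v univ = eb E A A + eb E A D' + eb E A Tᶜ ≤ |A|²/2 + |A||D'| + z² n²`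
(`eb_self`, `eb_le_mul`, `eb_mono`); divide by `|A|`.
Otherwise `|B| ≥ z n` and `p |B| ≤ eb E B T + eb E B Tᶜ ≤ |B| (|A| + |D'|) + z² n²`, so
`p ≤ |A| + |D'| + z n ≤ |A|/2 + |D'| + 2 z n`. -/
theorem num_u2 {V : Type} [Fintype V] [Nonempty V] {E : V → V → Prop} {D p q : ℕ}
    (h : Hag E D p q) (S T : Finset V) (z : ℝ) (hz : 0 < z)
    (he : (eb E S Tᶜ : ℝ) ≤ z ^ 2 * (Fintype.card V : ℝ) ^ 2)
    (hS : 2 * z * (Fintype.card V : ℝ) ≤ (S.card : ℝ)) :
    (p : ℝ) ≤ ((S ∩ T).card : ℝ) / 2 + ((T \ S).card : ℝ) + 2 * z * (Fintype.card V : ℝ) := by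
  have hn : (0 : ℝ) < (Fintype.card V : ℝ) := by exact_mod_cast Fintype.card_pos
  have hzn : 0 < z * (Fintype.card V : ℝ) := mul_pos hz hn
  -- sums of outdegrees
  have hsum : ∀ X : Finset V, X ⊆ S →
      (X.card : ℝ) * (p : ℝ) ≤ (eb E X T : ℝ) + z ^ 2 * (Fintype.card V : ℝ) ^ 2 := by
    intro X hX
    have h1 : X.card * p ≤ eb E X T + eb E X Tᶜ := by
      calc X.card * p = ∑ _v ∈ X, p := by rw [sum_const, smul_eq_mul]
        _ ≤ ∑ v ∈ X, dOut E v univ := sum_le_sum fun v _ => h.out v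
        _ = ∑ v ∈ X, (dOut E v T + dOut E v Tᶜ) := sum_congr rfl fun v _ => dOut_compl E v T
        _ = eb E X T + eb E X Tᶜ := by rw [sum_add_distrib]; rfl
    have h2 : eb E X Tᶜ ≤ eb E S Tᶜ := eb_mono E hX Subset.rfl
    have h3 : (X.card : ℝ) * (p : ℝ) ≤ (eb E X T : ℝ) + (eb E X Tᶜ : ℝ) := by exact_mod_cast h1
    have h4 : (eb E X Tᶜ : ℝ) ≤ (eb E S Tᶜ : ℝ) := by exact_mod_cast h2
    linarith
  have hT : T = (S ∩ T) ∪ (T \ S) := by
    ext v
    simp only [mem_union, mem_inter, mem_sdiff]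
    tauto
  have hdisj : Disjoint (S ∩ T) (T \ S) := by
    rw [disjoint_left]
    intro v hv hv'
    exact (mem_sdiff.1 hv').2 (mem_inter.1 hv).1
  have hTcard : T.card = (S ∩ T).card + (T \ S).card := by
    conv_lhs => rw [hT]
    exact card_union_of_disjoint hdisj
  have hScard : (S \ T).card + (S ∩ T).card = S.card := card_sdiff_add_card_inter S T
  obtain ⟨a, ha⟩ : ∃ a : ℝ, a = ((S ∩ T).card : ℝ) := ⟨_, rfl⟩
  obtain ⟨b, hb⟩ : ∃ b : ℝ, b = ((S \ T).card : ℝ) := ⟨_, rfl⟩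
  obtain ⟨d, hd⟩ : ∃ d : ℝ, d = ((T \ S).card : ℝ) := ⟨_, rfl⟩
  obtain ⟨m, hm⟩ : ∃ m : ℝ, m = z * (Fintype.card V : ℝ) := ⟨_, rfl⟩
  have ha0 : 0 ≤ a := by rw [ha]; exact Nat.cast_nonneg _
  have hd0 : 0 ≤ d := by rw [hd]; exact Nat.cast_nonneg _
  have hm0 : 0 < m := by rw [hm]; exact hzn
  have hmm : z ^ 2 * (Fintype.card V : ℝ) ^ 2 = m * m := by rw [hm]; ring
  have hSr : b + a = (S.card : ℝ) := by rw [ha, hb]; exact_mod_cast hScard
  have h2zn : 2 * z * (Fintype.card V : ℝ) = 2 * m := by rw [hm]; ring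
  rw [h2zn] at hS ⊢
  rw [← ha, ← hd]
  rcases le_or_gt m a with h1 | h1
  · have h2 := hsum (S ∩ T) inter_subset_left
    have h3 : eb E (S ∩ T) T = eb E (S ∩ T) (S ∩ T) + eb E (S ∩ T) (T \ S) := by
      have h3' := eb_union_right E (S ∩ T) hdisj
      rwa [← hT] at h3'
    have h4 := eb_self E h.ori (S ∩ T)
    have h5 := eb_le_mul E (S ∩ T) (T \ S)
    have h6 : (eb E (S ∩ T) T : ℝ) = (eb E (S ∩ T) (S ∩ T) : ℝ) + (eb E (S ∩ T) (T \ S) : ℝ) := by
      exact_mod_cast h3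
    have h7 : 2 * (eb E (S ∩ T) (S ∩ T) : ℝ) + a ≤ a * a := by
      rw [ha]; exact_mod_cast h4
    have h8 : (eb E (S ∩ T) (T \ S) : ℝ) ≤ a * d := by
      rw [ha, hd]; exact_mod_cast h5
    rw [hmm, ← ha, h6] at h2
    have ha1 : 0 < a := hm0.trans_le h1
    refine le_of_mul_le_mul_left ?_ ha1
    have h9 : m * m ≤ a * m := mul_le_mul_of_nonneg_right h1 hm0.le
    nlinarith
  · have hb1 : m ≤ b := by linarith
    have h2 := hsum (S \ T) sdiff_subset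
    have h5 := eb_le_mul E (S \ T) T
    have h6 : (eb E (S \ T) T : ℝ) ≤ b * (a + d) := by
      have h7 : (T.card : ℝ) = a + d := by rw [ha, hd]; exact_mod_cast hTcard
      rw [hb, ← h7]
      exact_mod_cast h5
    rw [hmm, ← hb] at h2
    have hb2 : 0 < b := hm0.trans_le hb1
    refine le_of_mul_le_mul_left ?_ hb2
    have h9 : m * m ≤ b * m := mul_le_mul_of_nonneg_right hb1 hm0.le
    have h10 : b * a ≤ b * m := mul_le_mul_of_nonneg_left h1.le hb2.le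
    nlinarith

end HX
end

section

set_option autoImplicit false

namespace HX

open Finset Classical

/-- JOB HG-N2 (easy; uses `num_u2`, `Hag.rev`, `eb_rev`). Upper bound for the minimum indegree: `num_u2` for the
reversed relation and the sets `Tᶜ`, `Sᶜ`: `eb (rev E) Tᶜ Sᶜᶜ = eb E S Tᶜ`, `Tᶜ ∩ Sᶜ = (S ∪ T)ᶜ`,
`Sᶜ \ Tᶜ = T \ S`. -/
theorem num_u3 {V : Type} [Fintype V] [Nonempty V] {E : V → V → Prop} {D p q : ℕ}
    (h : Hag E D p q) (S T : Finset V) (z : ℝ) (hz : 0 < z)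
    (he : (eb E S Tᶜ : ℝ) ≤ z ^ 2 * (Fintype.card V : ℝ) ^ 2)
    (hT : 2 * z * (Fintype.card V : ℝ) ≤ (Fintype.card V : ℝ) - (T.card : ℝ)) :
    (q : ℝ) ≤ (((S ∪ T)ᶜ).card : ℝ) / 2 + ((T \ S).card : ℝ) + 2 * z * (Fintype.card V : ℝ) := by
  have h1 : eb (fun x y => E y x) Tᶜ (Sᶜ)ᶜ = eb E S Tᶜ := by
    rw [compl_compl]
    exact eb_rev E S Tᶜ
  have h2 : ((Tᶜ).card : ℝ) = (Fintype.card V : ℝ) - (T.card : ℝ) := by
    have h3 := card_compl_add_card T
    have h4 : ((Tᶜ).card : ℝ) + (T.card : ℝ) = (Fintype.card V : ℝ) := by exact_mod_cast h3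
    linarith
  have h3 := num_u2 h.rev Tᶜ Sᶜ z hz (by rw [h1]; exact he) (by rw [h2]; exact hT)
  have h4 : Tᶜ ∩ Sᶜ = (S ∪ T)ᶜ := by
    ext v
    simp only [mem_inter, mem_compl, mem_union]
    tauto
  have h5 : Sᶜ \ Tᶜ = T \ S := by
    ext v
    simp only [mem_sdiff, mem_compl]
    tauto
  rw [h4, h5] at h3
  exact h3

private theorem num_lin {n m a b c d w s t D p q : ℝ} (hm : 1 ≤ m) (e1 : b + a = s) (e2 : d + a = t)
    (e3 : c + w = n) (e4 : w + a = s + t) (u1 : D ≤ n - b + 2 * m) (u2 : p ≤ a / 2 + d + 2 * m)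
    (u3 : q ≤ c / 2 + d + 2 * m) (hsum : 3 * n ≤ 2 * (D + p + q) + 2) (hST : t ≤ s + m) :
    b ≤ d + 5 * m ∧ n - b - 7 * m ≤ D ∧ a / 2 + d - 7 * m ≤ p ∧ c / 2 + d - 7 * m ≤ q ∧
      |s - (2 * p + D - n)| ≤ 31 * m := by
  have t1 : b ≤ d + 5 * m := by linarith
  have t2 : n - b - 7 * m ≤ D := by linarith
  have t3 : a / 2 + d - 7 * m ≤ p := by linarith
  have t4 : c / 2 + d - 7 * m ≤ q := by linarith
  refine ⟨t1, t2, t3, t4, ?_⟩
  rw [abs_le]
  constructor <;> linarith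

/-- JOB HG-N2, main statement (medium; uses `num_u1`, `num_u2`, `num_u3`). **Numeric lemma.**

Proof. `a = |S ∩ T|`, `b = |S \ T|`, `d = |T \ S|`, `c = |(S ∪ T)ᶜ|`: `a + b + c + d = n`, `|S| = a + b`,
`|T| = a + d`.  `eb E B B ≤ eb E S Tᶜ` for `B = S \ T`.
(u1) `D ≤ n - b + 2zn`, (u2) `p ≤ a/2 + d + 2zn`, (u3) `q ≤ c/2 + d + 2zn`, (H) `D + p + q ≥ 3n/2 - 1`,
(T) `d ≤ b + z n`, `1 ≤ z n`.  All conclusions are linear consequences (`linarith`):
the sum gives `(3/2)(b - d) ≤ 6zn + 1`; `D ≥ 3n/2 - 1 - (u2) - (u3)`, and similarly for `p`, `q`. -/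
theorem num_main {V : Type} [Fintype V] [Nonempty V] {E : V → V → Prop} {D p q : ℕ}
    (h : Hag E D p q) (S T : Finset V) (z : ℝ) (hz : 0 < z) (hzn : 1 ≤ z * (Fintype.card V : ℝ))
    (he : (eb E S Tᶜ : ℝ) ≤ z ^ 2 * (Fintype.card V : ℝ) ^ 2)
    (hST : (T.card : ℝ) ≤ (S.card : ℝ) + z * (Fintype.card V : ℝ))
    (hS : 2 * z * (Fintype.card V : ℝ) ≤ (S.card : ℝ))
    (hT : 2 * z * (Fintype.card V : ℝ) ≤ (Fintype.card V : ℝ) - (T.card : ℝ)) :
    ((S \ T).card : ℝ) ≤ ((T \ S).card : ℝ) + 5 * z * (Fintype.card V : ℝ) ∧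
    (Fintype.card V : ℝ) - ((S \ T).card : ℝ) - 7 * z * (Fintype.card V : ℝ) ≤ (D : ℝ) ∧
    ((S ∩ T).card : ℝ) / 2 + ((T \ S).card : ℝ) - 7 * z * (Fintype.card V : ℝ) ≤ (p : ℝ) ∧
    (((S ∪ T)ᶜ).card : ℝ) / 2 + ((T \ S).card : ℝ) - 7 * z * (Fintype.card V : ℝ) ≤ (q : ℝ) ∧
    |(S.card : ℝ) - (2 * (p : ℝ) + (D : ℝ) - (Fintype.card V : ℝ))| ≤
      31 * z * (Fintype.card V : ℝ) := by
  have u2 := num_u2 h S T z hz he hS
  have u3 := num_u3 h S T z hz he hT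
  have hBB : (eb E (S \ T) (S \ T) : ℝ) ≤ z ^ 2 * (Fintype.card V : ℝ) ^ 2 := by
    have h1 : eb E (S \ T) (S \ T) ≤ eb E S Tᶜ := eb_mono E sdiff_subset fun v hv =>
      mem_compl.2 (mem_sdiff.1 hv).2
    have h2 : (eb E (S \ T) (S \ T) : ℝ) ≤ (eb E S Tᶜ : ℝ) := by exact_mod_cast h1
    exact h2.trans he
  have u1 := num_u1 h (S \ T) z hz hBB
  have hsum : 3 * (Fintype.card V : ℝ) ≤ 2 * ((D : ℝ) + (p : ℝ) + (q : ℝ)) + 2 := by
    exact_mod_cast h.sum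
  have e1 : ((S \ T).card : ℝ) + ((S ∩ T).card : ℝ) = (S.card : ℝ) := by
    exact_mod_cast card_sdiff_add_card_inter S T
  have e2 : ((T \ S).card : ℝ) + ((S ∩ T).card : ℝ) = (T.card : ℝ) := by
    rw [inter_comm]
    exact_mod_cast card_sdiff_add_card_inter T S
  have e3 : (((S ∪ T)ᶜ).card : ℝ) + ((S ∪ T).card : ℝ) = (Fintype.card V : ℝ) := by
    exact_mod_cast card_compl_add_card (S ∪ T)
  have e4 : ((S ∪ T).card : ℝ) + ((S ∩ T).card : ℝ) = (S.card : ℝ) + (T.card : ℝ) := by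
    exact_mod_cast card_union_add_card_inter S T
  obtain ⟨t1, t2, t3, t4, t5⟩ := num_lin hzn e1 e2 e3 e4 (by linarith) (by linarith) (by linarith)
    hsum hST
  refine ⟨by linarith, by linarith, by linarith, by linarith, ?_⟩
  rw [mul_assoc]
  exact t5

end HX
end
end

section

/-!
# Definitions for the case of linear semidegrees (section 5 of the paper)

* `Pair` : a pair `(S, T)` violating expansion (parameter `z`)
* `Deg4 E S T θ` : the four degree conditions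
* `FP` : final pairs (after retyping and conversions)
* `Exp2 E S T τ ν s` : expansion of the two blocks (threshold `ν n`, surplus `s n`)
* `Lin E S T L j` : `L` is a path partition with exactly `j` arcs, all from `S` to the complement of `T`
* `GlueP` : the conclusion of `glue2`
-/

set_option autoImplicit false

namespace HX

open Finset Classical

structure Pair {V : Type} [Fintype V] (E : V → V → Prop) (D p q : ℕ) (ε z : ℝ)
    (S T : Finset V) : Prop where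
  hag : Hag E D p q
  dpq : p + q ≤ D
  hp : ε * (Fintype.card V : ℝ) ≤ (p : ℝ)
  hq : ε * (Fintype.card V : ℝ) ≤ (q : ℝ)
  zpos : 0 < z
  zeps : 100 * z ≤ ε
  zn : 1 ≤ z * (Fintype.card V : ℝ)
  e : (eb E S Tᶜ : ℝ) ≤ z ^ 2 * (Fintype.card V : ℝ) ^ 2
  ts : (T.card : ℝ) ≤ (S.card : ℝ) + z * (Fintype.card V : ℝ)
  s1 : ε / 4 * (Fintype.card V : ℝ) ≤ (S.card : ℝ)
  s2 : ε / 4 * (Fintype.card V : ℝ) ≤ (Fintype.card V : ℝ) - (T.card : ℝ)

def Deg4 {V : Type} [Fintype V] (E : V → V → Prop) (S T : Finset V) (θ : ℝ) : Prop :=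
  (∀ v ∈ S, θ ≤ (dOut E v T : ℝ)) ∧ (∀ v, v ∉ S → θ ≤ (dOut E v Tᶜ : ℝ)) ∧
  (∀ v ∈ T, θ ≤ (dIn E v S : ℝ)) ∧ (∀ v, v ∉ T → θ ≤ (dIn E v Sᶜ : ℝ))

structure FP {V : Type} [Fintype V] (E : V → V → Prop) (D p q : ℕ) (ε lam η : ℝ)
    (S T : Finset V) : Prop where
  hag : Hag E D p q
  deg : Deg4 E S T (η * (Fintype.card V : ℝ))
  e : (eb E S Tᶜ : ℝ) ≤ lam * (Fintype.card V : ℝ) ^ 2
  sz : |(S.card : ℝ) - (2 * (p : ℝ) + (D : ℝ) - (Fintype.card V : ℝ))| ≤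
    lam * (Fintype.card V : ℝ)
  st : |(S.card : ℝ) - (T.card : ℝ)| ≤ lam * (Fintype.card V : ℝ)
  lo : ε / 8 * (Fintype.card V : ℝ) ≤ (S.card : ℝ)
  hi : (S.card : ℝ) ≤ (1 - ε / 8) * (Fintype.card V : ℝ)

def Exp2 {V : Type} [Fintype V] (E : V → V → Prop) (S T : Finset V) (τ ν s : ℝ) : Prop :=
  (∀ X ⊆ S, τ * (Fintype.card V : ℝ) ≤ (X.card : ℝ) →
    (X.card : ℝ) ≤ (S.card : ℝ) - τ * (Fintype.card V : ℝ) →
    (X.card : ℝ) + s * (Fintype.card V : ℝ) ≤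
      ((T.filter fun y => ν * (Fintype.card V : ℝ) ≤ (dIn E y X : ℝ)).card : ℝ)) ∧
  (∀ X ⊆ Sᶜ, τ * (Fintype.card V : ℝ) ≤ (X.card : ℝ) →
    (X.card : ℝ) ≤ ((Sᶜ).card : ℝ) - τ * (Fintype.card V : ℝ) →
    (X.card : ℝ) + s * (Fintype.card V : ℝ) ≤
      ((Tᶜ.filter fun y => ν * (Fintype.card V : ℝ) ≤ (dIn E y X : ℝ)).card : ℝ))

/-- path partition with exactly `j` arcs, all from `S` to `Tᶜ` -/
def Lin {V : Type} [Fintype V] (E : V → V → Prop) (S T : Finset V) (L : List (List V)) (j : ℕ) :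
    Prop :=
  PP (fun x y => E x y ∧ x ∈ S ∧ y ∉ T) univ L ∧ L.length + j = Fintype.card V

/-- the conclusion of `glue2` -/
def GlueP (η ν σ κ : ℝ) (n0 : ℕ) : Prop :=
  ∀ (V : Type) [Fintype V] (E : V → V → Prop) (S T : Finset V) (L : List (List V)) (j : ℕ),
    n0 ≤ Fintype.card V → Lin E S T L j → S.card = T.card + j →
    (j : ℝ) ≤ κ * (Fintype.card V : ℝ) →
    σ * (Fintype.card V : ℝ) ≤ (S.card : ℝ) → (S.card : ℝ) ≤ (1 - σ) * (Fintype.card V : ℝ) →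
    (∃ l ∈ L, ∃ x y, l.head? = some x ∧ x ∈ T ∧ l.getLast? = some y ∧ y ∉ S) →
    Deg4 E S T (η * (Fintype.card V : ℝ)) → Exp2 E S T (η * σ / 16) ν ν → Ham E

/-- all parameters of section 5 for a given scale `ρ` -/
structure Par (ε ρ η ν z' ξ κ : ℝ) (n0 : ℕ) : Prop where
  hε : 0 < ε
  hε1 : ε ≤ 1 / 4
  hρ : 0 < ρ
  hρ1 : ρ ≤ ε / 4
  hη : η = ρ ^ 2 / 40
  hz' : z' = η / 2 * (ε / 16) / 16 / 40
  hν : ν = z' ^ 2 / 4
  hκ : 0 < κ
  hξ : 0 < ξ
  hξ1 : 100 * ξ ≤ ν ^ 2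
  hξ2 : 200 * ξ ≤ κ
  hξ3 : 10000 * ξ ≤ η
  glue : GlueP (η / 2) ν (ε / 16) κ n0
  big : ∀ n : ℕ, n0 ≤ n → 4 ≤ ν * (n : ℝ) ∧ 4 ≤ z' * (n : ℝ) ∧ 4 ≤ η * (n : ℝ) ∧ 1 ≤ ξ * (n : ℝ) ∧
    4 ≤ κ * (n : ℝ)

end HX
end

section

section

set_option autoImplicit false

namespace HX

open Finset Classical

private theorem bim_dOut {V ι : Type} (E : V → V → Prop) (g h : ι → V) (hh : Function.Injective h)
    (x : ι) (I : Finset ι) : dOut (fun i j => E (g i) (h j)) x I = dOut E (g x) (I.image h) := by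
  unfold dOut
  rw [← Finset.card_image_of_injective _ hh]
  congr 1
  ext v
  simp only [Finset.mem_image, Finset.mem_filter]
  constructor
  · rintro ⟨y, ⟨h1, h2⟩, rfl⟩
    exact ⟨⟨y, h1, rfl⟩, h2⟩
  · rintro ⟨⟨y, h1, rfl⟩, h2⟩
    exact ⟨y, ⟨h1, h2⟩, rfl⟩

private theorem bim_dIn {V ι : Type} (E : V → V → Prop) (g h : ι → V) (hg : Function.Injective g)
    (y : ι) (Z : Finset ι) : dIn (fun i j => E (g i) (h j)) y Z = dIn E (h y) (Z.image g) := by
  unfold dIn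
  rw [← Finset.card_image_of_injective _ hg]
  congr 1
  ext v
  simp only [Finset.mem_image, Finset.mem_filter]
  constructor
  · rintro ⟨x, ⟨h1, h2⟩, rfl⟩
    exact ⟨⟨x, h1, rfl⟩, h2⟩
  · rintro ⟨⟨x, h1, rfl⟩, h2⟩
    exact ⟨x, ⟨h1, h2⟩, rfl⟩

/-- JOB HG-G1 (easy). A block expander for the contracted relation `E (g i) (h j)` from the conditions for the
images in `V`.

Proof. `dOut (fun i j => E (g i) (h j)) x I = dOut E (g x) (I.image h)` and
`dIn (fun i j => E (g i) (h j)) y Z = dIn E (h y) (Z.image g)` by injectivity (`card_image_of_injective`, see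
`dIn_image_blockHam` in `HX/BlockHam.lean`); for `Z ⊆ O` use `h3` with `X = Z.image g`, and the filter over
`I.image h` is the image of the filter over `I`. -/
theorem bexp_image {V ι : Type} [Fintype V] [Fintype ι] (E : V → V → Prop) (g h : ι → V)
    (hg : Function.Injective g) (hh : Function.Injective h) (O I : Finset ι) (η ν : ℝ)
    (hc : O.card = I.card) (h1 : ∀ x ∈ O, η * (O.card : ℝ) ≤ (dOut E (g x) (I.image h) : ℝ))
    (h2 : ∀ y ∈ I, η * (O.card : ℝ) ≤ (dIn E (h y) (O.image g) : ℝ))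
    (h3 : ∀ X ⊆ O.image g, η / 2 * (O.card : ℝ) ≤ (X.card : ℝ) →
      (X.card : ℝ) ≤ (1 - η / 2) * (O.card : ℝ) →
      (X.card : ℝ) + ν * (O.card : ℝ) ≤
        (((I.image h).filter fun y => ν * (O.card : ℝ) ≤ (dIn E y X : ℝ)).card : ℝ)) :
    BExp (fun i j => E (g i) (h j)) O I η ν := by
  refine ⟨hc, fun x hx => ?_, fun y hy => ?_, fun Z hZ h4 h5 => ?_⟩
  · rw [bim_dOut E g h hh]
    exact h1 x hx
  · rw [bim_dIn E g h hg]
    exact h2 y hy
  · have hcard : (Z.image g).card = Z.card := Finset.card_image_of_injective _ hg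
    have h6 := h3 (Z.image g) (Finset.image_subset_image hZ) (by rw [hcard]; exact h4) (by rw [hcard]; exact h5)
    rw [hcard] at h6
    refine h6.trans (le_of_eq ?_)
    have h7 : ((I.image h).filter fun y => ν * (O.card : ℝ) ≤ (dIn E y (Z.image g) : ℝ)) =
        (I.filter fun y => ν * (O.card : ℝ) ≤ (dIn (fun i j => E (g i) (h j)) y Z : ℝ)).image h := by
      ext v
      simp only [Finset.mem_image, Finset.mem_filter]
      constructor
      · rintro ⟨⟨y, hy, rfl⟩, h8⟩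
        exact ⟨y, ⟨hy, by rw [bim_dIn E g h hg]; exact h8⟩, rfl⟩
      · rintro ⟨y, ⟨hy, h8⟩, rfl⟩
        exact ⟨⟨y, hy, rfl⟩, by rw [← bim_dIn E g h hg]; exact h8⟩
    rw [h7, Finset.card_image_of_injective _ hh]

end HX
end

section

set_option autoImplicit false

namespace HX

open Finset Classical

/-- JOB HG-G2 (hard; uses `two_block`, `bexp_image`, `pp_index`, `ham_of_pp`). Two expanding blocks and a path
partition whose arcs go from `S` to the complement of `T`.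

Proof. Parameters for `two_block`: `η' = η/4`, `ν' = ν/2`; `κ ≤ ν/4`, `κ ≤ σ/4`, `n0` large.
`pp_index` gives `h`, `g : Fin N → V`, `N = L.length = n - j`.  Let `S' = {i | g i ∈ S}`, `N' = {i | h i ∈ T}`.
Arcs of `L` end outside `T`, so every `v ∈ T` is some `h i`: `N'.image h = T`, `|N'| = |T|`.  Arcs of `L` start in
`S`, so every `v ∉ S` is some `g i`: `S'ᶜ.image g = Sᶜ`, `|S'ᶜ| = n - |S|`, `|S'| = N - (n - |S|) = |S| - j = |T|`.
`S'.image g ⊆ S`, with at most `j` elements of `S` missing; `N'ᶜ.image h ⊆ Tᶜ`, `|N'ᶜ| = |S'ᶜ|`, at most `j` elements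
of `Tᶜ` missing.
`bexp_image` for `(S', N')`: `dOut E (g i) T ≥ η n`; `dIn E (h i) (S'.image g) ≥ dIn E (h i) S - j ≥ η n - κ n`;
for `X ⊆ S'.image g ⊆ S` with `(η/8)|S'| ≤ |X| ≤ (1 - η/8)|S'|`: `|S'| = |S| - j ≥ σ n / 2`, so
`|X| ≥ η σ n / 16` and `|X| ≤ |S| - η σ n / 16`; use `exp1`, `ν' |S'| ≤ ν n`.
`bexp_image` for `(S'ᶜ, N'ᶜ)`: `dOut E (g i) (N'ᶜ.image h) ≥ dOut E (g i) Tᶜ - j`, `dIn E (h i) Sᶜ ≥ η n`;
for `X ⊆ Sᶜ` use `exp2` and remove at most `j ≤ κ n` vertices.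
`∃ x ∈ N', x ∉ S'` from the list with first element in `T` and last element outside `S`.
`two_block` for `fun i j => E (g i) (h j)` and `ham_of_pp` (chains of `F` are chains of `E`). -/
theorem glue2 (η ν σ : ℝ) (hν : 0 < ν) (hνη : ν ≤ η / 8) (hη : η ≤ 1) (hσ : 0 < σ) (hσ1 : σ ≤ 1 / 2) :
    ∃ (κ : ℝ) (n0 : ℕ), 0 < κ ∧ ∀ (V : Type) [Fintype V] (E : V → V → Prop) (S T : Finset V)
      (L : List (List V)) (j : ℕ), n0 ≤ Fintype.card V →
      PP (fun x y => E x y ∧ x ∈ S ∧ y ∉ T) univ L → S.card = T.card + j →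
      L.length + j = Fintype.card V → (j : ℝ) ≤ κ * (Fintype.card V : ℝ) →
      σ * (Fintype.card V : ℝ) ≤ (S.card : ℝ) → (S.card : ℝ) ≤ (1 - σ) * (Fintype.card V : ℝ) →
      (∃ l ∈ L, ∃ x y, l.head? = some x ∧ x ∈ T ∧ l.getLast? = some y ∧ y ∉ S) →
      (∀ v ∈ S, η * (Fintype.card V : ℝ) ≤ (dOut E v T : ℝ)) →
      (∀ v, v ∉ S → η * (Fintype.card V : ℝ) ≤ (dOut E v Tᶜ : ℝ)) →
      (∀ v ∈ T, η * (Fintype.card V : ℝ) ≤ (dIn E v S : ℝ)) →
      (∀ v, v ∉ T → η * (Fintype.card V : ℝ) ≤ (dIn E v Sᶜ : ℝ)) →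
      (∀ X ⊆ S, η * σ / 16 * (Fintype.card V : ℝ) ≤ (X.card : ℝ) →
        (X.card : ℝ) ≤ (S.card : ℝ) - η * σ / 16 * (Fintype.card V : ℝ) →
        (X.card : ℝ) + ν * (Fintype.card V : ℝ) ≤
          ((T.filter fun y => ν * (Fintype.card V : ℝ) ≤ (dIn E y X : ℝ)).card : ℝ)) →
      (∀ X ⊆ Sᶜ, η * σ / 16 * (Fintype.card V : ℝ) ≤ (X.card : ℝ) →
        (X.card : ℝ) ≤ ((Sᶜ).card : ℝ) - η * σ / 16 * (Fintype.card V : ℝ) →
        (X.card : ℝ) + ν * (Fintype.card V : ℝ) ≤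
          ((Tᶜ.filter fun y => ν * (Fintype.card V : ℝ) ≤ (dIn E y X : ℝ)).card : ℝ)) → Ham E := by
  obtain ⟨n1, hn1⟩ := two_block (η / 4) (ν / 2) (by linarith) (by linarith) (by linarith)
  have hκ0 : 0 < min (ν / 4) (σ / 4) := lt_min (by linarith) (by linarith)
  refine ⟨min (ν / 4) (σ / 4), ⌈2 * (n1 : ℝ) / σ⌉₊, hκ0, ?_⟩
  intro V _ E S T L j hn hL hST hLj hj hS1 hS2 hex ho1 ho2 hi1 hi2 he1 he2
  set n : ℕ := Fintype.card V with hnV
  have hη0 : 0 < η := by linarith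
  have hn0 : (0 : ℝ) ≤ n := Nat.cast_nonneg n
  have hκν : (j : ℝ) ≤ ν / 4 * n := hj.trans (mul_le_mul_of_nonneg_right (min_le_left _ _) hn0)
  have hκσ : (j : ℝ) ≤ σ / 4 * n := hj.trans (mul_le_mul_of_nonneg_right (min_le_right _ _) hn0)
  have hnn : 2 * (n1 : ℝ) ≤ σ * n := by
    have h1 : 2 * (n1 : ℝ) / σ ≤ n := (Nat.le_ceil _).trans (by exact_mod_cast hn)
    rw [div_le_iff₀ hσ] at h1
    linarith
  have hSle : S.card ≤ n := by rw [hnV]; exact Finset.card_le_univ S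
  obtain ⟨h, g, hh, hg, hhi, hgi, hpre, hsuc⟩ := pp_index _ L hL
  letI hdec : DecidableEq (Fin L.length) := fun a b => Classical.propDecidable (a = b)
  set S' : Finset (Fin L.length) := univ.filter fun i => g i ∈ S with hS'
  set N' : Finset (Fin L.length) := univ.filter fun i => h i ∈ T with hN'
  have mS' : ∀ i, i ∈ S' ↔ g i ∈ S := fun i => by rw [hS', mem_filter]; simp
  have mN' : ∀ i, i ∈ N' ↔ h i ∈ T := fun i => by rw [hN', mem_filter]; simp
  have e1 : N'.image h = T := by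
    ext v
    rw [mem_image]
    constructor
    · rintro ⟨i, hi, rfl⟩
      exact (mN' i).1 hi
    · intro hv
      rcases hpre v with ⟨i, rfl⟩ | ⟨u, hu⟩
      · exact ⟨i, (mN' i).2 hv, rfl⟩
      · exact absurd hv hu.2.2
  have e2 : (S'ᶜ).image g = Sᶜ := by
    ext v
    rw [mem_image]
    constructor
    · rintro ⟨i, hi, rfl⟩
      rw [mem_compl] at hi ⊢
      exact fun h => hi ((mS' i).2 h)
    · intro hv
      rw [mem_compl] at hv
      rcases hsuc v with ⟨i, rfl⟩ | ⟨u, hu⟩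
      · exact ⟨i, by rw [mem_compl]; exact fun h => hv ((mS' i).1 h), rfl⟩
      · exact absurd hu.2.1 hv
  have c1 : N'.card = T.card := by rw [← e1, card_image_of_injective _ hhi]
  have c2 : (S'ᶜ).card = n - S.card := by
    rw [← card_image_of_injective _ hgi, e2, card_compl]
  have c3 : S'.card + (S'ᶜ).card = L.length := by
    rw [card_add_card_compl, Fintype.card_fin]
  have c4 : N'.card + (N'ᶜ).card = L.length := by
    rw [card_add_card_compl, Fintype.card_fin]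
  have c5 : S'.card = N'.card := by omega
  have c6 : (S'ᶜ).card = (N'ᶜ).card := by omega
  have s1 : S'.image g ⊆ S := by
    intro v hv
    obtain ⟨i, hi, rfl⟩ := mem_image.1 hv
    exact (mS' i).1 hi
  have s2 : (N'ᶜ).image h ⊆ Tᶜ := by
    intro v hv
    obtain ⟨i, hi, rfl⟩ := mem_image.1 hv
    rw [mem_compl] at hi ⊢
    exact fun h => hi ((mN' i).2 h)
  have c7 : (S \ S'.image g).card = j := by
    rw [card_sdiff_of_subset s1, card_image_of_injective _ hgi]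
    omega
  have c8 : (Tᶜ \ (N'ᶜ).image h).card = j := by
    have h1 : (Tᶜ).card = n - T.card := card_compl T
    rw [card_sdiff_of_subset s2, card_image_of_injective _ hhi, h1]
    omega
  have r1 : (S'.card : ℝ) = S.card - j := by
    have : S'.card + j = S.card := by omega
    have h1 : ((S'.card + j : ℕ) : ℝ) = (S.card : ℝ) := by rw [this]
    push_cast at h1
    linarith
  have r2 : ((S'ᶜ).card : ℝ) = n - S.card := by
    have : (S'ᶜ).card + S.card = n := by omega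
    have h1 : (((S'ᶜ).card + S.card : ℕ) : ℝ) = (n : ℝ) := by rw [this]
    push_cast at h1
    linarith
  have r3 : ((Sᶜ).card : ℝ) = n - S.card := by
    have : (Sᶜ).card + S.card = n := by rw [card_compl]; omega
    have h1 : (((Sᶜ).card + S.card : ℕ) : ℝ) = (n : ℝ) := by rw [this]
    push_cast at h1
    linarith
  have hSn : (S.card : ℝ) ≤ n := by exact_mod_cast hSle
  have hj0 : (0 : ℝ) ≤ j := Nat.cast_nonneg j
  have hs0 : (0 : ℝ) ≤ S'.card := Nat.cast_nonneg _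
  have hr0 : (0 : ℝ) ≤ (S'ᶜ).card := Nat.cast_nonneg _
  have hsn : (S'.card : ℝ) ≤ n := by rw [r1]; linarith
  have hrn : ((S'ᶜ).card : ℝ) ≤ n := by
    have : (0 : ℝ) ≤ S.card := Nat.cast_nonneg _
    rw [r2]; linarith
  have hs2 : σ / 2 * n ≤ S'.card := by rw [r1]; nlinarith
  have hr2 : σ * n ≤ (S'ᶜ).card := by rw [r2]; nlinarith
  have hηn : 0 ≤ η * n := mul_nonneg hη0.le hn0
  have hjη : (j : ℝ) ≤ η / 32 * n := hκν.trans (by nlinarith)
  have hηs : η / 4 * (S'.card : ℝ) ≤ η / 4 * n := mul_le_mul_of_nonneg_left hsn (by linarith)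
  have hηr : η / 4 * ((S'ᶜ).card : ℝ) ≤ η / 4 * n := mul_le_mul_of_nonneg_left hrn (by linarith)
  have hνs : ν / 2 * (S'.card : ℝ) ≤ ν / 2 * n := mul_le_mul_of_nonneg_left hsn (by linarith)
  have hνr : ν / 2 * ((S'ᶜ).card : ℝ) ≤ ν / 2 * n := mul_le_mul_of_nonneg_left hrn (by linarith)
  have hνn : 0 ≤ ν * n := mul_nonneg hν.le hn0
  have B1 : BExp (fun i k => E (g i) (h k)) S' N' (η / 4) (ν / 2) := by
    refine bexp_image E g h hgi hhi S' N' (η / 4) (ν / 2) c5 ?_ ?_ ?_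
    · intro x hx
      rw [e1]
      have h1 := ho1 (g x) ((mS' x).1 hx)
      linarith
    · intro y hy
      have h1 := hi1 (h y) ((mN' y).1 hy)
      have h2 := dIn_le_sdiff E (h y) S (S'.image g)
      rw [c7] at h2
      have h3 : ((dIn E (h y) S : ℕ) : ℝ) ≤ (dIn E (h y) (S'.image g) : ℝ) + j := by exact_mod_cast h2
      linarith
    · intro X hX hX1 hX2
      have h1 := he1 X (hX.trans s1) (by
          refine le_trans ?_ hX1
          have := mul_le_mul_of_nonneg_left hs2 (by linarith : (0 : ℝ) ≤ η / 4 / 2)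
          linarith) (by
          refine hX2.trans ?_
          have := mul_le_mul_of_nonneg_left hs2 (by linarith : (0 : ℝ) ≤ η / 4 / 2)
          rw [r1] at this ⊢
          linarith)
      rw [e1]
      have h2 : (T.filter fun y => ν * (n : ℝ) ≤ (dIn E y X : ℝ)).card ≤
          (T.filter fun y => ν / 2 * (S'.card : ℝ) ≤ (dIn E y X : ℝ)).card := by
        refine card_le_card fun y hy => ?_
        rw [mem_filter] at hy ⊢
        exact ⟨hy.1, by linarith [hy.2]⟩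
      have h3 : (((T.filter fun y => ν * (n : ℝ) ≤ (dIn E y X : ℝ)).card : ℕ) : ℝ) ≤
          (T.filter fun y => ν / 2 * (S'.card : ℝ) ≤ (dIn E y X : ℝ)).card := by exact_mod_cast h2
      linarith
  have B2 : BExp (fun i k => E (g i) (h k)) S'ᶜ N'ᶜ (η / 4) (ν / 2) := by
    refine bexp_image E g h hgi hhi S'ᶜ N'ᶜ (η / 4) (ν / 2) c6 ?_ ?_ ?_
    · intro x hx
      have hx' : g x ∉ S := fun h1 => (mem_compl.1 hx) ((mS' x).2 h1)
      have h1 := ho2 (g x) hx'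
      have h2 := dOut_le_sdiff E (g x) Tᶜ ((N'ᶜ).image h)
      rw [c8] at h2
      have h3 : ((dOut E (g x) Tᶜ : ℕ) : ℝ) ≤ (dOut E (g x) ((N'ᶜ).image h) : ℝ) + j := by exact_mod_cast h2
      linarith
    · intro y hy
      rw [e2]
      have hy' : h y ∉ T := fun h1 => (mem_compl.1 hy) ((mN' y).2 h1)
      have h1 := hi2 (h y) hy'
      linarith
    · intro X hX hX1 hX2
      rw [e2] at hX
      have hr3 := mul_le_mul_of_nonneg_left hr2 (by linarith : (0 : ℝ) ≤ η / 4 / 2)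
      have hσn : 0 ≤ η * (σ * n) := mul_nonneg hη0.le (mul_nonneg hσ.le hn0)
      have h1 := he2 X hX (by
          refine le_trans ?_ hX1
          linarith) (by
          refine hX2.trans ?_
          rw [r3, ← r2]
          linarith)
      have h2 : (Tᶜ.filter fun y => ν * (n : ℝ) ≤ (dIn E y X : ℝ)).card ≤
          (((N'ᶜ).image h).filter fun y => ν / 2 * ((S'ᶜ).card : ℝ) ≤ (dIn E y X : ℝ)).card + j := by
        rw [← c8]
        refine (card_le_card ?_).trans (card_union_le _ _)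
        intro y hy
        rw [mem_filter] at hy
        rw [mem_union, mem_filter, mem_sdiff]
        by_cases hyB : y ∈ (N'ᶜ).image h
        · exact Or.inl ⟨hyB, by linarith [hy.2]⟩
        · exact Or.inr ⟨hy.1, hyB⟩
      have h3 : (((Tᶜ.filter fun y => ν * (n : ℝ) ≤ (dIn E y X : ℝ)).card : ℕ) : ℝ) ≤
          ((((N'ᶜ).image h).filter fun y => ν / 2 * ((S'ᶜ).card : ℝ) ≤ (dIn E y X : ℝ)).card : ℝ) + j := by
        exact_mod_cast h2
      linarith
  have hexx : ∃ x ∈ N', x ∉ S' := by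
    obtain ⟨l, hl, x, y, hx, hxT, hy, hyS⟩ := hex
    obtain ⟨i, rfl⟩ := List.mem_iff_get.1 hl
    rw [hh i] at hx
    rw [hg i] at hy
    refine ⟨i, (mN' i).2 ?_, fun h1 => hyS ?_⟩
    · rw [Option.some_inj.1 hx]; exact hxT
    · rw [← Option.some_inj.1 hy]; exact (mS' i).1 h1
  have hH := hn1 (Fin L.length) (fun i k => E (g i) (h k)) S' N' c5 hexx B1 B2 (by
      have h1 : (n1 : ℝ) ≤ N'.card := by rw [← c5]; linarith
      exact_mod_cast h1) (by
      have h1 : (n1 : ℝ) ≤ (N'ᶜ).card := by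
        have : (0 : ℝ) ≤ n1 := Nat.cast_nonneg _
        rw [← c6]; linarith
      have h2 : n1 ≤ (N'ᶜ).card := by exact_mod_cast h1
      exact h2)
  exact ham_of_pp E L (fun l hl => ⟨(hL.1 l hl).1, (hL.1 l hl).2.imp fun _ _ h1 => h1.1⟩) hL.2.1
    (fun v => (hL.2.2 v).2 (mem_univ v)) h g hh hg hH

end HX
end

section

set_option autoImplicit false

namespace HX

open Finset Classical

/-- JOB HG-T1 (easy). -/
theorem Deg4.compl {V : Type} [Fintype V] {E : V → V → Prop} {S T : Finset V} {θ : ℝ}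
    (h : Deg4 E S T θ) : Deg4 E Sᶜ Tᶜ θ := by
  obtain ⟨h1, h2, h3, h4⟩ := h
  refine ⟨fun v hv => h2 v (mem_compl.1 hv), fun v hv => ?_, fun v hv => h4 v (mem_compl.1 hv),
    fun v hv => ?_⟩
  · rw [compl_compl]
    exact h1 v (by simpa using hv)
  · rw [compl_compl]
    exact h3 v (by simpa using hv)

theorem Deg4.mono {V : Type} [Fintype V] {E : V → V → Prop} {S T : Finset V} {θ θ' : ℝ}
    (h : Deg4 E S T θ) (h' : θ' ≤ θ) : Deg4 E S T θ' :=
  ⟨fun v hv => h'.trans (h.1 v hv), fun v hv => h'.trans (h.2.1 v hv),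
    fun v hv => h'.trans (h.2.2.1 v hv), fun v hv => h'.trans (h.2.2.2 v hv)⟩

theorem Exp2.compl {V : Type} [Fintype V] {E : V → V → Prop} {S T : Finset V} {τ ν s : ℝ}
    (h : Exp2 E S T τ ν s) : Exp2 E Sᶜ Tᶜ τ ν s := by
  refine ⟨h.2, ?_⟩
  rw [compl_compl, compl_compl]
  exact h.1

theorem Exp2.mono {V : Type} [Fintype V] {E : V → V → Prop} {S T : Finset V} {τ ν s s' : ℝ}
    (h : Exp2 E S T τ ν s) (h' : s' ≤ s) : Exp2 E S T τ ν s' := by
  have h0 : s' * (Fintype.card V : ℝ) ≤ s * (Fintype.card V : ℝ) :=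
    mul_le_mul_of_nonneg_right h' (Nat.cast_nonneg _)
  refine ⟨fun X hX h1 h2 => ?_, fun X hX h1 h2 => ?_⟩
  · have := h.1 X hX h1 h2
    linarith
  · have := h.2 X hX h1 h2
    linarith

private theorem strb_card_compl {V : Type} [Fintype V] (S : Finset V) :
    ((Sᶜ.card : ℕ) : ℝ) = (Fintype.card V : ℝ) - (S.card : ℝ) := by
  have h3 := card_compl_add_card S
  have h4 : ((Sᶜ.card : ℕ) : ℝ) + (S.card : ℝ) = (Fintype.card V : ℝ) := by exact_mod_cast h3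
  linarith

/-- JOB HG-T1 (easy; uses `Hag.rev`, `eb_rev`). Reversal of pairs: `(S, T) ↦ (Tᶜ, Sᶜ)`. -/
theorem Pair.rev {V : Type} [Fintype V] {E : V → V → Prop} {D p q : ℕ} {ε z : ℝ}
    {S T : Finset V} (h : Pair E D p q ε z S T) : Pair (fun x y => E y x) D q p ε z Tᶜ Sᶜ := by
  refine ⟨h.hag.rev, by have := h.dpq; omega, h.hq, h.hp, h.zpos, h.zeps, h.zn, ?_, ?_, ?_, ?_⟩
  · have h1 : eb (fun x y => E y x) Tᶜ (Sᶜ)ᶜ = eb E S Tᶜ := by
      rw [compl_compl]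
      exact eb_rev E S Tᶜ
    rw [h1]
    exact h.e
  · rw [strb_card_compl, strb_card_compl]
    have := h.ts
    linarith
  · rw [strb_card_compl]
    exact h.s2
  · rw [strb_card_compl]
    have := h.s1
    linarith

/-- JOB HG-T1 (easy; uses `glue2`). -/
theorem glueP_exists (η ν σ : ℝ) (hν : 0 < ν) (hνη : ν ≤ η / 8) (hη : η ≤ 1) (hσ : 0 < σ)
    (hσ1 : σ ≤ 1 / 2) : ∃ (κ : ℝ) (n0 : ℕ), 0 < κ ∧ GlueP η ν σ κ n0 := by
  obtain ⟨κ, n0, hκ, H⟩ := glue2 η ν σ hν hνη hη hσ hσ1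
  refine ⟨κ, n0, hκ, ?_⟩
  intro V _ E S T L j hn hL hST hj hS1 hS2 hex hD hE
  exact H V E S T L j hn hL.1 hST hL.2 hj hS1 hS2 hex hD.1 hD.2.1 hD.2.2.1 hD.2.2.2 hE.1 hE.2

/-- JOB HG-T1 (easy; uses `glueP_exists`). Choose `η`, `z'`, `ν` by the formulas, then `κ` from `glueP_exists`
(`ν ≤ η/16` as `z' ≤ η/1000`, `z' ≤ 1`), then `ξ = min ...`, then `n0` large. -/
theorem par_exists (ε ρ : ℝ) (hε : 0 < ε) (hε1 : ε ≤ 1 / 4) (hρ : 0 < ρ) (hρ1 : ρ ≤ ε / 4) :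
    ∃ (η ν z' ξ κ : ℝ) (n0 : ℕ), Par ε ρ η ν z' ξ κ n0 := by
  obtain ⟨η, hη⟩ : ∃ η : ℝ, η = ρ ^ 2 / 40 := ⟨_, rfl⟩
  have hη0 : 0 < η := by rw [hη]; positivity
  have hη1 : η ≤ 1 := by rw [hη]; nlinarith
  obtain ⟨z', hz'⟩ : ∃ z' : ℝ, z' = η / 2 * (ε / 16) / 16 / 40 := ⟨_, rfl⟩
  have hz0 : 0 < z' := by rw [hz']; positivity
  have hz1 : z' ≤ η / 1000 := by
    rw [hz']
    have h1 : η * ε ≤ η * (1 / 4) := mul_le_mul_of_nonneg_left hε1 hη0.le
    nlinarith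
  obtain ⟨ν, hν⟩ : ∃ ν : ℝ, ν = z' ^ 2 / 4 := ⟨_, rfl⟩
  have hν0 : 0 < ν := by rw [hν]; positivity
  have hν1 : ν ≤ η / 2 / 8 := by
    rw [hν]
    nlinarith
  obtain ⟨κ, n1, hκ, hG⟩ := glueP_exists (η / 2) ν (ε / 16) hν0 hν1 (by linarith) (by positivity)
    (by linarith)
  obtain ⟨ξ, hξ⟩ : ∃ ξ : ℝ, ξ = min (ν ^ 2 / 100) (min (κ / 200) (η / 10000)) := ⟨_, rfl⟩
  have hξ0 : 0 < ξ := by
    rw [hξ]
    exact lt_min (by positivity) (lt_min (by positivity) (by positivity))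
  have hξ1 : ξ ≤ ν ^ 2 / 100 := by rw [hξ]; exact min_le_left _ _
  have hξ2 : ξ ≤ κ / 200 := by rw [hξ]; exact (min_le_right _ _).trans (min_le_left _ _)
  have hξ3 : ξ ≤ η / 10000 := by rw [hξ]; exact (min_le_right _ _).trans (min_le_right _ _)
  obtain ⟨μ, hμ⟩ : ∃ μ : ℝ, μ = min ν (min z' (min η (min ξ κ))) := ⟨_, rfl⟩
  have hμ0 : 0 < μ := by
    rw [hμ]
    exact lt_min hν0 (lt_min hz0 (lt_min hη0 (lt_min hξ0 hκ)))
  have hμ1 : μ ≤ ν := by rw [hμ]; exact min_le_left _ _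
  have hμ2 : μ ≤ z' := by rw [hμ]; exact (min_le_right _ _).trans (min_le_left _ _)
  have hμ3 : μ ≤ η := by
    rw [hμ]; exact (min_le_right _ _).trans ((min_le_right _ _).trans (min_le_left _ _))
  have hμ4 : μ ≤ ξ := by
    rw [hμ]
    exact (min_le_right _ _).trans ((min_le_right _ _).trans ((min_le_right _ _).trans
      (min_le_left _ _)))
  have hμ5 : μ ≤ κ := by
    rw [hμ]
    exact (min_le_right _ _).trans ((min_le_right _ _).trans ((min_le_right _ _).trans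
      (min_le_right _ _)))
  refine ⟨η, ν, z', ξ, κ, max n1 ⌈4 / μ⌉₊, hε, hε1, hρ, hρ1, hη, hz', hν, hκ, hξ0, by linarith,
    by linarith, by linarith, ?_, ?_⟩
  · intro V _ E S T L j hn hL hST hj hS1 hS2 hex hD hE
    exact hG V E S T L j ((le_max_left _ _).trans hn) hL hST hj hS1 hS2 hex hD hE
  · intro n hn
    have h1 : 4 / μ ≤ (n : ℝ) := (Nat.le_ceil _).trans (by exact_mod_cast (le_max_right _ _).trans hn)
    rw [div_le_iff₀ hμ0] at h1
    have hn0 : (0 : ℝ) ≤ n := Nat.cast_nonneg n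
    have e1 := mul_le_mul_of_nonneg_right hμ1 hn0
    have e2 := mul_le_mul_of_nonneg_right hμ2 hn0
    have e3 := mul_le_mul_of_nonneg_right hμ3 hn0
    have e4 := mul_le_mul_of_nonneg_right hμ4 hn0
    have e5 := mul_le_mul_of_nonneg_right hμ5 hn0
    exact ⟨by linarith, by linarith, by linarith, by linarith, by linarith⟩

end HX
end
end
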