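import Pool.Agent.Lib.MP_d16af7_co.Basic2
import Pool.Agent.Lib.MP_d16af7_co.StrBase

section

set_option autoImplicit false

namespace HX

open Finset Classical

/-- the situation of a minimal bad set `Y`, `k = |Y| = 2 r + t`, `t` much smaller than `k` and `m` -/
structure CoreH {V : Type} [Fintype V] (E : V → V → Prop) (Y : Finset V) (m r t : ℕ) : Prop where
  ori : ∀ x y, E x y → ¬ E y x
  card : Y.card = 2 * r + t
  one : 1 ≤ t
  tk : (t : ℝ) ≤ 1 / 10 ^ 8 * (Y.card : ℝ)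
  tm : (t : ℝ) ≤ (m : ℝ) / 1000
  inY : ∀ x ∈ Y, r ≤ dIn E x Y
  inA : ∀ x ∈ Y, m + r ≤ dIn E x univ
  inO : ∀ x ∈ Y, dIn E x Yᶜ ≤ m

/-- vertices of `Y` of small outdegree in `Y` -/
noncomputable def lowOut {V : Type} (E : V → V → Prop) (Y : Finset V) : Finset V :=
  Y.filter fun x => 4 * dOut E x Y ≤ Y.card

/-- JOB HG-C1 (easy). There are at most `5 t` vertices of small outdegree.

Proof. `k - 1 - r - dOut E x Y ≥ 0` for `x ∈ Y` (`dOut_add_dIn_lt`, `inY`), it is `≥ k/4 - 1 ≥ k/5` for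
`x ∈ lowOut E Y` (`r ≤ k/2`, `k ≥ 20`), and `∑_{x ∈ Y} (k - 1 - r - dOut E x Y) = k (k - 1 - r) - eb E Y Y
≤ k (k - 1 - 2 r) = k (t - 1)` (`eb_eq_sum_dIn`, `inY`). -/
theorem card_lowOut {V : Type} [Fintype V] {E : V → V → Prop} {Y : Finset V} {m r t : ℕ}
    (h : CoreH E Y m r t) : (lowOut E Y).card ≤ 5 * t := by
  have hk : (10 : ℝ) ^ 8 ≤ (Y.card : ℝ) := by
    have h1 := h.tk
    have h2 : (1 : ℝ) ≤ (t : ℝ) := by exact_mod_cast h.one
    linarith
  have hkn : 10 ^ 8 ≤ Y.card := by exact_mod_cast hk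
  have hkn' : 10 ≤ Y.card := le_trans (by norm_num) hkn
  have hc := h.card
  have h1t := h.one
  -- the slack
  have h1 : ∀ x ∈ Y, r + dOut E x Y + 1 ≤ Y.card := fun x hx => by
    have := dOut_add_dIn_lt E h.ori hx
    have := h.inY x hx
    omega
  have h2 : ∀ x ∈ lowOut E Y, 5 * (r + dOut E x Y + 1) + Y.card ≤ 5 * Y.card := fun x hx => by
    have := (mem_filter.1 hx).2
    omega
  have h3 : Y.card * r ≤ ∑ x ∈ Y, dOut E x Y := by
    have e1 : ∑ x ∈ Y, dOut E x Y = ∑ x ∈ Y, dIn E x Y := eb_eq_sum_dIn E Y Y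
    rw [e1, ← smul_eq_mul, ← sum_const]
    exact sum_le_sum fun x hx => h.inY x hx
  have h4 : ∑ x ∈ Y, (5 * (r + dOut E x Y + 1) + if x ∈ lowOut E Y then Y.card else 0) ≤
      ∑ _x ∈ Y, 5 * Y.card := by
    refine sum_le_sum fun x hx => ?_
    split_ifs with hl
    · exact h2 x hl
    · have := h1 x hx
      omega
  have h5 : ∑ x ∈ Y, (if x ∈ lowOut E Y then Y.card else 0) = (lowOut E Y).card * Y.card := by
    rw [← sum_filter, sum_const, smul_eq_mul]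
    congr 2
    ext x
    simp only [mem_filter, lowOut]
    tauto
  rw [sum_add_distrib, h5, ← mul_sum, sum_add_distrib, sum_add_distrib, sum_const, sum_const, sum_const,
    smul_eq_mul, smul_eq_mul, smul_eq_mul] at h4
  have hpos : 0 < Y.card := by omega
  have h6 : (lowOut E Y).card * Y.card ≤ (5 * t) * Y.card := by
    nlinarith
  exact Nat.le_of_mul_le_mul_right h6 hpos

/-- JOB HG-C1 (medium). Expansion in `Y`.

Proof. `ν = 10⁻⁶`, `T = {y ∈ Y | ν k ≤ dIn E y X}`; suppose `|T| < |X| + 2 ν k`.  `eb E X (Y \ T) ≤ ν k²`.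
`B = X \ T`, `b = |B|`.  The number of nonadjacent pairs in `Y` is at most `k t / 2` (`∑_{x ∈ Y}` of
`k - 1 - dIn E x Y - dOut E x Y ≥ 0` is `k (k-1) - 2 eb E Y Y ≤ k (t - 1)`); for `x ∈ B` the vertices of `B` which are
not adjacent to `x` are among those of `Y`; so `b (b - 1) ≤ 2 eb E B B + k t ≤ 2 ν k² + 10⁻⁸ k²`; hence `b ≤ 0.00202 k`.
`|T \ X| = |T| - |X| + b ≤ 0.0021 k`.  `C = Y \ (X ∪ T)`, `c = |C|`, `0.0179 k ≤ c ≤ k - |X| ≤ 0.98 k`.
`c r ≤ ∑_{v ∈ C} dIn E v Y = eb E C C + eb E X C + eb E (T \ X) C ≤ c²/2 + ν k² + 0.0021 k c`, so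
`r ≤ c/2 + 0.0022 k ≤ 0.4922 k`; but `r = (k - t)/2 ≥ 0.4999 k`. -/
theorem core_exp {V : Type} [Fintype V] {E : V → V → Prop} {Y : Finset V} {m r t : ℕ}
    (h : CoreH E Y m r t) (X : Finset V) (hX : X ⊆ Y)
    (h1 : (Y.card : ℝ) / 50 ≤ (X.card : ℝ)) (h2 : (X.card : ℝ) ≤ 49 / 50 * (Y.card : ℝ)) :
    (X.card : ℝ) + 2 / 10 ^ 6 * (Y.card : ℝ) ≤
      ((Y.filter fun y => 1 / 10 ^ 6 * (Y.card : ℝ) ≤ (dIn E y X : ℝ)).card : ℝ) := by
  set T := Y.filter fun y => 1 / 10 ^ 6 * (Y.card : ℝ) ≤ (dIn E y X : ℝ) with hT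
  by_contra hcon
  push Not at hcon
  have hTY : T ⊆ Y := filter_subset _ _
  have hk : (10 : ℝ) ^ 8 ≤ (Y.card : ℝ) := by
    have h1 := h.tk
    have h2 : (1 : ℝ) ≤ (t : ℝ) := by exact_mod_cast h.one
    linarith
  have hcard : (Y.card : ℝ) = 2 * (r : ℝ) + (t : ℝ) := by exact_mod_cast h.card
  have h1t : (1 : ℝ) ≤ (t : ℝ) := by exact_mod_cast h.one
  have hntT : ∀ y ∈ Y, y ∉ T → (dIn E y X : ℝ) ≤ 1 / 10 ^ 6 * (Y.card : ℝ) := fun y hy hyT => by
    by_contra hh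
    push Not at hh
    exact hyT (mem_filter.2 ⟨hy, hh.le⟩)
  -- 1. few arcs from `X` to `Y \ T`
  have e1 : (eb E X (Y \ T) : ℝ) ≤ 1 / 10 ^ 6 * (Y.card : ℝ) ^ 2 := by
    rw [eb_eq_sum_dIn]
    push_cast
    calc ∑ y ∈ Y \ T, (dIn E y X : ℝ) ≤ ∑ _y ∈ Y \ T, 1 / 10 ^ 6 * (Y.card : ℝ) :=
          sum_le_sum fun y hy => hntT y (mem_sdiff.1 hy).1 (mem_sdiff.1 hy).2
      _ = ((Y \ T).card : ℝ) * (1 / 10 ^ 6 * (Y.card : ℝ)) := by rw [sum_const, nsmul_eq_mul]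
      _ ≤ (Y.card : ℝ) * (1 / 10 ^ 6 * (Y.card : ℝ)) := by
          have : ((Y \ T).card : ℝ) ≤ (Y.card : ℝ) := by exact_mod_cast card_le_card (sdiff_subset)
          gcongr
      _ = 1 / 10 ^ 6 * (Y.card : ℝ) ^ 2 := by ring
  -- 2. `X \ T` is small
  set B := X \ T with hB
  have hBX : B ⊆ X := sdiff_subset
  have hBY : B ⊆ Y := hBX.trans hX
  have hBT : B ⊆ Y \ T := fun x hx => mem_sdiff.2 ⟨hBY hx, (mem_sdiff.1 hx).2⟩
  have ebB : (eb E B B : ℝ) ≤ 1 / 10 ^ 6 * (Y.card : ℝ) ^ 2 :=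
    le_trans (by exact_mod_cast eb_mono E hBX hBT) e1
  have h3 : (Y.card : ℝ) * (r : ℝ) ≤ (eb E Y Y : ℝ) := by
    have : Y.card * r ≤ eb E Y Y := by
      rw [eb_eq_sum_dIn, ← smul_eq_mul, ← sum_const]
      exact sum_le_sum fun x hx => h.inY x hx
    exact_mod_cast this
  have hsY : ∀ x ∈ Y, dOut E x Y + dIn E x Y + 1 ≤ Y.card := fun x hx => dOut_add_dIn_lt E h.ori hx
  have hsB : ∀ x ∈ B, B.card + dOut E x Y + dIn E x Y ≤ Y.card + dOut E x B + dIn E x B := fun x _ => by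
    have a1 : dOut E x Y = dOut E x B + dOut E x (Y \ B) := by
      rw [← dOut_union E x disjoint_sdiff, union_sdiff_of_subset hBY]
    have a2 : dIn E x Y = dIn E x B + dIn E x (Y \ B) := by
      rw [← dIn_union E x disjoint_sdiff, union_sdiff_of_subset hBY]
    have a3 := dOut_add_dIn_le E h.ori x (Y \ B)
    have a4 : (Y \ B).card + B.card = Y.card := card_sdiff_add_card_eq_card hBY
    omega
  have h4 : (B.card : ℝ) * ((B.card : ℝ) - 1) ≤ 2 * (eb E B B : ℝ) + (Y.card : ℝ) * ((t : ℝ) - 1) := by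
    have s1 : ∑ x ∈ B, ((B.card : ℝ) - 1 - (dOut E x B : ℝ) - (dIn E x B : ℝ)) ≤
        ∑ x ∈ B, ((Y.card : ℝ) - 1 - (dOut E x Y : ℝ) - (dIn E x Y : ℝ)) := by
      refine sum_le_sum fun x hx => ?_
      have : ((B.card + dOut E x Y + dIn E x Y : ℕ) : ℝ) ≤ ((Y.card + dOut E x B + dIn E x B : ℕ) : ℝ) := by
        exact_mod_cast hsB x hx
      push_cast at this
      linarith
    have s2 : ∑ x ∈ B, ((Y.card : ℝ) - 1 - (dOut E x Y : ℝ) - (dIn E x Y : ℝ)) ≤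
        ∑ x ∈ Y, ((Y.card : ℝ) - 1 - (dOut E x Y : ℝ) - (dIn E x Y : ℝ)) := by
      refine sum_le_sum_of_subset_of_nonneg hBY fun x hx _ => ?_
      have : ((dOut E x Y + dIn E x Y + 1 : ℕ) : ℝ) ≤ (Y.card : ℝ) := by exact_mod_cast hsY x hx
      push_cast at this
      linarith
    have s3 : ∀ Z : Finset V, ∑ x ∈ Z, ((Z.card : ℝ) - 1 - (dOut E x Z : ℝ) - (dIn E x Z : ℝ)) =
        (Z.card : ℝ) * ((Z.card : ℝ) - 1) - 2 * (eb E Z Z : ℝ) := by
      intro Z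
      rw [sum_sub_distrib, sum_sub_distrib, sum_const, nsmul_eq_mul]
      have c1 : ∑ x ∈ Z, (dOut E x Z : ℝ) = (eb E Z Z : ℝ) := by
        unfold eb; push_cast; rfl
      have c2 : ∑ x ∈ Z, (dIn E x Z : ℝ) = (eb E Z Z : ℝ) := by
        rw [eb_eq_sum_dIn]; push_cast; rfl
      rw [c1, c2]
      ring
    rw [s3] at s1
    rw [s3] at s2
    nlinarith
  have hbk : (B.card : ℝ) ≤ (Y.card : ℝ) := by exact_mod_cast card_le_card hBY
  have hb : (B.card : ℝ) ≤ 2 / 10 ^ 3 * (Y.card : ℝ) := by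
    by_contra hh
    push Not at hh
    have a1 := h.tk
    have a2 : (2 / 10 ^ 3 * (Y.card : ℝ)) * (2 / 10 ^ 3 * (Y.card : ℝ)) ≤ (B.card : ℝ) * (B.card : ℝ) :=
      mul_self_le_mul_self (by positivity) hh.le
    have a3 : (B.card : ℝ) * 10 ^ 8 ≤ (Y.card : ℝ) * (Y.card : ℝ) :=
      mul_le_mul hbk hk (by positivity) (by positivity)
    have a4 : (Y.card : ℝ) * (t : ℝ) ≤ (Y.card : ℝ) * (1 / 10 ^ 8 * (Y.card : ℝ)) :=
      mul_le_mul_of_nonneg_left a1 (by positivity)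
    have a5 : (0 : ℝ) < (Y.card : ℝ) * (Y.card : ℝ) := by
      have : (0 : ℝ) < (Y.card : ℝ) := lt_of_lt_of_le (by norm_num) hk
      positivity
    nlinarith
  -- 3. `T \ X` is small
  have hTX : ((T \ X).card : ℝ) ≤ 21 / 10 ^ 4 * (Y.card : ℝ) := by
    have a1 : (T \ X).card + (T ∩ X).card = T.card := card_sdiff_add_card_inter T X
    have a2 : (X \ T).card + (X ∩ T).card = X.card := card_sdiff_add_card_inter X T
    rw [inter_comm] at a2
    have a3 : ((T \ X).card : ℝ) + ((T ∩ X).card : ℝ) = (T.card : ℝ) := by exact_mod_cast a1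
    have a4 : (B.card : ℝ) + ((T ∩ X).card : ℝ) = (X.card : ℝ) := by exact_mod_cast a2
    linarith
  -- 4. the rest
  set C := Y \ (X ∪ T) with hC
  have hXT : X ∪ T ⊆ Y := union_subset hX hTY
  have hcu : (X ∪ T).card = X.card + (T \ X).card := by
    rw [← union_sdiff_self_eq_union, card_union_of_disjoint disjoint_sdiff]
  have hc : (C.card : ℝ) + ((X.card : ℝ) + ((T \ X).card : ℝ)) = (Y.card : ℝ) := by
    have : C.card + (X ∪ T).card = Y.card := card_sdiff_add_card_eq_card hXT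
    rw [hcu] at this
    exact_mod_cast this
  have hCY : ∀ v ∈ C, v ∈ Y ∧ v ∉ X ∧ v ∉ T := fun v hv => by
    rw [hC, mem_sdiff, mem_union, not_or] at hv
    exact ⟨hv.1, hv.2.1, hv.2.2⟩
  have hYd : Y = X ∪ ((T \ X) ∪ C) := by
    rw [← union_assoc, union_sdiff_self_eq_union, hC, union_sdiff_of_subset hXT]
  have hd1 : Disjoint (T \ X) C := by
    rw [disjoint_left]
    intro v hv hv'
    exact (hCY v hv').2.2 (mem_sdiff.1 hv).1
  have hd2 : Disjoint X ((T \ X) ∪ C) := by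
    rw [disjoint_left]
    intro v hv hv'
    rcases mem_union.1 hv' with h' | h'
    · exact (mem_sdiff.1 h').2 hv
    · exact (hCY v h').2.1 hv
  have h5 : (C.card : ℝ) * (r : ℝ) ≤ (C.card : ℝ) * (1 / 10 ^ 6 * (Y.card : ℝ)) +
      (C.card : ℝ) * ((T \ X).card : ℝ) + (eb E C C : ℝ) := by
    have c1 : ∀ v ∈ C, (r : ℝ) ≤ 1 / 10 ^ 6 * (Y.card : ℝ) + ((T \ X).card : ℝ) + (dIn E v C : ℝ) := by
      intro v hv
      obtain ⟨v1, v2, v3⟩ := hCY v hv
      have a1 := h.inY v v1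
      have a2 : dIn E v Y = dIn E v X + (dIn E v (T \ X) + dIn E v C) := by
        conv_lhs => rw [hYd]
        rw [dIn_union E v hd2, dIn_union E v hd1]
      have a3 : (dIn E v Y : ℝ) = (dIn E v X : ℝ) + ((dIn E v (T \ X) : ℝ) + (dIn E v C : ℝ)) := by
        exact_mod_cast a2
      have a4 : (r : ℝ) ≤ (dIn E v Y : ℝ) := by exact_mod_cast a1
      have a5 : (dIn E v (T \ X) : ℝ) ≤ ((T \ X).card : ℝ) := by exact_mod_cast dIn_le_card E v _
      have a6 := hntT v v1 v3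
      linarith
    have c2 : ∑ _v ∈ C, (r : ℝ) ≤ ∑ v ∈ C, (1 / 10 ^ 6 * (Y.card : ℝ) + ((T \ X).card : ℝ) + (dIn E v C : ℝ)) :=
      sum_le_sum c1
    rw [sum_add_distrib, sum_const, sum_const, nsmul_eq_mul, nsmul_eq_mul] at c2
    have c3 : ∑ v ∈ C, (dIn E v C : ℝ) = (eb E C C : ℝ) := by
      rw [eb_eq_sum_dIn]; push_cast; rfl
    rw [c3] at c2
    linarith
  have h6 : 2 * (eb E C C : ℝ) + (C.card : ℝ) ≤ (C.card : ℝ) * (C.card : ℝ) := by
    exact_mod_cast eb_self E h.ori C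
  have hkpos : (0 : ℝ) < (Y.card : ℝ) := lt_of_lt_of_le (by norm_num) hk
  have hcpos : (0 : ℝ) < (C.card : ℝ) := by linarith
  have hxn : (0 : ℝ) ≤ ((T \ X).card : ℝ) := Nat.cast_nonneg _
  have h7 : (C.card : ℝ) * (r : ℝ) ≤ (C.card : ℝ) * (1 / 10 ^ 6 * (Y.card : ℝ) + ((T \ X).card : ℝ) +
      (C.card : ℝ) / 2) := by nlinarith
  have h8 := le_of_mul_le_mul_left h7 hcpos
  have h9 := h.tk
  linarith

end HX
end

section

set_option autoImplicit false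

namespace HX

open Finset Classical

/-- Hall's theorem for large sets -/
private theorem coreB_hall {ι V : Type} [Fintype ι] (N : ι → Finset V)
    (h : ∀ i, Fintype.card ι ≤ (N i).card) : ∃ u : ι → V, Function.Injective u ∧ ∀ i, u i ∈ N i := by
  refine (Finset.all_card_le_biUnion_card_iff_exists_injective N).1 fun S => ?_
  rcases S.eq_empty_or_nonempty with h0 | ⟨i, hi⟩
  · rw [h0, card_empty]
    exact Nat.zero_le _
  · exact (card_le_univ S).trans ((h i).trans (card_le_card (subset_biUnion_of_mem N hi)))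

private theorem coreB_eb {V : Type} [Fintype V] {E : V → V → Prop} {Y : Finset V} {m r t : ℕ}
    (h : CoreH E Y m r t) : 2 * (Y.card * m) ≤ 2 * eb E Yᶜ Y + Y.card * t := by
  have h1 : Y.card * (m + r) ≤ eb E Y Y + eb E Yᶜ Y := by
    rw [eb_eq_sum_dIn E Y Y, eb_eq_sum_dIn E Yᶜ Y, ← sum_add_distrib]
    calc Y.card * (m + r) = ∑ _x ∈ Y, (m + r) := by rw [sum_const, smul_eq_mul]
      _ ≤ _ := sum_le_sum fun x hx => by rw [← dIn_compl]; exact h.inA x hx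
  have h2 := eb_self E h.ori Y
  have h3 : Y.card * Y.card = Y.card * (2 * r + t) := by rw [← h.card]
  rw [h3] at h2
  nlinarith

private theorem coreB_pairs {V : Type} [Fintype V] {E : V → V → Prop} {Y : Finset V} {m r t : ℕ}
    (h : CoreH E Y m r t) (i : ℕ) (hi : i ≤ 5 * t) : ∃ P : Finset (V × V), P.card = i ∧
      (∀ p ∈ P, p.1 ∉ Y ∧ p.2 ∈ Y ∧ p.2 ∉ lowOut E Y ∧ E p.1 p.2) ∧
      Set.InjOn Prod.fst (P : Set (V × V)) ∧ Set.InjOn Prod.snd (P : Set (V × V)) := by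
  induction i with
  | zero => exact ⟨∅, card_empty, by simp, by simp, by simp⟩
  | succ i ih =>
    obtain ⟨P, hP1, hP2, hP3, hP4⟩ := ih (by omega)
    have hex : ∃ y v, y ∉ Y ∧ v ∈ Y ∧ v ∉ lowOut E Y ∧ E y v ∧ y ∉ P.image Prod.fst ∧ v ∉ P.image Prod.snd := by
      by_contra hcon
      push Not at hcon
      set P1 := P.image Prod.fst with hP1d
      set P2 := P.image Prod.snd with hP2d
      have c1 : P1.card ≤ i := hP1 ▸ card_image_le
      have c2 : P2.card ≤ i := hP1 ▸ card_image_le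
      have s1 : P1 ⊆ Yᶜ := by
        intro y hy
        obtain ⟨p, hp, rfl⟩ := mem_image.1 hy
        exact mem_compl.2 (hP2 p hp).1
      have s2 : lowOut E Y ∪ P2 ⊆ Y := by
        refine union_subset (filter_subset _ _) fun v hv => ?_
        obtain ⟨p, hp, rfl⟩ := mem_image.1 hv
        exact (hP2 p hp).2.1
      have e1 : eb E Yᶜ Y = eb E Yᶜ (lowOut E Y ∪ P2) + eb E Yᶜ (Y \ (lowOut E Y ∪ P2)) := by
        rw [← eb_union_right E Yᶜ disjoint_sdiff, union_sdiff_of_subset s2]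
      have e2 : eb E Yᶜ (Y \ (lowOut E Y ∪ P2)) = eb E P1 (Y \ (lowOut E Y ∪ P2)) +
          eb E (Yᶜ \ P1) (Y \ (lowOut E Y ∪ P2)) := by
        rw [← eb_union_left E disjoint_sdiff, union_sdiff_of_subset s1]
      have e3 : eb E (Yᶜ \ P1) (Y \ (lowOut E Y ∪ P2)) = 0 := by
        unfold eb
        refine sum_eq_zero fun y hy => ?_
        unfold dOut
        rw [card_eq_zero, filter_eq_empty_iff]
        intro v hv hyv
        rw [mem_sdiff, mem_compl] at hy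
        rw [mem_sdiff, mem_union, not_or] at hv
        exact hv.2.2 (hcon y v hy.1 hv.1 hv.2.1 hyv hy.2)
      have e4 : eb E P1 (Y \ (lowOut E Y ∪ P2)) ≤ i * Y.card :=
        (eb_le_mul E _ _).trans (Nat.mul_le_mul c1 (card_le_card sdiff_subset))
      have e5 : eb E Yᶜ (lowOut E Y ∪ P2) ≤ (5 * t + i) * m := by
        rw [eb_eq_sum_dIn]
        calc ∑ y ∈ lowOut E Y ∪ P2, dIn E y Yᶜ ≤ ∑ _y ∈ lowOut E Y ∪ P2, m :=
              sum_le_sum fun y hy => h.inO y (s2 hy)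
          _ = (lowOut E Y ∪ P2).card * m := by rw [sum_const, smul_eq_mul]
          _ ≤ (5 * t + i) * m := Nat.mul_le_mul_right _
              ((card_union_le _ _).trans (Nat.add_le_add (card_lowOut h) c2))
      have e6 := coreB_eb h
      have hi' : i ≤ 5 * t := by omega
      have e7 : 2 * (Y.card * m) ≤ 2 * ((5 * t + 5 * t) * m + 5 * t * Y.card) + Y.card * t := by
        have e8 : (5 * t + i) * m ≤ (5 * t + 5 * t) * m := Nat.mul_le_mul_right _ (by omega)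
        have e9 : i * Y.card ≤ 5 * t * Y.card := Nat.mul_le_mul_right _ hi'
        omega
      have e8 : (2 : ℝ) * ((Y.card : ℝ) * (m : ℝ)) ≤ 2 * ((5 * (t : ℝ) + 5 * t) * m + 5 * t * (Y.card : ℝ)) +
          (Y.card : ℝ) * t := by exact_mod_cast e7
      have ht : (1 : ℝ) ≤ t := by exact_mod_cast h.one
      have hk := h.tk
      have hm := h.tm
      have hm0 : (0 : ℝ) < m := by linarith
      have hk0 : (0 : ℝ) < (Y.card : ℝ) := by linarith
      have b1 : (t : ℝ) * m ≤ 1 / 10 ^ 8 * (Y.card : ℝ) * m := mul_le_mul_of_nonneg_right hk hm0.le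
      have b2 : (t : ℝ) * (Y.card : ℝ) ≤ (m : ℝ) / 1000 * (Y.card : ℝ) := mul_le_mul_of_nonneg_right hm hk0.le
      have b3 : 0 < (Y.card : ℝ) * m := mul_pos hk0 hm0
      nlinarith
    obtain ⟨y, v, h1, h2, h3, h4, h5, h6⟩ := hex
    have hn : (y, v) ∉ P := fun hc => h5 (mem_image.2 ⟨_, hc, rfl⟩)
    refine ⟨insert (y, v) P, by rw [card_insert_of_notMem hn, hP1], ?_, ?_, ?_⟩
    · intro p hp
      rcases mem_insert.1 hp with rfl | hp
      · exact ⟨h1, h2, h3, h4⟩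
      · exact hP2 p hp
    · rw [coe_insert, Set.injOn_insert (by simpa using hn)]
      refine ⟨hP3, fun hc => ?_⟩
      obtain ⟨p, hp, hpy⟩ := hc
      exact h5 (mem_image.2 ⟨p, hp, hpy⟩)
    · rw [coe_insert, Set.injOn_insert (by simpa using hn)]
      refine ⟨hP4, fun hc => ?_⟩
      obtain ⟨p, hp, hpy⟩ := hc
      exact h6 (mem_image.2 ⟨p, hp, hpy⟩)

/-- JOB HG-C2 (medium). Greedy choice of disjoint arcs entering `Y` and of in-neighbours for the vertices of small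
outdegree.

Proof. `W = lowOut E Y`, `s = max |W| 1 ≤ 5 t` (`card_lowOut`).
(1) `y`, `v`: by induction on `i ≤ s` there are injective `y : Fin i → V`, `v : Fin i → V`, `y j ∉ Y`, `v j ∈ Y \ W`,
`E (y j) (v j)`.  Step: `eb E Yᶜ Y = ∑_{x ∈ Y} dIn E x Yᶜ ≥ k (m + r) - eb E Y Y ≥ k m - k t / 2`; the arcs from `Yᶜ` to
`Y` which end in `W` or in a used `v j` are at most `(|W| + i) m ≤ 10 t m` (`inO`), those starting in a used `y j` are at
most `i k ≤ 5 t k`; and `k t / 2 + 10 t m + 5 t k < k m` since `t ≤ m/1000`, `t ≤ k/10⁸`.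
(2) `u`, `f`: if `W = ∅`: `s = 1`, `u 0` any vertex of `Y` different from `v 0`, `f` arbitrary.  If `W ≠ ∅`: `s = |W|`,
`f` an enumeration of `W`, and `u i` is chosen greedily in `Y \ W`, different from all `v j` and the used `u j`, with
`E (u i) (the element w of W with f w = i)`: there are `≥ r ≥ k/3` in-neighbours of `w` in `Y`, and
`|W| + 2 s ≤ 15 t < k/3`. -/
theorem core_choice {V : Type} [Fintype V] {E : V → V → Prop} {Y : Finset V} {m r t : ℕ}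
    (h : CoreH E Y m r t) :
    ∃ (s : ℕ) (y v u : Fin s → V) (f : V → Fin s), 1 ≤ s ∧ s ≤ 5 * t ∧
      Function.Injective y ∧ Function.Injective v ∧ Function.Injective u ∧
      (∀ i, y i ∉ Y ∧ E (y i) (v i)) ∧ (∀ i, v i ∈ Y ∧ v i ∉ lowOut E Y) ∧
      (∀ i, u i ∈ Y ∧ u i ∉ lowOut E Y) ∧ (∀ i j, u i ≠ v j) ∧
      Set.InjOn f (lowOut E Y : Set V) ∧ ∀ w ∈ lowOut E Y, E (u (f w)) w := by
  have hW := card_lowOut h
  have ht1 := h.one
  have ht : (1 : ℝ) ≤ t := by exact_mod_cast h.one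
  have hk := h.tk
  have hkk : (Y.card : ℝ) = 2 * (r : ℝ) + t := by exact_mod_cast h.card
  obtain ⟨s, hs⟩ : ∃ s, s = max (lowOut E Y).card 1 := ⟨_, rfl⟩
  have hs1 : 1 ≤ s := hs ▸ le_max_right _ _
  have hs5 : s ≤ 5 * t := by rw [hs]; exact max_le hW (by omega)
  obtain ⟨P, hP1, hP2, hP3, hP4⟩ := coreB_pairs h s hs5
  let e : {x // x ∈ P} ≃ Fin s := P.equivFinOfCardEq hP1
  have hy : Function.Injective fun i : Fin s => (e.symm i).1.1 := by
    intro i j hij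
    exact e.symm.injective (Subtype.ext (hP3 (e.symm i).2 (e.symm j).2 hij))
  have hv : Function.Injective fun i : Fin s => (e.symm i).1.2 := by
    intro i j hij
    exact e.symm.injective (Subtype.ext (hP4 (e.symm i).2 (e.symm j).2 hij))
  have hu : ∃ (u : Fin s → V) (f : V → Fin s), Function.Injective u ∧
      (∀ i, u i ∈ Y ∧ u i ∉ lowOut E Y) ∧ (∀ i j, u i ≠ (e.symm j).1.2) ∧
      Set.InjOn f (lowOut E Y : Set V) ∧ ∀ w ∈ lowOut E Y, E (u (f w)) w := by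
    rcases (lowOut E Y).eq_empty_or_nonempty with h0 | h0
    · have hs' : s = 1 := by rw [hs, h0, card_empty]; rfl
      have hc : Fintype.card (Fin s) ≤ (Y.erase (e.symm ⟨0, hs1⟩).1.2).card := by
        rw [Fintype.card_fin, card_erase_of_mem (hP2 _ (e.symm ⟨0, hs1⟩).2).2.1, hs']
        have : (2 : ℝ) ≤ (Y.card : ℝ) := by linarith
        have : 2 ≤ Y.card := by exact_mod_cast this
        omega
      obtain ⟨u, hu1, hu2⟩ := coreB_hall (fun _ : Fin s => Y.erase (e.symm ⟨0, hs1⟩).1.2) fun _ => hc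
      refine ⟨u, fun _ => ⟨0, hs1⟩, hu1, fun i => ⟨mem_of_mem_erase (hu2 i), by rw [h0]; simp⟩, ?_, ?_, ?_⟩
      · intro i j hij
        have hj : j = ⟨0, hs1⟩ := by
          apply Fin.ext
          have := j.2
          simp only
          omega
        rw [hj] at hij
        exact (mem_erase.1 (hu2 i)).1 hij
      · rw [h0]; simp
      · rw [h0]; simp
    · have hs' : s = (lowOut E Y).card := by
        rw [hs]
        exact max_eq_left (card_pos.2 h0)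
      let g : {x // x ∈ lowOut E Y} ≃ Fin s := (lowOut E Y).equivFinOfCardEq hs'.symm
      let V2 : Finset V := univ.image fun i : Fin s => (e.symm i).1.2
      have hV2 : V2.card ≤ s := by
        have := card_image_le (s := (univ : Finset (Fin s))) (f := fun i : Fin s => (e.symm i).1.2)
        rwa [card_univ, Fintype.card_fin] at this
      have hN : ∀ i : Fin s, Fintype.card (Fin s) ≤
          (((Y.filter fun x => E x (g.symm i).1) \ lowOut E Y) \ V2).card := by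
        intro i
        have h1 : r ≤ (Y.filter fun x => E x (g.symm i).1).card :=
          h.inY _ ((filter_subset _ _) (g.symm i).2)
        have h2 := le_card_sdiff (lowOut E Y) (Y.filter fun x => E x (g.symm i).1)
        have h3 := le_card_sdiff V2 ((Y.filter fun x => E x (g.symm i).1) \ lowOut E Y)
        rw [Fintype.card_fin]
        have h4 : (15 : ℝ) * t ≤ r := by linarith
        have h5 : 15 * t ≤ r := by exact_mod_cast h4
        omega
      obtain ⟨u, hu1, hu2⟩ := coreB_hall _ hN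
      refine ⟨u, fun w => if hw : w ∈ lowOut E Y then g ⟨w, hw⟩ else ⟨0, hs1⟩, hu1, ?_, ?_, ?_, ?_⟩
      · intro i
        have := hu2 i
        rw [mem_sdiff, mem_sdiff, mem_filter] at this
        exact ⟨this.1.1.1, this.1.2⟩
      · intro i j hij
        have := hu2 i
        rw [mem_sdiff] at this
        exact this.2 (mem_image.2 ⟨j, mem_univ _, hij.symm⟩)
      · intro w hw w' hw' hww
        rw [mem_coe] at hw hw'
        simp only [dif_pos hw, dif_pos hw'] at hww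
        exact congrArg Subtype.val (g.injective hww)
      · intro w hw
        simp only [dif_pos hw]
        have := hu2 (g ⟨w, hw⟩)
        rw [mem_sdiff, mem_sdiff, mem_filter, Equiv.symm_apply_apply] at this
        exact this.1.1.2
  obtain ⟨u, f, hu1, hu2, hu3, hu4, hu5⟩ := hu
  exact ⟨s, fun i => (e.symm i).1.1, fun i => (e.symm i).1.2, u, f, hs1, hs5, hy, hv, hu1,
    fun i => ⟨(hP2 _ (e.symm i).2).1, (hP2 _ (e.symm i).2).2.2.2⟩,
    fun i => ⟨(hP2 _ (e.symm i).2).2.1, (hP2 _ (e.symm i).2).2.2.1⟩, hu2, hu3, hu4, hu5⟩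

/-- JOB HG-C3 (medium; uses `card_lowOut`, `core_exp`). The block expander inside `Y`.

Proof. `W = lowOut E Y`, `O = (Y \ W) \ {u i}`, `I = (Y \ W) \ {v i}`, `|O| = |I| = k - |W| - s ≥ k - 10 t ≥ 0.999 k`.
`x ∈ O`: `dOut E x Y > k/4`, so `dOut E x I ≥ k/4 - 10 t ≥ k/8`.  `y ∈ I`: `dIn E y O ≥ r - 10 t ≥ k/8`.
`Z ⊆ O` with `|O|/16 ≤ |Z| ≤ (15/16)|O|`: `k/50 ≤ |Z| ≤ (49/50) k`; `core_exp` and `|Y \ I| ≤ 10 t ≤ 10⁻⁷ k`. -/
theorem core_bexp {V : Type} [Fintype V] {E : V → V → Prop} {Y : Finset V} {m r t s : ℕ}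
    (h : CoreH E Y m r t) (hs : s ≤ 5 * t) (v u : Fin s → V) (hv : Function.Injective v)
    (hu : Function.Injective u) (hvY : ∀ i, v i ∈ Y ∧ v i ∉ lowOut E Y)
    (huY : ∀ i, u i ∈ Y ∧ u i ∉ lowOut E Y) :
    BExp E ((Y \ lowOut E Y) \ univ.image u) ((Y \ lowOut E Y) \ univ.image v) (1 / 8)
      (1 / 10 ^ 6) := by
  have hW := card_lowOut h
  have ht : (1 : ℝ) ≤ t := by exact_mod_cast h.one
  have hk := h.tk
  have hkk : (Y.card : ℝ) = 2 * (r : ℝ) + t := by exact_mod_cast h.card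
  have hWY : lowOut E Y ⊆ Y := filter_subset _ _
  have key : ∀ w : Fin s → V, Function.Injective w → (∀ i, w i ∈ Y ∧ w i ∉ lowOut E Y) →
      (((Y \ lowOut E Y) \ univ.image w).card + (lowOut E Y).card + s = Y.card) ∧
      (Y \ ((Y \ lowOut E Y) \ univ.image w)).card ≤ 10 * t := by
    intro w hw hwY
    have h1 : univ.image w ⊆ Y \ lowOut E Y := by
      intro x hx
      obtain ⟨i, -, rfl⟩ := mem_image.1 hx
      exact mem_sdiff.2 (hwY i)
    have h2 : (univ.image w).card = s := by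
      rw [card_image_of_injective _ hw, card_univ, Fintype.card_fin]
    have h3 := card_sdiff_add_card_eq_card h1
    have h4 := card_sdiff_add_card_eq_card hWY
    have h5 : ((Y \ lowOut E Y) \ univ.image w).card + (lowOut E Y).card + s = Y.card := by omega
    have h6 : (Y \ lowOut E Y) \ univ.image w ⊆ Y := sdiff_subset.trans sdiff_subset
    have h7 := card_sdiff_add_card_eq_card h6
    exact ⟨h5, by omega⟩
  obtain ⟨o1, o2⟩ := key u hu huY
  obtain ⟨i1, i2⟩ := key v hv hvY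
  set O := (Y \ lowOut E Y) \ univ.image u with hO
  set I := (Y \ lowOut E Y) \ univ.image v with hI
  have oY : (O.card : ℝ) ≤ (Y.card : ℝ) := by
    have : O.card ≤ Y.card := by omega
    exact_mod_cast this
  have oY2 : (Y.card : ℝ) ≤ (O.card : ℝ) + 10 * t := by
    have : Y.card ≤ O.card + 10 * t := by omega
    exact_mod_cast this
  refine ⟨by omega, ?_, ?_, ?_⟩
  · intro x hx
    have h1 := dOut_le_sdiff E x Y I
    rw [hO, mem_sdiff, mem_sdiff] at hx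
    have h2 : ¬ 4 * dOut E x Y ≤ Y.card := fun hc => hx.1.2 (mem_filter.2 ⟨hx.1.1, hc⟩)
    have h3 : Y.card ≤ 4 * (dOut E x I + 10 * t) := by omega
    have h4 : (Y.card : ℝ) ≤ 4 * ((dOut E x I : ℝ) + 10 * t) := by exact_mod_cast h3
    linarith
  · intro y hy
    have h1 := dIn_le_sdiff E y Y O
    rw [hI, mem_sdiff, mem_sdiff] at hy
    have h2 := h.inY y hy.1.1
    have h3 : r ≤ dIn E y O + 10 * t := by omega
    have h4 : (r : ℝ) ≤ (dIn E y O : ℝ) + 10 * t := by exact_mod_cast h3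
    linarith
  · intro Z hZ h1 h2
    have h3 := core_exp h Z (hZ.trans (sdiff_subset.trans sdiff_subset)) (by linarith) (by linarith)
    have h4 : (Y.filter fun y => 1 / 10 ^ 6 * (Y.card : ℝ) ≤ (dIn E y Z : ℝ)) ⊆
        (I.filter fun y => 1 / 10 ^ 6 * (O.card : ℝ) ≤ (dIn E y Z : ℝ)) ∪ (Y \ I) := by
      intro y hy
      rw [mem_filter] at hy
      by_cases hyI : y ∈ I
      · exact mem_union_left _ (mem_filter.2 ⟨hyI, by linarith [hy.2]⟩)
      · exact mem_union_right _ (mem_sdiff.2 ⟨hy.1, hyI⟩)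
    have h5 := (card_le_card h4).trans (card_union_le _ _)
    have h6 : ((Y.filter fun y => 1 / 10 ^ 6 * (Y.card : ℝ) ≤ (dIn E y Z : ℝ)).card : ℝ) ≤
        ((I.filter fun y => 1 / 10 ^ 6 * (O.card : ℝ) ≤ (dIn E y Z : ℝ)).card : ℝ) + 10 * t := by
      exact_mod_cast h5.trans (Nat.add_le_add_left i2 _)
    linarith

end HX
end

section

set_option autoImplicit false

namespace HX

open Finset Classical

private theorem exc_cards {V : Type} [Fintype V] (S T : Finset V) :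
    ((S \ T).card : ℝ) + ((S ∩ T).card : ℝ) = (S.card : ℝ) ∧
    ((T \ S).card : ℝ) + ((S ∩ T).card : ℝ) = (T.card : ℝ) ∧
    (((S ∪ T)ᶜ).card : ℝ) + ((S \ T).card : ℝ) + ((T \ S).card : ℝ) + ((S ∩ T).card : ℝ) =
      (Fintype.card V : ℝ) := by
  have e1 : ((S \ T).card : ℝ) + ((S ∩ T).card : ℝ) = (S.card : ℝ) := by
    exact_mod_cast card_sdiff_add_card_inter S T
  have e2 : ((T \ S).card : ℝ) + ((S ∩ T).card : ℝ) = (T.card : ℝ) := by
    rw [inter_comm]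
    exact_mod_cast card_sdiff_add_card_inter T S
  have e3 : (((S ∪ T)ᶜ).card : ℝ) + ((S ∪ T).card : ℝ) = (Fintype.card V : ℝ) := by
    exact_mod_cast card_compl_add_card (S ∪ T)
  have e4 : ((S ∪ T).card : ℝ) + ((S ∩ T).card : ℝ) = (S.card : ℝ) + (T.card : ℝ) := by
    exact_mod_cast card_union_add_card_inter S T
  exact ⟨e1, e2, by linarith⟩

private theorem exc_npos {V : Type} [Fintype V] {E : V → V → Prop} {D p q : ℕ} {ε z : ℝ}
    {S T : Finset V} (h : Pair E D p q ε z S T) : (0 : ℝ) < (Fintype.card V : ℝ) := by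
  have h1 := h.zn
  by_contra h2
  have h3 : (Fintype.card V : ℝ) = 0 := le_antisymm (not_lt.1 h2) (Nat.cast_nonneg _)
  rw [h3, mul_zero] at h1
  linarith

private theorem exc_main {V : Type} [Fintype V] {E : V → V → Prop} {D p q : ℕ} {ε z : ℝ}
    {S T : Finset V} (h : Pair E D p q ε z S T) :
    ((S \ T).card : ℝ) ≤ ((T \ S).card : ℝ) + 5 * z * (Fintype.card V : ℝ) ∧
    (D : ℝ) ≤ (Fintype.card V : ℝ) - ((S \ T).card : ℝ) + 2 * z * (Fintype.card V : ℝ) ∧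
    ((S ∩ T).card : ℝ) / 2 + ((T \ S).card : ℝ) - 7 * z * (Fintype.card V : ℝ) ≤ (p : ℝ) ∧
    (((S ∪ T)ᶜ).card : ℝ) / 2 + ((T \ S).card : ℝ) - 7 * z * (Fintype.card V : ℝ) ≤ (q : ℝ) := by
  have hn := exc_npos h
  have hne : Nonempty V := Fintype.card_pos_iff.1 (by exact_mod_cast hn)
  have h1 : 100 * z * (Fintype.card V : ℝ) ≤ ε * (Fintype.card V : ℝ) :=
    mul_le_mul_of_nonneg_right h.zeps hn.le
  have hz0 : 0 ≤ z * (Fintype.card V : ℝ) := (mul_pos h.zpos hn).le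
  have h2 := h.s1
  have h3 := h.s2
  obtain ⟨t1, t2, t3, t4, t5⟩ := num_main h.hag S T z h.zpos h.zn h.e h.ts (by linarith) (by linarith)
  have hBB : (eb E (S \ T) (S \ T) : ℝ) ≤ z ^ 2 * (Fintype.card V : ℝ) ^ 2 := by
    have h1 : eb E (S \ T) (S \ T) ≤ eb E S Tᶜ := eb_mono E sdiff_subset fun v hv =>
      mem_compl.2 (mem_sdiff.1 hv).2
    have h2 : (eb E (S \ T) (S \ T) : ℝ) ≤ (eb E S Tᶜ : ℝ) := by exact_mod_cast h1
    exact h2.trans h.e
  exact ⟨t1, num_u1 h.hag (S \ T) z h.zpos hBB, t3, t4⟩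

/-- JOB HG-T2 (medium; uses `num_u1`, `num_main`). At least two of the three classes are large.

Proof. `a = |S ∩ T|`, `b = |S \ T|`, `c = |(S ∪ T)ᶜ|`, `d = |T \ S|`.  `a + b = |S| ≥ ε n/4`, `b + c = n - |T| ≥ ε n/4`.
`n - b + 2 z n ≥ D ≥ p + q ≥ (a + c)/2 + 2 d - 14 z n` (`num_u1` for `S \ T`, `num_main`), `b ≤ d + 5 z n`:
`b ≤ n/4 + 12 z n`, `a + c = n - b - d ≥ n - 2 b - z n ≥ n/2 - 25 z n ≥ n/4`.  As `ξ < ε/8` no two of `a`, `b`, `c` are
`≤ ξ n`. -/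
theorem two_big {V : Type} [Fintype V] {E : V → V → Prop} {D p q : ℕ} {ε z : ℝ}
    {S T : Finset V} (h : Pair E D p q ε z S T) (hε1 : ε ≤ 1 / 4) (ρ ξ : ℝ) (hξ : 16 * ξ ≤ ε)
    (ha : ρ * (Fintype.card V : ℝ) ≤ ((S ∩ T).card : ℝ) ∨
      ((S ∩ T).card : ℝ) ≤ ξ * (Fintype.card V : ℝ))
    (hb : ρ * (Fintype.card V : ℝ) ≤ ((S \ T).card : ℝ) ∨
      ((S \ T).card : ℝ) ≤ ξ * (Fintype.card V : ℝ))
    (hc : ρ * (Fintype.card V : ℝ) ≤ (((S ∪ T)ᶜ).card : ℝ) ∨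
      (((S ∪ T)ᶜ).card : ℝ) ≤ ξ * (Fintype.card V : ℝ)) :
    (ρ * (Fintype.card V : ℝ) ≤ ((S ∩ T).card : ℝ) ∧
      ρ * (Fintype.card V : ℝ) ≤ ((S \ T).card : ℝ)) ∨
    (ρ * (Fintype.card V : ℝ) ≤ ((S ∩ T).card : ℝ) ∧
      ρ * (Fintype.card V : ℝ) ≤ (((S ∪ T)ᶜ).card : ℝ)) ∨
    (ρ * (Fintype.card V : ℝ) ≤ ((S \ T).card : ℝ) ∧
      ρ * (Fintype.card V : ℝ) ≤ (((S ∪ T)ᶜ).card : ℝ)) := by
  have hn := exc_npos h
  obtain ⟨e1, e2, e3⟩ := exc_cards S T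
  obtain ⟨t1, t2, t3, t4⟩ := exc_main h
  have hD : (p : ℝ) + (q : ℝ) ≤ (D : ℝ) := by exact_mod_cast h.dpq
  have hts := h.ts
  have hs1 := h.s1
  have hs2 := h.s2
  have hz1 : 100 * z * (Fintype.card V : ℝ) ≤ ε * (Fintype.card V : ℝ) :=
    mul_le_mul_of_nonneg_right h.zeps hn.le
  have hε0 : 0 < ε := by have := h.zeps; have := h.zpos; linarith
  have hεn : 0 < ε * (Fintype.card V : ℝ) := mul_pos hε0 hn
  have hε2 : ε * (Fintype.card V : ℝ) ≤ 1 / 4 * (Fintype.card V : ℝ) :=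
    mul_le_mul_of_nonneg_right hε1 hn.le
  have hξ1 : 16 * ξ * (Fintype.card V : ℝ) ≤ ε * (Fintype.card V : ℝ) :=
    mul_le_mul_of_nonneg_right hξ hn.le
  rcases ha with ha | ha
  · rcases hb with hb | hb
    · exact Or.inl ⟨ha, hb⟩
    · rcases hc with hc | hc
      · exact Or.inr (Or.inl ⟨ha, hc⟩)
      · exfalso; linarith
  · rcases hb with hb | hb
    · rcases hc with hc | hc
      · exact Or.inr (Or.inr ⟨hb, hc⟩)
      · exfalso; linarith
    · exfalso; linarith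

/-- vertices of small outdegree -/
private theorem exc_few {V : Type} (E : V → V → Prop) (X Y : Finset V) (w : ℝ)
    (h : (X.card : ℝ) * (Y.card : ℝ) - w ≤ (eb E X Y : ℝ)) :
    ((X.filter fun v => (dOut E v Y : ℝ) < (Y.card : ℝ) / 2).card : ℝ) * ((Y.card : ℝ) / 2) ≤ w := by
  have h1 : (eb E X Y : ℝ) ≤ ∑ v ∈ X, ((Y.card : ℝ) -
      if (dOut E v Y : ℝ) < (Y.card : ℝ) / 2 then (Y.card : ℝ) / 2 else 0) := by
    unfold eb
    push_cast
    refine sum_le_sum fun v _ => ?_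
    split_ifs with h2
    · linarith
    · have : (dOut E v Y : ℝ) ≤ (Y.card : ℝ) := by exact_mod_cast dOut_le_card E v Y
      linarith
  rw [sum_sub_distrib, sum_const, nsmul_eq_mul, ← sum_filter, sum_const, nsmul_eq_mul] at h1
  linarith

private theorem exc_card_le {V : Type} (X Y Z : Finset V) (h : X ⊆ Y ∪ Z) :
    (X.card : ℝ) ≤ (Y.card : ℝ) + (Z.card : ℝ) := by
  exact_mod_cast (card_le_card h).trans (card_union_le Y Z)

private theorem exc_part {V : Type} [Fintype V] (E : V → V → Prop) (S T Y : Finset V) :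
    (eb E univ Y : ℝ) = (eb E S Y : ℝ) + (eb E (S ∪ T)ᶜ Y : ℝ) + (eb E (T \ S) Y : ℝ) := by
  have h1 : (univ : Finset V) = (S ∪ (S ∪ T)ᶜ) ∪ (T \ S) := by
    ext v
    simp only [mem_univ, mem_union, mem_compl, mem_sdiff, true_iff]
    tauto
  have h2 : Disjoint (S ∪ (S ∪ T)ᶜ) (T \ S) := by
    rw [disjoint_left]
    intro v hv hv'
    simp only [mem_union, mem_compl, mem_sdiff] at hv hv'
    tauto
  have h3 : Disjoint S (S ∪ T)ᶜ := by
    rw [disjoint_left]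
    intro v hv hv'
    simp only [mem_union, mem_compl] at hv'
    tauto
  rw [h1, eb_union_left E h2, eb_union_left E h3]
  push_cast
  ring

/-- lower bound for the number of arcs into `Y` -/
private theorem exc_into {V : Type} [Fintype V] {E : V → V → Prop} {D p q : ℕ}
    (h : Hag E D p q) (Y : Finset V) : (Y.card : ℝ) * (q : ℝ) ≤ (eb E univ Y : ℝ) := by
  have h1 : Y.card * q ≤ eb E univ Y := by
    rw [eb_eq_sum_dIn]
    calc Y.card * q = ∑ _v ∈ Y, q := by rw [sum_const, smul_eq_mul]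
      _ ≤ ∑ v ∈ Y, dIn E v univ := sum_le_sum fun v _ => h.inn v
  exact_mod_cast h1

private theorem exc_div {n c w t ρ ξ : ℝ} (hn : 0 < n) (hρ : 0 < ρ) (hc : ρ * n ≤ c) (hw : w * c ≤ t * n ^ 2)
    (hw0 : 0 ≤ w) (ht : t ≤ ξ * ρ) : w ≤ ξ * n := by
  have h1 : w * (ρ * n) ≤ w * c := mul_le_mul_of_nonneg_left hc hw0
  have h2 : t * n ^ 2 ≤ ξ * ρ * n ^ 2 := mul_le_mul_of_nonneg_right ht (by positivity)
  have h3 : w * (ρ * n) ≤ (ξ * n) * (ρ * n) := by nlinarith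
  exact le_of_mul_le_mul_right h3 (mul_pos hρ hn)

/-- JOB HG-T3 (hard; uses `num_main`). Few vertices outside `S` have small outdegree into `Tᶜ`.

Proof. `A = S ∩ T`, `B = S \ T`, `D' = T \ S`, `C = (S ∪ T)ᶜ`, sizes `a, b, d, c`; `Sᶜ = C ∪ D'`, `Tᶜ = B ∪ C`;
`num_main`: `q ≥ c/2 + d - 7 z n`; `eb E S Tᶜ ≤ z² n²`; `80 z ≤ ξ ρ`.
Case `c ≥ ρ n`.  `∑_{v ∈ C} dIn E v univ ≥ c (c/2 + d - 7zn)`, and `= eb E S C + eb E C C + eb E D' C` with
`eb E S C ≤ z² n²`, `eb E C C ≤ c²/2`: `eb E D' C ≥ c d - 8 z n²`; so at most `16 z n / ρ` vertices of `D'` have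
`dOut E v C < c/2`.  Also `eb E D' C ≤ c d`, so `eb E C C ≥ c²/2 - 8 z n²`; for `v ∈ C`
`dIn E v C ≥ c/2 - 7zn - dIn E v S` (`dIn E v D' ≤ d`), so `dOut E v C ≤ c/2 + 7zn + dIn E v S`
(`dOut_add_dIn_le`); with `Z = {v ∈ C | dOut E v C < c/4}`:
`c²/2 - 8zn² ≤ eb E C C ≤ |Z| c/4 + (c - |Z|) c/2 + 7 z n² + z² n²`, so `|Z| ≤ 64 z n / ρ`.  All other vertices of
`Sᶜ` have `dOut E v Tᶜ ≥ dOut E v C ≥ c/4 ≥ ρ n/8`.  Total `≤ 80 z n/ρ ≤ ξ n`.
Case `c ≤ ξ n`, `b ≥ ρ n`.  `∑_{v ∈ B} dIn E v univ ≥ b (d - 7zn)`, `= eb E S B + eb E C B + eb E D' B` with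
`eb E S B ≤ z² n²`, `eb E C B ≤ c b ≤ ξ n b`: `eb E D' B ≥ b d - 8zn² - ξ n b`; at most `16 z n/ρ + 2 ξ n` vertices of
`D'` have `dOut E v B < b/2`; together with `C` at most `3 ξ n + 16 z n/ρ ≤ 4 ξ n`. -/
theorem exc_out {V : Type} [Fintype V] {E : V → V → Prop} {D p q : ℕ} {ε z : ℝ}
    {S T : Finset V} (h : Pair E D p q ε z S T) (ρ ξ : ℝ) (hρ : 0 < ρ) (hρ1 : ρ ≤ 1) (hξ : 0 < ξ)
    (hz : 80 * z ≤ ξ * ρ)
    (hc : ρ * (Fintype.card V : ℝ) ≤ (((S ∪ T)ᶜ).card : ℝ) ∨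
      ((((S ∪ T)ᶜ).card : ℝ) ≤ ξ * (Fintype.card V : ℝ) ∧
        ρ * (Fintype.card V : ℝ) ≤ ((S \ T).card : ℝ))) :
    ((univ.filter fun v => v ∉ S ∧ (dOut E v Tᶜ : ℝ) < ρ * (Fintype.card V : ℝ) / 8).card : ℝ) ≤
      4 * ξ * (Fintype.card V : ℝ) := by
  have hn := exc_npos h
  obtain ⟨e1, e2, e3⟩ := exc_cards S T
  obtain ⟨t1, t2, t3, t4⟩ := exc_main h
  have hz0 := h.zpos
  have he := h.e
  have hqn : (q : ℝ) ≤ (Fintype.card V : ℝ) := by
    obtain ⟨v⟩ : Nonempty V := Fintype.card_pos_iff.1 (by exact_mod_cast hn)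
    have h1 : dIn E v univ ≤ Fintype.card V := (dIn_le_card E v univ).trans (le_of_eq card_univ)
    exact_mod_cast (h.hag.inn v).trans h1
  have hz1 : z ≤ 1 := by
    have h1 := h.zeps
    have h2 := h.hq
    have h3 : ε * (Fintype.card V : ℝ) ≤ 1 * (Fintype.card V : ℝ) := by linarith
    have h4 := le_of_mul_le_mul_right h3 hn
    linarith
  obtain ⟨n, hnn⟩ : ∃ n : ℝ, n = (Fintype.card V : ℝ) := ⟨_, rfl⟩
  obtain ⟨b, hb⟩ : ∃ b : ℝ, b = ((S \ T).card : ℝ) := ⟨_, rfl⟩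
  obtain ⟨c, hcc⟩ : ∃ c : ℝ, c = (((S ∪ T)ᶜ).card : ℝ) := ⟨_, rfl⟩
  obtain ⟨d, hd⟩ : ∃ d : ℝ, d = ((T \ S).card : ℝ) := ⟨_, rfl⟩
  have hb0 : 0 ≤ b := by rw [hb]; exact Nat.cast_nonneg _
  have hc0 : 0 ≤ c := by rw [hcc]; exact Nat.cast_nonneg _
  have hd0 : 0 ≤ d := by rw [hd]; exact Nat.cast_nonneg _
  have ha0 : (0 : ℝ) ≤ ((S ∩ T).card : ℝ) := Nat.cast_nonneg _
  rw [← hnn] at hn he hc e3 t4 ⊢
  rw [← hcc] at hc e3 t4
  rw [← hb] at hc e3
  rw [← hd] at e3 t4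
  have hcn : c ≤ n := by linarith
  have hbn : b ≤ n := by linarith
  have hzz : z ^ 2 * n ^ 2 ≤ z * n ^ 2 := mul_le_mul_of_nonneg_right (by nlinarith) (by positivity)
  have hzc : z * n * c ≤ z * n ^ 2 := by
    have := mul_le_mul_of_nonneg_left hcn (mul_pos hz0 hn).le
    nlinarith
  have hzb : z * n * b ≤ z * n ^ 2 := by
    have := mul_le_mul_of_nonneg_left hbn (mul_pos hz0 hn).le
    nlinarith
  have hsubC : (S ∪ T)ᶜ ⊆ Tᶜ := compl_subset_compl.2 subset_union_right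
  have hsubB : S \ T ⊆ Tᶜ := fun v hv => mem_compl.2 (mem_sdiff.1 hv).2
  rcases hc with hc | ⟨hc, hbr⟩
  · -- the class `C` is large
    have i1 := exc_into h.hag (S ∪ T)ᶜ
    rw [exc_part E S T, ← hcc] at i1
    have i2 : (eb E S (S ∪ T)ᶜ : ℝ) ≤ z ^ 2 * n ^ 2 := by
      have : (eb E S (S ∪ T)ᶜ : ℝ) ≤ (eb E S Tᶜ : ℝ) := by
        exact_mod_cast eb_mono E Subset.rfl hsubC
      linarith
    have i3 : (eb E (S ∪ T)ᶜ (S ∪ T)ᶜ : ℝ) ≤ c * c / 2 := by
      have h1 := eb_self E h.hag.ori (S ∪ T)ᶜ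
      have h2 : 2 * (eb E (S ∪ T)ᶜ (S ∪ T)ᶜ : ℝ) + c ≤ c * c := by
        rw [hcc]; exact_mod_cast h1
      linarith
    have i4 : (eb E (T \ S) (S ∪ T)ᶜ : ℝ) ≤ d * c := by
      rw [hd, hcc]
      exact_mod_cast eb_le_mul E (T \ S) (S ∪ T)ᶜ
    have i5 : c * (c / 2 + d - 7 * z * n) ≤ c * (q : ℝ) := mul_le_mul_of_nonneg_left t4 hc0
    -- first exceptional set
    have i6 := exc_few E (T \ S) (S ∪ T)ᶜ (8 * z * n ^ 2) (by
      rw [← hd, ← hcc]
      nlinarith)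
    rw [← hcc] at i6
    obtain ⟨Z1, hZ1⟩ : ∃ Z1 : Finset V,
        Z1 = (T \ S).filter fun v => (dOut E v (S ∪ T)ᶜ : ℝ) < c / 2 := ⟨_, rfl⟩
    rw [← hZ1] at i6
    -- second exceptional set
    obtain ⟨Z2, hZ2⟩ : ∃ Z2 : Finset V,
        Z2 = (S ∪ T)ᶜ.filter fun v => (dOut E v (S ∪ T)ᶜ : ℝ) < c / 4 := ⟨_, rfl⟩
    have i7 : (eb E (S ∪ T)ᶜ (S ∪ T)ᶜ : ℝ) ≤ ∑ v ∈ (S ∪ T)ᶜ, ((c / 2 + 7 * z * n) + (dIn E v S : ℝ) -
        if (dOut E v (S ∪ T)ᶜ : ℝ) < c / 4 then c / 4 else 0) := by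
      conv_lhs => unfold eb
      push_cast
      refine sum_le_sum fun v hv => ?_
      have hzn0 : 0 ≤ z * n := (mul_pos hz0 hn).le
      have hin0 : (0 : ℝ) ≤ (dIn E v S : ℝ) := Nat.cast_nonneg _
      split_ifs with h2
      · linarith
      · have k1 : (q : ℝ) ≤ (dIn E v S : ℝ) + (dIn E v (S ∪ T)ᶜ : ℝ) + (dIn E v (T \ S) : ℝ) := by
          have k2 := h.hag.inn v
          have k3 : dIn E v univ = dIn E v S + dIn E v Sᶜ := dIn_compl E v S
          have k4 : Sᶜ ⊆ (S ∪ T)ᶜ ∪ (T \ S) := by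
            intro w hw
            simp only [mem_union, mem_compl, mem_sdiff] at hw ⊢
            tauto
          have k5 := (dIn_mono E v k4).trans (dIn_union_le E v (S ∪ T)ᶜ (T \ S))
          have k6 : q ≤ dIn E v S + (dIn E v (S ∪ T)ᶜ + dIn E v (T \ S)) := by omega
          have k7 : (q : ℝ) ≤ (dIn E v S : ℝ) + ((dIn E v (S ∪ T)ᶜ : ℝ) + (dIn E v (T \ S) : ℝ)) := by
            exact_mod_cast k6
          linarith
        have k8 : (dIn E v (T \ S) : ℝ) ≤ d := by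
          rw [hd]
          exact_mod_cast dIn_le_card E v (T \ S)
        have k9 : (dOut E v (S ∪ T)ᶜ : ℝ) + (dIn E v (S ∪ T)ᶜ : ℝ) ≤ c := by
          rw [hcc]
          exact_mod_cast dOut_add_dIn_le E h.hag.ori v (S ∪ T)ᶜ
        linarith
    rw [sum_sub_distrib, sum_add_distrib, sum_const, nsmul_eq_mul, ← sum_filter, sum_const,
      nsmul_eq_mul, ← hZ2, ← hcc] at i7
    have i8 : (∑ v ∈ (S ∪ T)ᶜ, (dIn E v S : ℝ)) = (eb E S (S ∪ T)ᶜ : ℝ) := by
      rw [eb_eq_sum_dIn]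
      push_cast
      rfl
    rw [i8] at i7
    have i9 : (Z2.card : ℝ) * c ≤ 64 * z * n ^ 2 := by nlinarith
    have i10 : (Z1.card : ℝ) * c ≤ 16 * z * n ^ 2 := by nlinarith
    have i11 : ((Z1.card : ℝ) + (Z2.card : ℝ)) ≤ ξ * n := by
      refine exc_div hn hρ hc (t := 80 * z) ?_ (by positivity) hz
      nlinarith
    refine (exc_card_le _ Z1 Z2 ?_).trans (by nlinarith)
    intro v hv
    rw [mem_filter] at hv
    obtain ⟨-, hvS, hvd⟩ := hv
    have k1 : (dOut E v (S ∪ T)ᶜ : ℝ) ≤ (dOut E v Tᶜ : ℝ) := by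
      exact_mod_cast dOut_mono E v hsubC
    have hρn : 0 < ρ * n := mul_pos hρ hn
    rw [mem_union, hZ1, hZ2, mem_filter, mem_filter]
    by_cases hvT : v ∈ T
    · left
      exact ⟨mem_sdiff.2 ⟨hvT, hvS⟩, by linarith⟩
    · right
      refine ⟨?_, by linarith⟩
      simp only [mem_compl, mem_union]
      tauto
  · -- the class `B` is large
    have i1 := exc_into h.hag (S \ T)
    rw [exc_part E S T, ← hb] at i1
    have i2 : (eb E S (S \ T) : ℝ) ≤ z ^ 2 * n ^ 2 := by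
      have : (eb E S (S \ T) : ℝ) ≤ (eb E S Tᶜ : ℝ) := by
        exact_mod_cast eb_mono E Subset.rfl hsubB
      linarith
    have i3 : (eb E (S ∪ T)ᶜ (S \ T) : ℝ) ≤ c * b := by
      rw [hb, hcc]
      exact_mod_cast eb_le_mul E (S ∪ T)ᶜ (S \ T)
    have i4 : c * b ≤ ξ * n * b := mul_le_mul_of_nonneg_right hc hb0
    have i5 : b * (c / 2 + d - 7 * z * n) ≤ b * (q : ℝ) := mul_le_mul_of_nonneg_left t4 hb0
    have i51 : 0 ≤ b * c := mul_nonneg hb0 hc0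
    have i6 := exc_few E (T \ S) (S \ T) (8 * z * n ^ 2 + ξ * n * b) (by
      rw [← hd, ← hb]
      nlinarith)
    rw [← hb] at i6
    obtain ⟨Z3, hZ3⟩ : ∃ Z3 : Finset V,
        Z3 = (T \ S).filter fun v => (dOut E v (S \ T) : ℝ) < b / 2 := ⟨_, rfl⟩
    rw [← hZ3] at i6
    have i7 : (Z3.card : ℝ) - 2 * (ξ * n) ≤ ξ * n := by
      rcases le_or_gt 0 ((Z3.card : ℝ) - 2 * (ξ * n)) with h0 | h0
      · refine exc_div hn hρ hbr (t := 16 * z) ?_ h0 (by linarith)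
        nlinarith
      · have : 0 < ξ * n := mul_pos hξ hn
        linarith
    refine (exc_card_le _ Z3 (S ∪ T)ᶜ ?_).trans (by rw [← hcc]; linarith)
    intro v hv
    rw [mem_filter] at hv
    obtain ⟨-, hvS, hvd⟩ := hv
    have k1 : (dOut E v (S \ T) : ℝ) ≤ (dOut E v Tᶜ : ℝ) := by
      exact_mod_cast dOut_mono E v hsubB
    have hρn : 0 < ρ * n := mul_pos hρ hn
    rw [mem_union, hZ3, mem_filter]
    by_cases hvT : v ∈ T
    · left
      exact ⟨mem_sdiff.2 ⟨hvT, hvS⟩, by linarith⟩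
    · right
      simp only [mem_compl, mem_union]
      tauto

/-- JOB HG-T4 (easy; uses `exc_out`, `Pair.rev`). Reversed version: `exc_out` for `Pair.rev`
(`(Tᶜ ∪ Sᶜ)ᶜ = S ∩ T`, `Tᶜ \ Sᶜ = S \ T`; `dOut` of the reversed relation is `dIn`). -/
theorem exc_in {V : Type} [Fintype V] {E : V → V → Prop} {D p q : ℕ} {ε z : ℝ}
    {S T : Finset V} (h : Pair E D p q ε z S T) (ρ ξ : ℝ) (hρ : 0 < ρ) (hρ1 : ρ ≤ 1) (hξ : 0 < ξ)
    (hz : 80 * z ≤ ξ * ρ)
    (ha : ρ * (Fintype.card V : ℝ) ≤ ((S ∩ T).card : ℝ) ∨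
      (((S ∩ T).card : ℝ) ≤ ξ * (Fintype.card V : ℝ) ∧
        ρ * (Fintype.card V : ℝ) ≤ ((S \ T).card : ℝ))) :
    ((univ.filter fun v => v ∈ T ∧ (dIn E v S : ℝ) < ρ * (Fintype.card V : ℝ) / 8).card : ℝ) ≤
      4 * ξ * (Fintype.card V : ℝ) := by
  have h1 : (Tᶜ ∪ Sᶜ)ᶜ = S ∩ T := by
    ext v
    simp only [mem_compl, mem_union, mem_inter]
    tauto
  have h2 : Tᶜ \ Sᶜ = S \ T := by
    ext v
    simp only [mem_compl, mem_sdiff]
    tauto
  have h3 := exc_out h.rev ρ ξ hρ hρ1 hξ hz (by rw [h1, h2]; exact ha)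
  refine le_trans ?_ h3
  have h4 : (univ.filter fun v => v ∈ T ∧ (dIn E v S : ℝ) < ρ * (Fintype.card V : ℝ) / 8) ⊆
      univ.filter fun v => v ∉ Tᶜ ∧
        (dOut (fun x y => E y x) v (Sᶜ)ᶜ : ℝ) < ρ * (Fintype.card V : ℝ) / 8 := by
    intro v hv
    rw [mem_filter] at hv ⊢
    refine ⟨mem_univ _, by simpa using hv.2.1, ?_⟩
    rw [compl_compl]
    exact hv.2.2
  exact_mod_cast card_le_card h4

/-- JOB HG-T4 (easy). A vertex `v ∈ S` with `dOut E v T < ρ n/8` has `dOut E v Tᶜ ≥ ε n - ρ n/8 ≥ ε n/2`; there are at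
most `2 z² n / ε ≤ ξ n` of them since `eb E S Tᶜ ≤ z² n²`. -/
theorem exc_out2 {V : Type} [Fintype V] {E : V → V → Prop} {D p q : ℕ} {ε z : ℝ}
    {S T : Finset V} (h : Pair E D p q ε z S T) (hε : 0 < ε) (ρ ξ : ℝ) (hρ1 : ρ ≤ ε)
    (hz : 2 * z ^ 2 ≤ ξ * ε) :
    ((univ.filter fun v => v ∈ S ∧ (dOut E v T : ℝ) < ρ * (Fintype.card V : ℝ) / 8).card : ℝ) ≤
      ξ * (Fintype.card V : ℝ) := by
  have hn := exc_npos h
  obtain ⟨W, hW⟩ : ∃ W : Finset V,
      W = univ.filter fun v => v ∈ S ∧ (dOut E v T : ℝ) < ρ * (Fintype.card V : ℝ) / 8 := ⟨_, rfl⟩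
  rw [← hW]
  have hρn : ρ * (Fintype.card V : ℝ) ≤ ε * (Fintype.card V : ℝ) :=
    mul_le_mul_of_nonneg_right hρ1 hn.le
  have hεn : 0 < ε * (Fintype.card V : ℝ) := mul_pos hε hn
  have h1 : (W.card : ℝ) * (ε * (Fintype.card V : ℝ) / 2) ≤ (eb E S Tᶜ : ℝ) := by
    have h2 : (W.card : ℝ) * (ε * (Fintype.card V : ℝ) / 2) ≤ ∑ v ∈ W, (dOut E v Tᶜ : ℝ) := by
      rw [← nsmul_eq_mul, ← sum_const]
      refine sum_le_sum fun v hv => ?_
      rw [hW, mem_filter] at hv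
      have k1 : (p : ℝ) ≤ (dOut E v T : ℝ) + (dOut E v Tᶜ : ℝ) := by
        have k2 := h.hag.out v
        rw [dOut_compl E v T] at k2
        exact_mod_cast k2
      have k3 := h.hp
      have k4 := hv.2.2
      linarith
    refine h2.trans ?_
    have h3 : W ⊆ S := fun v hv => by
      rw [hW, mem_filter] at hv
      exact hv.2.1
    unfold eb
    push_cast
    exact sum_le_sum_of_subset_of_nonneg h3 fun _ _ _ => Nat.cast_nonneg _
  have h2 := h.e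
  refine exc_div hn hε (c := ε * (Fintype.card V : ℝ)) (t := 2 * z ^ 2) le_rfl ?_ (Nat.cast_nonneg _) hz
  nlinarith

/-- JOB HG-T4 (easy; `exc_out2` for `Pair.rev`). -/
theorem exc_in2 {V : Type} [Fintype V] {E : V → V → Prop} {D p q : ℕ} {ε z : ℝ}
    {S T : Finset V} (h : Pair E D p q ε z S T) (hε : 0 < ε) (ρ ξ : ℝ) (hρ1 : ρ ≤ ε)
    (hz : 2 * z ^ 2 ≤ ξ * ε) :
    ((univ.filter fun v => v ∉ T ∧ (dIn E v Sᶜ : ℝ) < ρ * (Fintype.card V : ℝ) / 8).card : ℝ) ≤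
      ξ * (Fintype.card V : ℝ) := by
  have h3 := exc_out2 h.rev hε ρ ξ hρ1 hz
  refine le_trans ?_ h3
  have h4 : (univ.filter fun v => v ∉ T ∧ (dIn E v Sᶜ : ℝ) < ρ * (Fintype.card V : ℝ) / 8) ⊆
      univ.filter fun v => v ∈ Tᶜ ∧
        (dOut (fun x y => E y x) v Sᶜ : ℝ) < ρ * (Fintype.card V : ℝ) / 8 := by
    intro v hv
    rw [mem_filter] at hv ⊢
    exact ⟨mem_univ _, mem_compl.2 hv.2.1, hv.2.2⟩
  exact_mod_cast card_le_card h4

end HX
end
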