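import Pool.Agent.Lib.MP_d16af7_co.Basic2

/-!
Exact degree sums (Lemma E): vertex covers of the arcs from `S` to `Tᶜ`.
-/

set_option autoImplicit false

namespace HX

open Finset Classical

section
variable {V : Type}

/-- arcs between `X` and `Y` covered by `U` -/
theorem le_cover (E : V → V → Prop) (X Y U : Finset V) (h : ∀ x ∈ X, ∀ y ∈ Y, E x y → x ∈ U ∨ y ∈ U) :
    eb E X Y ≤ eb E (X ∩ U) Y + eb E X (Y ∩ U) := by
  have h1 : X = (X ∩ U) ∪ (X \ U) := by rw [union_comm, sdiff_union_inter]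
  have h2 : eb E X Y = eb E (X ∩ U) Y + eb E (X \ U) Y := by
    conv_lhs => rw [h1]
    rw [eb_union_left E (disjoint_sdiff_inter X U).symm]
  have h3 : eb E (X \ U) Y ≤ eb E X (Y ∩ U) := by
    have h4 : eb E (X \ U) Y = eb E (X \ U) (Y ∩ U) := by
      unfold eb
      refine sum_congr rfl fun x hx => ?_
      unfold dOut
      congr 1
      ext y
      simp only [mem_filter, mem_inter]
      constructor
      · rintro ⟨hy, hxy⟩
        rcases h x (mem_sdiff.1 hx).1 y hy hxy with h5 | h5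
        · exact absurd h5 (mem_sdiff.1 hx).2
        · exact ⟨⟨hy, h5⟩, hxy⟩
      · rintro ⟨⟨hy, -⟩, hxy⟩
        exact ⟨hy, hxy⟩
    rw [h4]
    exact eb_mono E sdiff_subset (Subset.refl _)
  omega

theorem eb_le_out (E : V → V → Prop) (X Y : Finset V) (M : ℝ) (h : ∀ x ∈ X, (dOut E x Y : ℝ) ≤ M) :
    (eb E X Y : ℝ) ≤ (X.card : ℝ) * M := by
  unfold eb
  rw [Nat.cast_sum, ← nsmul_eq_mul, ← sum_const]
  exact sum_le_sum h

theorem eb_le_in (E : V → V → Prop) (X Y : Finset V) (M : ℝ) (h : ∀ y ∈ Y, (dIn E y X : ℝ) ≤ M) :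
    (eb E X Y : ℝ) ≤ (Y.card : ℝ) * M := by
  rw [eb_eq_sum_dIn, Nat.cast_sum, ← nsmul_eq_mul, ← sum_const]
  exact sum_le_sum h

/-- the average of the degrees over `B` -/
theorem deg_sum [Fintype V] {E : V → V → Prop} (h : ∀ x y, E x y → ¬ E y x) (D : ℕ) (hD : ∀ v, D ≤ dOut E v univ + dIn E v univ)
    (B : Finset V) : B.card * D + B.card * B.card ≤ B.card * Fintype.card V + 2 * eb E B B := by
  have h1 : ∀ v ∈ B, D + B.card ≤ Fintype.card V + (dOut E v B + dIn E v B) := by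
    intro v _
    have h2 := hD v
    have h3 := dOut_compl E v B
    have h4 := dIn_compl E v B
    have h5 := dOut_add_dIn_le E h v Bᶜ
    have h6 := card_compl_add_card B
    omega
  have h2 : ∑ v ∈ B, (D + B.card) ≤ ∑ v ∈ B, (Fintype.card V + (dOut E v B + dIn E v B)) := sum_le_sum h1
  have h3 : ∑ v ∈ B, dOut E v B = eb E B B := rfl
  have h4 : ∑ v ∈ B, dIn E v B = eb E B B := (eb_eq_sum_dIn E B B).symm
  rw [sum_const, smul_eq_mul, sum_add_distrib, sum_add_distrib, sum_const, smul_eq_mul, h3, h4] at h2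
  nlinarith

/-- the sum of the outdegrees over `A` -/
theorem out_sum [Fintype V] {E : V → V → Prop} (h : ∀ x y, E x y → ¬ E y x) (p : ℕ) (hp : ∀ v, p ≤ dOut E v univ) (A D1 R : Finset V)
    (hU : (univ : Finset V) ⊆ A ∪ D1 ∪ R) :
    2 * (A.card * p) + A.card ≤ A.card * A.card + 2 * (A.card * D1.card) + 2 * eb E A R := by
  have h1 : A.card * p ≤ eb E A univ := by
    unfold eb
    rw [← smul_eq_mul, ← sum_const]
    exact sum_le_sum fun v _ => hp v
  have h2 : eb E A univ ≤ eb E A A + eb E A D1 + eb E A R := by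
    unfold eb
    rw [← sum_add_distrib, ← sum_add_distrib]
    refine sum_le_sum fun v _ => ?_
    exact (dOut_mono E v hU).trans ((dOut_union_le E v _ _).trans
      (Nat.add_le_add_right (dOut_union_le E v _ _) _))
  have h3 := eb_self E h A
  have h4 := eb_le_mul E A D1
  omega

/-- two disjoint parts of `U` -/
theorem card_two_parts (U X Y : Finset V) (h : Disjoint X Y) : (X ∩ U).card + (Y ∩ U).card ≤ U.card := by
  rw [← card_union_of_disjoint (h.mono inter_subset_left inter_subset_left)]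
  exact card_le_card (union_subset inter_subset_right inter_subset_right)

end

/-- upper bound for `p` by the average over `S ∩ T` -/
private theorem lemEA_p {V : Type} [Fintype V] {E : V → V → Prop} {D p q : ℕ} (h : Hag E D p q)
    (S T U : Finset V) (M : ℝ) (h1 : ∀ v ∈ S, (dOut E v Tᶜ : ℝ) ≤ M)
    (h2 : ∀ v, v ∉ T → (dIn E v S : ℝ) ≤ M) (hU : ∀ x ∈ S, ∀ y, y ∉ T → E x y → x ∈ U ∨ y ∈ U)
    (ha : 16 * M ≤ ((S ∩ T).card : ℝ)) (ha1 : 1 ≤ (S ∩ T).card) (hM : 0 ≤ M) :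
    2 * (p : ℝ) + 1 ≤ ((S ∩ T).card : ℝ) + 2 * ((T \ S).card : ℝ) + (U.card : ℝ) / 8 := by
  have e1 := out_sum h.ori p h.out (S ∩ T) (T \ S) Tᶜ (by
    intro v _
    simp only [mem_union, mem_inter, mem_sdiff, mem_compl]
    tauto)
  have e2 := le_cover E (S ∩ T) Tᶜ U (fun x hx y hy hxy => hU x (mem_inter.1 hx).1 y (mem_compl.1 hy) hxy)
  have e3 := eb_le_out E (S ∩ T ∩ U) Tᶜ M (fun x hx => h1 x (mem_inter.1 (mem_inter.1 hx).1).1)
  have e4 : (eb E (S ∩ T) (Tᶜ ∩ U) : ℝ) ≤ ((Tᶜ ∩ U).card : ℝ) * M := eb_le_in E _ _ M fun y hy =>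
    le_trans (by exact_mod_cast dIn_mono E y inter_subset_left) (h2 y (mem_compl.1 (mem_inter.1 hy).1))
  have e5 := card_two_parts U (S ∩ T) Tᶜ (by
    rw [Finset.disjoint_left]
    intro v hv hv'
    exact (mem_compl.1 hv') (mem_inter.1 hv).2)
  have e6 : (eb E (S ∩ T) Tᶜ : ℝ) ≤ (U.card : ℝ) * M := by
    have f1 : (eb E (S ∩ T) Tᶜ : ℝ) ≤ (eb E (S ∩ T ∩ U) Tᶜ : ℝ) + (eb E (S ∩ T) (Tᶜ ∩ U) : ℝ) := by
      exact_mod_cast e2
    have f2 : ((S ∩ T ∩ U).card : ℝ) + ((Tᶜ ∩ U).card : ℝ) ≤ (U.card : ℝ) := by exact_mod_cast e5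
    have f3 := mul_le_mul_of_nonneg_right f2 hM
    linarith
  have e7 : 2 * (((S ∩ T).card : ℝ) * p) + ((S ∩ T).card : ℝ) ≤ ((S ∩ T).card : ℝ) * ((S ∩ T).card : ℝ) +
      2 * (((S ∩ T).card : ℝ) * ((T \ S).card : ℝ)) + 2 * (eb E (S ∩ T) Tᶜ : ℝ) := by exact_mod_cast e1
  have ha0 : (0 : ℝ) < ((S ∩ T).card : ℝ) := by exact_mod_cast ha1
  have hu0 : (0 : ℝ) ≤ (U.card : ℝ) := Nat.cast_nonneg _
  have e8 : (U.card : ℝ) * M ≤ (U.card : ℝ) * (((S ∩ T).card : ℝ) / 16) :=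
    mul_le_mul_of_nonneg_left (by linarith) hu0
  refine le_of_mul_le_mul_left ?_ ha0
  nlinarith

/-- upper bound for `q` by the average over the rest -/
private theorem lemEA_q {V : Type} [Fintype V] {E : V → V → Prop} {D p q : ℕ} (h : Hag E D p q)
    (S T U : Finset V) (M : ℝ) (h1 : ∀ v ∈ S, (dOut E v Tᶜ : ℝ) ≤ M)
    (h2 : ∀ v, v ∉ T → (dIn E v S : ℝ) ≤ M) (hU : ∀ x ∈ S, ∀ y, y ∉ T → E x y → x ∈ U ∨ y ∈ U)
    (hc : 16 * M ≤ (((S ∪ T)ᶜ).card : ℝ)) (hc1 : 1 ≤ ((S ∪ T)ᶜ).card) (hM : 0 ≤ M) :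
    2 * (q : ℝ) + 1 ≤ (((S ∪ T)ᶜ).card : ℝ) + 2 * ((T \ S).card : ℝ) + (U.card : ℝ) / 8 := by
  have h4 : Tᶜ ∩ Sᶜ = (S ∪ T)ᶜ := by
    ext v
    simp only [mem_inter, mem_compl, mem_union]
    tauto
  have h5 : Sᶜ \ Tᶜ = T \ S := by
    ext v
    simp only [mem_sdiff, mem_compl]
    tauto
  have e1 := lemEA_p h.rev Tᶜ Sᶜ U M (fun v hv => by
      rw [compl_compl]
      exact h2 v (mem_compl.1 hv)) (fun v hv => h1 v (by
      by_contra hc
      exact hv (mem_compl.2 hc))) (fun x hx y hy hxy => by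
      have hy' : y ∈ S := by
        by_contra hc
        exact hy (mem_compl.2 hc)
      exact (hU y hy' x (mem_compl.1 hx) hxy).symm) (by rw [h4]; exact hc) (by rw [h4]; exact hc1) hM
  rw [h4, h5] at e1
  exact e1

theorem lemEA_12 {V : Type} [Fintype V] {E : V → V → Prop} {D p q : ℕ} (h : Hag E D p q)
    (S T U : Finset V) (k : ℕ) (M : ℝ) (hk : 1 ≤ k) (hST : S.card = T.card + k) (hM : 0 ≤ M)
    (h1 : ∀ v ∈ S, (dOut E v Tᶜ : ℝ) ≤ M) (h2 : ∀ v, v ∉ T → (dIn E v S : ℝ) ≤ M)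
    (hU : ∀ x ∈ S, ∀ y, y ∉ T → E x y → x ∈ U ∨ y ∈ U)
    (hc : 16 * M ≤ (((S ∪ T)ᶜ).card : ℝ)) (hc1 : 1 ≤ ((S ∪ T)ᶜ).card)
    (hab : (16 * M ≤ ((S ∩ T).card : ℝ) ∧ 1 ≤ (S ∩ T).card) ∨
      (16 * M ≤ ((S \ T).card : ℝ) ∧ 1 ≤ (S \ T).card)) : k + 1 ≤ U.card := by
  by_contra hcon
  have huk : U.card ≤ k := by omega
  have huk' : (U.card : ℝ) ≤ k := by exact_mod_cast huk
  have hk' : (1 : ℝ) ≤ k := by exact_mod_cast hk
  -- sizes
  have s1 := card_sdiff_add_card_inter S T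
  have s2 := card_sdiff_add_card_inter T S
  rw [inter_comm T S] at s2
  have s3 := card_compl_add_card (S ∪ T)
  have s4 := card_union_add_card_inter S T
  have hn : (S ∩ T).card + (S \ T).card + (T \ S).card + ((S ∪ T)ᶜ).card = Fintype.card V := by omega
  have hbd : (S \ T).card = (T \ S).card + k := by omega
  have hn' : ((S ∩ T).card : ℝ) + ((S \ T).card : ℝ) + ((T \ S).card : ℝ) + (((S ∪ T)ᶜ).card : ℝ) =
      (Fintype.card V : ℝ) := by exact_mod_cast hn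
  have hbd' : ((S \ T).card : ℝ) = ((T \ S).card : ℝ) + k := by exact_mod_cast hbd
  have hsum : 3 * (Fintype.card V : ℝ) ≤ 2 * ((D : ℝ) + p + q) + 2 := by exact_mod_cast h.sum
  have hq := lemEA_q h S T U M h1 h2 hU hc hc1 hM
  have hu0 : (0 : ℝ) ≤ (U.card : ℝ) := Nat.cast_nonneg _
  rcases hab with ⟨ha, ha1⟩ | ⟨hb, hb1⟩
  · have hp := lemEA_p h S T U M h1 h2 hU ha ha1 hM
    by_cases hB : S \ T ⊆ U
    · have c1 : (S \ T).card ≤ U.card := card_le_card hB
      have c2 : (T \ S).card = 0 := by omega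
      have c2' : ((T \ S).card : ℝ) = 0 := by exact_mod_cast c2
      obtain ⟨v, -⟩ := card_pos.1 (show 0 < (S ∩ T).card by omega)
      have c3 := h.deg v
      have c4 := dOut_add_dIn_lt E h.ori (mem_univ v)
      rw [card_univ] at c4
      have c5 : D + 1 ≤ Fintype.card V := by omega
      have c5' : (D : ℝ) + 1 ≤ (Fintype.card V : ℝ) := by exact_mod_cast c5
      linarith
    · obtain ⟨x, hx, hxU⟩ := not_subset.1 hB
      have hx' := mem_sdiff.1 hx
      have c1 : dOut E x (S \ T) + dIn E x (S \ T) ≤ ((S \ T) ∩ U).card := by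
        have d1 : dOut E x (S \ T) = dOut E x ((S \ T) ∩ U) := by
          unfold dOut
          congr 1
          ext y
          simp only [mem_filter, mem_inter]
          constructor
          · rintro ⟨hy, hxy⟩
            rcases hU x hx'.1 y (mem_sdiff.1 hy).2 hxy with h5 | h5
            · exact absurd h5 hxU
            · exact ⟨⟨hy, h5⟩, hxy⟩
          · rintro ⟨⟨hy, -⟩, hxy⟩
            exact ⟨hy, hxy⟩
        have d2 : dIn E x (S \ T) = dIn E x ((S \ T) ∩ U) := by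
          unfold dIn
          congr 1
          ext y
          simp only [mem_filter, mem_inter]
          constructor
          · rintro ⟨hy, hxy⟩
            rcases hU y (mem_sdiff.1 hy).1 x hx'.2 hxy with h5 | h5
            · exact ⟨⟨hy, h5⟩, hxy⟩
            · exact absurd h5 hxU
          · rintro ⟨⟨hy, -⟩, hxy⟩
            exact ⟨hy, hxy⟩
        rw [d1, d2]
        exact dOut_add_dIn_le E h.ori x _
      have c2 := h.deg x
      have c3 := dOut_compl E x (S \ T)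
      have c4 := dIn_compl E x (S \ T)
      have c5 := dOut_add_dIn_le E h.ori x (S \ T)ᶜ
      have c6 := card_compl_add_card (S \ T)
      have c7 : ((S \ T) ∩ U).card ≤ U.card := card_le_card inter_subset_right
      have c8 : D + (S \ T).card ≤ Fintype.card V + U.card := by omega
      have c8' : (D : ℝ) + ((S \ T).card : ℝ) ≤ (Fintype.card V : ℝ) + (U.card : ℝ) := by exact_mod_cast c8
      linarith
  · have hb0 : (0 : ℝ) < ((S \ T).card : ℝ) := by exact_mod_cast hb1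
    -- the bound for D
    have hD : 2 * (D : ℝ) + 2 * ((S \ T).card : ℝ) ≤ 2 * (Fintype.card V : ℝ) + (U.card : ℝ) / 2 := by
      have e1 := deg_sum h.ori D h.deg (S \ T)
      have e2 := le_cover E (S \ T) (S \ T) U (fun x hx y hy hxy =>
        hU x (mem_sdiff.1 hx).1 y (mem_sdiff.1 hy).2 hxy)
      have e3 : (eb E ((S \ T) ∩ U) (S \ T) : ℝ) ≤ (((S \ T) ∩ U).card : ℝ) * M := eb_le_out E _ _ M
        fun x hx => le_trans (by exact_mod_cast dOut_mono E x fun v hv => mem_compl.2 (mem_sdiff.1 hv).2)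
          (h1 x (mem_sdiff.1 (mem_inter.1 hx).1).1)
      have e4 : (eb E (S \ T) ((S \ T) ∩ U) : ℝ) ≤ (((S \ T) ∩ U).card : ℝ) * M := eb_le_in E _ _ M
        fun y hy => le_trans (by exact_mod_cast dIn_mono E y sdiff_subset)
          (h2 y (mem_sdiff.1 (mem_inter.1 hy).1).2)
      have e5 : (((S \ T) ∩ U).card : ℝ) ≤ (U.card : ℝ) := by exact_mod_cast card_le_card inter_subset_right
      have e6 : (((S \ T) ∩ U).card : ℝ) * M ≤ (U.card : ℝ) * M := mul_le_mul_of_nonneg_right e5 hM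
      have e7 : (eb E (S \ T) (S \ T) : ℝ) ≤ 2 * ((U.card : ℝ) * M) := by
        have f1 : (eb E (S \ T) (S \ T) : ℝ) ≤ (eb E ((S \ T) ∩ U) (S \ T) : ℝ) +
            (eb E (S \ T) ((S \ T) ∩ U) : ℝ) := by exact_mod_cast e2
        linarith
      have e8 : (U.card : ℝ) * M ≤ (U.card : ℝ) * (((S \ T).card : ℝ) / 16) :=
        mul_le_mul_of_nonneg_left (by linarith) hu0
      have e9 : ((S \ T).card : ℝ) * D + ((S \ T).card : ℝ) * ((S \ T).card : ℝ) ≤
          ((S \ T).card : ℝ) * (Fintype.card V : ℝ) + 2 * (eb E (S \ T) (S \ T) : ℝ) := by exact_mod_cast e1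
      refine le_of_mul_le_mul_left ?_ hb0
      nlinarith
    by_cases hA : S ∩ T ⊆ U
    · -- average over B
      have e1 : (S \ T).card * p ≤ (S \ T).card * T.card + eb E (S \ T) Tᶜ := by
        unfold eb
        rw [← smul_eq_mul, ← smul_eq_mul, ← sum_const, ← sum_const, ← sum_add_distrib]
        refine sum_le_sum fun v _ => ?_
        have f1 := h.out v
        have f2 := dOut_compl E v T
        have f3 := dOut_le_card E v T
        omega
      have e2 := le_cover E (S \ T) Tᶜ U (fun x hx y hy hxy =>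
        hU x (mem_sdiff.1 hx).1 y (mem_compl.1 hy) hxy)
      have e3 : (eb E ((S \ T) ∩ U) Tᶜ : ℝ) ≤ (((S \ T) ∩ U).card : ℝ) * M := eb_le_out E _ _ M
        fun x hx => h1 x (mem_sdiff.1 (mem_inter.1 hx).1).1
      have e4 : (eb E (S \ T) (Tᶜ ∩ U) : ℝ) ≤ ((Tᶜ ∩ U).card : ℝ) * M := eb_le_in E _ _ M
        fun y hy => le_trans (by exact_mod_cast dIn_mono E y sdiff_subset)
          (h2 y (mem_compl.1 (mem_inter.1 hy).1))
      have e5 : (((S \ T) ∩ U).card : ℝ) ≤ (U.card : ℝ) := by exact_mod_cast card_le_card inter_subset_right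
      have e5' : ((Tᶜ ∩ U).card : ℝ) ≤ (U.card : ℝ) := by exact_mod_cast card_le_card inter_subset_right
      have e6 : (((S \ T) ∩ U).card : ℝ) * M ≤ (U.card : ℝ) * M := mul_le_mul_of_nonneg_right e5 hM
      have e6' : ((Tᶜ ∩ U).card : ℝ) * M ≤ (U.card : ℝ) * M := mul_le_mul_of_nonneg_right e5' hM
      have e8 : (U.card : ℝ) * M ≤ (U.card : ℝ) * (((S \ T).card : ℝ) / 16) :=
        mul_le_mul_of_nonneg_left (by linarith) hu0
      have e9 : ((S \ T).card : ℝ) * p ≤ ((S \ T).card : ℝ) * (T.card : ℝ) + (eb E (S \ T) Tᶜ : ℝ) := by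
        exact_mod_cast e1
      have e10 : (eb E (S \ T) Tᶜ : ℝ) ≤ (eb E ((S \ T) ∩ U) Tᶜ : ℝ) + (eb E (S \ T) (Tᶜ ∩ U) : ℝ) := by
        exact_mod_cast e2
      have e11 : (p : ℝ) ≤ (T.card : ℝ) + (U.card : ℝ) / 8 := by
        refine le_of_mul_le_mul_left ?_ hb0
        nlinarith
      have e12 : ((T \ S).card : ℝ) + ((S ∩ T).card : ℝ) = (T.card : ℝ) := by exact_mod_cast s2
      have e13 : ((S ∩ T).card : ℝ) ≤ (U.card : ℝ) := by exact_mod_cast card_le_card hA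
      linarith
    · -- average over A \ U
      obtain ⟨x, hx, hxU⟩ := not_subset.1 hA
      have a1 : 0 < ((S ∩ T) \ U).card := card_pos.2 ⟨x, mem_sdiff.2 ⟨hx, hxU⟩⟩
      have a1' : (0 : ℝ) < (((S ∩ T) \ U).card : ℝ) := by exact_mod_cast a1
      have e1 := out_sum h.ori p h.out ((S ∩ T) \ U) (((S ∩ T) ∩ U) ∪ (T \ S) ∪ (Tᶜ ∩ U)) (Tᶜ \ U) (by
        intro v _
        simp only [mem_union, mem_inter, mem_sdiff, mem_compl]
        tauto)
      have e2 : eb E ((S ∩ T) \ U) (Tᶜ \ U) = 0 := by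
        unfold eb
        refine sum_eq_zero fun y hy => ?_
        unfold dOut
        rw [card_eq_zero, filter_eq_empty_iff]
        intro v hv hyv
        rw [mem_sdiff, mem_inter] at hy
        rw [mem_sdiff, mem_compl] at hv
        rcases hU y hy.1.1 v hv.1 hyv with h5 | h5
        · exact hy.2 h5
        · exact hv.2 h5
      have e3 : (((S ∩ T) ∩ U) ∪ (T \ S) ∪ (Tᶜ ∩ U)).card ≤ ((S ∩ T) ∩ U).card + (T \ S).card +
          (Tᶜ ∩ U).card := (card_union_le _ _).trans (Nat.add_le_add_right (card_union_le _ _) _)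
      have e4 := card_two_parts U (S ∩ T) Tᶜ (by
        rw [Finset.disjoint_left]
        intro v hv hv'
        exact (mem_compl.1 hv') (mem_inter.1 hv).2)
      have e5 := card_sdiff_add_card_inter (S ∩ T) U
      rw [e2] at e1
      have e6 : 2 * p + 1 ≤ ((S ∩ T) \ U).card + 2 * (((S ∩ T) ∩ U) ∪ (T \ S) ∪ (Tᶜ ∩ U)).card := by
        refine Nat.le_of_mul_le_mul_left ?_ a1
        nlinarith
      have e7 : 2 * p + 1 ≤ (S ∩ T).card + 2 * (T \ S).card + 2 * U.card := by omega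
      have e7' : 2 * (p : ℝ) + 1 ≤ ((S ∩ T).card : ℝ) + 2 * ((T \ S).card : ℝ) + 2 * (U.card : ℝ) := by
        exact_mod_cast e7
      linarith

/-- **Lemma E.** Exact degree sums: every vertex cover of the arcs from `S` to `Tᶜ` has at least
`|S| - |T| + 1` vertices. -/
theorem cover_lower {V : Type} [Fintype V] {E : V → V → Prop} {D p q : ℕ} (h : Hag E D p q)
    (S T U : Finset V) (k : ℕ) (M : ℝ) (hk : 1 ≤ k) (hST : S.card = T.card + k) (hM : 0 ≤ M)
    (h1 : ∀ v ∈ S, (dOut E v Tᶜ : ℝ) ≤ M) (h2 : ∀ v, v ∉ T → (dIn E v S : ℝ) ≤ M)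
    (hU : ∀ x ∈ S, ∀ y, y ∉ T → E x y → x ∈ U ∨ y ∈ U)
    (hbig : ((16 * M ≤ ((S ∩ T).card : ℝ) ∧ 1 ≤ (S ∩ T).card) ∧
        16 * M ≤ ((S \ T).card : ℝ) ∧ 1 ≤ (S \ T).card) ∨
      ((16 * M ≤ ((S ∩ T).card : ℝ) ∧ 1 ≤ (S ∩ T).card) ∧
        16 * M ≤ (((S ∪ T)ᶜ).card : ℝ) ∧ 1 ≤ ((S ∪ T)ᶜ).card) ∨
      ((16 * M ≤ ((S \ T).card : ℝ) ∧ 1 ≤ (S \ T).card) ∧
        16 * M ≤ (((S ∪ T)ᶜ).card : ℝ) ∧ 1 ≤ ((S ∪ T)ᶜ).card)) : k + 1 ≤ U.card := by
  rcases hbig with ⟨ha, hb⟩ | ⟨ha, hc⟩ | ⟨hb, hc⟩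
  · have e1 : Tᶜ ∩ Sᶜ = (S ∪ T)ᶜ := by
      ext v
      simp only [mem_inter, mem_compl, mem_union]
      tauto
    have e2 : (Tᶜ ∪ Sᶜ)ᶜ = S ∩ T := by
      ext v
      simp only [mem_inter, mem_compl, mem_union]
      tauto
    have e3 : Tᶜ \ Sᶜ = S \ T := by
      ext v
      simp only [mem_sdiff, mem_compl]
      tauto
    have c1 := card_compl_add_card S
    have c2 := card_compl_add_card T
    refine lemEA_12 h.rev Tᶜ Sᶜ U k M hk (by omega) hM (fun v hv => by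
      rw [compl_compl]
      exact h2 v (mem_compl.1 hv)) (fun v hv => h1 v (by
      by_contra hc
      exact hv (mem_compl.2 hc))) (fun x hx y hy hxy => by
      have hy' : y ∈ S := by
        by_contra hc
        exact hy (mem_compl.2 hc)
      exact (hU y hy' x (mem_compl.1 hx) hxy).symm) (by rw [e2]; exact ha.1) (by rw [e2]; exact ha.2) (Or.inr ?_)
    rw [e3]
    exact hb
  · exact lemEA_12 h S T U k M hk hST hM h1 h2 hU hc.1 hc.2 (Or.inl ha)
  · exact lemEA_12 h S T U k M hk hST hM h1 h2 hU hc.1 hc.2 (Or.inr hb)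

end HX
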