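import Pool.Agent.Lib.MP_d16af7_co.Basic2
import Pool.Agent.Lib.MP_d16af7_co.Defs
import Pool.Agent.Lib.MP_d16af7_co.StrBase

section

set_option autoImplicit false

namespace HX

open Finset Classical

private theorem ga_chain {V : Type} {E : V → V → Prop} {Y : Finset V} {l : List V}
    (h : l.IsChain E) (hY : ∀ v ∈ l, v ∈ Y) : l.IsChain (fun x y => E x y ∧ y ∈ Y) := by
  induction l with
  | nil => exact List.isChain_nil
  | cons a l ih =>
    cases l with
    | nil => exact List.isChain_singleton a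
    | cons b l =>
      rw [List.isChain_cons_cons] at h ⊢
      exact ⟨⟨h.1, hY b (by simp)⟩, ih h.2 (fun v hv => hY v (List.mem_cons_of_mem _ hv))⟩

private theorem ga_tail {V : Type} {E : V → V → Prop} {Y : Finset V} {l : List V}
    (h : l.IsChain (fun x y => E x y ∧ y ∈ Y)) : ∀ v ∈ l.tail, v ∈ Y := by
  induction l with
  | nil => simp
  | cons a l ih =>
    cases l with
    | nil => simp
    | cons b l =>
      rw [List.isChain_cons_cons] at h
      intro v hv
      rw [List.tail_cons, List.mem_cons] at hv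
      rcases hv with rfl | hv
      · exact h.1.2
      · exact ih h.2 v hv

/-- the predecessor of the first element as a list -/
private def ga_h {V : Type} (π : V → V) (l : List V) : List V := (l.head?.map π).toList

private theorem ga_h_cons {V : Type} (π : V → V) (z : V) (t : List V) : ga_h π (z :: t) = [π z] := rfl

private theorem ga_mem_h {V : Type} {π : V → V} {l : List V} {v : V} :
    v ∈ ga_h π l ↔ ∃ z, l.head? = some z ∧ π z = v := by
  unfold ga_h
  rw [Option.mem_toList, Option.map_eq_some_iff]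

private theorem ga_perm {V : Type} (π : V → V) (L : List (List V)) :
    ((L.map fun l => ga_h π l ++ l).flatten).Perm ((L.flatMap (ga_h π)) ++ L.flatten) := by
  induction L with
  | nil => simp
  | cons l L ih =>
    rw [List.map_cons, List.flatten_cons, List.flatMap_cons, List.flatten_cons]
    have h1 : (ga_h π l ++ l ++ (L.map fun l => ga_h π l ++ l).flatten).Perm
        (ga_h π l ++ l ++ ((L.flatMap (ga_h π)) ++ L.flatten)) := ih.append_left _
    refine h1.trans ?_
    rw [List.append_assoc, List.append_assoc]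
    refine List.Perm.append_left _ ?_
    rw [← List.append_assoc, ← List.append_assoc]
    exact List.perm_append_comm.append_right _

private theorem ga_len {V : Type} (π : V → V) (L : List (List V)) (h : ∀ l ∈ L, l ≠ []) :
    (L.flatMap (ga_h π)).length = L.length := by
  induction L with
  | nil => simp
  | cons l L ih =>
    obtain ⟨z, t, rfl⟩ := List.exists_cons_of_ne_nil (h l List.mem_cons_self)
    rw [List.flatMap_cons, List.length_append, ih (fun l hl => h l (List.mem_cons_of_mem _ hl)),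
      ga_h_cons, List.length_singleton, List.length_cons, add_comm]

private theorem ga_single {V : Type} (l : List V) : (l.map fun v => [v]).flatten = l := by
  induction l with
  | nil => rfl
  | cons a l ih => rw [List.map_cons, List.flatten_cons, ih]; rfl

/-- JOB HG-S2 (medium; uses `pp_index`). If all arcs of the path partition `L` end in `Y` and `|L| = n - |Y|` then
no vertex of `Y` is a first element (the `n - |L|` vertices which are not first elements have a predecessor, so they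
are in `Y`; there are exactly `|Y|` of them). -/
theorem head_not_mem {V : Type} [Fintype V] (E : V → V → Prop) (Y : Finset V) (L : List (List V))
    (hL : PP (fun x y => E x y ∧ y ∈ Y) univ L) (hc : L.length + Y.card = Fintype.card V) :
    ∀ l ∈ L, ∀ z, l.head? = some z → z ∉ Y := by
  obtain ⟨h, g, hh, -, hinj, -, hcov, -⟩ := pp_index _ L hL
  intro l hl z hz hzY
  obtain ⟨i, rfl⟩ := List.mem_iff_get.1 hl
  have hiz : h i = z := by
    rw [hh i] at hz
    exact Option.some_inj.1 hz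
  have h1 : (univ : Finset V) ⊆ univ.image h ∪ Y := by
    intro v _
    rcases hcov v with ⟨j, hj⟩ | ⟨u, hu⟩
    · exact mem_union_left _ (mem_image.2 ⟨j, mem_univ _, hj⟩)
    · exact mem_union_right _ hu.2
  have h2 : (univ.image h).card = L.length := by
    rw [card_image_of_injective _ hinj, card_univ, Fintype.card_fin]
  have h3 := card_union_add_card_inter (univ.image h) Y
  have h4 : 0 < (univ.image h ∩ Y).card :=
    card_pos.2 ⟨z, mem_inter.2 ⟨mem_image.2 ⟨i, mem_univ _, hiz⟩, hzY⟩⟩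
  have h5 := card_le_card h1
  rw [card_univ] at h5
  omega

/-- JOB HG-S2 (medium). A path partition `L'` of `Y` together with distinct predecessors `π z ∉ Y` of the first
elements `z` shows that `Y` is good.

Proof. Take the lists `π z :: l` (`l ∈ L'` with first element `z`) and the singletons `[v]` for the vertices `v ∉ Y`
which are not of the form `π z`: the arcs end in `Y`, the number of lists is `n - |Y|`. -/
theorem good_of_pi {V : Type} [Fintype V] (E : V → V → Prop) (Y : Finset V) (L' : List (List V))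
    (hL' : PP E Y L') (π : V → V)
    (hπ : ∀ l ∈ L', ∀ z, l.head? = some z → π z ∉ Y ∧ E (π z) z)
    (hinj : ∀ l ∈ L', ∀ l' ∈ L', ∀ z z', l.head? = some z → l'.head? = some z' → π z = π z' →
      z = z') : Good E Y := by
  obtain ⟨hch, hnd, hmem⟩ := hL'
  obtain ⟨H, hH⟩ : ∃ H : List V, H = L'.flatMap (ga_h π) := ⟨_, rfl⟩
  have hmemH : ∀ v, v ∈ H ↔ ∃ l ∈ L', ∃ z, l.head? = some z ∧ π z = v := by
    intro v
    rw [hH, List.mem_flatMap]
    constructor
    · rintro ⟨l, hl, hv⟩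
      exact ⟨l, hl, ga_mem_h.1 hv⟩
    · rintro ⟨l, hl, hv⟩
      exact ⟨l, hl, ga_mem_h.2 hv⟩
  have hHY : ∀ v ∈ H, v ∉ Y := by
    intro v hv
    obtain ⟨l, hl, z, hz, rfl⟩ := (hmemH v).1 hv
    exact (hπ l hl z hz).1
  have hHnd : H.Nodup := by
    rw [hH, List.nodup_flatMap]
    refine ⟨fun l _ => ?_, ?_⟩
    · unfold ga_h
      cases l.head? <;> simp
    · have h1 := (List.nodup_flatten.1 hnd).2
      refine h1.imp_of_mem ?_
      intro l l' hl hl' hd
      show List.Disjoint (ga_h π l) (ga_h π l')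
      intro v hv hv'
      obtain ⟨z, hz, hzv⟩ := ga_mem_h.1 hv
      obtain ⟨z', hz', hzv'⟩ := ga_mem_h.1 hv'
      have hzz := hinj l hl l' hl' z z' hz hz' (hzv.trans hzv'.symm)
      subst hzz
      exact hd (List.mem_of_head? hz) (List.mem_of_head? hz')
  obtain ⟨R, hR⟩ : ∃ R : List V, R = (univ.filter fun v => v ∉ Y ∧ v ∉ H).toList := ⟨_, rfl⟩
  have hmemR : ∀ v, v ∈ R ↔ v ∉ Y ∧ v ∉ H := by
    intro v
    rw [hR, mem_toList, mem_filter]
    simp
  have hRnd : R.Nodup := by rw [hR]; exact nodup_toList _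
  obtain ⟨L, hLd⟩ : ∃ L : List (List V), L = (L'.map fun l => ga_h π l ++ l) ++ R.map fun v => [v] :=
    ⟨_, rfl⟩
  have hperm : L.flatten.Perm ((H ++ L'.flatten) ++ R) := by
    rw [hLd, List.flatten_append, ga_single, hH]
    exact (ga_perm π L').append_right _
  have hnd2 : ((H ++ L'.flatten) ++ R).Nodup := by
    rw [List.nodup_append', List.nodup_append']
    refine ⟨⟨hHnd, hnd, ?_⟩, hRnd, ?_⟩
    · intro v hv hv'
      exact hHY v hv ((hmem v).1 hv')
    · intro v hv hv'
      rw [List.mem_append] at hv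
      rcases hv with hv | hv
      · exact ((hmemR v).1 hv').2 hv
      · exact ((hmemR v).1 hv').1 ((hmem v).1 hv)
  have hall : ∀ v, v ∈ (H ++ L'.flatten) ++ R := by
    intro v
    rw [List.mem_append, List.mem_append]
    by_cases h1 : v ∈ Y
    · exact Or.inl (Or.inr ((hmem v).2 h1))
    · by_cases h2 : v ∈ H
      · exact Or.inl (Or.inl h2)
      · exact Or.inr ((hmemR v).2 ⟨h1, h2⟩)
  refine ⟨L, ⟨?_, hperm.nodup_iff.2 hnd2, fun v => ?_⟩, ?_⟩
  · intro l hl
    rw [hLd, List.mem_append, List.mem_map, List.mem_map] at hl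
    rcases hl with ⟨l', hl', rfl⟩ | ⟨v, -, rfl⟩
    · obtain ⟨z, t, rfl⟩ := List.exists_cons_of_ne_nil (hch l' hl').1
      refine ⟨by simp [ga_h_cons], ?_⟩
      rw [ga_h_cons, List.singleton_append, List.isChain_cons_cons]
      have hY : ∀ v ∈ z :: t, v ∈ Y := fun v hv =>
        (hmem v).1 (List.mem_flatten.2 ⟨_, hl', hv⟩)
      exact ⟨⟨(hπ _ hl' z rfl).2, hY z List.mem_cons_self⟩, ga_chain (hch _ hl').2 hY⟩
    · exact ⟨by simp, List.isChain_singleton v⟩
  · rw [hperm.mem_iff]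
    exact ⟨fun _ => mem_univ v, fun _ => hall v⟩
  · have h1 : ((H ++ L'.flatten) ++ R).length = Fintype.card V := by
      rw [← List.toFinset_card_of_nodup hnd2, ← card_univ]
      congr 1
      ext v
      rw [List.mem_toFinset]
      exact ⟨fun _ => mem_univ v, fun _ => hall v⟩
    have h2 : L'.flatten.length = Y.card := by
      rw [← List.toFinset_card_of_nodup hnd]
      congr 1
      ext v
      rw [List.mem_toFinset, hmem]
    have h3 : H.length = L'.length := by rw [hH]; exact ga_len π L' fun l hl => (hch l hl).1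
    rw [List.length_append, List.length_append, h2, h3] at h1
    rw [hLd, List.length_append, List.length_map, List.length_map]
    omega

/-- JOB HG-S2 (medium; uses `head_not_mem`). Conversely, if `Y \ {x}` is good there is a path partition `L1` of `Y`
such that all first elements `z ≠ x` have distinct predecessors `π z ∉ Y`.

Proof. Let `L` be as in `Good E (Y.erase x)`.  Every `l ∈ L` is `first :: rest` with `rest ⊆ Y.erase x` and
`first ∉ Y.erase x` (`head_not_mem`).  `L1` consists of the list with first element `x` (`x` is a first element, since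
arcs end in `Y.erase x`), and of the nonempty `rest`s of all other lists; for these `first ∉ Y` and
`π (first element of rest) = first`.  (`E x y ∧ y ∈ Y.erase x` implies `E x y`.) -/
theorem pi_of_good {V : Type} [Fintype V] (E : V → V → Prop) (Y : Finset V) (x : V) (hx : x ∈ Y)
    (h : Good E (Y.erase x)) :
    ∃ (L1 : List (List V)) (π : V → V), PP E Y L1 ∧
      (∀ l ∈ L1, ∀ z, l.head? = some z → z ≠ x → π z ∉ Y ∧ E (π z) z) ∧
      (∀ l ∈ L1, ∀ l' ∈ L1, ∀ z z', l.head? = some z → l'.head? = some z' → z ≠ x → z' ≠ x →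
        π z = π z' → z = z') := by
  obtain ⟨L, hL, hc⟩ := h
  have hhead := head_not_mem E (Y.erase x) L hL hc
  obtain ⟨hch, hnd, hmem⟩ := hL
  have hnd' := List.nodup_flatten.1 hnd
  -- a vertex lies in one list only
  have huniq : ∀ l ∈ L, ∀ l' ∈ L, ∀ v, v ∈ l → v ∈ l' → l = l' := by
    intro l hl l' hl' v hv hv'
    obtain ⟨i, rfl⟩ := List.mem_iff_get.1 hl
    obtain ⟨j, rfl⟩ := List.mem_iff_get.1 hl'
    by_contra hne
    have hij : i ≠ j := fun h => hne (by rw [h])
    have h1 := List.pairwise_iff_get.1 hnd'.2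
    rcases lt_or_gt_of_ne hij with h2 | h2
    · exact h1 i j h2 hv hv'
    · exact h1 j i h2 hv' hv
  obtain ⟨f, hf⟩ : ∃ f : List V → List V, f = fun l => if l.head? = some x then l else l.tail := ⟨_, rfl⟩
  have hfsub : ∀ l, (f l).Sublist l := by
    intro l
    rw [hf]
    show List.Sublist (if l.head? = some x then l else l.tail) l
    split_ifs
    · exact List.Sublist.refl l
    · exact List.tail_sublist l
  have hL1sub : ∀ L : List (List V), (((L.map f).filter (· ≠ [])).flatten).Sublist L.flatten := by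
    intro L
    induction L with
    | nil => simp
    | cons l L ih =>
      rw [List.map_cons, List.filter_cons, List.flatten_cons]
      split_ifs with h1
      · rw [List.flatten_cons]
        exact (hfsub l).append ih
      · exact ih.trans (List.sublist_append_right _ _)
  obtain ⟨L1, hL1⟩ : ∃ L1 : List (List V), L1 = (L.map f).filter (· ≠ []) := ⟨_, rfl⟩
  have hmemL1 : ∀ l1, l1 ∈ L1 ↔ l1 ≠ [] ∧ ∃ l ∈ L, f l = l1 := by
    intro l1
    rw [hL1, List.mem_filter, List.mem_map]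
    simp only [decide_eq_true_eq]
    tauto
  -- first elements of L1
  have hfirst : ∀ l1 ∈ L1, ∀ z, l1.head? = some z → z ≠ x →
      ∃ a t, (a :: z :: t) ∈ L ∧ a ≠ x := by
    intro l1 hl1 z hz hzx
    obtain ⟨h1, l, hl, rfl⟩ := (hmemL1 l1).1 hl1
    obtain ⟨a, t, rfl⟩ := List.exists_cons_of_ne_nil (hch l hl).1
    by_cases hax : a = x
    · exfalso
      subst hax
      rw [hf] at hz
      simp only [List.head?_cons, if_true] at hz
      exact hzx (Option.some_inj.1 hz).symm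
    · rw [hf] at hz
      simp only [List.head?_cons, Option.some_inj, if_neg hax, List.tail_cons] at hz
      obtain ⟨z', t', rfl⟩ : ∃ z' t', t = z' :: t' := by
        cases t with
        | nil => simp at hz
        | cons z' t' => exact ⟨z', t', rfl⟩
      rw [List.head?_cons, Option.some_inj] at hz
      subst hz
      exact ⟨a, t', hl, hax⟩
  obtain ⟨π, hπd⟩ : ∃ π : V → V, π = fun z => if h : ∃ a t, (a :: z :: t) ∈ L then h.choose else z :=
    ⟨_, rfl⟩
  have hπ : ∀ a z t, (a :: z :: t) ∈ L → π z = a := by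
    intro a z t hl
    have hex : ∃ a t, (a :: z :: t) ∈ L := ⟨a, t, hl⟩
    have h1 : π z = hex.choose := by
      rw [hπd]
      exact dif_pos hex
    obtain ⟨t', ht'⟩ := hex.choose_spec
    have h2 := huniq _ hl _ ht' z (by simp) (by simp)
    rw [h1]
    exact (List.cons.inj h2).1.symm
  refine ⟨L1, π, ⟨?_, ?_, ?_⟩, ?_, ?_⟩
  · intro l1 hl1
    obtain ⟨h1, l, hl, rfl⟩ := (hmemL1 l1).1 hl1
    refine ⟨h1, ?_⟩
    have h2 : l.IsChain E := (hch l hl).2.imp fun a b hab => hab.1
    rw [hf]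
    show List.IsChain E (if l.head? = some x then l else l.tail)
    split_ifs
    · exact h2
    · exact h2.tail
  · rw [hL1]
    exact (hL1sub L).nodup hnd
  · intro v
    constructor
    · intro hv
      obtain ⟨l1, hl1, hv1⟩ := List.mem_flatten.1 hv
      obtain ⟨h1, l, hl, rfl⟩ := (hmemL1 l1).1 hl1
      have htl := ga_tail (hch l hl).2
      rw [hf] at hv1
      by_cases hx1 : l.head? = some x
      · simp only [if_pos hx1] at hv1
        obtain ⟨a, t, rfl⟩ := List.exists_cons_of_ne_nil (hch l hl).1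
        rw [List.head?_cons, Option.some_inj] at hx1
        subst hx1
        rcases List.mem_cons.1 hv1 with rfl | hv2
        · exact hx
        · exact mem_of_mem_erase (htl v hv2)
      · simp only [if_neg hx1] at hv1
        exact mem_of_mem_erase (htl v hv1)
    · intro hv
      obtain ⟨l, hl, hvl⟩ := List.mem_flatten.1 ((hmem v).2 (mem_univ v))
      obtain ⟨a, t, rfl⟩ := List.exists_cons_of_ne_nil (hch l hl).1
      have htl := ga_tail (hch _ hl).2
      have hah := hhead _ hl a rfl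
      have hvf : v ∈ f (a :: t) := by
        rw [hf]
        show v ∈ (if (a :: t).head? = some x then (a :: t) else (a :: t).tail)
        split_ifs with h1
        · exact hvl
        · rcases List.mem_cons.1 hvl with rfl | hv2
          · exfalso
            rw [List.head?_cons, Option.some_inj] at h1
            exact hah (mem_erase.2 ⟨h1, hv⟩)
          · exact hv2
      rw [List.mem_flatten]
      exact ⟨f (a :: t), (hmemL1 _).2 ⟨List.ne_nil_of_mem hvf, _, hl, rfl⟩, hvf⟩
  · intro l1 hl1 z hz hzx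
    obtain ⟨a, t, hl, hax⟩ := hfirst l1 hl1 z hz hzx
    rw [hπ a z t hl]
    refine ⟨fun haY => hhead _ hl a rfl (mem_erase.2 ⟨hax, haY⟩), ?_⟩
    exact (List.isChain_cons_cons.1 (hch _ hl).2).1.1
  · intro l1 hl1 l2 hl2 z z' hz hz' hzx hzx' hzz
    obtain ⟨a, t, hl, -⟩ := hfirst l1 hl1 z hz hzx
    obtain ⟨a', t', hl', -⟩ := hfirst l2 hl2 z' hz' hzx'
    rw [hπ a z t hl, hπ a' z' t' hl'] at hzz
    subst hzz
    have h1 := huniq _ hl _ hl' a (by simp) (by simp)
    exact (List.cons.inj (List.cons.inj h1).2).1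

/-- JOB HG-S2 (easy). The empty set is good (singletons). -/
theorem good_empty {V : Type} [Fintype V] (E : V → V → Prop) : Good E ∅ := by
  refine good_of_pi E ∅ [] ⟨by simp, by simp, by simp⟩ id ?_ ?_
  · intro l hl
    simp at hl
  · intro l hl
    simp at hl

end HX
end

section

section

set_option autoImplicit false

namespace HX

open Finset Classical

/-- JOB HG-S4 (medium; uses `cyc_rotate`, `cut`; compare the proof of `two_block`). Cutting a cyclic list of `I` at the
marked vertices `Dm`.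

Proof. By `cyc_rotate` the cyclic list starts with some `d ∈ Dm`: `d :: l'`.  `cut` with `D = Dm`, `a = y = d` gives
`Q`, `L`; `LL = (φ d :: Q) :: L`.  `LL.flatten` is a permutation of
`φ d :: l' ++ d :: (l'.filter (· ∈ Dm)).map φ`, which is nodup with members `I ∪ φ '' Dm`; the first elements are
`φ d` and `φ x`, `x ∈ l' ∩ Dm`; the last elements are the elements of `l' ∩ Dm` and `d`. -/
theorem cut_pp {V : Type} (E : V → V → Prop) (I Dm : Finset V) (φ : V → V) (hD : Dm ⊆ I)
    (hne : Dm.Nonempty) (hφ : ∀ x, x ∉ Dm → φ x = x) (hinj : Set.InjOn φ (Dm : Set V))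
    (hout : ∀ x ∈ Dm, φ x ∉ I) (a : V) (l : List V) (hnd : (a :: l).Nodup)
    (hmem : ∀ v, v ∈ a :: l ↔ v ∈ I)
    (hch : List.IsChain (fun x y => E (φ x) y) (a :: (l ++ [a]))) :
    ∃ LL : List (List V), PP E (I ∪ Dm.image φ) LL ∧
      (∀ l ∈ LL, ∀ z, l.head? = some z → z ∈ Dm.image φ) ∧
      ∀ d ∈ Dm, ∃ l ∈ LL, l.getLast? = some d := by
  obtain ⟨d, hd⟩ := hne
  obtain ⟨l', hperm, hch'⟩ := cyc_rotate (fun x y => E (φ x) y) a l hch d
    ((hmem d).2 (hD hd))
  have hnd' : (d :: l').Nodup := hperm.nodup_iff.2 hnd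
  have hmem' : ∀ v, v ∈ d :: l' ↔ v ∈ I := fun v => by rw [hperm.mem_iff, hmem]
  obtain ⟨Q, L, hQ, hQch, hLch, hLh, hLl, hLp⟩ := cut E Dm φ hφ d hd l' d hch'
  set F : List V := l'.filter (· ∈ Dm) with hF
  have hFD : ∀ x ∈ F, x ∈ Dm := by
    intro x hx
    have := (List.mem_filter.1 hx).2
    simpa using this
  set LL : List (List V) := (φ d :: Q) :: L with hLL
  have hLLh : LL.map List.head? = (d :: F).map (fun x => some (φ x)) := by
    rw [hLL, List.map_cons, List.map_cons, hLh]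
    rfl
  have hLLl : LL.map List.getLast? = (F ++ [d]).map some := by
    rw [hLL, List.map_cons, ← hLl]
    congr 1
    obtain ⟨q, Q', rfl⟩ := List.exists_cons_of_ne_nil hQ
    exact List.getLast?_cons_cons
  have hperm2 : (LL.flatten).Perm ((d :: l') ++ (d :: F).map φ) := by
    have h1 : LL.flatten = φ d :: (Q ++ L.flatten) := by
      rw [hLL, List.flatten_cons]
      rfl
    rw [h1]
    refine (hLp.cons (φ d)).trans ?_
    refine ((List.perm_middle (l₁ := l')).cons (φ d)).trans ?_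
    refine (List.Perm.swap _ _ _).trans ?_
    rw [List.cons_append, List.map_cons]
    exact (List.perm_middle (l₁ := l')).symm.cons d
  have hmemF : ∀ x, x ∈ d :: F ↔ x ∈ Dm := by
    intro x
    constructor
    · intro hx
      rw [List.mem_cons] at hx
      rcases hx with rfl | hx
      · exact hd
      · exact hFD x hx
    · intro hx
      have h1 := (hmem' x).2 (hD hx)
      rw [List.mem_cons] at h1 ⊢
      rcases h1 with h1 | h1
      · exact Or.inl h1
      · exact Or.inr (List.mem_filter.2 ⟨h1, by simpa using hx⟩)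
  have hndF : (d :: F).Nodup := by
    refine hnd'.sublist ?_
    exact (List.filter_sublist).cons_cons d
  have hndLL : (LL.flatten).Nodup := by
    rw [hperm2.nodup_iff, List.nodup_append']
    refine ⟨hnd', ?_, ?_⟩
    · refine List.Nodup.map_on ?_ hndF
      intro x hx y hy h
      exact hinj (mem_coe.2 ((hmemF x).1 hx)) (mem_coe.2 ((hmemF y).1 hy)) h
    · intro x hx1 hx2
      rw [List.mem_map] at hx2
      obtain ⟨z, hz, rfl⟩ := hx2
      exact hout z ((hmemF z).1 hz) ((hmem' _).1 hx1)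
  have hmemLL : ∀ x, x ∈ LL.flatten ↔ x ∈ I ∪ Dm.image φ := by
    intro x
    rw [hperm2.mem_iff, List.mem_append, hmem', mem_union]
    refine or_congr Iff.rfl ?_
    rw [List.mem_map, mem_image]
    constructor
    · rintro ⟨z, hz, rfl⟩
      exact ⟨z, (hmemF z).1 hz, rfl⟩
    · rintro ⟨z, hz, rfl⟩
      exact ⟨z, (hmemF z).2 hz, rfl⟩
  have hhead : ∀ P ∈ LL, ∃ b ∈ Dm.image φ, P.head? = some b := by
    intro P hP
    have h1 : P.head? ∈ LL.map List.head? := List.mem_map_of_mem hP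
    rw [hLLh, List.mem_map] at h1
    obtain ⟨z, hz, hz2⟩ := h1
    exact ⟨φ z, mem_image_of_mem φ ((hmemF z).1 hz), hz2.symm⟩
  refine ⟨LL, ⟨?_, hndLL, hmemLL⟩, ?_, ?_⟩
  · intro P hP
    constructor
    · obtain ⟨b, _, hb2⟩ := hhead P hP
      rintro rfl
      simp at hb2
    · rw [hLL, List.mem_cons] at hP
      rcases hP with rfl | hP
      · exact hQch
      · exact hLch P hP
  · intro P hP z hz
    obtain ⟨b, hb, hb2⟩ := hhead P hP
    rw [hb2, Option.some_inj] at hz
    rw [← hz]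
    exact hb
  · intro x hx
    have h1 : some x ∈ LL.map List.getLast? := by
      rw [hLLl, List.mem_map]
      refine ⟨x, ?_, rfl⟩
      have h2 := (hmemF x).2 hx
      rw [List.mem_append, List.mem_singleton]
      rw [List.mem_cons] at h2
      exact h2.symm
    rw [List.mem_map] at h1
    obtain ⟨P, hP, hP2⟩ := h1
    exact ⟨P, hP, hP2⟩

/-- JOB HG-S4 (medium). Appending the vertices of `W` to the ends of the lists.

Proof. `LL' = LL.map (fun l => if h : ∃ w ∈ W, l.getLast? = some (f w) then l ++ [h.choose] else l)`; `w` is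
determined by the last element since `f` is injective on `W`, and by disjointness different lists get different
`w`. -/
theorem pp_append {V : Type} (E : V → V → Prop) (U W : Finset V) (hUW : Disjoint U W)
    (LL : List (List V)) (hLL : PP E U LL) (f : V → V) (hf : Set.InjOn f (W : Set V))
    (h : ∀ w ∈ W, E (f w) w ∧ ∃ l ∈ LL, l.getLast? = some (f w)) :
    ∃ LL' : List (List V), PP E (U ∪ W) LL' ∧
      ∀ l' ∈ LL', ∀ z, l'.head? = some z → ∃ l ∈ LL, l.head? = some z := by
  obtain ⟨h1, hnd, hmem⟩ := hLL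
  obtain ⟨hLLnd, hLLdis⟩ := List.nodup_flatten.1 hnd
  have hUsub : ∀ l ∈ LL, ∀ x ∈ l, x ∈ U := by
    intro l hl x hx
    exact (hmem x).1 (List.mem_flatten.2 ⟨l, hl, hx⟩)
  have hUW' : ∀ x, x ∈ U → x ∈ W → False := fun x hx hy => Finset.disjoint_left.1 hUW hx hy
  let g : List V → List V := fun l =>
    if h : ∃ w ∈ W, l.getLast? = some (f w) then l ++ [h.choose] else l
  have hg1 : ∀ l, (∃ w ∈ W, l.getLast? = some (f w) ∧ g l = l ++ [w]) ∨
      ((¬ ∃ w ∈ W, l.getLast? = some (f w)) ∧ g l = l) := by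
    intro l
    by_cases h : ∃ w ∈ W, l.getLast? = some (f w)
    · left
      refine ⟨h.choose, h.choose_spec.1, h.choose_spec.2, ?_⟩
      exact dif_pos h
    · right
      exact ⟨h, dif_neg h⟩
  have hgmem : ∀ l ∈ LL, ∀ x ∈ g l, x ∈ l ∨ (x ∈ W ∧ l.getLast? = some (f x)) := by
    intro l hl x hx
    rcases hg1 l with ⟨w, hw, hw2, hw3⟩ | ⟨_, hw3⟩
    · rw [hw3, List.mem_append, List.mem_singleton] at hx
      rcases hx with hx | rfl
      · exact Or.inl hx
      · exact Or.inr ⟨hw, hw2⟩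
    · rw [hw3] at hx
      exact Or.inl hx
  have hgsub : ∀ l x, x ∈ l → x ∈ g l := by
    intro l x hx
    rcases hg1 l with ⟨w, hw, hw2, hw3⟩ | ⟨_, hw3⟩
    · rw [hw3]
      exact List.mem_append_left _ hx
    · rw [hw3]
      exact hx
  refine ⟨LL.map g, ⟨?_, ?_, ?_⟩, ?_⟩
  · intro l' hl'
    rw [List.mem_map] at hl'
    obtain ⟨l, hl, rfl⟩ := hl'
    obtain ⟨hne, hch⟩ := h1 l hl
    rcases hg1 l with ⟨w, hw, hw2, hw3⟩ | ⟨_, hw3⟩
    · rw [hw3]
      refine ⟨by simp, ?_⟩
      rw [List.isChain_append]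
      refine ⟨hch, List.isChain_singleton w, ?_⟩
      intro x hx y hy
      rw [hw2, Option.mem_some_iff] at hx
      rw [List.head?_cons, Option.mem_some_iff] at hy
      rw [← hx, ← hy]
      exact (h w hw).1
    · rw [hw3]
      exact ⟨hne, hch⟩
  · rw [List.nodup_flatten]
    constructor
    · intro l' hl'
      rw [List.mem_map] at hl'
      obtain ⟨l, hl, rfl⟩ := hl'
      rcases hg1 l with ⟨w, hw, hw2, hw3⟩ | ⟨_, hw3⟩
      · rw [hw3, List.nodup_append']
        refine ⟨hLLnd l hl, List.nodup_singleton w, ?_⟩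
        intro x hx hy
        rw [List.mem_singleton] at hy
        rw [hy] at hx
        exact hUW' w (hUsub l hl w hx) hw
      · rw [hw3]
        exact hLLnd l hl
    · rw [List.pairwise_map]
      refine List.Pairwise.imp_of_mem ?_ hLLdis
      intro l1 l2 hl1 hl2 hdis x hx1 hx2
      rcases hgmem l1 hl1 x hx1 with h11 | ⟨h11, h12⟩
      · rcases hgmem l2 hl2 x hx2 with h21 | ⟨h21, h22⟩
        · exact hdis h11 h21
        · exact hUW' x (hUsub l1 hl1 x h11) h21
      · rcases hgmem l2 hl2 x hx2 with h21 | ⟨h21, h22⟩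
        · exact hUW' x (hUsub l2 hl2 x h21) h11
        · exact hdis (List.mem_of_getLast? h12) (List.mem_of_getLast? h22)
  · intro v
    rw [List.mem_flatten, mem_union]
    constructor
    · rintro ⟨l', hl', hv⟩
      rw [List.mem_map] at hl'
      obtain ⟨l, hl, rfl⟩ := hl'
      rcases hgmem l hl v hv with h2 | ⟨h2, _⟩
      · exact Or.inl (hUsub l hl v h2)
      · exact Or.inr h2
    · rintro (hv | hv)
      · have h2 := (hmem v).2 hv
        rw [List.mem_flatten] at h2
        obtain ⟨l, hl, hv2⟩ := h2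
        exact ⟨g l, List.mem_map_of_mem hl, hgsub l v hv2⟩
      · obtain ⟨_, l, hl, hl2⟩ := h v hv
        refine ⟨g l, List.mem_map_of_mem hl, ?_⟩
        rcases hg1 l with ⟨w, hw, hw2, hw3⟩ | ⟨hw, _⟩
        · have h3 : v = w := by
            rw [hl2, Option.some_inj] at hw2
            exact hf (mem_coe.2 hv) (mem_coe.2 hw) hw2
          rw [hw3, h3]
          simp
        · exact absurd ⟨v, hv, hl2⟩ hw
  · intro l' hl' z hz
    rw [List.mem_map] at hl'
    obtain ⟨l, hl, rfl⟩ := hl'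
    refine ⟨l, hl, ?_⟩
    obtain ⟨hne, _⟩ := h1 l hl
    rcases hg1 l with ⟨w, hw, hw2, hw3⟩ | ⟨_, hw3⟩
    · rw [hw3, List.head?_append_of_ne_nil _ hne] at hz
      exact hz
    · rw [hw3] at hz
      exact hz

end HX
end

section

set_option autoImplicit false

namespace HX

open Finset Classical

private lemma gm2_len {V : Type} [Fintype V] {F : V → V → Prop} {L : List (List V)}
    (hL : PP F univ L) : L.flatten.length = Fintype.card V := by
  rw [← List.toFinset_card_of_nodup hL.2.1, ← Finset.card_univ]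
  congr 1
  ext v
  rw [List.mem_toFinset, hL.2.2 v]

private lemma gm2_all_one {V : Type} (L : List (List V)) (h : ∀ l ∈ L, l.length ≤ 1) :
    L.flatten.length ≤ L.length := by
  induction L with
  | nil => simp
  | cons l L ih =>
    have h1 := h l List.mem_cons_self
    have h2 := ih fun l hl => h l (List.mem_cons_of_mem _ hl)
    rw [List.flatten_cons, List.length_append, List.length_cons]
    omega

private lemma gm2_step {V : Type} [Fintype V] {F : V → V → Prop} {L : List (List V)}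
    (hL : PP F univ L) (hlt : L.length < Fintype.card V) :
    ∃ L' : List (List V), PP F univ L' ∧ L'.length = L.length + 1 := by
  obtain ⟨l, hl, hl2⟩ : ∃ l ∈ L, 2 ≤ l.length := by
    by_contra hcon
    push Not at hcon
    have h1 := gm2_all_one L fun l hl => by
      have := hcon l hl
      omega
    rw [gm2_len hL] at h1
    omega
  have hp : L.Perm (l :: L.erase l) := List.perm_cons_erase hl
  obtain ⟨M, hM⟩ : ∃ M, M = L.erase l := ⟨_, rfl⟩
  rw [← hM] at hp
  obtain ⟨a, b, t, rfl⟩ : ∃ a b t, l = a :: b :: t := by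
    match l, hl2 with
    | a :: b :: t, _ => exact ⟨a, b, t, rfl⟩
  have hp4 := hp.flatten
  have hc := (hL.1 _ hl).2
  refine ⟨[a] :: (b :: t) :: M, ⟨?_, ?_, ?_⟩, ?_⟩
  · intro l' hl'
    rcases List.mem_cons.mp hl' with rfl | hl'
    · exact ⟨by simp, by simp⟩
    rcases List.mem_cons.mp hl' with rfl | hl'
    · exact ⟨by simp, (List.isChain_cons_cons.mp hc).2⟩
    · exact hL.1 l' (hp.mem_iff.mpr (List.mem_cons_of_mem _ hl'))
  · have h2 := hp4.nodup_iff.mp hL.2.1
    simpa using h2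
  · intro v
    rw [← hL.2.2 v, hp4.mem_iff]
    simp
  · rw [hp.length_eq]
    simp

private lemma gm2_iter {V : Type} [Fintype V] {F : V → V → Prop} (j : ℕ) : ∀ (d : ℕ)
    (L : List (List V)), PP F univ L → L.length + d + j = Fintype.card V →
    ∃ L' : List (List V), PP F univ L' ∧ L'.length + j = Fintype.card V := by
  intro d
  induction d with
  | zero => intro L hL h; exact ⟨L, hL, h⟩
  | succ d ih =>
    intro L hL h
    obtain ⟨L', hL', hlen⟩ := gm2_step hL (by omega)
    exact ih L' hL' (by omega)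

/-- JOB HG-GM2 (easy; uses `gallai_milgram`). If all independent sets have at most `n - j` elements then there is a
path partition with exactly `n - j` lists.

Proof. Start with the singletons (`univ.toList.map (fun v => [v])`); `gallai_milgram` gives a path partition with at
most `n - j` lists.  A path partition with fewer than `n` lists contains a list `a :: b :: l`; replace it by the two
lists `[a]`, `b :: l`; repeat until the number of lists is `n - j`. -/
theorem pp_exact {V : Type} [Fintype V] (F : V → V → Prop) (j : ℕ)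
    (h : ∀ I : Finset V, (∀ x ∈ I, ∀ y ∈ I, x ≠ y → ¬ F x y) → I.card + j ≤ Fintype.card V) :
    ∃ L : List (List V), PP F univ L ∧ L.length + j = Fintype.card V := by
  have h0 : PP F univ ((univ : Finset V).toList.map fun v => [v]) := by
    have e : ((univ : Finset V).toList.map fun v => [v]).flatten = (univ : Finset V).toList := by
      generalize (univ : Finset V).toList = l
      induction l with
      | nil => rfl
      | cons a l ih => simp [ih]
    refine ⟨?_, ?_, ?_⟩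
    · intro l hl
      obtain ⟨v, -, rfl⟩ := List.mem_map.mp hl
      exact ⟨by simp, by simp⟩
    · rw [e]
      exact Finset.nodup_toList _
    · intro v
      rw [e, Finset.mem_toList]
  obtain ⟨L', I, hL', -, -, hI, hcard⟩ := gallai_milgram F univ _ h0
  have h1 := h I hI
  exact gm2_iter j (Fintype.card V - j - L'.length) L' hL' (by omega)

end HX
end

section

set_option autoImplicit false

namespace HX

open Finset Classical

/-- JOB HG-S1 (easy). Setting of the small semidegree case: `D = n - 1 - m`, `q = m + r`.  Then `2 p ≥ n - 2 r`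
(from `Hag.sum`). -/
theorem two_p_ge {V : Type} [Fintype V] {E : V → V → Prop} {D p q m r : ℕ} (h : Hag E D p q)
    (hD : D + m + 1 = Fintype.card V) (hq : q = m + r) : Fintype.card V ≤ 2 * p + 2 * r := by
  have h1 := h.sum
  omega

/-- JOB HG-S1. `n p ≤ ∑ dOut = eb E univ univ ≤ n (n - 1) / 2` (`eb_self`), so `2 p ≤ n - 1`. -/
theorem two_p_lt {V : Type} [Fintype V] [Nonempty V] {E : V → V → Prop} {D p q : ℕ}
    (h : Hag E D p q) : 2 * p + 1 ≤ Fintype.card V := by
  have h1 := eb_self E h.ori (univ : Finset V)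
  have h2 : Fintype.card V * p ≤ eb E univ univ := by
    unfold eb
    rw [← smul_eq_mul, ← card_univ, ← sum_const]
    exact sum_le_sum fun x _ => h.out x
  rw [card_univ] at h1
  have h3 : 0 < Fintype.card V := Fintype.card_pos
  have h4 : Fintype.card V * (2 * p + 1) ≤ Fintype.card V * Fintype.card V := by
    calc Fintype.card V * (2 * p + 1) = 2 * (Fintype.card V * p) + Fintype.card V := by ring
      _ ≤ 2 * eb E univ univ + Fintype.card V := by omega
      _ ≤ _ := h1
  exact Nat.le_of_mul_le_mul_left h4 h3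

/-- JOB HG-S1. There are `m`, `r ≥ 1` with `D = n - 1 - m`, `q = m + r`.

Proof. `D + 1 ≤ n` (`dOut_add_dIn_lt` for `univ`), `m = n - 1 - D`; `Hag.sum` and `two_p_lt` give
`2 m + 1 ≤ 2 q`. -/
theorem exists_m_r {V : Type} [Fintype V] [Nonempty V] {E : V → V → Prop} {D p q : ℕ}
    (h : Hag E D p q) : ∃ m r : ℕ, D + m + 1 = Fintype.card V ∧ q = m + r ∧ 1 ≤ r := by
  obtain ⟨v⟩ := (inferInstance : Nonempty V)
  have h1 := dOut_add_dIn_lt E h.ori (mem_univ v)
  have h2 := h.deg v
  have h3 := h.sum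
  have h4 := two_p_lt h
  rw [card_univ] at h1
  refine ⟨Fintype.card V - 1 - D, q - (Fintype.card V - 1 - D), ?_, ?_, ?_⟩ <;> omega

/-- JOB HG-S1. An independent set has at most `m + 1` elements: its vertices have degree `≤ n - |I|`
(`dOut_compl`, `dIn_compl`, `dOut_add_dIn_le` for `Iᶜ`). -/
theorem indep_le {V : Type} [Fintype V] {E : V → V → Prop} {D p q m : ℕ} (h : Hag E D p q)
    (hD : D + m + 1 = Fintype.card V) (I : Finset V) (hI : ∀ x ∈ I, ∀ y ∈ I, x ≠ y → ¬ E x y) :
    I.card ≤ m + 1 := by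
  rcases I.eq_empty_or_nonempty with h0 | ⟨x, hx⟩
  · rw [h0, card_empty]
    exact Nat.zero_le _
  · have h1 : dOut E x I = 0 := by
      unfold dOut
      rw [card_eq_zero, filter_eq_empty_iff]
      intro y hy hxy
      refine hI x hx y hy ?_ hxy
      rintro rfl
      exact h.ori _ _ hxy hxy
    have h2 : dIn E x I = 0 := by
      unfold dIn
      rw [card_eq_zero, filter_eq_empty_iff]
      intro y hy hyx
      refine hI y hy x hx ?_ hyx
      rintro rfl
      exact h.ori _ _ hyx hyx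
    have h3 := h.deg x
    have h4 := dOut_compl E x I
    have h5 := dIn_compl E x I
    have h6 := dOut_add_dIn_le E h.ori x Iᶜ
    rw [card_compl] at h6
    have h7 : I.card ≤ Fintype.card V := card_le_univ I
    omega

/-- JOB HG-S1. There are few vertices of small indegree.

Proof. `∑_{v ∈ Z} dOut ≥ |Z| (D - n/20)`, `∑_{v ∉ Z} dOut ≥ (n - |Z|) p ≥ (n - |Z|)(n/2 - r)`,
`∑ dOut ≤ (n² - n)/2`; so `|Z| (n/2 - n/20 - 1 - m + r) ≤ r n - n/2`.  Here `r ≥ 1` (`two_p_ge`, `two_p_lt`) and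
`m ≤ n/10`, so the bracket is at least `n/3`, and `|Z| ≤ 3 r ≤ 3 ε n`. -/
theorem card_low {V : Type} [Fintype V] {E : V → V → Prop} {D p q m r : ℕ} (h : Hag E D p q)
    (hD : D + m + 1 = Fintype.card V) (hq : q = m + r) (ε : ℝ) (hε : ε ≤ 1 / 10)
    (hqε : (q : ℝ) ≤ ε * (Fintype.card V : ℝ)) (Z : Finset V)
    (hZ : ∀ v ∈ Z, (dIn E v univ : ℝ) ≤ (Fintype.card V : ℝ) / 20) :
    (Z.card : ℝ) ≤ 3 * ε * (Fintype.card V : ℝ) := by
  rcases isEmpty_or_nonempty V with hV | hV
  · have h0 : Z = ∅ := Finset.eq_empty_of_isEmpty Z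
    have h1 : Fintype.card V = 0 := Fintype.card_eq_zero
    rw [h0, h1]
    simp
  have hge := two_p_ge h hD hq
  have hlt := two_p_lt h
  have hr : 1 ≤ r := by omega
  have h1 := eb_self E h.ori (univ : Finset V)
  have h2 : eb E univ univ = ∑ v ∈ Z, dOut E v univ + ∑ v ∈ Zᶜ, dOut E v univ := by
    unfold eb
    rw [← sum_add_sum_compl Z]
  have h3 : (Z.card : ℝ) * ((D : ℝ) - (Fintype.card V : ℝ) / 20) ≤
      ((∑ v ∈ Z, dOut E v univ : ℕ) : ℝ) := by
    rw [Nat.cast_sum, ← nsmul_eq_mul, ← sum_const]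
    refine sum_le_sum fun v hv => ?_
    have h4 := hZ v hv
    have h5 : (D : ℝ) ≤ (dOut E v univ : ℝ) + (dIn E v univ : ℝ) := by exact_mod_cast h.deg v
    linarith
  have h6 : ((Fintype.card V : ℝ) - (Z.card : ℝ)) * (p : ℝ) ≤ ((∑ v ∈ Zᶜ, dOut E v univ : ℕ) : ℝ) := by
    have h7 : ((Zᶜ.card : ℕ) : ℝ) = (Fintype.card V : ℝ) - (Z.card : ℝ) := by
      rw [card_compl, Nat.cast_sub (card_le_univ Z)]
    rw [← h7, Nat.cast_sum, ← nsmul_eq_mul, ← sum_const]
    refine sum_le_sum fun v _ => ?_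
    exact_mod_cast h.out v
  rw [card_univ] at h1
  have h8 : 2 * (((∑ v ∈ Z, dOut E v univ : ℕ) : ℝ) + ((∑ v ∈ Zᶜ, dOut E v univ : ℕ) : ℝ)) +
      (Fintype.card V : ℝ) ≤ (Fintype.card V : ℝ) * (Fintype.card V : ℝ) := by
    rw [h2] at h1
    exact_mod_cast h1
  have hDr : (D : ℝ) + (m : ℝ) + 1 = (Fintype.card V : ℝ) := by exact_mod_cast hD
  have hqr : (q : ℝ) = (m : ℝ) + (r : ℝ) := by exact_mod_cast hq
  have hrr : (1 : ℝ) ≤ (r : ℝ) := by exact_mod_cast hr
  have hgr : (Fintype.card V : ℝ) ≤ 2 * (p : ℝ) + 2 * (r : ℝ) := by exact_mod_cast hge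
  have hZn : (Z.card : ℝ) ≤ (Fintype.card V : ℝ) := by exact_mod_cast card_le_univ Z
  have hn : (0 : ℝ) < (Fintype.card V : ℝ) := by exact_mod_cast Fintype.card_pos
  have hm0 : (0 : ℝ) ≤ (m : ℝ) := Nat.cast_nonneg m
  have hz0 : (0 : ℝ) ≤ (Z.card : ℝ) := Nat.cast_nonneg _
  have hεn : ε * (Fintype.card V : ℝ) ≤ 1 / 10 * (Fintype.card V : ℝ) := mul_le_mul_of_nonneg_right hε hn.le
  have hmn : (m : ℝ) ≤ 1 / 10 * (Fintype.card V : ℝ) := by linarith
  have h9 : ((Fintype.card V : ℝ) - (Z.card : ℝ)) * ((Fintype.card V : ℝ) - 2 * (r : ℝ)) ≤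
      ((Fintype.card V : ℝ) - (Z.card : ℝ)) * (2 * (p : ℝ)) :=
    mul_le_mul_of_nonneg_left (by linarith) (by linarith)
  have h10 : (Z.card : ℝ) * (7 / 10 * (Fintype.card V : ℝ)) ≤
      (Z.card : ℝ) * (9 / 10 * (Fintype.card V : ℝ) - 2 - 2 * (m : ℝ) + 2 * (r : ℝ)) :=
    mul_le_mul_of_nonneg_left (by linarith) hz0
  have h11 : (Z.card : ℝ) * (9 / 10 * (Fintype.card V : ℝ) - 2 - 2 * (m : ℝ) + 2 * (r : ℝ)) ≤
      (2 * (r : ℝ)) * (Fintype.card V : ℝ) := by
    have h12 : (D : ℝ) = (Fintype.card V : ℝ) - 1 - (m : ℝ) := by linarith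
    rw [h12] at h3
    nlinarith
  have h13 : (7 / 10 * (Z.card : ℝ)) * (Fintype.card V : ℝ) ≤ (2 * (r : ℝ)) * (Fintype.card V : ℝ) := by
    linarith
  have h14 : 7 / 10 * (Z.card : ℝ) ≤ 2 * (r : ℝ) := le_of_mul_le_mul_right h13 hn
  linarith

/-- JOB HG-S1. Many arcs enter every set `Y`, `|Y| = k`: `(n - k)(k + 1 - 2 r) ≤ 2 e(Yᶜ, Y)`.

Proof. `2 ∑_{v ∉ Y} dOut E v univ ≥ (n - k)(n - 2 r)` (`two_p_ge`), it is `2 eb Yᶜ Yᶜ + 2 eb Yᶜ Y`, and
`2 eb Yᶜ Yᶜ ≤ (n - k)(n - k - 1)` (`eb_self`). -/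
theorem cross_lower {V : Type} [Fintype V] {E : V → V → Prop} {D p q m r : ℕ} (h : Hag E D p q)
    (hD : D + m + 1 = Fintype.card V) (hq : q = m + r) (Y : Finset V) :
    ((Fintype.card V : ℝ) - (Y.card : ℝ)) * ((Y.card : ℝ) + 1 - 2 * (r : ℝ)) ≤
      2 * (eb E Yᶜ Y : ℝ) := by
  have hge := two_p_ge h hD hq
  have h1 := eb_self E h.ori Yᶜ
  have h2 : eb E Yᶜ univ = eb E Yᶜ Y + eb E Yᶜ Yᶜ := by
    rw [← eb_union_right E Yᶜ disjoint_compl_right, union_compl]
  have h7 : ((Yᶜ.card : ℕ) : ℝ) = (Fintype.card V : ℝ) - (Y.card : ℝ) := by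
    rw [card_compl, Nat.cast_sub (card_le_univ Y)]
  have h3 : ((Fintype.card V : ℝ) - (Y.card : ℝ)) * (p : ℝ) ≤ (eb E Yᶜ univ : ℝ) := by
    unfold eb
    rw [← h7, Nat.cast_sum, ← nsmul_eq_mul, ← sum_const]
    refine sum_le_sum fun v _ => ?_
    exact_mod_cast h.out v
  have h1r : 2 * (eb E Yᶜ Yᶜ : ℝ) + ((Fintype.card V : ℝ) - (Y.card : ℝ)) ≤
      ((Fintype.card V : ℝ) - (Y.card : ℝ)) * ((Fintype.card V : ℝ) - (Y.card : ℝ)) := by
    rw [← h7]
    exact_mod_cast h1
  have h2r : (eb E Yᶜ univ : ℝ) = (eb E Yᶜ Y : ℝ) + (eb E Yᶜ Yᶜ : ℝ) := by exact_mod_cast h2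
  have hgr : (Fintype.card V : ℝ) ≤ 2 * (p : ℝ) + 2 * (r : ℝ) := by exact_mod_cast hge
  have hYn : (Y.card : ℝ) ≤ (Fintype.card V : ℝ) := by exact_mod_cast card_le_univ Y
  have h9 : ((Fintype.card V : ℝ) - (Y.card : ℝ)) * ((Fintype.card V : ℝ) - 2 * (r : ℝ)) ≤
      ((Fintype.card V : ℝ) - (Y.card : ℝ)) * (2 * (p : ℝ)) :=
    mul_le_mul_of_nonneg_left (by linarith) (by linarith)
  nlinarith

/-- JOB HG-S1. Numbers for a set `Y` all of whose vertices have at most `m` in-neighbours outside `Y`.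

Proof. `dIn E x Y ≥ q - m = r` (`dIn_compl`); so `eb E Y Y ≥ k r`, and `2 eb E Y Y ≤ k (k - 1)` gives `k ≥ 2 r + 1`.
`eb E Yᶜ Y = ∑_{x ∈ Y} dIn E x Yᶜ ≤ k m`, so `cross_lower` gives `(n - k)(t + 1) ≤ 2 k m`; `k ≤ 3 ε n`,
`m ≤ q ≤ ε n`, `ε ≤ 1/100`. -/
theorem bad_numbers {V : Type} [Fintype V] {E : V → V → Prop} {D p q m r : ℕ} (h : Hag E D p q)
    (hD : D + m + 1 = Fintype.card V) (hq : q = m + r) (ε : ℝ) (hε0 : 0 < ε) (hε : ε ≤ 1 / 100)
    (hqε : (q : ℝ) ≤ ε * (Fintype.card V : ℝ)) (Y : Finset V) (hY : Y.Nonempty)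
    (hk : (Y.card : ℝ) ≤ 3 * ε * (Fintype.card V : ℝ)) (hout : ∀ x ∈ Y, dIn E x Yᶜ ≤ m) :
    (∀ x ∈ Y, r ≤ dIn E x Y) ∧ ∃ t : ℕ, 1 ≤ t ∧ Y.card = 2 * r + t ∧
      ((t : ℝ) + 1) ≤ 3 * ε * (Y.card : ℝ) ∧ ((t : ℝ) + 1) ≤ 7 * ε * (m : ℝ) := by
  have hin : ∀ x ∈ Y, r ≤ dIn E x Y := by
    intro x hx
    have h1 := h.inn x
    have h2 := dIn_compl E x Y
    have h3 := hout x hx
    omega
  refine ⟨hin, ?_⟩
  have hYp : 0 < Y.card := card_pos.2 hY
  have h1 := eb_self E h.ori Y
  have h2 : Y.card * r ≤ eb E Y Y := by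
    rw [eb_eq_sum_dIn, ← smul_eq_mul, ← sum_const]
    exact sum_le_sum hin
  have h3 : 2 * r + 1 ≤ Y.card := by
    have h4 : Y.card * (2 * r + 1) ≤ Y.card * Y.card := by
      calc Y.card * (2 * r + 1) = 2 * (Y.card * r) + Y.card := by ring
        _ ≤ 2 * eb E Y Y + Y.card := by omega
        _ ≤ _ := h1
    exact Nat.le_of_mul_le_mul_left h4 hYp
  have h5 : eb E Yᶜ Y ≤ Y.card * m := by
    rw [eb_eq_sum_dIn, ← smul_eq_mul, ← sum_const]
    exact sum_le_sum hout
  have h6 := cross_lower h hD hq Y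
  obtain ⟨t, ht⟩ : ∃ t : ℕ, Y.card = 2 * r + t := ⟨Y.card - 2 * r, by omega⟩
  have ht1 : 1 ≤ t := by omega
  have htr : (Y.card : ℝ) = 2 * (r : ℝ) + (t : ℝ) := by exact_mod_cast ht
  have h5r : (eb E Yᶜ Y : ℝ) ≤ (Y.card : ℝ) * (m : ℝ) := by exact_mod_cast h5
  have hqr : (q : ℝ) = (m : ℝ) + (r : ℝ) := by exact_mod_cast hq
  have hr0 : (0 : ℝ) ≤ (r : ℝ) := Nat.cast_nonneg r
  have hm0 : (0 : ℝ) ≤ (m : ℝ) := Nat.cast_nonneg m
  have hY0 : (0 : ℝ) < (Y.card : ℝ) := by exact_mod_cast hYp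
  have hYn : (Y.card : ℝ) ≤ (Fintype.card V : ℝ) := by exact_mod_cast card_le_univ Y
  have hn : (0 : ℝ) < (Fintype.card V : ℝ) := hY0.trans_le hYn
  have ht0 : (0 : ℝ) < (t : ℝ) + 1 := by positivity
  have e1 : (Y.card : ℝ) + 1 - 2 * (r : ℝ) = (t : ℝ) + 1 := by linarith
  rw [e1] at h6
  have hkey : ((Fintype.card V : ℝ) - (Y.card : ℝ)) * ((t : ℝ) + 1) ≤ 2 * ((Y.card : ℝ) * (m : ℝ)) := by
    linarith
  have hεn : 0 ≤ ε * (Fintype.card V : ℝ) := by positivity
  have hεn' : ε * (Fintype.card V : ℝ) ≤ 1 / 100 * (Fintype.card V : ℝ) :=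
    mul_le_mul_of_nonneg_right hε hn.le
  have hk' : 97 / 100 * (Fintype.card V : ℝ) ≤ (Fintype.card V : ℝ) - (Y.card : ℝ) := by linarith
  have hkey2 : (97 / 100 * (Fintype.card V : ℝ)) * ((t : ℝ) + 1) ≤ 2 * ((Y.card : ℝ) * (m : ℝ)) :=
    (mul_le_mul_of_nonneg_right hk' ht0.le).trans hkey
  have hmε : (m : ℝ) ≤ ε * (Fintype.card V : ℝ) := by linarith
  refine ⟨t, ht1, ht, ?_, ?_⟩
  · have h7 : (Y.card : ℝ) * (m : ℝ) ≤ (Y.card : ℝ) * (ε * (Fintype.card V : ℝ)) :=
      mul_le_mul_of_nonneg_left hmε hY0.le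
    have h8 : (97 / 100 * ((t : ℝ) + 1)) * (Fintype.card V : ℝ) ≤
        (2 * ε * (Y.card : ℝ)) * (Fintype.card V : ℝ) := by linarith
    have h9 : 97 / 100 * ((t : ℝ) + 1) ≤ 2 * ε * (Y.card : ℝ) := le_of_mul_le_mul_right h8 hn
    have h10 : 0 ≤ ε * (Y.card : ℝ) := by positivity
    linarith
  · have h7 : (Y.card : ℝ) * (m : ℝ) ≤ (3 * ε * (Fintype.card V : ℝ)) * (m : ℝ) :=
      mul_le_mul_of_nonneg_right hk hm0
    have h8 : (97 / 100 * ((t : ℝ) + 1)) * (Fintype.card V : ℝ) ≤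
        (6 * ε * (m : ℝ)) * (Fintype.card V : ℝ) := by linarith
    have h9 : 97 / 100 * ((t : ℝ) + 1) ≤ 6 * ε * (m : ℝ) := le_of_mul_le_mul_right h8 hn
    have h10 : 0 ≤ ε * (m : ℝ) := by positivity
    linarith

end HX
end

section

set_option autoImplicit false

namespace HX

open Finset Classical

/-- a set and its preimage under an injection of `Fin N` -/
private theorem glue0_count {V : Type} [Fintype V] {N : ℕ} (h : Fin N → V)
    (hh : Function.Injective h) (S : Finset V) :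
    S.card ≤ (univ.filter fun j => h j ∈ S).card + (Fintype.card V - N) := by
  have h1 : (univ.image h).card = N := by
    rw [card_image_of_injective _ hh, card_univ, Fintype.card_fin]
  have h2 : S.card = (S ∩ univ.image h).card + (S \ univ.image h).card := by
    rw [add_comm]
    exact (card_sdiff_add_card_inter S (univ.image h)).symm
  have h3 : (S \ univ.image h).card ≤ Fintype.card V - N := by
    have h4 : S \ univ.image h ⊆ (univ.image h)ᶜ := by
      intro v hv
      rw [mem_sdiff] at hv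
      rw [mem_compl]
      exact hv.2
    refine (card_le_card h4).trans ?_
    rw [card_compl, h1]
  have h5 : (S ∩ univ.image h).card ≤ (univ.filter fun j => h j ∈ S).card := by
    have h6 : S ∩ univ.image h ⊆ (univ.filter fun j => h j ∈ S).image h := by
      intro v hv
      rw [mem_inter, mem_image] at hv
      obtain ⟨hv1, j, -, rfl⟩ := hv
      rw [mem_image]
      exact ⟨j, mem_filter.2 ⟨mem_univ _, hv1⟩, rfl⟩
    exact (card_le_card h6).trans card_image_le
  omega

/-- JOB HG-G0 (medium; uses `ham_of_expander`, `pp_index`, `ham_of_pp`). Hamilton cycles from a path partition with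
few arcs in a digraph with robust expansion.

Proof. `κ = ν / 2`, `n0` large.  `pp_index` gives `h`, `g : Fin N → V`, `N = L.length`, `n - N ≤ κ n`.  Let
`E' i j = E (g i) (h j)` on `Fin N`.  Claim: `Expander E' (η/2) (ν/2)` (then `ham_of_expander` and `ham_of_pp`).
At most `n - N` vertices are not of the form `h j`, at most `n - N` are not of the form `g i`.
`dOut E' i univ ≥ dOut E (g i) univ - (n - N) ≥ (η - κ) n ≥ (η/2) N`, the same for `dIn`.
For `Z` with `(η/4) N ≤ |Z| ≤ (1 - η/4) N` let `X = Z.image g`, `|X| = |Z|`, `dIn E' j Z = dIn E (h j) X`;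
`(η/8) n ≤ |X| ≤ (1 - η/8) n` (as `N ≥ n/2`), so `|RN E (ν n) X| ≥ |X| + ν n`; all but `n - N ≤ κ n` of its elements
are `h j`, and `ν n ≥ (ν/2) N`; so `|RN E' ((ν/2) N) Z| ≥ |X| + ν n - κ n ≥ |Z| + (ν/2) N`. -/
theorem glue0 (η ν : ℝ) (hν : 0 < ν) (hνη : ν ≤ η / 2) (hη : η ≤ 1) :
    ∃ (κ : ℝ) (n0 : ℕ), 0 < κ ∧ ∀ (V : Type) [Fintype V] (E : V → V → Prop) (L : List (List V)),
      n0 ≤ Fintype.card V → PP E univ L →
      (Fintype.card V : ℝ) - (L.length : ℝ) ≤ κ * (Fintype.card V : ℝ) →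
      (∀ l ∈ L, ∀ v, l.getLast? = some v → η * (Fintype.card V : ℝ) ≤ (dOut E v univ : ℝ)) →
      (∀ l ∈ L, ∀ v, l.head? = some v → η * (Fintype.card V : ℝ) ≤ (dIn E v univ : ℝ)) →
      (∀ X : Finset V, η / 8 * (Fintype.card V : ℝ) ≤ (X.card : ℝ) →
        (X.card : ℝ) ≤ (1 - η / 8) * (Fintype.card V : ℝ) →
        (X.card : ℝ) + ν * (Fintype.card V : ℝ) ≤
          ((RN E (ν * (Fintype.card V : ℝ)) X).card : ℝ)) → Ham E := by
  obtain ⟨n1, hn1⟩ := ham_of_expander (η / 2) (ν / 2) (by linarith) (by linarith) (by linarith)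
  refine ⟨ν / 2, 2 * n1, by linarith, fun V _ E L hn hPP hκ hout hin hexp => ?_⟩
  obtain ⟨h, g, hh, hg, hhi, hgi, -, -⟩ := pp_index E L hPP
  have hN : L.length ≤ Fintype.card V := by
    have := pp_length_le hPP
    rwa [card_univ] at this
  set n := Fintype.card V with hndef
  have hNR : (L.length : ℝ) ≤ (n : ℝ) := by exact_mod_cast hN
  have hN0 : (0 : ℝ) ≤ (L.length : ℝ) := Nat.cast_nonneg _
  have hn0 : (0 : ℝ) ≤ (n : ℝ) := Nat.cast_nonneg _
  have hν4 : ν / 2 ≤ 1 / 4 := by linarith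
  have hhalf : (n : ℝ) / 2 ≤ (L.length : ℝ) := by nlinarith
  have hcast : ((n - L.length : ℕ) : ℝ) = (n : ℝ) - (L.length : ℝ) := Nat.cast_sub hN
  refine ham_of_pp E L hPP.1 hPP.2.1 (fun v => (hPP.2.2 v).2 (mem_univ v)) h g hh hg ?_
  refine hn1 (Fin L.length) (fun i j => E (g i) (h j)) ?_ ?_
  · rw [Fintype.card_fin]
    have h1 : ((2 * n1 : ℕ) : ℝ) ≤ (n : ℝ) := by exact_mod_cast hn
    push_cast at h1
    have h2 : (n1 : ℝ) ≤ (L.length : ℝ) := by linarith
    exact_mod_cast h2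
  · rw [Expander, Fintype.card_fin]
    refine ⟨fun i => ?_, fun j => ?_, fun Z hZ1 hZ2 => ?_⟩
    · have h1 := hout (L.get i) (List.get_mem L i) (g i) (hg i)
      have h2 := glue0_count h hhi (univ.filter fun y => E (g i) y)
      have h3 : (univ.filter fun j => h j ∈ (univ.filter fun y => E (g i) y)).card =
          dOut (fun i j => E (g i) (h j)) i univ := by
        unfold dOut
        congr 1
        ext j
        simp
      rw [h3] at h2
      have h4 : ((dOut E (g i) univ : ℕ) : ℝ) ≤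
          (dOut (fun i j => E (g i) (h j)) i univ : ℝ) + ((n - L.length : ℕ) : ℝ) := by
        exact_mod_cast h2
      rw [hcast] at h4
      nlinarith
    · have h1 := hin (L.get j) (List.get_mem L j) (h j) (hh j)
      have h2 := glue0_count g hgi (univ.filter fun x => E x (h j))
      have h3 : (univ.filter fun i => g i ∈ (univ.filter fun x => E x (h j))).card =
          dIn (fun i j => E (g i) (h j)) j univ := by
        unfold dIn
        congr 1
        ext i
        simp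
      rw [h3] at h2
      have h4 : ((dIn E (h j) univ : ℕ) : ℝ) ≤
          (dIn (fun i j => E (g i) (h j)) j univ : ℝ) + ((n - L.length : ℕ) : ℝ) := by
        exact_mod_cast h2
      rw [hcast] at h4
      nlinarith
    · have hXc : (Z.image g).card = Z.card := card_image_of_injective _ hgi
      have hdin : ∀ j, dIn (fun i j => E (g i) (h j)) j Z = dIn E (h j) (Z.image g) := by
        intro j
        unfold dIn
        have : (Z.image g).filter (fun x => E x (h j)) =
            (Z.filter fun i => E (g i) (h j)).image g := by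
          ext v
          simp only [mem_filter, mem_image]
          constructor
          · rintro ⟨⟨i, hi, rfl⟩, hE⟩
            exact ⟨i, ⟨hi, hE⟩, rfl⟩
          · rintro ⟨i, ⟨hi, hE⟩, rfl⟩
            exact ⟨⟨i, hi, rfl⟩, hE⟩
        rw [this, card_image_of_injective _ hgi]
      have e1 := hexp (Z.image g) (by rw [hXc]; nlinarith) (by rw [hXc]; nlinarith)
      rw [hXc] at e1
      have e2 := glue0_count h hhi (RN E (ν * (n : ℝ)) (Z.image g))
      have e3 : (univ.filter fun j => h j ∈ RN E (ν * (n : ℝ)) (Z.image g)) ⊆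
          RN (fun i j => E (g i) (h j)) (ν / 2 * (L.length : ℝ)) Z := by
        intro j hj
        rw [mem_filter] at hj
        have hj2 := hj.2
        unfold RN at hj2 ⊢
        rw [mem_filter] at hj2 ⊢
        refine ⟨mem_univ _, ?_⟩
        rw [hdin j]
        have := hj2.2
        nlinarith
      have e4 := card_le_card e3
      have e5 : ((RN E (ν * (n : ℝ)) (Z.image g)).card : ℝ) ≤
          ((RN (fun i j => E (g i) (h j)) (ν / 2 * (L.length : ℝ)) Z).card : ℝ) + ((n - L.length : ℕ) : ℝ) := by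
        exact_mod_cast e2.trans (Nat.add_le_add_right e4 _)
      rw [hcast] at e5
      nlinarith

end HX
end

section

set_option autoImplicit false

namespace HX

open Finset Classical

/-- JOB HG-U1 (easy/medium; uses `pp_index` or directly). A vertex `v ∈ T \ S` is on a list of `L` as first element (it has
no predecessor, since all arcs of `L` end outside `T`) and as last element (all arcs start in `S`). -/
theorem has_list {V : Type} [Fintype V] (E : V → V → Prop) (S T : Finset V) (L : List (List V))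
    (j : ℕ) (hL : Lin E S T L j) (v : V) (hT : v ∈ T) (hS : v ∉ S) :
    ∃ l ∈ L, ∃ x y, l.head? = some x ∧ x ∈ T ∧ l.getLast? = some y ∧ y ∉ S := by
  obtain ⟨hPP, hj⟩ := hL
  obtain ⟨h, g, hh, hg, hhi, hgi, hpre, hsuc⟩ := pp_index _ L hPP
  obtain ⟨i, hi⟩ : ∃ i, h i = v := by
    rcases hpre v with h1 | ⟨u, hu⟩
    · exact h1
    · exact absurd hT hu.2.2
  obtain ⟨k, hk⟩ : ∃ k, g k = v := by
    rcases hsuc v with h1 | ⟨u, hu⟩
    · exact h1
    · exact absurd hu.2.1 hS
  have m1 : v ∈ L.get i := by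
    have h1 := hh i
    rw [hi] at h1
    exact List.mem_of_mem_head? h1
  have m2 : v ∈ L.get k := by
    have h1 := hg k
    rw [hk] at h1
    exact List.mem_of_getLast? h1
  have hik : i = k := by
    by_contra hne
    have hnd := (List.nodup_flatten.1 hPP.2.1).2
    have h1 := List.pairwise_iff_get.1 hnd
    rcases lt_or_gt_of_ne hne with h2 | h2
    · exact h1 i k h2 m1 m2
    · exact h1 k i h2 m2 m1
  refine ⟨L.get i, List.get_mem L i, v, v, ?_, hT, ?_, hS⟩
  · rw [hh i, hi]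
  · rw [hik, hg k, hk]

/-- JOB HG-U2 (medium; uses `pp_index`).

Proof. `h`, `g` from `pp_index`.  `N = {i | h i ∈ T.erase x}`: every vertex of `T` is some `h i`, so
`|N| = |T| - 1`.  `G = {i | g i ∈ S}`: every vertex outside `S` is some `g i`, so `|G| = L.length - (n - |S|)
= |S| - j = |T| - 1`.  The index `i0` of `[x]` is in `G` but not in `N`.  So `N` is not contained in `G`. -/
theorem has_list2 {V : Type} [Fintype V] (E : V → V → Prop) (S T : Finset V) (L : List (List V))
    (j : ℕ) (hL : Lin E S T L j) (x : V) (hxT : x ∈ T) (hxS : x ∈ S) (hx : [x] ∈ L)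
    (hc : S.card + 1 = T.card + j) :
    ∃ l ∈ L, ∃ z y, l.head? = some z ∧ z ∈ T.erase x ∧ l.getLast? = some y ∧ y ∉ S := by
  obtain ⟨hPP, hj⟩ := hL
  obtain ⟨h, g, hh, hg, hhi, hgi, hpre, hsuc⟩ := pp_index _ L hPP
  set N : Finset (Fin L.length) := univ.filter fun i => h i ∈ T.erase x with hN
  set G : Finset (Fin L.length) := univ.filter fun i => g i ∈ S with hG
  have mN : ∀ i, i ∈ N ↔ h i ∈ T.erase x := fun i => by rw [hN, mem_filter]; simp
  have mG : ∀ i, i ∈ G ↔ g i ∈ S := fun i => by rw [hG, mem_filter]; simp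
  have e1 : N.image h = T.erase x := by
    ext v
    rw [mem_image]
    constructor
    · rintro ⟨i, hi, rfl⟩
      exact (mN i).1 hi
    · intro hv
      rcases hpre v with ⟨i, rfl⟩ | ⟨u, hu⟩
      · exact ⟨i, (mN i).2 hv, rfl⟩
      · exact absurd (mem_of_mem_erase hv) hu.2.2
  have e2 : (Gᶜ).image g = Sᶜ := by
    ext v
    rw [mem_image]
    constructor
    · rintro ⟨i, hi, rfl⟩
      rw [mem_compl] at hi ⊢
      exact fun h => hi ((mG i).2 h)
    · intro hv
      rw [mem_compl] at hv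
      rcases hsuc v with ⟨i, rfl⟩ | ⟨u, hu⟩
      · exact ⟨i, by rw [mem_compl]; exact fun h => hv ((mG i).1 h), rfl⟩
      · exact absurd hu.2.1 hv
  have c1 : N.card = T.card - 1 := by rw [← card_image_of_injective N hhi, e1, card_erase_of_mem hxT]
  have c2 : (Gᶜ).card = Fintype.card V - S.card := by
    rw [← card_image_of_injective _ hgi, e2, card_compl]
  have c3 : G.card + (Gᶜ).card = L.length := by
    rw [card_add_card_compl, Fintype.card_fin]
  have c4 : S.card ≤ Fintype.card V := card_le_univ S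
  have c5 : 0 < T.card := card_pos.2 ⟨x, hxT⟩
  have c6 : G.card = N.card := by omega
  obtain ⟨i0, hi0⟩ := List.mem_iff_get.1 hx
  have g0 : g i0 = x := by
    have h1 := hg i0
    rw [hi0] at h1
    exact (Option.some_inj.1 h1).symm
  have h0 : h i0 = x := by
    have h1 := hh i0
    rw [hi0] at h1
    exact (Option.some_inj.1 h1).symm
  have m1 : i0 ∈ G := (mG i0).2 (by rw [g0]; exact hxS)
  have m2 : i0 ∉ N := fun h1 => by
    have h2 := (mN i0).1 h1
    rw [h0] at h2
    exact notMem_erase x T h2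
  have h3 : ¬ N ⊆ G := fun h1 => by
    have h2 : N ⊂ G := ⟨h1, fun h4 => m2 (h4 m1)⟩
    have := card_lt_card h2
    omega
  obtain ⟨i, hi1, hi2⟩ := not_subset.1 h3
  exact ⟨L.get i, List.get_mem L i, h i, g i, hh i, (mN i).1 hi1, hg i, fun h1 => hi2 ((mG i).2 h1)⟩

/-- JOB HG-U3 (medium). At most `2 j` vertices are on lists with at least two elements.

Proof. For every list `l ≠ []` the number of its elements, if this number is `≥ 2`, is at most `2 (l.length - 1)`; so
the number of vertices on lists of length `≥ 2` is at most `2 (n - L.length) = 2 j` (induction on `L`, e.g. for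
`((L.filter fun l => 2 ≤ l.length).flatten).length + 2 * L.length ≤ 2 * L.flatten.length`). -/
theorem untouched {V : Type} [Fintype V] (E : V → V → Prop) (S T : Finset V) (L : List (List V))
    (j : ℕ) (hL : Lin E S T L j) (X : Finset V) (hX : 2 * j < X.card) : ∃ x ∈ X, [x] ∈ L := by
  obtain ⟨hPP, hj⟩ := hL
  by_contra hcon
  push Not at hcon
  have key : ∀ L : List (List V), (∀ l ∈ L, l ≠ []) →
      ((L.filter fun l => decide (2 ≤ l.length)).flatten).length + 2 * L.length ≤ 2 * L.flatten.length := by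
    intro L
    induction L with
    | nil => intro _; simp
    | cons l L ih =>
      intro h
      have h1 := ih fun l' hl' => h l' (List.mem_cons_of_mem _ hl')
      have h2 : 0 < l.length := List.length_pos_iff.2 (h l List.mem_cons_self)
      by_cases h3 : 2 ≤ l.length
      · rw [List.filter_cons_of_pos (by simpa using h3), List.flatten_cons, List.length_append, List.length_cons,
          List.flatten_cons, List.length_append]
        omega
      · rw [List.filter_cons_of_neg (by simpa using h3), List.length_cons, List.flatten_cons, List.length_append]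
        omega
  have h1 := key L fun l hl => (hPP.1 l hl).1
  have h2 : L.flatten.length = Fintype.card V := by
    rw [← List.toFinset_card_of_nodup hPP.2.1, ← card_univ]
    congr 1
    ext v
    rw [List.mem_toFinset, hPP.2.2 v]
  have h3 : X ⊆ (L.filter fun l => decide (2 ≤ l.length)).flatten.toFinset := by
    intro x hx
    have h4 : x ∈ L.flatten := (hPP.2.2 x).2 (mem_univ x)
    obtain ⟨l, hl, hxl⟩ := List.mem_flatten.1 h4
    rw [List.mem_toFinset, List.mem_flatten]
    refine ⟨l, ?_, hxl⟩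
    rw [List.mem_filter]
    refine ⟨hl, ?_⟩
    by_contra h5
    have h6 : l.length < 2 := by simpa using h5
    have h7 : 0 < l.length := List.length_pos_iff.2 (hPP.1 l hl).1
    have h8 : l.length = 1 := by omega
    obtain ⟨a, ha⟩ := List.length_eq_one_iff.1 h8
    rw [ha, List.mem_singleton] at hxl
    rw [ha, ← hxl] at hl
    exact hcon x hx hl
  have h4 := (card_le_card h3).trans (List.toFinset_card_le _)
  omega

end HX
end

section

set_option autoImplicit false

namespace HX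

open Finset Classical

private theorem rt_card_union4 {V : Type} (A B C D : Finset V) {a b c d : ℝ}
    (ha : (A.card : ℝ) ≤ a) (hb : (B.card : ℝ) ≤ b) (hc : (C.card : ℝ) ≤ c)
    (hd : (D.card : ℝ) ≤ d) : (((A ∪ B) ∪ (C ∪ D)).card : ℝ) ≤ a + b + c + d := by
  have h1 : ((A ∪ B) ∪ (C ∪ D)).card ≤ (A.card + B.card) + (C.card + D.card) :=
    (card_union_le _ _).trans (Nat.add_le_add (card_union_le _ _) (card_union_le _ _))
  have h2 : (((A ∪ B) ∪ (C ∪ D)).card : ℝ) ≤
      ((A.card : ℝ) + (B.card : ℝ)) + ((C.card : ℝ) + (D.card : ℝ)) := by exact_mod_cast h1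
  linarith

/-- JOB HG-T5 (medium). Retyping of the exceptional vertices.

Proof. `X` = union of the four exceptional sets, `|X| ≤ 10 ξ n`.  `S' = {v ∉ X | v ∈ S} ∪ {v ∈ X | ε n/2 ≤ dOut E v T}`,
`T' = {v ∉ X | v ∈ T} ∪ {v ∈ X | ε n/2 ≤ dIn E v S}`.  `v ∈ X \ S'`: `dOut E v Tᶜ ≥ ε n/2`.  Passing from `T` to `T'`
(`Tᶜ` to `T'ᶜ`) changes a degree by at most `10 ξ n` (`dOut_le_sdiff`), and `ρ n/8 - 10 ξ n ≥ ρ n/10`. -/
theorem retype {V : Type} [Fintype V] (E : V → V → Prop) (S T : Finset V) (ε ρ ξ : ℝ)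
    (hρ : 0 < ρ) (hρε : ρ ≤ ε) (hξ : 400 * ξ ≤ ρ)
    (hp : ∀ v, ε * (Fintype.card V : ℝ) ≤ (dOut E v univ : ℝ))
    (hq : ∀ v, ε * (Fintype.card V : ℝ) ≤ (dIn E v univ : ℝ))
    (h1 : ((univ.filter fun v => v ∉ S ∧ (dOut E v Tᶜ : ℝ) <
      ρ * (Fintype.card V : ℝ) / 8).card : ℝ) ≤ 4 * ξ * (Fintype.card V : ℝ))
    (h2 : ((univ.filter fun v => v ∈ T ∧ (dIn E v S : ℝ) <
      ρ * (Fintype.card V : ℝ) / 8).card : ℝ) ≤ 4 * ξ * (Fintype.card V : ℝ))
    (h3 : ((univ.filter fun v => v ∈ S ∧ (dOut E v T : ℝ) <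
      ρ * (Fintype.card V : ℝ) / 8).card : ℝ) ≤ ξ * (Fintype.card V : ℝ))
    (h4 : ((univ.filter fun v => v ∉ T ∧ (dIn E v Sᶜ : ℝ) <
      ρ * (Fintype.card V : ℝ) / 8).card : ℝ) ≤ ξ * (Fintype.card V : ℝ)) :
    ∃ S' T' : Finset V, ((S \ S' ∪ S' \ S).card : ℝ) ≤ 10 * ξ * (Fintype.card V : ℝ) ∧
      ((T \ T' ∪ T' \ T).card : ℝ) ≤ 10 * ξ * (Fintype.card V : ℝ) ∧
      Deg4 E S' T' (ρ * (Fintype.card V : ℝ) / 10) := by
  have hn : (0 : ℝ) ≤ (Fintype.card V : ℝ) := Nat.cast_nonneg _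
  have hX := rt_card_union4 _ _ _ _ h1 h2 h3 h4
  obtain ⟨X, hXd⟩ : ∃ X : Finset V, X =
      ((univ.filter fun v => v ∉ S ∧ (dOut E v Tᶜ : ℝ) < ρ * (Fintype.card V : ℝ) / 8) ∪
        (univ.filter fun v => v ∈ T ∧ (dIn E v S : ℝ) < ρ * (Fintype.card V : ℝ) / 8)) ∪
      ((univ.filter fun v => v ∈ S ∧ (dOut E v T : ℝ) < ρ * (Fintype.card V : ℝ) / 8) ∪
        (univ.filter fun v => v ∉ T ∧ (dIn E v Sᶜ : ℝ) < ρ * (Fintype.card V : ℝ) / 8)) := ⟨_, rfl⟩
  rw [← hXd] at hX
  have x1 : ∀ v, v ∉ X → v ∉ S → ρ * (Fintype.card V : ℝ) / 8 ≤ (dOut E v Tᶜ : ℝ) := by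
    intro v hv hS
    by_contra hlt
    refine hv ?_
    rw [hXd]
    exact mem_union_left _ (mem_union_left _ (mem_filter.2 ⟨mem_univ _, hS, not_le.1 hlt⟩))
  have x2 : ∀ v, v ∉ X → v ∈ T → ρ * (Fintype.card V : ℝ) / 8 ≤ (dIn E v S : ℝ) := by
    intro v hv hS
    by_contra hlt
    refine hv ?_
    rw [hXd]
    exact mem_union_left _ (mem_union_right _ (mem_filter.2 ⟨mem_univ _, hS, not_le.1 hlt⟩))
  have x3 : ∀ v, v ∉ X → v ∈ S → ρ * (Fintype.card V : ℝ) / 8 ≤ (dOut E v T : ℝ) := by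
    intro v hv hS
    by_contra hlt
    refine hv ?_
    rw [hXd]
    exact mem_union_right _ (mem_union_left _ (mem_filter.2 ⟨mem_univ _, hS, not_le.1 hlt⟩))
  have x4 : ∀ v, v ∉ X → v ∉ T → ρ * (Fintype.card V : ℝ) / 8 ≤ (dIn E v Sᶜ : ℝ) := by
    intro v hv hS
    by_contra hlt
    refine hv ?_
    rw [hXd]
    exact mem_union_right _ (mem_union_right _ (mem_filter.2 ⟨mem_univ _, hS, not_le.1 hlt⟩))
  obtain ⟨S', hS'⟩ : ∃ S' : Finset V, ∀ v, v ∈ S' ↔
      ((v ∉ X ∧ v ∈ S) ∨ (v ∈ X ∧ ε * (Fintype.card V : ℝ) / 2 ≤ (dOut E v T : ℝ))) :=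
    ⟨univ.filter fun v => (v ∉ X ∧ v ∈ S) ∨
      (v ∈ X ∧ ε * (Fintype.card V : ℝ) / 2 ≤ (dOut E v T : ℝ)), fun v => by
        rw [mem_filter]; simp⟩
  obtain ⟨T', hT'⟩ : ∃ T' : Finset V, ∀ v, v ∈ T' ↔
      ((v ∉ X ∧ v ∈ T) ∨ (v ∈ X ∧ ε * (Fintype.card V : ℝ) / 2 ≤ (dIn E v S : ℝ))) :=
    ⟨univ.filter fun v => (v ∉ X ∧ v ∈ T) ∨
      (v ∈ X ∧ ε * (Fintype.card V : ℝ) / 2 ≤ (dIn E v S : ℝ)), fun v => by
        rw [mem_filter]; simp⟩
  have sS : S \ S' ∪ S' \ S ⊆ X := by
    intro v hv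
    by_contra hvX
    simp only [mem_union, mem_sdiff, hS'] at hv
    tauto
  have sT : T \ T' ∪ T' \ T ⊆ X := by
    intro v hv
    by_contra hvX
    simp only [mem_union, mem_sdiff, hT'] at hv
    tauto
  have hX' : (X.card : ℝ) ≤ 10 * ξ * (Fintype.card V : ℝ) := by linarith
  have cS : ∀ Y : Finset V, Y ⊆ X → (Y.card : ℝ) ≤ 10 * ξ * (Fintype.card V : ℝ) := fun Y hY =>
    le_trans (by exact_mod_cast card_le_card hY) hX'
  have c1 : ((T \ T').card : ℝ) ≤ 10 * ξ * (Fintype.card V : ℝ) :=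
    cS _ (subset_union_left.trans sT)
  have c2 : ((Tᶜ \ T'ᶜ).card : ℝ) ≤ 10 * ξ * (Fintype.card V : ℝ) := by
    refine cS _ (Subset.trans (fun v hv => ?_) sT)
    simp only [mem_union, mem_sdiff, mem_compl] at hv ⊢
    tauto
  have c3 : ((S \ S').card : ℝ) ≤ 10 * ξ * (Fintype.card V : ℝ) :=
    cS _ (subset_union_left.trans sS)
  have c4 : ((Sᶜ \ S'ᶜ).card : ℝ) ≤ 10 * ξ * (Fintype.card V : ℝ) := by
    refine cS _ (Subset.trans (fun v hv => ?_) sS)
    simp only [mem_union, mem_sdiff, mem_compl] at hv ⊢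
    tauto
  have d1 : ∀ v, (dOut E v T : ℝ) ≤ (dOut E v T' : ℝ) + 10 * ξ * (Fintype.card V : ℝ) := fun v => by
    have h : (dOut E v T : ℝ) ≤ (dOut E v T' : ℝ) + ((T \ T').card : ℝ) := by
      exact_mod_cast dOut_le_sdiff E v T T'
    linarith
  have d2 : ∀ v, (dOut E v Tᶜ : ℝ) ≤ (dOut E v T'ᶜ : ℝ) + 10 * ξ * (Fintype.card V : ℝ) := fun v => by
    have h : (dOut E v Tᶜ : ℝ) ≤ (dOut E v T'ᶜ : ℝ) + ((Tᶜ \ T'ᶜ).card : ℝ) := by
      exact_mod_cast dOut_le_sdiff E v Tᶜ T'ᶜ
    linarith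
  have d3 : ∀ v, (dIn E v S : ℝ) ≤ (dIn E v S' : ℝ) + 10 * ξ * (Fintype.card V : ℝ) := fun v => by
    have h : (dIn E v S : ℝ) ≤ (dIn E v S' : ℝ) + ((S \ S').card : ℝ) := by
      exact_mod_cast dIn_le_sdiff E v S S'
    linarith
  have d4 : ∀ v, (dIn E v Sᶜ : ℝ) ≤ (dIn E v S'ᶜ : ℝ) + 10 * ξ * (Fintype.card V : ℝ) := fun v => by
    have h : (dIn E v Sᶜ : ℝ) ≤ (dIn E v S'ᶜ : ℝ) + ((Sᶜ \ S'ᶜ).card : ℝ) := by
      exact_mod_cast dIn_le_sdiff E v Sᶜ S'ᶜ
    linarith
  have n1 : 400 * ξ * (Fintype.card V : ℝ) ≤ ρ * (Fintype.card V : ℝ) :=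
    mul_le_mul_of_nonneg_right hξ hn
  have n2 : ρ * (Fintype.card V : ℝ) ≤ ε * (Fintype.card V : ℝ) := mul_le_mul_of_nonneg_right hρε hn
  have n3 : 0 ≤ ρ * (Fintype.card V : ℝ) := mul_nonneg hρ.le hn
  refine ⟨S', T', cS _ sS, cS _ sT, fun v hv => ?_, fun v hv => ?_, fun v hv => ?_, fun v hv => ?_⟩
  · rw [hS'] at hv
    have e1 := d1 v
    rcases hv with hv | hv
    · have := x3 v hv.1 hv.2
      linarith
    · have := hv.2
      linarith
  · rw [hS'] at hv
    push Not at hv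
    have e1 := d2 v
    by_cases hvX : v ∈ X
    · have e2 := hv.2 hvX
      have e3 := hp v
      have e4 : (dOut E v univ : ℝ) = (dOut E v T : ℝ) + (dOut E v Tᶜ : ℝ) := by
        exact_mod_cast dOut_compl E v T
      linarith
    · have := x1 v hvX (hv.1 hvX)
      linarith
  · rw [hT'] at hv
    have e1 := d3 v
    rcases hv with hv | hv
    · have := x2 v hv.1 hv.2
      linarith
    · have := hv.2
      linarith
  · rw [hT'] at hv
    push Not at hv
    have e1 := d4 v
    by_cases hvX : v ∈ X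
    · have e2 := hv.2 hvX
      have e3 := hq v
      have e4 : (dIn E v univ : ℝ) = (dIn E v S : ℝ) + (dIn E v Sᶜ : ℝ) := by
        exact_mod_cast dIn_compl E v S
      linarith
    · have := x4 v hvX (hv.1 hvX)
      linarith

/-- JOB HG-T6 (medium). Conversions.

Proof. Induction on `k` (for all `S`, `T`, `θ ≤ M`).  `k = 0`: `S' = S`, `T' = T`.  `k + 1`: if no `v ∈ S` has
`M ≤ dOut E v Tᶜ` and no `v ∉ T` has `M ≤ dIn E v S`, take `S' = S`, `T' = T`.  If `v ∈ S` has `M ≤ dOut E v Tᶜ`, use the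
induction hypothesis for `S.erase v`, `T`, `θ - 1`: `Deg4 E (S.erase v) T (θ - 1)` (indegrees from `S` drop by at most
`1`; the outdegree condition of `v` outside `S` is `M ≤ dOut E v Tᶜ`).  If `v ∉ T` has `M ≤ dIn E v S`, use it for `S`,
`insert v T`. -/
theorem convert (V : Type) [Fintype V] (E : V → V → Prop) (k : ℕ) (S T : Finset V) (M θ : ℝ)
    (hk : S.card = T.card + k) (hθ : θ ≤ M) (hD : Deg4 E S T θ) :
    ∃ S' T' : Finset V, S' ⊆ S ∧ T ⊆ T' ∧ (S \ S').card + (T' \ T).card ≤ k ∧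
      T'.card ≤ S'.card ∧ Deg4 E S' T' (θ - k) ∧
      (S'.card = T'.card ∨
        ((∀ v ∈ S', (dOut E v T'ᶜ : ℝ) < M) ∧ ∀ v, v ∉ T' → (dIn E v S' : ℝ) < M)) := by
  induction k generalizing S T θ with
  | zero =>
    refine ⟨S, T, Subset.rfl, Subset.rfl, by simp, by omega, ?_, Or.inl (by omega)⟩
    rw [Nat.cast_zero, sub_zero]
    exact hD
  | succ k ih =>
    obtain ⟨D1, D2, D3, D4⟩ := hD
    by_cases hA : ∃ v ∈ S, M ≤ (dOut E v Tᶜ : ℝ)
    · obtain ⟨v, hv, hvM⟩ := hA
      have hs : S \ S.erase v = {v} := by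
        ext w
        simp only [mem_sdiff, mem_erase, mem_singleton]
        constructor
        · rintro ⟨h1, h2⟩
          by_contra h3
          exact h2 ⟨h3, h1⟩
        · rintro rfl
          exact ⟨hv, fun h => h.1 rfl⟩
      have hcard : (S.erase v).card = T.card + k := by
        rw [card_erase_of_mem hv]
        omega
      obtain ⟨S', T', a1, a2, a3, a4, a5, a6⟩ := ih (S.erase v) T (θ - 1) hcard (by linarith) (by
        refine ⟨fun u hu => ?_, fun u hu => ?_, fun u hu => ?_, fun u hu => ?_⟩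
        · have := D1 u (mem_of_mem_erase hu)
          linarith
        · by_cases huv : u = v
          · rw [huv]
            linarith
          · have := D2 u fun h => hu (mem_erase.2 ⟨huv, h⟩)
            linarith
        · have h1 := D3 u hu
          have h2 := dIn_le_sdiff E u S (S.erase v)
          rw [hs, card_singleton] at h2
          have h3 : (dIn E u S : ℝ) ≤ (dIn E u (S.erase v) : ℝ) + 1 := by exact_mod_cast h2
          linarith
        · have h1 := D4 u hu
          have h2 : (dIn E u Sᶜ : ℝ) ≤ (dIn E u (S.erase v)ᶜ : ℝ) := by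
            exact_mod_cast dIn_mono E u (compl_subset_compl.2 (erase_subset v S))
          linarith)
      refine ⟨S', T', a1.trans (erase_subset v S), a2, ?_, a4, ?_, a6⟩
      · have h1 : S \ S' ⊆ (S \ S.erase v) ∪ (S.erase v \ S') := by
          intro w hw
          simp only [mem_union, mem_sdiff] at hw ⊢
          by_cases h : w ∈ S.erase v
          · exact Or.inr ⟨h, hw.2⟩
          · exact Or.inl ⟨hw.1, h⟩
        have h2 := (card_le_card h1).trans (card_union_le _ _)
        rw [hs, card_singleton] at h2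
        omega
      · have : θ - ((k + 1 : ℕ) : ℝ) = θ - 1 - (k : ℝ) := by push_cast; ring
        rw [this]
        exact a5
    · by_cases hB : ∃ v, v ∉ T ∧ M ≤ (dIn E v S : ℝ)
      · obtain ⟨v, hv, hvM⟩ := hB
        have hs : Tᶜ \ (insert v T)ᶜ = {v} := by
          ext w
          simp only [mem_sdiff, mem_compl, mem_insert, mem_singleton, not_or, not_and, not_not]
          constructor
          · rintro ⟨h1, h2⟩
            by_contra h3
            exact h1 (h2 h3)
          · rintro rfl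
            exact ⟨hv, fun h => absurd rfl h⟩
        have hcard : S.card = (insert v T).card + k := by
          rw [card_insert_of_notMem hv]
          omega
        obtain ⟨S', T', a1, a2, a3, a4, a5, a6⟩ := ih S (insert v T) (θ - 1) hcard (by linarith) (by
          refine ⟨fun u hu => ?_, fun u hu => ?_, fun u hu => ?_, fun u hu => ?_⟩
          · have h1 := D1 u hu
            have h2 : (dOut E u T : ℝ) ≤ (dOut E u (insert v T) : ℝ) := by
              exact_mod_cast dOut_mono E u (subset_insert v T)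
            linarith
          · have h1 := D2 u hu
            have h2 := dOut_le_sdiff E u Tᶜ (insert v T)ᶜ
            rw [hs, card_singleton] at h2
            have h3 : (dOut E u Tᶜ : ℝ) ≤ (dOut E u (insert v T)ᶜ : ℝ) + 1 := by exact_mod_cast h2
            linarith
          · rcases mem_insert.1 hu with rfl | hu
            · linarith
            · have := D3 u hu
              linarith
          · have := D4 u fun h => hu (mem_insert_of_mem h)
            linarith)
        refine ⟨S', T', a1, (subset_insert v T).trans a2, ?_, a4, ?_, a6⟩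
        · have h1 : T' \ T ⊆ {v} ∪ (T' \ insert v T) := by
            intro w hw
            simp only [mem_union, mem_sdiff, mem_singleton, mem_insert, not_or] at hw ⊢
            by_cases h : w = v
            · exact Or.inl h
            · exact Or.inr ⟨hw.1, h, hw.2⟩
          have h2 := (card_le_card h1).trans (card_union_le _ _)
          rw [card_singleton] at h2
          omega
        · have : θ - ((k + 1 : ℕ) : ℝ) = θ - 1 - (k : ℝ) := by push_cast; ring
          rw [this]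
          exact a5
      · push Not at hA hB
        refine ⟨S, T, Subset.rfl, Subset.rfl, by simp, by omega, ?_, Or.inr ⟨hA, hB⟩⟩
        have hk0 : (0 : ℝ) ≤ ((k + 1 : ℕ) : ℝ) := Nat.cast_nonneg _
        have h' : θ - ((k + 1 : ℕ) : ℝ) ≤ θ := by linarith
        exact ⟨fun v hv => h'.trans (D1 v hv), fun v hv => h'.trans (D2 v hv),
          fun v hv => h'.trans (D3 v hv), fun v hv => h'.trans (D4 v hv)⟩

end HX
end

section

set_option autoImplicit false

namespace HX

open Finset Classical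

private theorem efp_par {ε ρ η ν z' ξ κ : ℝ} {n0 : ℕ} (P : Par ε ρ η ν z' ξ κ n0) :
    0 < z' ∧ z' ≤ 1 ∧ 0 < ν ∧ 4 * ν = z' ^ 2 ∧ 4 * ν ≤ z' ∧ 100 * ξ ≤ ν ^ 2 ∧ 100 * ξ ≤ ν ∧ ν ≤ 1 ∧
      η / 2 * (ε / 16) / 16 = 40 * z' := by
  have hε := P.hε
  have hε1 := P.hε1
  have hρ := P.hρ
  have hρ1 := P.hρ1
  have hη0 : 0 < η := by rw [P.hη]; positivity
  have hη1 : η ≤ 1 := by rw [P.hη]; nlinarith
  have hz0 : 0 < z' := by rw [P.hz']; positivity
  have hz1 : z' ≤ 1 := by
    rw [P.hz']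
    have h1 : η * ε ≤ 1 * 1 := mul_le_mul hη1 (by linarith) hε.le zero_le_one
    nlinarith
  have hν0 : 0 < ν := by rw [P.hν]; positivity
  have hνz : 4 * ν = z' ^ 2 := by rw [P.hν]; ring
  have hνz1 : 4 * ν ≤ z' := by rw [hνz]; nlinarith
  have hν1 : ν ≤ 1 := by linarith
  have hξ := P.hξ1
  refine ⟨hz0, hz1, hν0, hνz, hνz1, hξ, ?_, hν1, by rw [P.hz']; ring⟩
  nlinarith

/-- few vertices of `Y` have many inneighbours in `X` -/
private theorem efp_few {V : Type} (E : V → V → Prop) (X Y : Finset V) (m : ℝ) :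
    ((Y.filter fun y => m ≤ (dIn E y X : ℝ)).card : ℝ) * m ≤ (eb E X Y : ℝ) := by
  rw [eb_eq_sum_dIn]
  push_cast
  rw [← nsmul_eq_mul, ← sum_const]
  refine (sum_le_sum fun y hy => (mem_filter.1 hy).2).trans ?_
  exact sum_le_sum_of_subset_of_nonneg (filter_subset _ _) fun _ _ _ => Nat.cast_nonneg _

private theorem efp_div {n w ν ξ e : ℝ} (hn : 0 < n) (hν : 0 < ν) (h1 : w * (ν * n) ≤ e)
    (h2 : e ≤ 100 * ξ * n ^ 2) (h3 : 100 * ξ ≤ ν ^ 2) : w ≤ ν * n := by
  have h4 : 100 * ξ * n ^ 2 ≤ ν ^ 2 * n ^ 2 := mul_le_mul_of_nonneg_right h3 (by positivity)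
  have h5 : w * (ν * n) ≤ (ν * n) * (ν * n) := by nlinarith
  exact le_of_mul_le_mul_right h5 (mul_pos hν hn)

private theorem efp_npos {V : Type} [Fintype V] {ε ρ η ν z' ξ κ : ℝ} {n0 : ℕ}
    (P : Par ε ρ η ν z' ξ κ n0) (hn : n0 ≤ Fintype.card V) : (0 : ℝ) < (Fintype.card V : ℝ) := by
  have h1 := (P.big _ hn).1
  by_contra h2
  have h3 : (Fintype.card V : ℝ) = 0 := le_antisymm (not_lt.1 h2) (Nat.cast_nonneg _)
  rw [h3, mul_zero] at h1
  linarith

private theorem efp_abs {x s t : ℝ} (h : |x - s| ≤ t) : x ≤ s + t ∧ s ≤ x + t := by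
  rw [abs_le] at h
  exact ⟨by linarith [h.2], by linarith [h.1]⟩

/-- JOB HG-T8 (medium; uses `num_main`). Expansion of the first block: first half of `Exp2`.

Proof. `n = card V`, `z'² = 4 ν`, `τ = η/2·(ε/16)/16 = 40 z'`.  Let `X ⊆ S`, `τ n ≤ |X| ≤ |S| - τ n`, and suppose
`|{y ∈ T | ν n ≤ dIn E y X}| < |X| + 2 ν n`.  `T1 = {y | ν n ≤ dIn E y X}`: `|T1 \ T| · ν n ≤ eb E S Tᶜ ≤ 100 ξ n² ≤ ν² n²`,
so `|T1| ≤ |X| + 3 ν n ≤ |X| + z' n`; `eb E X T1ᶜ ≤ ν n² ≤ z'² n²`; `2 z' n ≤ |X|`,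
`n - |T1| ≥ |S| - |X| - 3 ν n ≥ 2 z' n`.  `num_main` with `z'`: `|X| ≥ s* - 31 z' n`, and `|S| ≤ s* + 100 ξ n`
(`FP.sz`): `|X| ≥ |S| - 31 z' n - 100 ξ n > |S| - τ n`, a contradiction. -/
theorem exp_one {V : Type} [Fintype V] {E : V → V → Prop} {D p q : ℕ} {ε ρ η ν z' ξ κ : ℝ}
    {n0 : ℕ} {S T : Finset V} (P : Par ε ρ η ν z' ξ κ n0) (hn : n0 ≤ Fintype.card V)
    (h : FP E D p q ε (100 * ξ) η S T) (X : Finset V) (hX : X ⊆ S)
    (h1 : η / 2 * (ε / 16) / 16 * (Fintype.card V : ℝ) ≤ (X.card : ℝ))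
    (h2 : (X.card : ℝ) ≤ (S.card : ℝ) - η / 2 * (ε / 16) / 16 * (Fintype.card V : ℝ)) :
    (X.card : ℝ) + 2 * ν * (Fintype.card V : ℝ) ≤
      ((T.filter fun y => ν * (Fintype.card V : ℝ) ≤ (dIn E y X : ℝ)).card : ℝ) := by
  obtain ⟨hz0, hz1, hν0, hνz, hνz1, hξ1, hξ2, hν1, hτ⟩ := efp_par P
  have hnp := efp_npos P hn
  have hne : Nonempty V := Fintype.card_pos_iff.1 (by exact_mod_cast hnp)
  rw [hτ] at h1 h2
  by_contra hcon
  push Not at hcon
  obtain ⟨T1, hT1⟩ : ∃ T1 : Finset V, ∀ y, y ∈ T1 ↔ ν * (Fintype.card V : ℝ) ≤ (dIn E y X : ℝ) :=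
    ⟨univ.filter fun y => ν * (Fintype.card V : ℝ) ≤ (dIn E y X : ℝ), fun y => by
      rw [mem_filter]; simp⟩
  -- the part of `T1` outside `T`
  have k1 := efp_few E X Tᶜ (ν * (Fintype.card V : ℝ))
  have k2 : (eb E X Tᶜ : ℝ) ≤ 100 * ξ * (Fintype.card V : ℝ) ^ 2 := by
    have : (eb E X Tᶜ : ℝ) ≤ (eb E S Tᶜ : ℝ) := by exact_mod_cast eb_mono E hX Subset.rfl
    exact this.trans h.e
  have k3 := efp_div hnp hν0 k1 k2 hξ1
  have k4 : (T1.card : ℝ) ≤
      ((T.filter fun y => ν * (Fintype.card V : ℝ) ≤ (dIn E y X : ℝ)).card : ℝ) +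
      ((Tᶜ.filter fun y => ν * (Fintype.card V : ℝ) ≤ (dIn E y X : ℝ)).card : ℝ) := by
    have h3 : T1 ⊆ (T.filter fun y => ν * (Fintype.card V : ℝ) ≤ (dIn E y X : ℝ)) ∪
        (Tᶜ.filter fun y => ν * (Fintype.card V : ℝ) ≤ (dIn E y X : ℝ)) := by
      intro y hy
      rw [hT1] at hy
      rw [mem_union, mem_filter, mem_filter, mem_compl]
      by_cases h : y ∈ T
      · exact Or.inl ⟨h, hy⟩
      · exact Or.inr ⟨h, hy⟩
    exact_mod_cast (card_le_card h3).trans (card_union_le _ _)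
  have k5 : (T1.card : ℝ) ≤ (X.card : ℝ) + 3 * (ν * (Fintype.card V : ℝ)) := by linarith
  -- few arcs
  have k6 : (eb E X T1ᶜ : ℝ) ≤ z' ^ 2 * (Fintype.card V : ℝ) ^ 2 := by
    rw [eb_eq_sum_dIn]
    push_cast
    have h3 : (∑ y ∈ T1ᶜ, (dIn E y X : ℝ)) ≤ ∑ _y ∈ T1ᶜ, ν * (Fintype.card V : ℝ) := by
      refine sum_le_sum fun y hy => ?_
      rw [mem_compl, hT1] at hy
      exact (not_le.1 hy).le
    rw [sum_const, nsmul_eq_mul] at h3
    have h4 : ((T1ᶜ.card : ℕ) : ℝ) ≤ (Fintype.card V : ℝ) := by exact_mod_cast card_le_univ T1ᶜ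
    have h5 : ((T1ᶜ.card : ℕ) : ℝ) * (ν * (Fintype.card V : ℝ)) ≤
        (Fintype.card V : ℝ) * (ν * (Fintype.card V : ℝ)) :=
      mul_le_mul_of_nonneg_right h4 (mul_pos hν0 hnp).le
    have h6 : 0 < ν * (Fintype.card V : ℝ) ^ 2 := by positivity
    rw [← hνz]
    nlinarith
  have hνn : 4 * ν * (Fintype.card V : ℝ) ≤ z' * (Fintype.card V : ℝ) :=
    mul_le_mul_of_nonneg_right hνz1 hnp.le
  have hνp : 0 < ν * (Fintype.card V : ℝ) := mul_pos hν0 hnp
  have hzp : 0 < z' * (Fintype.card V : ℝ) := mul_pos hz0 hnp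
  have hSn : (S.card : ℝ) ≤ (Fintype.card V : ℝ) := by exact_mod_cast card_le_univ S
  have k7 := (P.big _ hn).2.1
  obtain ⟨-, -, -, -, k8⟩ := num_main h.hag X T1 z' hz0 (by linarith) k6 (by linarith) (by linarith)
    (by linarith)
  have k9 := (efp_abs k8).2
  have k10 := (efp_abs h.sz).1
  have k11 : 100 * ξ * (Fintype.card V : ℝ) ≤ ν * (Fintype.card V : ℝ) :=
    mul_le_mul_of_nonneg_right hξ2 hnp.le
  linarith

/-- JOB HG-T9 (medium; uses `num_main`). Expansion of the second block.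

Proof. Let `X ⊆ Sᶜ`, `τ n ≤ |X| ≤ |Sᶜ| - τ n`, and suppose `|{y ∉ T | ν n ≤ dIn E y X}| < |X| + 2 ν n`.
`X1 = S ∪ X`, `T1 = T ∪ {y ∉ T | 2 ν n ≤ dIn E y X1}`.  Such a `y` has `ν n ≤ dIn E y S` (at most
`eb E S Tᶜ / (ν n) ≤ ν n` of them) or `ν n ≤ dIn E y X`; so `|T1| ≤ |T| + ν n + |X| + 2 ν n ≤ |X1| + 4 ν n` (`FP.st`,
`100 ξ ≤ ν² ≤ ν`), `eb E X1 T1ᶜ ≤ 2 ν n² ≤ z'² n²`, `n - |T1| ≥ τ n - 4 ν n ≥ 2 z' n`.  `num_main`:
`|X1| ≤ s* + 31 z' n ≤ |S| + 100 ξ n + 31 z' n`, so `|X| < τ n`. -/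
theorem exp_two {V : Type} [Fintype V] {E : V → V → Prop} {D p q : ℕ} {ε ρ η ν z' ξ κ : ℝ}
    {n0 : ℕ} {S T : Finset V} (P : Par ε ρ η ν z' ξ κ n0) (hn : n0 ≤ Fintype.card V)
    (h : FP E D p q ε (100 * ξ) η S T) (X : Finset V) (hX : X ⊆ Sᶜ)
    (h1 : η / 2 * (ε / 16) / 16 * (Fintype.card V : ℝ) ≤ (X.card : ℝ))
    (h2 : (X.card : ℝ) ≤ ((Sᶜ).card : ℝ) - η / 2 * (ε / 16) / 16 * (Fintype.card V : ℝ)) :
    (X.card : ℝ) + 2 * ν * (Fintype.card V : ℝ) ≤
      ((Tᶜ.filter fun y => ν * (Fintype.card V : ℝ) ≤ (dIn E y X : ℝ)).card : ℝ) := by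
  obtain ⟨hz0, hz1, hν0, hνz, hνz1, hξ1, hξ2, hν1, hτ⟩ := efp_par P
  have hnp := efp_npos P hn
  have hne : Nonempty V := Fintype.card_pos_iff.1 (by exact_mod_cast hnp)
  rw [hτ] at h1 h2
  by_contra hcon
  push Not at hcon
  have hdis : Disjoint S X := by
    rw [disjoint_left]
    intro v hv hv'
    exact (mem_compl.1 (hX hv')) hv
  have hX1 : ((S ∪ X).card : ℝ) = (S.card : ℝ) + (X.card : ℝ) := by
    exact_mod_cast card_union_of_disjoint hdis
  have hSc : ((Sᶜ.card : ℕ) : ℝ) + (S.card : ℝ) = (Fintype.card V : ℝ) := by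
    exact_mod_cast card_compl_add_card S
  obtain ⟨Y, hY⟩ : ∃ Y : Finset V, Y = Tᶜ.filter fun y =>
    2 * ν * (Fintype.card V : ℝ) ≤ (dIn E y (S ∪ X) : ℝ) := ⟨_, rfl⟩
  have k1 := efp_few E S Tᶜ (ν * (Fintype.card V : ℝ))
  have k3 := efp_div hnp hν0 k1 h.e hξ1
  have k4 : (Y.card : ℝ) ≤
      ((Tᶜ.filter fun y => ν * (Fintype.card V : ℝ) ≤ (dIn E y S : ℝ)).card : ℝ) +
      ((Tᶜ.filter fun y => ν * (Fintype.card V : ℝ) ≤ (dIn E y X : ℝ)).card : ℝ) := by
    have h3 : Y ⊆ (Tᶜ.filter fun y => ν * (Fintype.card V : ℝ) ≤ (dIn E y S : ℝ)) ∪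
        (Tᶜ.filter fun y => ν * (Fintype.card V : ℝ) ≤ (dIn E y X : ℝ)) := by
      intro y hy
      rw [hY, mem_filter] at hy
      rw [mem_union, mem_filter, mem_filter]
      have h5 : (dIn E y (S ∪ X) : ℝ) ≤ (dIn E y S : ℝ) + (dIn E y X : ℝ) := by
        exact_mod_cast dIn_union_le E y S X
      by_cases h : ν * (Fintype.card V : ℝ) ≤ (dIn E y S : ℝ)
      · exact Or.inl ⟨hy.1, h⟩
      · refine Or.inr ⟨hy.1, ?_⟩
        have := hy.2
        push Not at h
        linarith
    exact_mod_cast (card_le_card h3).trans (card_union_le _ _)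
  have k5 : ((T ∪ Y).card : ℝ) ≤ (T.card : ℝ) + (Y.card : ℝ) := by
    exact_mod_cast card_union_le T Y
  have k51 := (efp_abs h.st).2
  have k11 : 100 * ξ * (Fintype.card V : ℝ) ≤ ν * (Fintype.card V : ℝ) :=
    mul_le_mul_of_nonneg_right hξ2 hnp.le
  -- few arcs
  have k6 : (eb E (S ∪ X) (T ∪ Y)ᶜ : ℝ) ≤ z' ^ 2 * (Fintype.card V : ℝ) ^ 2 := by
    rw [eb_eq_sum_dIn]
    push_cast
    have h3 : (∑ y ∈ (T ∪ Y)ᶜ, (dIn E y (S ∪ X) : ℝ)) ≤
        ∑ _y ∈ (T ∪ Y)ᶜ, 2 * ν * (Fintype.card V : ℝ) := by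
      refine sum_le_sum fun y hy => ?_
      rw [mem_compl, mem_union, not_or] at hy
      by_contra hlt
      push Not at hlt
      refine hy.2 ?_
      rw [hY, mem_filter]
      exact ⟨mem_compl.2 hy.1, hlt.le⟩
    rw [sum_const, nsmul_eq_mul] at h3
    have h4 : (((T ∪ Y)ᶜ.card : ℕ) : ℝ) ≤ (Fintype.card V : ℝ) := by
      exact_mod_cast card_le_univ (T ∪ Y)ᶜ
    have h5 : (((T ∪ Y)ᶜ.card : ℕ) : ℝ) * (2 * ν * (Fintype.card V : ℝ)) ≤
        (Fintype.card V : ℝ) * (2 * ν * (Fintype.card V : ℝ)) :=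
      mul_le_mul_of_nonneg_right h4 (by positivity)
    have h6 : 0 < ν * (Fintype.card V : ℝ) ^ 2 := by positivity
    rw [← hνz]
    nlinarith
  have hνn : 4 * ν * (Fintype.card V : ℝ) ≤ z' * (Fintype.card V : ℝ) :=
    mul_le_mul_of_nonneg_right hνz1 hnp.le
  have hνp : 0 < ν * (Fintype.card V : ℝ) := mul_pos hν0 hnp
  have hzp : 0 < z' * (Fintype.card V : ℝ) := mul_pos hz0 hnp
  have hS0 : (0 : ℝ) ≤ (S.card : ℝ) := Nat.cast_nonneg _
  have k7 := (P.big _ hn).2.1
  obtain ⟨-, -, -, -, k8⟩ := num_main h.hag (S ∪ X) (T ∪ Y) z' hz0 (by linarith) k6 (by linarith)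
    (by linarith) (by linarith)
  have k9 := (efp_abs k8).1
  have k10 := (efp_abs h.sz).2
  linarith

theorem exp_fp {V : Type} [Fintype V] {E : V → V → Prop} {D p q : ℕ} {ε ρ η ν z' ξ κ : ℝ}
    {n0 : ℕ} {S T : Finset V} (P : Par ε ρ η ν z' ξ κ n0) (hn : n0 ≤ Fintype.card V)
    (h : FP E D p q ε (100 * ξ) η S T) : Exp2 E S T (η / 2 * (ε / 16) / 16) ν (2 * ν) :=
  ⟨fun X hX h1 h2 => exp_one P hn h X hX h1 h2, fun X hX h1 h2 => exp_two P hn h X hX h1 h2⟩

end HX
end

section

set_option autoImplicit false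

namespace HX

open Finset Classical

/-- JOB HG-S3 (medium; uses `pi_of_good`, `gallai_milgram`, `good_of_pi`). In a minimal bad set every vertex has at
most `m` in-neighbours outside.

Proof. Let `x ∈ Y`.  `pi_of_good` gives `L1`, `π`; `gallai_milgram` gives `L'`, `I`: `L'.length = |I| ≤ m + 1`, first
elements of `L'` are first elements of `L1`.  Put `H` = set of first elements `≠ x` of `L'`.
If `x` is not a first element of `L'`: `good_of_pi` with `L'`, `π`: contradiction.  So `x` is one, and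
`|H| = L'.length - 1 ≤ m`.  If some `u ∉ Y` with `E u x` is not in `π '' H`, then `good_of_pi` with `L'` and
`Function.update π x u` shows that `Y` is good.  So the in-neighbours of `x` in `Yᶜ` are in `π '' H`. -/
theorem minimal_bad {V : Type} [Fintype V] (E : V → V → Prop) (m : ℕ)
    (hα : ∀ I : Finset V, (∀ x ∈ I, ∀ y ∈ I, x ≠ y → ¬ E x y) → I.card ≤ m + 1) (Y : Finset V)
    (hbad : ¬ Good E Y) (hmin : ∀ x ∈ Y, Good E (Y.erase x)) : ∀ x ∈ Y, dIn E x Yᶜ ≤ m := by
  intro x hx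
  obtain ⟨L1, π, hL1, hp, hinj⟩ := pi_of_good E Y x hx (hmin x hx)
  obtain ⟨L', I, hL', hfirst, -, hind, hcard⟩ := gallai_milgram E Y L1 hL1
  have hlen : L'.length ≤ m + 1 := hcard ▸ hα I hind
  by_contra hlt
  push Not at hlt
  by_cases hxh : ∃ l ∈ L', l.head? = some x
  · obtain ⟨l0, hl0, hx0⟩ := hxh
    obtain ⟨H, hH⟩ : ∃ H : Finset V, H = (L'.filterMap List.head?).toFinset := ⟨_, rfl⟩
    have hHm : ∀ z, z ∈ H ↔ ∃ l ∈ L', l.head? = some z := by
      intro z
      rw [hH, List.mem_toFinset, List.mem_filterMap]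
    have hHc : H.card ≤ m + 1 := by
      rw [hH]
      exact (List.toFinset_card_le _).trans ((List.length_filterMap_le _ _).trans hlen)
    have hxH : x ∈ H := (hHm x).mpr ⟨l0, hl0, hx0⟩
    have hc1 : ((H.erase x).image π).card ≤ m := by
      refine Finset.card_image_le.trans ?_
      rw [Finset.card_erase_of_mem hxH]
      omega
    obtain ⟨u, hu, hu2⟩ : ∃ u ∈ Yᶜ.filter (fun u => E u x), u ∉ (H.erase x).image π := by
      by_contra hcon
      push Not at hcon
      have h1 : (Yᶜ.filter (fun u => E u x)).card ≤ m := (Finset.card_le_card hcon).trans hc1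
      have h2 : dIn E x Yᶜ = (Yᶜ.filter (fun u => E u x)).card := rfl
      omega
    rw [Finset.mem_filter, Finset.mem_compl] at hu
    refine hbad (good_of_pi E Y L' hL' (Function.update π x u) ?_ ?_)
    · intro l hl z hz
      by_cases hzx : z = x
      · subst hzx
        rw [Function.update_self]
        exact hu
      · rw [Function.update_of_ne hzx]
        obtain ⟨l₀, hl₀, hz₀⟩ := hfirst l hl z hz
        exact hp l₀ hl₀ z hz₀ hzx
    · intro l hl l' hl' z z' hz hz' he
      by_cases hzx : z = x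
      · by_cases hzx' : z' = x
        · rw [hzx, hzx']
        · exfalso
          subst hzx
          rw [Function.update_self, Function.update_of_ne hzx'] at he
          refine hu2 (Finset.mem_image.mpr ⟨z', ?_, he.symm⟩)
          exact Finset.mem_erase.mpr ⟨hzx', (hHm z').mpr ⟨l', hl', hz'⟩⟩
      · by_cases hzx' : z' = x
        · exfalso
          subst hzx'
          rw [Function.update_self, Function.update_of_ne hzx] at he
          refine hu2 (Finset.mem_image.mpr ⟨z, ?_, he⟩)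
          exact Finset.mem_erase.mpr ⟨hzx, (hHm z).mpr ⟨l, hl, hz⟩⟩
        · rw [Function.update_of_ne hzx, Function.update_of_ne hzx'] at he
          obtain ⟨l₀, hl₀, hz₀⟩ := hfirst l hl z hz
          obtain ⟨l₁, hl₁, hz₁⟩ := hfirst l' hl' z' hz'
          exact hinj l₀ hl₀ l₁ hl₁ z z' hz₀ hz₁ hzx hzx' he
  · refine hbad (good_of_pi E Y L' hL' π ?_ ?_)
    · intro l hl z hz
      obtain ⟨l₀, hl₀, hz₀⟩ := hfirst l hl z hz
      refine hp l₀ hl₀ z hz₀ ?_
      rintro rfl
      exact hxh ⟨l, hl, hz⟩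
    · intro l hl l' hl' z z' hz hz' he
      obtain ⟨l₀, hl₀, hz₀⟩ := hfirst l hl z hz
      obtain ⟨l₁, hl₁, hz₁⟩ := hfirst l' hl' z' hz'
      refine hinj l₀ hl₀ l₁ hl₁ z z' hz₀ hz₁ ?_ ?_ he
      · rintro rfl
        exact hxh ⟨l, hl, hz⟩
      · rintro rfl
        exact hxh ⟨l', hl', hz'⟩

end HX
end
end
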