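import Pool.Agent.Lib.MP_d16af7_co.Basic2
import Pool.Agent.Lib.MP_d16af7_co.Exc
import Pool.Agent.Lib.MP_d16af7_co.MinBad
import Pool.Agent.Lib.MP_d16af7_co.StrBase
import Pool.Agent.Lib.MP_d16af7_co.Defs

section

section

/-!
# Lemma E (exactness)

`a = |S ∩ T|`, `b = |S \ T|`, `c = |(S ∪ T)ᶜ|`, `d = |T \ S|`, `n = card V`, `u = |U|`; `a + b + c + d = n`,
`a + b = |S|`, `a + d = |T|`, `b = d + k`.  `U` is a vertex cover of the arcs from `S` to the complement of `T`.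
-/

set_option autoImplicit false

namespace HX

open Finset Classical

/-- hypotheses of Lemma E -/
structure EHyp {V : Type} [Fintype V] (E : V → V → Prop) (D p q : ℕ) (S T U : Finset V) (k : ℕ)
    (M : ℝ) : Prop where
  hag : Hag E D p q
  card : S.card = T.card + k
  hk : 1 ≤ k
  hM : 0 ≤ M
  out : ∀ v ∈ S, (dOut E v Tᶜ : ℝ) ≤ M
  inn : ∀ v, v ∉ T → (dIn E v S : ℝ) ≤ M
  cov : ∀ x ∈ S, ∀ y, y ∉ T → E x y → x ∈ U ∨ y ∈ U

/-- JOB HG-E1 (easy). Reversal: `(S, T) ↦ (Tᶜ, Sᶜ)` (`card_compl`). -/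
theorem EHyp.rev {V : Type} [Fintype V] {E : V → V → Prop} {D p q : ℕ} {S T U : Finset V} {k : ℕ}
    {M : ℝ} (h : EHyp E D p q S T U k M) : EHyp (fun x y => E y x) D q p Tᶜ Sᶜ U k M := by
  refine ⟨h.hag.rev, ?_, h.hk, h.hM, ?_, ?_, ?_⟩
  · have h1 := h.card
    have h2 := card_le_univ S
    rw [card_compl, card_compl]
    omega
  · intro v hv
    rw [compl_compl]
    exact h.inn v (mem_compl.1 hv)
  · intro v hv
    exact h.out v (by simpa using hv)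
  · intro x hx y hy hxy
    exact (h.cov y (by simpa using hy) x (mem_compl.1 hx) hxy).symm

/-- JOB HG-E1 (easy). Every arc from `X ⊆ S` to `Y ⊆ Tᶜ` has its tail in `X ∩ U` (at most `M` arcs for every tail) or
its head in `Y ∩ U` (at most `M` arcs for every head). -/
theorem EHyp.eb_le {V : Type} [Fintype V] {E : V → V → Prop} {D p q : ℕ} {S T U : Finset V} {k : ℕ}
    {M : ℝ} (h : EHyp E D p q S T U k M) (X Y : Finset V) (hX : X ⊆ S) (hY : Y ⊆ Tᶜ) :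
    (eb E X Y : ℝ) ≤ (((X ∩ U).card : ℝ) + ((Y ∩ U).card : ℝ)) * M := by
  have h1 : eb E X Y ≤ eb E (X ∩ U) Y + eb E X (Y ∩ U) := by
    have h2 : eb E X Y = eb E (X ∩ U) Y + eb E (X \ U) Y := by
      rw [← eb_union_left E (disjoint_sdiff_inter X U).symm, union_comm, sdiff_union_inter]
    have h3 : eb E (X \ U) Y = eb E (X \ U) (Y ∩ U) := by
      unfold eb
      refine sum_congr rfl fun x hx => ?_
      rw [mem_sdiff] at hx
      unfold dOut
      congr 1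
      ext y
      simp only [mem_filter, mem_inter]
      constructor
      · rintro ⟨h4, h5⟩
        rcases h.cov x (hX hx.1) y (mem_compl.1 (hY h4)) h5 with h6 | h6
        · exact absurd h6 hx.2
        · exact ⟨⟨h4, h6⟩, h5⟩
      · rintro ⟨h4, h5⟩
        exact ⟨h4.1, h5⟩
    have h4 := eb_mono E (X := X \ U) (X' := X) (Y := Y ∩ U) (Y' := Y ∩ U) sdiff_subset (Subset.refl _)
    omega
  have h2 : (eb E (X ∩ U) Y : ℝ) ≤ ((X ∩ U).card : ℝ) * M := by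
    unfold eb
    push_cast
    calc ∑ x ∈ X ∩ U, (dOut E x Y : ℝ) ≤ ∑ _x ∈ X ∩ U, M := by
          refine sum_le_sum fun x hx => ?_
          have h3 := dOut_mono E x hY
          have h4 := h.out x (hX (mem_inter.1 hx).1)
          have h5 : (dOut E x Y : ℝ) ≤ (dOut E x Tᶜ : ℝ) := by exact_mod_cast h3
          linarith
      _ = ((X ∩ U).card : ℝ) * M := by rw [sum_const, nsmul_eq_mul]
  have h3 : (eb E X (Y ∩ U) : ℝ) ≤ ((Y ∩ U).card : ℝ) * M := by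
    rw [eb_eq_sum_dIn]
    push_cast
    calc ∑ y ∈ Y ∩ U, (dIn E y X : ℝ) ≤ ∑ _y ∈ Y ∩ U, M := by
          refine sum_le_sum fun y hy => ?_
          have h3 := dIn_mono E y hX
          have h4 := h.inn y (mem_compl.1 (hY (mem_inter.1 hy).1))
          have h5 : (dIn E y X : ℝ) ≤ (dIn E y S : ℝ) := by exact_mod_cast h3
          linarith
      _ = ((Y ∩ U).card : ℝ) * M := by rw [sum_const, nsmul_eq_mul]
  have h4 : (eb E X Y : ℝ) ≤ (eb E (X ∩ U) Y : ℝ) + (eb E X (Y ∩ U) : ℝ) := by exact_mod_cast h1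
  rw [add_mul]
  linarith

/-- JOB HG-E1 (medium; uses `EHyp.eb_le`, `eb_self`, `eb_le_mul`). `p ≤ (a - 1)/2 + d + u/16` if `a ≥ 16 M`, `a ≥ 1`.

Proof. `a p ≤ eb E A univ = eb E A A + eb E A (T \ S) + eb E A Tᶜ ≤ a (a - 1)/2 + a d + u M`
(`A = S ∩ T` and `Tᶜ` are disjoint, so `|A ∩ U| + |Tᶜ ∩ U| ≤ u`), and `u M ≤ u a/16`. -/
theorem EHyp.p_le {V : Type} [Fintype V] {E : V → V → Prop} {D p q : ℕ} {S T U : Finset V} {k : ℕ}
    {M : ℝ} (h : EHyp E D p q S T U k M) (ha : 16 * M ≤ ((S ∩ T).card : ℝ))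
    (ha1 : 1 ≤ (S ∩ T).card) :
    (p : ℝ) ≤ (((S ∩ T).card : ℝ) - 1) / 2 + ((T \ S).card : ℝ) + (U.card : ℝ) / 16 := by
  obtain ⟨A, hA⟩ : ∃ A : Finset V, A = S ∩ T := ⟨_, rfl⟩
  have hAS : A ⊆ S := by rw [hA]; exact inter_subset_left
  have hAT : A ⊆ T := by rw [hA]; exact inter_subset_right
  have hT : T = A ∪ (T \ S) := by
    rw [hA, inter_comm, union_comm, sdiff_union_inter]
  have hd1 : Disjoint A (T \ S) := disjoint_of_subset_left hAS disjoint_sdiff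
  rw [← hA] at ha ha1 ⊢
  have e1 : eb E A univ = eb E A A + eb E A (T \ S) + eb E A Tᶜ := by
    rw [← eb_union_right E A hd1, ← hT, ← eb_union_right E A disjoint_compl_right, union_compl]
  have e2 : A.card * p ≤ eb E A univ := by
    unfold eb
    calc A.card * p = ∑ _x ∈ A, p := by rw [sum_const, smul_eq_mul]
      _ ≤ ∑ x ∈ A, dOut E x univ := sum_le_sum fun x _ => h.hag.out x
  have e3 := eb_self E h.hag.ori A
  have e4 := eb_le_mul E A (T \ S)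
  have e5 := h.eb_le A Tᶜ hAS (Subset.refl _)
  have e6 : (A ∩ U).card + (Tᶜ ∩ U).card ≤ U.card := by
    rw [← card_union_of_disjoint]
    · exact card_le_card (union_subset inter_subset_right inter_subset_right)
    · refine disjoint_of_subset_left inter_subset_left (disjoint_of_subset_right inter_subset_left ?_)
      exact disjoint_of_subset_left hAT disjoint_compl_right
  have f0 : (1 : ℝ) ≤ (A.card : ℝ) := by exact_mod_cast ha1
  have f1 : (A.card : ℝ) * p ≤ (eb E A A : ℝ) + (eb E A (T \ S) : ℝ) + (eb E A Tᶜ : ℝ) := by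
    rw [e1] at e2
    exact_mod_cast e2
  have f2 : 2 * (eb E A A : ℝ) + (A.card : ℝ) ≤ (A.card : ℝ) * (A.card : ℝ) := by exact_mod_cast e3
  have f3 : (eb E A (T \ S) : ℝ) ≤ (A.card : ℝ) * ((T \ S).card : ℝ) := by exact_mod_cast e4
  have f4 : ((A ∩ U).card : ℝ) + ((Tᶜ ∩ U).card : ℝ) ≤ (U.card : ℝ) := by exact_mod_cast e6
  have f5 : (((A ∩ U).card : ℝ) + ((Tᶜ ∩ U).card : ℝ)) * M ≤ (U.card : ℝ) * M :=
    mul_le_mul_of_nonneg_right f4 h.hM
  have f6 : (U.card : ℝ) * M ≤ (U.card : ℝ) * ((A.card : ℝ) / 16) :=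
    mul_le_mul_of_nonneg_left (by linarith) (Nat.cast_nonneg _)
  have f7 : (A.card : ℝ) * p ≤ (A.card : ℝ) *
      (((A.card : ℝ) - 1) / 2 + ((T \ S).card : ℝ) + (U.card : ℝ) / 16) := by
    nlinarith
  exact le_of_mul_le_mul_left f7 (by linarith)

/-- JOB HG-E1 (easy; `EHyp.p_le` for `EHyp.rev`). `q ≤ (c - 1)/2 + d + u/16` if `c ≥ 16 M`, `c ≥ 1`. -/
theorem EHyp.q_le {V : Type} [Fintype V] {E : V → V → Prop} {D p q : ℕ} {S T U : Finset V} {k : ℕ}
    {M : ℝ} (h : EHyp E D p q S T U k M) (hc : 16 * M ≤ (((S ∪ T)ᶜ).card : ℝ))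
    (hc1 : 1 ≤ ((S ∪ T)ᶜ).card) :
    (q : ℝ) ≤ ((((S ∪ T)ᶜ).card : ℝ) - 1) / 2 + ((T \ S).card : ℝ) + (U.card : ℝ) / 16 := by
  have e1 : Tᶜ ∩ Sᶜ = (S ∪ T)ᶜ := by
    ext v
    simp only [mem_inter, mem_compl, mem_union]
    tauto
  have e2 : Sᶜ \ Tᶜ = T \ S := by
    ext v
    simp only [mem_sdiff, mem_compl]
    tauto
  have h1 := h.rev.p_le (by rw [e1]; exact hc) (by rw [e1]; exact hc1)
  rw [e1, e2] at h1
  exact h1

/-- JOB HG-E1 (easy). `D ≤ n - 1` (`dOut_add_dIn_lt` for any vertex). -/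
theorem Hag.D_lt {V : Type} [Fintype V] [Nonempty V] {E : V → V → Prop} {D p q : ℕ}
    (h : Hag E D p q) : D + 1 ≤ Fintype.card V := by
  obtain ⟨v⟩ := ‹Nonempty V›
  have h1 := h.deg v
  have h2 := dOut_add_dIn_lt E h.ori (mem_univ v)
  rw [card_univ] at h2
  omega

/-- JOB HG-E1 (easy). The sizes of the four classes: `a + b + c + d = n` and `b = d + k`. -/
theorem EHyp.sizes {V : Type} [Fintype V] {E : V → V → Prop} {D p q : ℕ} {S T U : Finset V} {k : ℕ}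
    {M : ℝ} (h : EHyp E D p q S T U k M) :
    (S ∩ T).card + (S \ T).card + ((S ∪ T)ᶜ).card + (T \ S).card = Fintype.card V ∧
      (S \ T).card = (T \ S).card + k := by
  have h1 := card_inter_add_card_sdiff S T
  have h2 := card_inter_add_card_sdiff T S
  have h3 := card_sdiff_add_card T S
  have h4 := h.card
  have h5 : ((S ∪ T)ᶜ).card + (S ∪ T).card = Fintype.card V := by
    rw [card_compl]
    have := card_le_univ (S ∪ T)
    omega
  rw [inter_comm T S] at h2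
  rw [union_comm T S] at h3
  omega

end HX
end

section

set_option autoImplicit false

namespace HX

open Finset Classical

private theorem leb_inter_add {V : Type} {X Y U : Finset V} (h : Disjoint X Y) :
    (X ∩ U).card + (Y ∩ U).card ≤ U.card := by
  rw [← card_union_of_disjoint (h.mono inter_subset_left inter_subset_left)]
  exact card_le_card (union_subset inter_subset_right inter_subset_right)

/-- JOB HG-E2 (medium; uses `eb_self`). `p ≤ (a - 1)/2 + d + u` if `A = S ∩ T` is not contained in `U`.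

Proof. `X = A \ U ≠ ∅`, `x = |X|`.  For `v ∈ X` all out-neighbours in `Tᶜ` are in `U`: `dOut E v Tᶜ ≤ |Tᶜ ∩ U|`.
`dOut E v (A ∩ U) ≤ |A ∩ U|`, `dOut E v (T \ S) ≤ d`, and `eb E X X ≤ x (x - 1)/2`.  So
`x p ≤ eb E X univ ≤ x (x - 1)/2 + x |A ∩ U| + x d + x |Tᶜ ∩ U|`,
`p ≤ (x - 1)/2 + |A ∩ U| + |Tᶜ ∩ U| + d`, and `x = a - |A ∩ U|`, `|A ∩ U| + |Tᶜ ∩ U| ≤ u`. -/
theorem EHyp.p_le2 {V : Type} [Fintype V] {E : V → V → Prop} {D p q : ℕ} {S T U : Finset V} {k : ℕ}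
    {M : ℝ} (h : EHyp E D p q S T U k M) (hA : ¬ S ∩ T ⊆ U) :
    (p : ℝ) ≤ (((S ∩ T).card : ℝ) - 1) / 2 + ((T \ S).card : ℝ) + (U.card : ℝ) := by
  have hX : ((S ∩ T) \ U).Nonempty := by
    rw [Finset.nonempty_iff_ne_empty]
    intro h0
    exact hA (sdiff_eq_empty_iff_subset.1 h0)
  have hx : 0 < ((S ∩ T) \ U).card := card_pos.2 hX
  have h1 : ∀ v ∈ (S ∩ T) \ U, p ≤ dOut E v ((S ∩ T) \ U) +
      ((T \ S).card + ((S ∩ T) ∩ U).card + (Tᶜ ∩ U).card) := by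
    intro v hv
    rw [mem_sdiff, mem_inter] at hv
    have h2 := h.hag.out v
    rw [dOut_compl E v T] at h2
    have h3 := dOut_le_sdiff E v T ((S ∩ T) \ U)
    have h4 : (T \ ((S ∩ T) \ U)).card ≤ (T \ S).card + ((S ∩ T) ∩ U).card := by
      refine (card_le_card ?_).trans (card_union_le _ _)
      intro y hy
      rw [mem_sdiff, mem_sdiff, mem_inter] at hy
      rw [mem_union, mem_sdiff, mem_inter, mem_inter]
      tauto
    have h5 : dOut E v Tᶜ ≤ (Tᶜ ∩ U).card := by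
      refine card_le_card ?_
      intro y hy
      rw [mem_filter, mem_compl] at hy
      rw [mem_inter, mem_compl]
      refine ⟨hy.1, ?_⟩
      rcases h.cov v hv.1.1 y hy.1 hy.2 with h6 | h6
      · exact absurd h6 hv.2
      · exact h6
    omega
  have h2 := sum_le_sum h1
  rw [sum_const, smul_eq_mul, sum_add_distrib, sum_const, smul_eq_mul] at h2
  have h3 := eb_self E h.hag.ori ((S ∩ T) \ U)
  have h4 : ((S ∩ T) \ U).card * (2 * p + 1) ≤ ((S ∩ T) \ U).card *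
      (((S ∩ T) \ U).card + 2 * ((T \ S).card + ((S ∩ T) ∩ U).card + (Tᶜ ∩ U).card)) := by
    unfold eb at h3
    nlinarith
  have h5 := Nat.le_of_mul_le_mul_left h4 hx
  have h6 : ((S ∩ T) \ U).card + ((S ∩ T) ∩ U).card = (S ∩ T).card := card_sdiff_add_card_inter _ _
  have h7 : ((S ∩ T) ∩ U).card + (Tᶜ ∩ U).card ≤ U.card := by
    refine leb_inter_add ?_
    exact (disjoint_compl_right (a := T)).mono inter_subset_right le_rfl
  have h8 : 2 * p + 1 ≤ (S ∩ T).card + 2 * (T \ S).card + 2 * U.card := by omega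
  have h9 : (2 : ℝ) * p + 1 ≤ (S ∩ T).card + 2 * (T \ S).card + 2 * U.card := by exact_mod_cast h8
  linarith

/-- JOB HG-E2 (medium; uses `EHyp.eb_le`). `p ≤ a + d + u/8` if `b ≥ 16 M`, `b ≥ 1`.

Proof. `b p ≤ eb E B univ = eb E B T + eb E B Tᶜ ≤ b (a + d) + 2 u M`, `B = S \ T`, `|T| = a + d`. -/
theorem EHyp.p_le3 {V : Type} [Fintype V] {E : V → V → Prop} {D p q : ℕ} {S T U : Finset V} {k : ℕ}
    {M : ℝ} (h : EHyp E D p q S T U k M) (hb : 16 * M ≤ ((S \ T).card : ℝ))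
    (hb1 : 1 ≤ (S \ T).card) :
    (p : ℝ) ≤ ((S ∩ T).card : ℝ) + ((T \ S).card : ℝ) + (U.card : ℝ) / 8 := by
  have hM := h.hM
  have h1 : (S \ T).card * p ≤ eb E (S \ T) univ := by
    have := sum_le_sum fun (v : V) (_ : v ∈ S \ T) => h.hag.out v
    rw [sum_const, smul_eq_mul] at this
    exact this
  have h2 : eb E (S \ T) univ = eb E (S \ T) T + eb E (S \ T) Tᶜ := by
    rw [← eb_union_right E _ disjoint_compl_right, union_compl]
  have h3 := eb_le_mul E (S \ T) T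
  have h4 := h.eb_le (S \ T) Tᶜ sdiff_subset (Subset.refl _)
  have h5 : T.card = (S ∩ T).card + (T \ S).card := by
    rw [inter_comm, add_comm, card_sdiff_add_card_inter]
  have h6 : (((S \ T) ∩ U).card : ℝ) ≤ U.card := by exact_mod_cast card_le_card inter_subset_right
  have h7 : ((Tᶜ ∩ U).card : ℝ) ≤ U.card := by exact_mod_cast card_le_card inter_subset_right
  have h8 : ((((S \ T) ∩ U).card : ℝ) + ((Tᶜ ∩ U).card : ℝ)) * M ≤ (2 * U.card) * (((S \ T).card : ℝ) / 16) :=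
    mul_le_mul (by linarith) (by linarith) hM (by positivity)
  have h9 : ((S \ T).card : ℝ) * p ≤ (S \ T).card * T.card + (2 * U.card) * (((S \ T).card : ℝ) / 16) := by
    have e1 : (((S \ T).card * p : ℕ) : ℝ) ≤ ((eb E (S \ T) T + eb E (S \ T) Tᶜ : ℕ) : ℝ) := by
      exact_mod_cast h2 ▸ h1
    have e2 : ((eb E (S \ T) T : ℕ) : ℝ) ≤ (((S \ T).card * T.card : ℕ) : ℝ) := by exact_mod_cast h3
    push_cast at e1 e2
    linarith
  have hb0 : (0 : ℝ) < (S \ T).card := by exact_mod_cast hb1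
  have h10 : ((S \ T).card : ℝ) * p ≤ (S \ T).card *
      (((S ∩ T).card : ℝ) + ((T \ S).card : ℝ) + (U.card : ℝ) / 8) := by
    rw [h5] at h9
    push_cast at h9
    linarith
  exact le_of_mul_le_mul_left h10 hb0

/-- JOB HG-E2 (medium; uses `EHyp.eb_le`, `dOut_add_dIn_le`). `D ≤ n - b + u/4` if `b ≥ 16 M`, `b ≥ 1`.

Proof. `B = S \ T`.  `b D ≤ ∑_{v ∈ B} (dOut E v univ + dIn E v univ) ≤ b (n - b) + 2 eb E B B`
(`dOut_add_dIn_le` for `Bᶜ`), `eb E B B ≤ 2 |B ∩ U| M ≤ 2 u M`. -/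
theorem EHyp.D_le {V : Type} [Fintype V] {E : V → V → Prop} {D p q : ℕ} {S T U : Finset V} {k : ℕ}
    {M : ℝ} (h : EHyp E D p q S T U k M) (hb : 16 * M ≤ ((S \ T).card : ℝ))
    (hb1 : 1 ≤ (S \ T).card) :
    (D : ℝ) ≤ (Fintype.card V : ℝ) - ((S \ T).card : ℝ) + (U.card : ℝ) / 4 := by
  have hM := h.hM
  have h1 : ∀ v ∈ S \ T, D ≤ (dOut E v (S \ T) + dIn E v (S \ T)) + ((S \ T)ᶜ).card := by
    intro v _
    have h2 := h.hag.deg v
    rw [dOut_compl E v (S \ T), dIn_compl E v (S \ T)] at h2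
    have h3 := dOut_add_dIn_le E h.hag.ori v (S \ T)ᶜ
    omega
  have h2 := sum_le_sum h1
  rw [sum_const, smul_eq_mul, sum_add_distrib, sum_add_distrib, sum_const, smul_eq_mul,
    ← eb_eq_sum_dIn] at h2
  have h3 : (S \ T).card * D ≤ 2 * eb E (S \ T) (S \ T) + (S \ T).card * ((S \ T)ᶜ).card := by
    have : ∑ i ∈ S \ T, dOut E i (S \ T) = eb E (S \ T) (S \ T) := rfl
    omega
  have hsub : S \ T ⊆ Tᶜ := by
    intro v hv
    rw [mem_sdiff] at hv
    exact mem_compl.2 hv.2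
  have h4 := h.eb_le (S \ T) (S \ T) sdiff_subset hsub
  have h6 : (((S \ T) ∩ U).card : ℝ) ≤ U.card := by exact_mod_cast card_le_card inter_subset_right
  have h8 : ((((S \ T) ∩ U).card : ℝ) + (((S \ T) ∩ U).card : ℝ)) * M ≤ (2 * U.card) * (((S \ T).card : ℝ) / 16) :=
    mul_le_mul (by linarith) (by linarith) hM (by positivity)
  have h9 : (((S \ T)ᶜ).card : ℝ) = (Fintype.card V : ℝ) - ((S \ T).card : ℝ) := by
    have := card_add_card_compl (S \ T)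
    have : ((S \ T).card : ℝ) + (((S \ T)ᶜ).card : ℝ) = (Fintype.card V : ℝ) := by exact_mod_cast this
    linarith
  have h10 : ((S \ T).card : ℝ) * D ≤ 2 * (eb E (S \ T) (S \ T) : ℝ) + (S \ T).card * (((S \ T)ᶜ).card : ℝ) := by
    exact_mod_cast h3
  have hb0 : (0 : ℝ) < (S \ T).card := by exact_mod_cast hb1
  have h11 : ((S \ T).card : ℝ) * D ≤ (S \ T).card *
      ((Fintype.card V : ℝ) - ((S \ T).card : ℝ) + (U.card : ℝ) / 4) := by
    rw [h9] at h10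
    linarith
  exact le_of_mul_le_mul_left h11 hb0

/-- JOB HG-E2 (easy). `D ≤ n - b + u` if `B = S \ T` is not contained in `U`: all neighbours in `B` of a vertex
`x ∈ B \ U` are in `U` (`B ⊆ S`, `B ⊆ Tᶜ`), `dOut_add_dIn_le` for `Bᶜ` and for `B ∩ U`. -/
theorem EHyp.D_le2 {V : Type} [Fintype V] {E : V → V → Prop} {D p q : ℕ} {S T U : Finset V} {k : ℕ}
    {M : ℝ} (h : EHyp E D p q S T U k M) (hB : ¬ S \ T ⊆ U) :
    (D : ℝ) ≤ (Fintype.card V : ℝ) - ((S \ T).card : ℝ) + (U.card : ℝ) := by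
  obtain ⟨x, hx, hxU⟩ := not_subset.1 hB
  have hx' := mem_sdiff.1 hx
  have h2 := h.hag.deg x
  rw [dOut_compl E x (S \ T), dIn_compl E x (S \ T)] at h2
  have h3 := dOut_add_dIn_le E h.hag.ori x (S \ T)ᶜ
  have h4 := dOut_add_dIn_le E h.hag.ori x ((S \ T) ∩ U)
  have h5 : dOut E x (S \ T) ≤ dOut E x ((S \ T) ∩ U) := by
    refine card_le_card ?_
    intro y hy
    rw [mem_filter, mem_sdiff] at hy
    rw [mem_filter, mem_inter, mem_sdiff]
    refine ⟨⟨hy.1, ?_⟩, hy.2⟩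
    rcases h.cov x hx'.1 y hy.1.2 hy.2 with h6 | h6
    · exact absurd h6 hxU
    · exact h6
  have h6 : dIn E x (S \ T) ≤ dIn E x ((S \ T) ∩ U) := by
    refine card_le_card ?_
    intro y hy
    rw [mem_filter, mem_sdiff] at hy
    rw [mem_filter, mem_inter, mem_sdiff]
    refine ⟨⟨hy.1, ?_⟩, hy.2⟩
    rcases h.cov y hy.1.1 x hx'.2 hy.2 with h6 | h6
    · exact h6
    · exact absurd h6 hxU
  have h7 : ((S \ T) ∩ U).card ≤ U.card := card_le_card inter_subset_right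
  have h8 := card_add_card_compl (S \ T)
  have h9 : D + (S \ T).card ≤ Fintype.card V + U.card := by omega
  have h10 : (D : ℝ) + (S \ T).card ≤ Fintype.card V + U.card := by exact_mod_cast h9
  linarith

end HX
end

section

set_option autoImplicit false

namespace HX

open Finset Classical

private theorem le2_sizes {V : Type} [Fintype V] {E : V → V → Prop} {D p q : ℕ} {S T U : Finset V} {k : ℕ}
    {M : ℝ} (h : EHyp E D p q S T U k M) :
    ((S ∩ T).card : ℝ) + (S \ T).card + ((S ∪ T)ᶜ).card + (T \ S).card = Fintype.card V ∧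
      ((S \ T).card : ℝ) = (T \ S).card + k ∧ (3 : ℝ) * Fintype.card V ≤ 2 * (D + p + q) + 2 ∧ (1 : ℝ) ≤ k := by
  obtain ⟨h1, h2⟩ := h.sizes
  exact ⟨by exact_mod_cast h1, by exact_mod_cast h2, by exact_mod_cast h.hag.sum, by exact_mod_cast h.hk⟩

/-- JOB HG-E3 (medium; uses `EHyp.p_le`, `EHyp.q_le`, `EHyp.D_le2`, `Hag.D_lt`, `EHyp.sizes`). Lemma E if `a` and `c` are
large.

Proof. All in `ℝ`: `(a - 1)/2 + d + (n - b) + (c - 1)/2 + d = (3 n - 2)/2 - (3/2) k` (`EHyp.sizes`), and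
`(3 n - 2)/2 ≤ D + p + q` (`Hag.sum`).  Suppose `u ≤ k`.
If `B = S \ T` is not contained in `U`: `D ≤ n - b + u`, so `(3/2) k ≤ u + u/8 ≤ 9 k/8`, contradiction.
If `B ⊆ U`: `d + k = b ≤ u ≤ k`, so `d = 0`, `b = k`; `D ≤ n - 1`, so
`(3 n - 2)/2 ≤ (n - 1) + (a + c - 2)/2 + u/8 ≤ (n - 1) + (n - k - 2)/2 + k/8`, contradiction. -/
theorem lemE_ac {V : Type} [Fintype V] {E : V → V → Prop} {D p q : ℕ} {S T U : Finset V} {k : ℕ}
    {M : ℝ} (h : EHyp E D p q S T U k M) (ha : 16 * M ≤ ((S ∩ T).card : ℝ))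
    (ha1 : 1 ≤ (S ∩ T).card) (hc : 16 * M ≤ (((S ∪ T)ᶜ).card : ℝ)) (hc1 : 1 ≤ ((S ∪ T)ᶜ).card) :
    k + 1 ≤ U.card := by
  by_contra hcon
  have hu : U.card ≤ k := by omega
  have hu' : (U.card : ℝ) ≤ k := by exact_mod_cast hu
  have hu0 : (0 : ℝ) ≤ U.card := by positivity
  obtain ⟨h1, h2, h3, h4⟩ := le2_sizes h
  have h5 := h.p_le ha ha1
  have h6 := h.q_le hc hc1
  by_cases hB : S \ T ⊆ U
  · obtain ⟨x, hx⟩ := card_pos.1 (by omega : 0 < (S ∩ T).card)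
    have : Nonempty V := ⟨x⟩
    have h7 : (D : ℝ) + 1 ≤ Fintype.card V := by exact_mod_cast h.hag.D_lt
    have h8 : ((S \ T).card : ℝ) ≤ U.card := by exact_mod_cast card_le_card hB
    have h9 : (0 : ℝ) ≤ (T \ S).card := by positivity
    linarith
  · have h7 := h.D_le2 hB
    linarith

/-- JOB HG-E3 (medium; uses `EHyp.D_le`, `EHyp.q_le`, `EHyp.p_le2`, `EHyp.p_le3`, `EHyp.sizes`). Lemma E if `b` and `c`
are large.

Proof. Base identity as in `lemE_ac`.  Suppose `u ≤ k`.  `D ≤ n - b + u/4`, `q ≤ (c - 1)/2 + d + u/16`.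
If `A = S ∩ T` is not contained in `U`: `p ≤ (a - 1)/2 + d + u`, so `(3/2) k ≤ 21 u/16 ≤ 21 k/16`, contradiction.
If `A ⊆ U`: `a ≤ u`, `p ≤ a + d + u/8`: `(3/2) k ≤ (a + 1)/2 + 7 u/16 ≤ 15 k/16 + 1/2`, contradiction as `k ≥ 1`. -/
theorem lemE_bc {V : Type} [Fintype V] {E : V → V → Prop} {D p q : ℕ} {S T U : Finset V} {k : ℕ}
    {M : ℝ} (h : EHyp E D p q S T U k M) (hb : 16 * M ≤ ((S \ T).card : ℝ))
    (hb1 : 1 ≤ (S \ T).card) (hc : 16 * M ≤ (((S ∪ T)ᶜ).card : ℝ)) (hc1 : 1 ≤ ((S ∪ T)ᶜ).card) :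
    k + 1 ≤ U.card := by
  by_contra hcon
  have hu : U.card ≤ k := by omega
  have hu' : (U.card : ℝ) ≤ k := by exact_mod_cast hu
  obtain ⟨h1, h2, h3, h4⟩ := le2_sizes h
  have h5 := h.D_le hb hb1
  have h6 := h.q_le hc hc1
  by_cases hA : S ∩ T ⊆ U
  · have h7 := h.p_le3 hb hb1
    have h8 : ((S ∩ T).card : ℝ) ≤ U.card := by exact_mod_cast card_le_card hA
    linarith
  · have h7 := h.p_le2 hA
    linarith

/-- JOB HG-E3 (easy; `lemE_bc` for `EHyp.rev`). Lemma E if `a` and `b` are large: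
`Tᶜ \ Sᶜ = S \ T`, `(Tᶜ ∪ Sᶜ)ᶜ = S ∩ T`. -/
theorem lemE_ab {V : Type} [Fintype V] {E : V → V → Prop} {D p q : ℕ} {S T U : Finset V} {k : ℕ}
    {M : ℝ} (h : EHyp E D p q S T U k M) (ha : 16 * M ≤ ((S ∩ T).card : ℝ))
    (ha1 : 1 ≤ (S ∩ T).card) (hb : 16 * M ≤ ((S \ T).card : ℝ)) (hb1 : 1 ≤ (S \ T).card) :
    k + 1 ≤ U.card := by
  have e1 : Tᶜ \ Sᶜ = S \ T := by
    ext v
    simp only [mem_sdiff, mem_compl, not_not]
    tauto
  have e2 : (Tᶜ ∪ Sᶜ)ᶜ = S ∩ T := by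
    ext v
    simp only [mem_compl, mem_union, mem_inter]
    tauto
  refine lemE_bc h.rev ?_ ?_ ?_ ?_
  · rw [e1]; exact hb
  · rw [e1]; exact hb1
  · rw [e2]; exact ha
  · rw [e2]; exact ha1

/-- JOB HG-E3 (easy; uses `lemE_ac`, `lemE_bc`, `lemE_ab` with `U = Iᶜ`). Independent sets are small. An arc `x → y` from
`S` to `Tᶜ` has `x ≠ y` (`Hag.ori`), so `x ∉ I` or `y ∉ I`. -/
theorem lemE {V : Type} [Fintype V] {E : V → V → Prop} {D p q : ℕ} (h : Hag E D p q)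
    (S T : Finset V) (k : ℕ) (M : ℝ) (hc : S.card = T.card + k) (hk : 1 ≤ k) (hM : 0 ≤ M)
    (h1 : ∀ v ∈ S, (dOut E v Tᶜ : ℝ) ≤ M) (h2 : ∀ v, v ∉ T → (dIn E v S : ℝ) ≤ M)
    (h3 : (16 * M ≤ ((S ∩ T).card : ℝ) ∧ 1 ≤ (S ∩ T).card ∧
        16 * M ≤ ((S \ T).card : ℝ) ∧ 1 ≤ (S \ T).card) ∨
      (16 * M ≤ ((S ∩ T).card : ℝ) ∧ 1 ≤ (S ∩ T).card ∧
        16 * M ≤ (((S ∪ T)ᶜ).card : ℝ) ∧ 1 ≤ ((S ∪ T)ᶜ).card) ∨
      (16 * M ≤ ((S \ T).card : ℝ) ∧ 1 ≤ (S \ T).card ∧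
        16 * M ≤ (((S ∪ T)ᶜ).card : ℝ) ∧ 1 ≤ ((S ∪ T)ᶜ).card))
    (I : Finset V) (hI : ∀ x ∈ I, ∀ y ∈ I, x ≠ y → ¬ (E x y ∧ x ∈ S ∧ y ∉ T)) :
    I.card + (k + 1) ≤ Fintype.card V := by
  have hE : EHyp E D p q S T Iᶜ k M := by
    refine ⟨h, hc, hk, hM, h1, h2, ?_⟩
    intro x hx y hy hxy
    by_contra hcon
    push Not at hcon
    rw [mem_compl, mem_compl, not_not, not_not] at hcon
    have hne : x ≠ y := by
      rintro rfl
      exact h.ori x x hxy hxy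
    exact hI x hcon.1 y hcon.2 hne ⟨hxy, hx, hy⟩
  have h4 : k + 1 ≤ Iᶜ.card := by
    rcases h3 with h3 | h3 | h3
    · exact lemE_ab hE h3.1 h3.2.1 h3.2.2.1 h3.2.2.2
    · exact lemE_ac hE h3.1 h3.2.1 h3.2.2.1 h3.2.2.2
    · exact lemE_bc hE h3.1 h3.2.1 h3.2.2.1 h3.2.2.2
  have h5 := card_add_card_compl I
  omega

/-- JOB HG-E3 (medium; uses `eb_self`, `Hag.D_lt`). The case `S = T`: there is an arc from `S` to `Sᶜ`.

Proof. If `|I| + 1 > n` then `I = univ` and there is no arc from `S` to `Sᶜ`.  With `a = |S| ≥ 1`, `c = |Sᶜ| ≥ 1`: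
`a p ≤ eb E S univ = eb E S S`, `2 eb E S S ≤ a² - a`, so `2 p + 1 ≤ a`; `c q ≤ ∑_{v ∈ Sᶜ} dIn E v univ = eb E Sᶜ Sᶜ`,
so `2 q + 1 ≤ c`; `D + 1 ≤ n`.  So `2 (D + p + q) + 2 ≤ 2 n + (a + c) - 2 < 3 n`, contradiction to `Hag.sum`. -/
theorem lemE_zero {V : Type} [Fintype V] {E : V → V → Prop} {D p q : ℕ} (h : Hag E D p q)
    (S : Finset V) (hS : S.Nonempty) (hS' : Sᶜ.Nonempty)
    (I : Finset V) (hI : ∀ x ∈ I, ∀ y ∈ I, x ≠ y → ¬ (E x y ∧ x ∈ S ∧ y ∉ S)) :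
    I.card + 1 ≤ Fintype.card V := by
  by_contra hcon
  have hI1 : I = univ := by
    rw [← Finset.card_eq_iff_eq_univ]
    have := card_le_univ I
    omega
  have hno : ∀ x ∈ S, ∀ y, y ∉ S → ¬ E x y := by
    intro x hx y hy hxy
    have hne : x ≠ y := by
      rintro rfl
      exact hy hx
    exact hI x (hI1 ▸ mem_univ x) y (hI1 ▸ mem_univ y) hne ⟨hxy, hx, hy⟩
  obtain ⟨x0, hx0⟩ := hS
  have : Nonempty V := ⟨x0⟩
  have hD := h.D_lt
  have ha : 0 < S.card := card_pos.2 ⟨x0, hx0⟩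
  have hc : 0 < Sᶜ.card := card_pos.2 hS'
  have h1 : ∀ v ∈ S, p ≤ dOut E v S := by
    intro v hv
    have h2 := h.out v
    rw [dOut_compl E v S] at h2
    have h3 : dOut E v Sᶜ = 0 := by
      unfold dOut
      rw [card_eq_zero, filter_eq_empty_iff]
      intro y hy
      exact hno v hv y (mem_compl.1 hy)
    omega
  have h2 : ∀ v ∈ Sᶜ, q ≤ dIn E v Sᶜ := by
    intro v hv
    have h2 := h.inn v
    rw [dIn_compl E v S] at h2
    have h3 : dIn E v S = 0 := by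
      unfold dIn
      rw [card_eq_zero, filter_eq_empty_iff]
      intro y hy
      exact hno y hy v (mem_compl.1 hv)
    omega
  have h3 : S.card * p ≤ eb E S S := by
    have := sum_le_sum h1
    rw [sum_const, smul_eq_mul] at this
    exact this
  have h4 : Sᶜ.card * q ≤ eb E Sᶜ Sᶜ := by
    have := sum_le_sum h2
    rw [sum_const, smul_eq_mul] at this
    rw [eb_eq_sum_dIn]
    exact this
  have h5 := eb_self E h.ori S
  have h6 := eb_self E h.ori Sᶜ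
  have h7 : 2 * p + 1 ≤ S.card := by
    refine Nat.le_of_mul_le_mul_left ?_ ha
    nlinarith
  have h8 : 2 * q + 1 ≤ Sᶜ.card := by
    refine Nat.le_of_mul_le_mul_left ?_ hc
    nlinarith
  have h9 := card_add_card_compl S
  have h10 := h.sum
  omega

end HX
end
end

section

section

set_option autoImplicit false

namespace HX

open Finset Classical

/-- JOB HG-C4 (medium; uses `core_choice`, `core_bexp`, `block_ham`, `cut_pp`, `pp_append`, `good_of_pi`).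

Proof. `k0 = 2 n0 + 10⁹` with `n0` from `block_ham (1/8) (1/10^6)`.  `core_choice` gives `s, y, v, u, f`; `W = lowOut E Y`,
`O`, `I` as in `core_bexp`, `|I| ≥ k/2 ≥ n0`.  `φ x = v i` if `x = u i`, `φ x = x` otherwise; `φ` maps `I` to `O`
injectively (`v i ∉ I`, `v i ∈ O` as `v i ≠ u j`).  `block_ham` gives a cyclic list of `I`; `cut_pp` with
`Dm = univ.image u ⊆ I` (nonempty as `s ≥ 1`): `PP E (I ∪ {v i}) LL`, `I ∪ {v i} = Y \ W`, first elements are among the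
`v i`, every `u i` is a last element.  `pp_append` with `W` and `w ↦ u (f w)`: `PP E Y LL'` (`(Y \ W) ∪ W = Y`), first
elements among the `v i`.  `good_of_pi` with `π (v i) = y i`. -/
theorem core : ∃ k0 : ℕ, ∀ (V : Type) [Fintype V] (E : V → V → Prop) (Y : Finset V) (m r t : ℕ),
    CoreH E Y m r t → k0 ≤ Y.card → Good E Y := by
  obtain ⟨n0, hn0⟩ := block_ham (1 / 8) (1 / 10 ^ 6) (by norm_num) (by norm_num) (by norm_num)
  refine ⟨2 * n0 + 10 ^ 9, ?_⟩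
  intro V _ E Y m r t h hk0
  obtain ⟨s, y, v, u, f, hs1, hs5, hy, hv, hu, hyY, hvY, huY, huv, hf, hfE⟩ := core_choice h
  have hB := core_bexp h hs5 v u hv hu hvY huY
  have hW := card_lowOut h
  have hWY : lowOut E Y ⊆ Y := filter_subset _ _
  have hvS : univ.image v ⊆ Y \ lowOut E Y := by
    intro x hx
    obtain ⟨i, -, rfl⟩ := mem_image.1 hx
    exact mem_sdiff.2 (hvY i)
  have hI : n0 ≤ ((Y \ lowOut E Y) \ univ.image v).card := by
    have h2 : (univ.image v).card = s := by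
      rw [card_image_of_injective _ hv, card_univ, Fintype.card_fin]
    have h3 := card_sdiff_add_card_eq_card hvS
    have h4 := card_sdiff_add_card_eq_card hWY
    have h5 : (t : ℝ) ≤ 1 / 10 ^ 8 * (Y.card : ℝ) := h.tk
    have h6 : (20 : ℝ) * t ≤ (Y.card : ℝ) := by
      have : (0 : ℝ) ≤ (Y.card : ℝ) := Nat.cast_nonneg _
      linarith
    have h7 : 20 * t ≤ Y.card := by exact_mod_cast h6
    omega
  let φ : V → V := fun x => if h : ∃ i, u i = x then v h.choose else x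
  have hφu : ∀ i, φ (u i) = v i := by
    intro i
    have hex : ∃ j, u j = u i := ⟨i, rfl⟩
    have h1 : φ (u i) = v hex.choose := dif_pos hex
    rw [h1, hu hex.choose_spec]
  have hφn : ∀ x, x ∉ univ.image u → φ x = x := by
    intro x hx
    exact dif_neg fun ⟨i, hi⟩ => hx (mem_image.2 ⟨i, mem_univ _, hi⟩)
  have hvI : ∀ i, v i ∉ (Y \ lowOut E Y) \ univ.image v := fun i hi =>
    (mem_sdiff.1 hi).2 (mem_image.2 ⟨i, mem_univ _, rfl⟩)
  obtain ⟨a, l, hnd, hmem, hch⟩ := hn0 V E _ _ hI hB φ (by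
    intro x hx
    by_cases hxu : x ∈ univ.image u
    · obtain ⟨i, -, rfl⟩ := mem_image.1 hxu
      rw [hφu]
      refine mem_sdiff.2 ⟨mem_sdiff.2 (hvY i), fun hc => ?_⟩
      obtain ⟨j, -, hj⟩ := mem_image.1 hc
      exact huv j i hj
    · rw [hφn x hxu]
      exact mem_sdiff.2 ⟨(mem_sdiff.1 hx).1, hxu⟩) (by
    intro x hx x' hx' hxx
    rw [mem_coe] at hx hx'
    by_cases hxu : x ∈ univ.image u
    · obtain ⟨i, -, rfl⟩ := mem_image.1 hxu
      by_cases hxu' : x' ∈ univ.image u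
      · obtain ⟨j, -, rfl⟩ := mem_image.1 hxu'
        rw [hφu, hφu] at hxx
        rw [hv hxx]
      · rw [hφu, hφn x' hxu'] at hxx
        exact absurd (hxx ▸ hx') (hvI i)
    · by_cases hxu' : x' ∈ univ.image u
      · obtain ⟨j, -, rfl⟩ := mem_image.1 hxu'
        rw [hφu, hφn x hxu] at hxx
        exact absurd (hxx ▸ hx) (hvI j)
      · rwa [hφn x hxu, hφn x' hxu'] at hxx)
  have hDI : univ.image u ⊆ (Y \ lowOut E Y) \ univ.image v := by
    intro x hx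
    obtain ⟨i, -, rfl⟩ := mem_image.1 hx
    refine mem_sdiff.2 ⟨mem_sdiff.2 (huY i), fun hc => ?_⟩
    obtain ⟨j, -, hj⟩ := mem_image.1 hc
    exact huv i j hj.symm
  obtain ⟨LL, hLL, hLLh, hLLl⟩ := cut_pp E _ (univ.image u) φ hDI
    ⟨u ⟨0, hs1⟩, mem_image.2 ⟨_, mem_univ _, rfl⟩⟩ hφn (by
      intro x hx x' hx' hxx
      rw [mem_coe] at hx hx'
      obtain ⟨i, -, rfl⟩ := mem_image.1 hx
      obtain ⟨j, -, rfl⟩ := mem_image.1 hx'
      rw [hφu, hφu] at hxx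
      rw [hv hxx]) (by
      intro x hx
      obtain ⟨i, -, rfl⟩ := mem_image.1 hx
      rw [hφu]
      exact hvI i) a l hnd hmem hch
  have himg : (univ.image u).image φ = univ.image v := by
    rw [image_image]
    congr 1
    funext i
    exact hφu i
  rw [himg] at hLL hLLh
  rw [sdiff_union_of_subset hvS] at hLL
  obtain ⟨LL', hLL', hLL'h⟩ := pp_append E (Y \ lowOut E Y) (lowOut E Y) sdiff_disjoint LL hLL
    (fun w => u (f w)) (fun w hw w' hw' hww => hf hw hw' (hu hww)) (fun w hw =>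
      ⟨hfE w hw, hLLl _ (mem_image.2 ⟨f w, mem_univ _, rfl⟩)⟩)
  rw [sdiff_union_of_subset hWY] at hLL'
  let π : V → V := fun x => if h : ∃ i, v i = x then y h.choose else x
  have hπ : ∀ i, π (v i) = y i := by
    intro i
    have hex : ∃ j, v j = v i := ⟨i, rfl⟩
    have h1 : π (v i) = y hex.choose := dif_pos hex
    rw [h1, hv hex.choose_spec]
  have hhd : ∀ l ∈ LL', ∀ z, l.head? = some z → ∃ i, v i = z := by
    intro l hl z hz
    obtain ⟨l0, hl0, hz0⟩ := hLL'h l hl z hz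
    obtain ⟨i, -, hi⟩ := mem_image.1 (hLLh l0 hl0 z hz0)
    exact ⟨i, hi⟩
  refine good_of_pi E Y LL' hLL' π ?_ ?_
  · intro l hl z hz
    obtain ⟨i, rfl⟩ := hhd l hl z hz
    rw [hπ]
    exact hyY i
  · intro l hl l' hl' z z' hz hz' hzz
    obtain ⟨i, rfl⟩ := hhd l hl z hz
    obtain ⟨j, rfl⟩ := hhd l' hl' z' hz'
    rw [hπ, hπ] at hzz
    rw [hy hzz]

end HX
end

section

set_option autoImplicit false

namespace HX

open Finset Classical

private theorem fp_conv {V : Type} [Fintype V] (E : V → V → Prop) (S1 T1 : Finset V) (M : ℝ) (K : ℕ)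
    (hK1 : S1.card ≤ T1.card + K) (hK2 : T1.card ≤ S1.card + K) (hD : Deg4 E S1 T1 M) :
    ∃ S' T' : Finset V, (S1 \ S').card ≤ K ∧ (S' \ S1).card ≤ K ∧ (T1 \ T').card ≤ K ∧
      (T' \ T1).card ≤ K ∧ S'.card ≤ T'.card + K ∧ T'.card ≤ S'.card + K ∧
      Deg4 E S' T' (M - K) ∧
      (S'.card = T'.card ∨
        (T'.card < S'.card ∧ (∀ v ∈ S', (dOut E v T'ᶜ : ℝ) < M) ∧
          ∀ v, v ∉ T' → (dIn E v S' : ℝ) < M) ∨
        (S'.card < T'.card ∧ (∀ v, v ∉ S' → (dOut E v T' : ℝ) < M) ∧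
          ∀ v ∈ T', (dIn E v S'ᶜ : ℝ) < M)) := by
  rcases le_total T1.card S1.card with h1 | h1
  · obtain ⟨k, hk⟩ := Nat.exists_eq_add_of_le h1
    have hkK : k ≤ K := by omega
    have hkK' : (k : ℝ) ≤ K := by exact_mod_cast hkK
    obtain ⟨S', T', hS, hT, hc, hle, hdeg, hst⟩ := convert V E k S1 T1 M M hk le_rfl hD
    have e1 : S' \ S1 = ∅ := sdiff_eq_empty_iff_subset.2 hS
    have e2 : T1 \ T' = ∅ := sdiff_eq_empty_iff_subset.2 hT
    have c1 : S'.card ≤ S1.card := card_le_card hS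
    have c2 : T1.card ≤ T'.card := card_le_card hT
    refine ⟨S', T', by omega, by rw [e1, card_empty]; exact Nat.zero_le _,
      by rw [e2, card_empty]; exact Nat.zero_le _, by omega, by omega, by omega,
      hdeg.mono (by linarith), ?_⟩
    rcases hst with h2 | h2
    · exact Or.inl h2
    · rcases Nat.eq_or_lt_of_le hle with h3 | h3
      · exact Or.inl h3.symm
      · exact Or.inr (Or.inl ⟨h3, h2⟩)
  · have a1 := card_compl_add_card S1
    have a2 := card_compl_add_card T1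
    obtain ⟨k, hk⟩ := Nat.exists_eq_add_of_le h1
    have hkK : k ≤ K := by omega
    have hkK' : (k : ℝ) ≤ K := by exact_mod_cast hkK
    obtain ⟨U, W, hS, hT, hc, hle, hdeg, hst⟩ := convert V E k S1ᶜ T1ᶜ M M (by omega) le_rfl hD.compl
    have hS' : S1 ⊆ Uᶜ := by
      intro v hv
      rw [mem_compl]
      intro hvU
      exact (mem_compl.1 (hS hvU)) hv
    have hT' : Wᶜ ⊆ T1 := by
      intro v hv
      by_contra h
      exact (mem_compl.1 hv) (hT (mem_compl.2 h))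
    have e1 : S1 \ Uᶜ = ∅ := sdiff_eq_empty_iff_subset.2 hS'
    have e2 : Wᶜ \ T1 = ∅ := sdiff_eq_empty_iff_subset.2 hT'
    have e3 : Uᶜ \ S1 = S1ᶜ \ U := by
      ext v
      simp only [mem_sdiff, mem_compl]
      tauto
    have e4 : T1 \ Wᶜ = W \ T1ᶜ := by
      ext v
      simp only [mem_sdiff, mem_compl]
      tauto
    have a3 := card_compl_add_card U
    have a4 := card_compl_add_card W
    have c1 : S1.card ≤ (Uᶜ).card := card_le_card hS'
    have c2 : (Wᶜ).card ≤ T1.card := card_le_card hT'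
    refine ⟨Uᶜ, Wᶜ, by rw [e1, card_empty]; exact Nat.zero_le _, by rw [e3]; omega,
      by rw [e4]; omega, by rw [e2, card_empty]; exact Nat.zero_le _, by omega, by omega,
      hdeg.compl.mono (by linarith), ?_⟩
    rcases hst with h2 | h2
    · left
      omega
    · rcases Nat.eq_or_lt_of_le hle with h3 | h3
      · left
        omega
      · refine Or.inr (Or.inr ⟨by omega, ?_, ?_⟩)
        · intro v hv
          have hv' : v ∈ U := by
            by_contra h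
            exact hv (mem_compl.2 h)
          exact h2.1 v hv'
        · intro v hv
          rw [compl_compl]
          exact h2.2 v (mem_compl.1 hv)

private theorem fp_eb {V : Type} [Fintype V] (E : V → V → Prop) (S T S' T' : Finset V) :
    eb E S' T'ᶜ ≤ eb E S Tᶜ + (S' \ S).card * Fintype.card V + (T \ T').card * Fintype.card V := by
  have h1 : S' ⊆ S ∪ (S' \ S) := by
    rw [union_sdiff_self_eq_union]
    exact subset_union_right
  have h2 : T'ᶜ ⊆ Tᶜ ∪ (T \ T') := by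
    intro v hv
    rw [mem_union, mem_compl, mem_sdiff]
    rw [mem_compl] at hv
    tauto
  have h3 : eb E S' T'ᶜ ≤ eb E (S ∪ (S' \ S)) (Tᶜ ∪ (T \ T')) := eb_mono E h1 h2
  have h4 : Disjoint Tᶜ (T \ T') := by
    rw [Finset.disjoint_left]
    intro v hv hv'
    exact (mem_compl.1 hv) (mem_sdiff.1 hv').1
  rw [eb_union_left E disjoint_sdiff, eb_union_right E S h4] at h3
  have h5 : eb E (S' \ S) (Tᶜ ∪ (T \ T')) ≤ (S' \ S).card * Fintype.card V :=
    (eb_le_mul E _ _).trans (Nat.mul_le_mul_left _ (card_le_univ _))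
  have h6 : eb E S (T \ T') ≤ (T \ T').card * Fintype.card V := by
    refine (eb_le_mul E _ _).trans ?_
    rw [mul_comm]
    exact Nat.mul_le_mul_left _ (card_le_univ _)
  omega

private theorem fp_tri {V : Type} (A B C : Finset V) : (A \ C).card ≤ (A \ B).card + (B \ C).card := by
  refine (card_le_card ?_).trans (card_union_le _ _)
  intro v hv
  rw [mem_union, mem_sdiff, mem_sdiff]
  rw [mem_sdiff] at hv
  tauto

private theorem fp_inter {V : Type} [Fintype V] (S T S' T' : Finset V) :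
    (S ∩ T).card ≤ (S' ∩ T').card + (S \ S').card + (T \ T').card := by
  refine (card_le_card (t := (S' ∩ T') ∪ (S \ S') ∪ (T \ T')) ?_).trans
    ((card_union_le _ _).trans (Nat.add_le_add_right (card_union_le _ _) _))
  intro v hv
  simp only [mem_union, mem_inter, mem_sdiff] at hv ⊢
  tauto

private theorem fp_sdiff {V : Type} [Fintype V] (S T S' T' : Finset V) :
    (S \ T).card ≤ (S' \ T').card + (S \ S').card + (T' \ T).card := by
  refine (card_le_card (t := (S' \ T') ∪ (S \ S') ∪ (T' \ T)) ?_).trans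
    ((card_union_le _ _).trans (Nat.add_le_add_right (card_union_le _ _) _))
  intro v hv
  simp only [mem_union, mem_sdiff] at hv ⊢
  tauto

private theorem fp_rest {V : Type} [Fintype V] (S T S' T' : Finset V) :
    ((S ∪ T)ᶜ).card ≤ ((S' ∪ T')ᶜ).card + (S' \ S).card + (T' \ T).card := by
  refine (card_le_card (t := (S' ∪ T')ᶜ ∪ (S' \ S) ∪ (T' \ T)) ?_).trans
    ((card_union_le _ _).trans (Nat.add_le_add_right (card_union_le _ _) _))
  intro v hv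
  simp only [mem_union, mem_compl, mem_sdiff] at hv ⊢
  tauto

private theorem fp_card {V : Type} (S S' : Finset V) : S.card ≤ S'.card + (S \ S').card := by
  refine (card_le_card (t := S' ∪ (S \ S')) ?_).trans (card_union_le _ _)
  rw [union_sdiff_self_eq_union]
  exact subset_union_right

/-- JOB HG-T7 (hard; bookkeeping; uses `two_big`, `exc_out`, `exc_in`, `exc_out2`, `exc_in2`, `retype`, `convert`,
`num_main`). Existence of the final pair.

Proof. `n = card V`, `λ = 100 ξ`.  `two_big` gives two large classes; in particular the hypotheses of `exc_out`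
(`c ≥ ρ n`, or `c ≤ ξ n` and then `b ≥ ρ n`) and `exc_in` hold.  `retype` gives `S1`, `T1` (`Deg4` with `ρ n/10 ≥ 2 η n`);
`| |S1| - |T1| | ≤ 5 z n + 20 ξ n ≤ 21 ξ n` (`num_main`: `-z n ≤ |S| - |T| ≤ 5 z n`).
If `|T1| ≤ |S1|` apply `convert` to `(S1, T1)` with `M = θ = 2 η n`, `k = |S1| - |T1|`; if `|S1| < |T1|` apply it to
`(S1ᶜ, T1ᶜ)` (`Deg4.compl`) and take complements of the result.  At most `21 ξ n` further changes, so `S`, `S'` differ
in at most `31 ξ n` vertices, the same for `T`, `T'`; `Deg4` with `2 η n - 21 ξ n ≥ η n`.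
`eb E S' T'ᶜ ≤ eb E S Tᶜ + 62 ξ n²`, `|S'| - s* ` by `num_main` and `31 z ≤ ξ`; `| |S'| - |T'| | ≤ 21 ξ n`;
`|S'| ≥ ε n/4 - 31 ξ n`, `n - |S| ≥ n - |T| - 5 z n`.  Sizes of the four classes change by at most `62 ξ n`, so a class
with at least `ρ n` elements keeps `ρ n/2`.  If `|S \ T| ≤ ξ n` then `D ≥ n - ξ n - 7 z n ≥ (1 - 2 ξ) n`
(`num_main`) and the two other classes are large. -/
theorem final_pair {V : Type} [Fintype V] {E : V → V → Prop} {D p q : ℕ} {ε z : ℝ}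
    {S T : Finset V} (h : Pair E D p q ε z S T) {ρ η ν z' ξ κ : ℝ} {n0 : ℕ}
    (P : Par ε ρ η ν z' ξ κ n0) (hn : n0 ≤ Fintype.card V) (hz : 100 * z ≤ ξ * ρ)
    (ha : ρ * (Fintype.card V : ℝ) ≤ ((S ∩ T).card : ℝ) ∨
      ((S ∩ T).card : ℝ) ≤ ξ * (Fintype.card V : ℝ))
    (hb : ρ * (Fintype.card V : ℝ) ≤ ((S \ T).card : ℝ) ∨
      ((S \ T).card : ℝ) ≤ ξ * (Fintype.card V : ℝ))
    (hc : ρ * (Fintype.card V : ℝ) ≤ (((S ∪ T)ᶜ).card : ℝ) ∨
      (((S ∪ T)ᶜ).card : ℝ) ≤ ξ * (Fintype.card V : ℝ)) :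
    ∃ S' T' : Finset V, FP E D p q ε (100 * ξ) η S' T' ∧
      ((ρ / 2 * (Fintype.card V : ℝ) ≤ ((S' ∩ T').card : ℝ) ∧
          ρ / 2 * (Fintype.card V : ℝ) ≤ ((S' \ T').card : ℝ)) ∨
        (ρ / 2 * (Fintype.card V : ℝ) ≤ ((S' ∩ T').card : ℝ) ∧
          ρ / 2 * (Fintype.card V : ℝ) ≤ (((S' ∪ T')ᶜ).card : ℝ)) ∨
        (ρ / 2 * (Fintype.card V : ℝ) ≤ ((S' \ T').card : ℝ) ∧
          ρ / 2 * (Fintype.card V : ℝ) ≤ (((S' ∪ T')ᶜ).card : ℝ))) ∧
      (ρ / 2 * (Fintype.card V : ℝ) ≤ ((S' \ T').card : ℝ) ∨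
        ((1 - 2 * ξ) * (Fintype.card V : ℝ) ≤ (D : ℝ) ∧
          ρ / 2 * (Fintype.card V : ℝ) ≤ ((S' ∩ T').card : ℝ) ∧
          ρ / 2 * (Fintype.card V : ℝ) ≤ (((S' ∪ T')ᶜ).card : ℝ))) ∧
      (S'.card = T'.card ∨
        (T'.card < S'.card ∧ (∀ v ∈ S', (dOut E v T'ᶜ : ℝ) < 2 * η * (Fintype.card V : ℝ)) ∧
          ∀ v, v ∉ T' → (dIn E v S' : ℝ) < 2 * η * (Fintype.card V : ℝ)) ∨
        (S'.card < T'.card ∧ (∀ v, v ∉ S' → (dOut E v T' : ℝ) < 2 * η * (Fintype.card V : ℝ)) ∧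
          ∀ v ∈ T', (dIn E v S'ᶜ : ℝ) < 2 * η * (Fintype.card V : ℝ))) := by
  obtain ⟨-, -, bη, bξ, -⟩ := P.big _ hn
  have hε := P.hε
  have hε1 := P.hε1
  have hρ := P.hρ
  have hρ1 := P.hρ1
  have hη := P.hη
  have hξ := P.hξ
  have hξ3 := P.hξ3
  obtain ⟨N, hN⟩ : ∃ N : ℝ, N = (Fintype.card V : ℝ) := ⟨_, rfl⟩
  have hN0 : 0 < N := by
    rw [hN]
    by_contra hc
    have h0 : (Fintype.card V : ℝ) = 0 := le_antisymm (not_lt.1 hc) (Nat.cast_nonneg _)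
    rw [h0, mul_zero] at bξ
    linarith
  have hne : Nonempty V := by
    rw [← Fintype.card_pos_iff]
    rw [hN] at hN0
    exact_mod_cast hN0
  have hρs : ρ ≤ 1 / 16 := by linarith
  have hρρ : ρ ^ 2 ≤ ρ / 16 := by nlinarith
  have hηρ : η ≤ ρ / 640 := by rw [hη]; linarith
  have hξρ : 400 * ξ ≤ ρ := by linarith
  have hξρ' : ξ * ρ ≤ ξ := by nlinarith
  have hzξ : 100 * z ≤ ξ := by linarith
  have hz0 := h.zpos
  have hzz : z ^ 2 ≤ z / 100 := by
    have : z ≤ 1 / 100 := by linarith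
    nlinarith
  have hz2 : 2 * z ^ 2 ≤ ξ * ε := by
    have h1 : ξ * ρ ≤ ξ * ε := mul_le_mul_of_nonneg_left (by linarith) hξ.le
    linarith
  have hS2 : 2 * z * (Fintype.card V : ℝ) ≤ (S.card : ℝ) := by
    refine le_trans ?_ h.s1
    rw [← hN]
    have := h.zeps
    nlinarith
  have hT2 : 2 * z * (Fintype.card V : ℝ) ≤ (Fintype.card V : ℝ) - (T.card : ℝ) := by
    refine le_trans ?_ h.s2
    rw [← hN]
    have := h.zeps
    nlinarith
  obtain ⟨m1, m2, m3, m4, m5⟩ := num_main h.hag S T z hz0 h.zn h.e h.ts hS2 hT2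
  have hbig := two_big h hε1 ρ ξ (by linarith) ha hb hc
  have x1 := exc_out h ρ ξ hρ (by linarith) hξ (by linarith) (by
    rcases hbig with h1 | h1 | h1
    · rcases hc with h2 | h2
      · exact Or.inl h2
      · exact Or.inr ⟨h2, h1.2⟩
    · exact Or.inl h1.2
    · exact Or.inl h1.2)
  have x2 := exc_in h ρ ξ hρ (by linarith) hξ (by linarith) (by
    rcases hbig with h1 | h1 | h1
    · exact Or.inl h1.1
    · exact Or.inl h1.1
    · rcases ha with h2 | h2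
      · exact Or.inl h2
      · exact Or.inr ⟨h2, h1.1⟩)
  have x3 := exc_out2 h hε ρ ξ (by linarith) hz2
  have x4 := exc_in2 h hε ρ ξ (by linarith) hz2
  obtain ⟨S1, T1, r1, r2, r3⟩ := retype E S T ε ρ ξ hρ (by linarith) hξρ
    (fun v => h.hp.trans (by exact_mod_cast h.hag.out v))
    (fun v => h.hq.trans (by exact_mod_cast h.hag.inn v)) x1 x2 x3 x4
  have q1 : ((S \ S1).card : ℝ) ≤ 10 * ξ * (Fintype.card V : ℝ) :=
    le_trans (by exact_mod_cast card_le_card subset_union_left) r1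
  have q2 : ((S1 \ S).card : ℝ) ≤ 10 * ξ * (Fintype.card V : ℝ) :=
    le_trans (by exact_mod_cast card_le_card subset_union_right) r1
  have q3 : ((T \ T1).card : ℝ) ≤ 10 * ξ * (Fintype.card V : ℝ) :=
    le_trans (by exact_mod_cast card_le_card subset_union_left) r2
  have q4 : ((T1 \ T).card : ℝ) ≤ 10 * ξ * (Fintype.card V : ℝ) :=
    le_trans (by exact_mod_cast card_le_card subset_union_right) r2
  -- sizes
  have hts := h.ts
  have s1 := h.s1
  have s2 := h.s2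
  have he := h.e
  have hst : (S.card : ℝ) ≤ (T.card : ℝ) + 5 * z * (Fintype.card V : ℝ) := by
    have e1 := card_sdiff_add_card_inter S T
    have e2 := card_sdiff_add_card_inter T S
    rw [inter_comm T S] at e2
    have e3 : ((S \ T).card : ℝ) + ((S ∩ T).card : ℝ) = (S.card : ℝ) := by exact_mod_cast e1
    have e4 : ((T \ S).card : ℝ) + ((S ∩ T).card : ℝ) = (T.card : ℝ) := by exact_mod_cast e2
    linarith
  have k1 : (S1.card : ℝ) ≤ (S.card : ℝ) + ((S1 \ S).card : ℝ) := by exact_mod_cast fp_card S1 S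
  have k2 : (S.card : ℝ) ≤ (S1.card : ℝ) + ((S \ S1).card : ℝ) := by exact_mod_cast fp_card S S1
  have k3 : (T1.card : ℝ) ≤ (T.card : ℝ) + ((T1 \ T).card : ℝ) := by exact_mod_cast fp_card T1 T
  have k4 : (T.card : ℝ) ≤ (T1.card : ℝ) + ((T \ T1).card : ℝ) := by exact_mod_cast fp_card T T1
  rw [← hN] at hts s1 s2 he hst q1 q2 q3 q4 r3 m1 m2 m3 m4 m5 bη bξ
  simp only [← hN] at ha hb hc hbig ⊢
  have w1 : z * N ≤ ξ * N / 100 := by
    have := mul_le_mul_of_nonneg_right hzξ hN0.le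
    linarith
  have w2 : 10000 * (ξ * N) ≤ η * N := by
    have := mul_le_mul_of_nonneg_right hξ3 hN0.le
    linarith
  have w3 : η * N ≤ ρ * N / 640 := by
    have := mul_le_mul_of_nonneg_right hηρ hN0.le
    linarith
  have w4 : 4 * (ρ * N) ≤ ε * N := by
    have := mul_le_mul_of_nonneg_right hρ1 hN0.le
    linarith
  obtain ⟨K, hK⟩ : ∃ K, K = ⌊21 * ξ * N⌋₊ := ⟨_, rfl⟩
  have hKle : (K : ℝ) ≤ 21 * ξ * N := by
    rw [hK]
    exact Nat.floor_le (by positivity)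
  have hKge : ∀ m : ℕ, (m : ℝ) ≤ 21 * ξ * N → m ≤ K := fun m hm => by
    rw [hK]
    exact Nat.le_floor hm
  have hK1 : S1.card ≤ T1.card + K := by
    rcases le_total S1.card T1.card with h1 | h1
    · omega
    · obtain ⟨k, hk⟩ := Nat.exists_eq_add_of_le h1
      have hk' : (S1.card : ℝ) = (T1.card : ℝ) + k := by exact_mod_cast hk
      have := hKge k (by linarith)
      omega
  have hK2 : T1.card ≤ S1.card + K := by
    rcases le_total T1.card S1.card with h1 | h1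
    · omega
    · obtain ⟨k, hk⟩ := Nat.exists_eq_add_of_le h1
      have hk' : (T1.card : ℝ) = (S1.card : ℝ) + k := by exact_mod_cast hk
      have := hKge k (by linarith)
      omega
  obtain ⟨S', T', c1, c2, c3, c4, c5, c6, c7, c8⟩ := fp_conv E S1 T1 (2 * η * N) K hK1 hK2
    (r3.mono (by linarith))
  have c1' : ((S1 \ S').card : ℝ) ≤ K := by exact_mod_cast c1
  have c2' : ((S' \ S1).card : ℝ) ≤ K := by exact_mod_cast c2
  have c3' : ((T1 \ T').card : ℝ) ≤ K := by exact_mod_cast c3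
  have c4' : ((T' \ T1).card : ℝ) ≤ K := by exact_mod_cast c4
  have c5' : (S'.card : ℝ) ≤ (T'.card : ℝ) + K := by exact_mod_cast c5
  have c6' : (T'.card : ℝ) ≤ (S'.card : ℝ) + K := by exact_mod_cast c6
  have d1 : ((S \ S').card : ℝ) ≤ 31 * (ξ * N) := by
    have : ((S \ S').card : ℝ) ≤ ((S \ S1).card : ℝ) + ((S1 \ S').card : ℝ) := by
      exact_mod_cast fp_tri S S1 S'
    linarith
  have d2 : ((S' \ S).card : ℝ) ≤ 31 * (ξ * N) := by
    have : ((S' \ S).card : ℝ) ≤ ((S' \ S1).card : ℝ) + ((S1 \ S).card : ℝ) := by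
      exact_mod_cast fp_tri S' S1 S
    linarith
  have d3 : ((T \ T').card : ℝ) ≤ 31 * (ξ * N) := by
    have : ((T \ T').card : ℝ) ≤ ((T \ T1).card : ℝ) + ((T1 \ T').card : ℝ) := by
      exact_mod_cast fp_tri T T1 T'
    linarith
  have d4 : ((T' \ T).card : ℝ) ≤ 31 * (ξ * N) := by
    have : ((T' \ T).card : ℝ) ≤ ((T' \ T1).card : ℝ) + ((T1 \ T).card : ℝ) := by
      exact_mod_cast fp_tri T' T1 T
    linarith
  have j1 : (S'.card : ℝ) ≤ (S.card : ℝ) + ((S' \ S).card : ℝ) := by exact_mod_cast fp_card S' S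
  have j2 : (S.card : ℝ) ≤ (S'.card : ℝ) + ((S \ S').card : ℝ) := by exact_mod_cast fp_card S S'
  have g1 : ((S ∩ T).card : ℝ) ≤ ((S' ∩ T').card : ℝ) + ((S \ S').card : ℝ) + ((T \ T').card : ℝ) := by
    exact_mod_cast fp_inter S T S' T'
  have g2 : ((S \ T).card : ℝ) ≤ ((S' \ T').card : ℝ) + ((S \ S').card : ℝ) + ((T' \ T).card : ℝ) := by
    exact_mod_cast fp_sdiff S T S' T'
  have g3 : (((S ∪ T)ᶜ).card : ℝ) ≤ (((S' ∪ T')ᶜ).card : ℝ) + ((S' \ S).card : ℝ) +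
      ((T' \ T).card : ℝ) := by
    exact_mod_cast fp_rest S T S' T'
  have t1 : ρ * N ≤ ((S ∩ T).card : ℝ) → ρ / 2 * N ≤ ((S' ∩ T').card : ℝ) := fun h1 => by linarith
  have t2 : ρ * N ≤ ((S \ T).card : ℝ) → ρ / 2 * N ≤ ((S' \ T').card : ℝ) := fun h1 => by linarith
  have t3 : ρ * N ≤ (((S ∪ T)ᶜ).card : ℝ) → ρ / 2 * N ≤ (((S' ∪ T')ᶜ).card : ℝ) := fun h1 => by linarith
  have heb : (eb E S' T'ᶜ : ℝ) ≤ (eb E S Tᶜ : ℝ) + ((S' \ S).card : ℝ) * N + ((T \ T').card : ℝ) * N := by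
    rw [hN]
    exact_mod_cast fp_eb E S T S' T'
  refine ⟨S', T', ⟨h.hag, c7.mono ?_, ?_, ?_, ?_, ?_, ?_⟩, ?_, ?_, c8⟩
  · rw [← hN]
    linarith
  · rw [← hN]
    have p1 : ((S' \ S).card : ℝ) * N ≤ 31 * (ξ * N) * N := mul_le_mul_of_nonneg_right d2 hN0.le
    have p2 : ((T \ T').card : ℝ) * N ≤ 31 * (ξ * N) * N := mul_le_mul_of_nonneg_right d3 hN0.le
    have p3 : z ^ 2 * N ^ 2 ≤ ξ * N ^ 2 := mul_le_mul_of_nonneg_right (by linarith) (sq_nonneg _)
    have p4 : 0 ≤ ξ * N ^ 2 := mul_nonneg hξ.le (sq_nonneg _)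
    have p5 : 31 * (ξ * N) * N = 31 * (ξ * N ^ 2) := by ring
    have p6 : 100 * ξ * N ^ 2 = 100 * (ξ * N ^ 2) := by ring
    linarith
  · rw [← hN, abs_le]
    rw [abs_le] at m5
    constructor <;> linarith [m5.1, m5.2]
  · rw [← hN, abs_le]
    constructor <;> linarith
  · rw [← hN]
    linarith
  · rw [← hN]
    linarith
  · rcases hbig with h1 | h1 | h1
    · exact Or.inl ⟨t1 h1.1, t2 h1.2⟩
    · exact Or.inr (Or.inl ⟨t1 h1.1, t3 h1.2⟩)
    · exact Or.inr (Or.inr ⟨t2 h1.1, t3 h1.2⟩)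
  · rcases hbig with h1 | h1 | h1
    · exact Or.inl (t2 h1.2)
    · rcases hb with h2 | h2
      · exact Or.inl (t2 h2)
      · exact Or.inr ⟨by linarith, t1 h1.1, t3 h1.2⟩
    · exact Or.inl (t2 h1.1)

end HX
end

section

set_option autoImplicit false

namespace HX

open Finset Classical

/-- JOB HG-U1 (easy; uses `pp_exact`, `has_list`). -/
theorem end_a {η ν σ κ : ℝ} {n0 : ℕ} (G : GlueP η ν σ κ n0) {V : Type} [Fintype V]
    (E : V → V → Prop) (S T : Finset V) (k : ℕ) (hn : n0 ≤ Fintype.card V)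
    (hc : S.card = T.card + k) (hTS : ¬ T ⊆ S)
    (hI : ∀ I : Finset V, (∀ x ∈ I, ∀ y ∈ I, x ≠ y → ¬ (E x y ∧ x ∈ S ∧ y ∉ T)) →
      I.card + k ≤ Fintype.card V)
    (hk : (k : ℝ) ≤ κ * (Fintype.card V : ℝ))
    (h1 : σ * (Fintype.card V : ℝ) ≤ (S.card : ℝ))
    (h2 : (S.card : ℝ) ≤ (1 - σ) * (Fintype.card V : ℝ))
    (hD : Deg4 E S T (η * (Fintype.card V : ℝ))) (hE : Exp2 E S T (η * σ / 16) ν ν) : Ham E := by
  obtain ⟨L, hL1, hL2⟩ := pp_exact (fun x y => E x y ∧ x ∈ S ∧ y ∉ T) k hI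
  obtain ⟨v, hvT, hvS⟩ := Finset.not_subset.1 hTS
  have hL : Lin E S T L k := ⟨hL1, hL2⟩
  exact G V E S T L k hn hL hc hk h1 h2 (has_list E S T L k hL v hvT hvS) hD hE

/-- JOB HG-U2 (medium; uses `pp_exact`, `untouched`, `has_list2`). The case `T ⊆ S`: one arc more, one vertex less.

Proof. `pp_exact` with `j = k + 1` gives `L`; `untouched` gives `x ∈ X` with `[x] ∈ L`; `T1 = T.erase x`:
`|S| = |T1| + (k + 1)`; `Lin E S T1 L (k + 1)` (arcs ending outside `T` end outside `T1`).  `has_list2`.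
`Deg4` for `(S, T1)`: outdegrees into `T1` drop by at most `1` (`1 ≤ η n`), the indegree condition of `x ∉ T1` is
`hX`.  `Exp2` for `(S, T1)`: the first filter loses at most the vertex `x` (`1 ≤ ν n`). -/
theorem end_b {η ν σ κ : ℝ} {n0 : ℕ} (G : GlueP η ν σ κ n0) {V : Type} [Fintype V]
    (E : V → V → Prop) (S T X : Finset V) (k : ℕ) (hn : n0 ≤ Fintype.card V)
    (hη1 : 1 ≤ η * (Fintype.card V : ℝ)) (hν1 : 1 ≤ ν * (Fintype.card V : ℝ))
    (hc : S.card = T.card + k) (hTS : T ⊆ S)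
    (hI : ∀ I : Finset V, (∀ x ∈ I, ∀ y ∈ I, x ≠ y → ¬ (E x y ∧ x ∈ S ∧ y ∉ T)) →
      I.card + (k + 1) ≤ Fintype.card V)
    (hk : ((k + 1 : ℕ) : ℝ) ≤ κ * (Fintype.card V : ℝ))
    (hXT : X ⊆ T) (hXc : 2 * (k + 1) < X.card)
    (hX : ∀ x ∈ X, η * (Fintype.card V : ℝ) ≤ (dIn E x Sᶜ : ℝ))
    (h1 : σ * (Fintype.card V : ℝ) ≤ (S.card : ℝ))
    (h2 : (S.card : ℝ) ≤ (1 - σ) * (Fintype.card V : ℝ))
    (hD : Deg4 E S T (2 * η * (Fintype.card V : ℝ)))
    (hE : Exp2 E S T (η * σ / 16) ν (2 * ν)) : Ham E := by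
  obtain ⟨L, hL1, hL2⟩ := pp_exact (fun x y => E x y ∧ x ∈ S ∧ y ∉ T) (k + 1) hI
  have hL : Lin E S T L (k + 1) := ⟨hL1, hL2⟩
  obtain ⟨x, hxX, hx⟩ := untouched E S T L (k + 1) hL X hXc
  have hxT : x ∈ T := hXT hxX
  have hxS : x ∈ S := hTS hxT
  have hcT : (T.erase x).card + 1 = T.card := card_erase_add_one hxT
  obtain ⟨l, hl, z, y, hz, hzT, hy, hyS⟩ :=
    has_list2 E S T L (k + 1) hL x hxT hxS hx (by omega)
  have hL' : Lin E S (T.erase x) L (k + 1) := by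
    refine ⟨⟨fun l hl => ⟨(hL1.1 l hl).1, (hL1.1 l hl).2.imp ?_⟩, hL1.2⟩, hL2⟩
    intro u w h
    exact ⟨h.1, h.2.1, fun h3 => h.2.2 (mem_of_mem_erase h3)⟩
  have hsub : (T.erase x) ⊆ T := erase_subset x T
  have hsd : (T \ T.erase x).card ≤ 1 := by
    have h3 : T \ T.erase x ⊆ {x} := by
      intro v hv
      rw [mem_sdiff, mem_erase] at hv
      rw [mem_singleton]
      by_contra h4
      exact hv.2 ⟨h4, hv.1⟩
    exact (card_le_card h3).trans (by simp)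
  refine G V E S (T.erase x) L (k + 1) hn hL' (by omega) hk h1 h2
    ⟨l, hl, z, y, hz, hzT, hy, hyS⟩ ⟨fun v hv => ?_, fun v hv => ?_, fun v hv => ?_, fun v hv => ?_⟩
    ⟨fun Z hZ h3 h4 => ?_, fun Z hZ h3 h4 => ?_⟩
  · have h5 := hD.1 v hv
    have h6 : ((dOut E v T : ℕ) : ℝ) ≤ (dOut E v (T.erase x) : ℝ) + 1 := by
      exact_mod_cast (dOut_le_sdiff E v T (T.erase x)).trans (Nat.add_le_add_left hsd _)
    linarith
  · have h5 := hD.2.1 v hv
    have h6 : ((dOut E v Tᶜ : ℕ) : ℝ) ≤ (dOut E v (T.erase x)ᶜ : ℝ) := by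
      exact_mod_cast dOut_mono E v (compl_subset_compl.2 hsub)
    linarith
  · have h5 := hD.2.2.1 v (hsub hv)
    linarith
  · by_cases hvT : v ∈ T
    · have hvx : v = x := by
        by_contra h5
        exact hv (mem_erase.2 ⟨h5, hvT⟩)
      rw [hvx]
      exact hX x hxX
    · have h5 := hD.2.2.2 v hvT
      linarith
  · have h5 := hE.1 Z hZ h3 h4
    have h6 : ((T.filter fun y => ν * (Fintype.card V : ℝ) ≤ (dIn E y Z : ℝ)).card : ℝ) ≤
        (((T.erase x).filter fun y => ν * (Fintype.card V : ℝ) ≤ (dIn E y Z : ℝ)).card : ℝ) + 1 := by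
      have h7 : (T.filter fun y => ν * (Fintype.card V : ℝ) ≤ (dIn E y Z : ℝ)) ⊆
          ((T.erase x).filter fun y => ν * (Fintype.card V : ℝ) ≤ (dIn E y Z : ℝ)) ∪
            (T \ T.erase x) := by
        intro v hv
        rw [mem_filter] at hv
        rw [mem_union, mem_filter, mem_sdiff]
        by_cases h8 : v ∈ T.erase x
        · exact Or.inl ⟨h8, hv.2⟩
        · exact Or.inr ⟨hv.1, h8⟩
      exact_mod_cast (card_le_card h7).trans ((card_union_le _ _).trans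
        (Nat.add_le_add_left hsd _))
    linarith
  · have h5 := hE.2 Z hZ h3 h4
    have h6 : ((Tᶜ.filter fun y => ν * (Fintype.card V : ℝ) ≤ (dIn E y Z : ℝ)).card : ℝ) ≤
        (((T.erase x)ᶜ.filter fun y => ν * (Fintype.card V : ℝ) ≤ (dIn E y Z : ℝ)).card : ℝ) := by
      exact_mod_cast card_le_card (filter_subset_filter _ (compl_subset_compl.2 hsub))
    linarith

/-- JOB HG-U1 (easy; uses `eb_eq_sum_dIn`, `dOut_add_dIn_le`). Every `x ∈ X` has at most `n - |Y|` neighbours outside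
`Y`, so `dOut E x Y + dIn E x Y ≥ D - (n - |Y|)`. -/
theorem dense {V : Type} [Fintype V] {E : V → V → Prop} {D p q : ℕ} (h : Hag E D p q)
    (X Y : Finset V) :
    (X.card : ℝ) * ((D : ℝ) + (Y.card : ℝ) - (Fintype.card V : ℝ)) ≤
      (eb E X Y : ℝ) + (eb E Y X : ℝ) := by
  have h1 : (eb E X Y : ℝ) + (eb E Y X : ℝ) =
      ∑ x ∈ X, ((dOut E x Y : ℝ) + (dIn E x Y : ℝ)) := by
    rw [sum_add_distrib, eb_eq_sum_dIn E Y X]
    unfold eb
    push_cast
    rfl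
  rw [h1, ← nsmul_eq_mul, ← sum_const]
  refine sum_le_sum fun x _ => ?_
  have h2 := h.deg x
  rw [dOut_compl E x Y, dIn_compl E x Y] at h2
  have h3 := dOut_add_dIn_le E h.ori x Yᶜ
  have h4 := card_compl_add_card Y
  have h5 : D + Y.card ≤ dOut E x Y + dIn E x Y + Fintype.card V := by omega
  have h6 : (D : ℝ) + (Y.card : ℝ) ≤ (dOut E x Y : ℝ) + (dIn E x Y : ℝ) + (Fintype.card V : ℝ) := by
    exact_mod_cast h5
  linarith

end HX
end

section

set_option autoImplicit false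

namespace HX

open Finset Classical

/-- JOB HG-S5 (medium; uses `core`, `minimal_bad`, `indep_le`, `card_low`, `bad_numbers`, `good_empty`). The set of
vertices of small indegree is good.

Proof. Let `k0` be from `core`, `ε = min (1/10^10) (1/(4 k0 + 4))`.  Suppose `Z` is bad; take a bad `Y ⊆ Z` of minimal
cardinality; `Y ≠ ∅` (`good_empty`), and `Y.erase x` is good for `x ∈ Y`.  `minimal_bad` (with `indep_le`) gives
`dIn E x Yᶜ ≤ m`; `card_low` gives `|Y| ≤ 3 ε n`; `bad_numbers` gives `t`; `CoreH E Y m r t` holds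
(`3 ε ≤ 10⁻⁸`, `7 ε ≤ 1/1000`), and `k0 ≤ |Y|` since `1 ≤ t + 1 ≤ 3 ε |Y|`.  `core`: `Y` is good, contradiction. -/
theorem good_low : ∃ ε : ℝ, 0 < ε ∧ ε ≤ 1 / 10 ^ 10 ∧ ∀ (V : Type) [Fintype V] (E : V → V → Prop)
    (D p q m r : ℕ), Hag E D p q → D + m + 1 = Fintype.card V → q = m + r →
    (q : ℝ) ≤ ε * (Fintype.card V : ℝ) → ∀ Z : Finset V,
    (∀ v ∈ Z, (dIn E v univ : ℝ) ≤ (Fintype.card V : ℝ) / 20) → Good E Z := by
  obtain ⟨k0, hk0⟩ := core
  have hpos : (0 : ℝ) < 1 / (4 * (k0 : ℝ) + 4) := by positivity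
  refine ⟨min (1 / 10 ^ 10) (1 / (4 * (k0 : ℝ) + 4)), lt_min (by norm_num) hpos, min_le_left _ _, ?_⟩
  intro V _ E D p q m r h hD hq hqε Z hZ
  set ε : ℝ := min (1 / 10 ^ 10) (1 / (4 * (k0 : ℝ) + 4)) with hε
  have hε0 : 0 < ε := lt_min (by norm_num) hpos
  have hε1 : ε ≤ 1 / 10 ^ 10 := min_le_left _ _
  have hε2 : ε ≤ 1 / (4 * (k0 : ℝ) + 4) := min_le_right _ _
  by_contra hbadZ
  obtain ⟨Y, hYmem, hYmin⟩ := exists_min_image (Z.powerset.filter fun Y => ¬ Good E Y) card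
    ⟨Z, mem_filter.2 ⟨mem_powerset.2 (Subset.refl Z), hbadZ⟩⟩
  rw [mem_filter, mem_powerset] at hYmem
  obtain ⟨hYZ, hbad⟩ := hYmem
  have hYne : Y.Nonempty := by
    rw [nonempty_iff_ne_empty]
    intro h0
    rw [h0] at hbad
    exact hbad (good_empty E)
  have hmin : ∀ x ∈ Y, Good E (Y.erase x) := by
    intro x hx
    by_contra hb
    have h1 := hYmin (Y.erase x) (mem_filter.2 ⟨mem_powerset.2 ((erase_subset x Y).trans hYZ), hb⟩)
    have h2 := card_erase_lt_of_mem hx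
    omega
  have hout := minimal_bad E m (indep_le h hD) Y hbad hmin
  have hk := card_low h hD hq ε (hε1.trans (by norm_num)) hqε Y fun v hv => hZ v (hYZ hv)
  obtain ⟨hin, t, ht1, htc, ht2, ht3⟩ := bad_numbers h hD hq ε hε0 (hε1.trans (by norm_num)) hqε Y hYne
    hk hout
  have hY0 : (0 : ℝ) ≤ (Y.card : ℝ) := Nat.cast_nonneg _
  have hm0 : (0 : ℝ) ≤ (m : ℝ) := Nat.cast_nonneg _
  have ht0 : (1 : ℝ) ≤ (t : ℝ) := by exact_mod_cast ht1
  have e1 : ε * (Y.card : ℝ) ≤ 1 / 10 ^ 10 * (Y.card : ℝ) := mul_le_mul_of_nonneg_right hε1 hY0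
  have e2 : ε * (m : ℝ) ≤ 1 / 10 ^ 10 * (m : ℝ) := mul_le_mul_of_nonneg_right hε1 hm0
  have e3 : ε * (Y.card : ℝ) ≤ 1 / (4 * (k0 : ℝ) + 4) * (Y.card : ℝ) :=
    mul_le_mul_of_nonneg_right hε2 hY0
  refine hbad (hk0 V E Y m r t ⟨h.ori, htc, ht1, ?_, ?_, hin, ?_, hout⟩ ?_)
  · norm_num at e1 ⊢
    linarith
  · norm_num at e2 ⊢
    linarith
  · intro x _
    rw [← hq]
    exact h.inn x
  · have h4 : (0 : ℝ) < 4 * (k0 : ℝ) + 4 := by positivity
    have h5 : (1 : ℝ) ≤ 3 * (1 / (4 * (k0 : ℝ) + 4) * (Y.card : ℝ)) := by linarith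
    have h6 : 4 * (k0 : ℝ) + 4 ≤ 3 * (Y.card : ℝ) := by
      have h7 : (4 * (k0 : ℝ) + 4) * (3 * (1 / (4 * (k0 : ℝ) + 4) * (Y.card : ℝ))) = 3 * (Y.card : ℝ) := by
        field_simp
      nlinarith
    have h8 : (k0 : ℝ) ≤ (Y.card : ℝ) := by
      have : (0 : ℝ) ≤ (k0 : ℝ) := Nat.cast_nonneg _
      linarith
    exact_mod_cast h8

/-- JOB HG-S5 (medium; uses `num_main`, `two_p_ge`). Robust expansion if the minimum indegree is small.

Proof. `z = 1/20000`, `ν = z²`.  Suppose `|RN E (ν n) X| < |X| + ν n`, `T = RN E (ν n) X`.  `eb E X Tᶜ ≤ ν n · n`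
(sum of `dIn E y X < ν n` over `y ∉ T`), `|T| ≤ |X| + z n`, `2 z n ≤ |X|`, `2 z n ≤ n - |T|`; `num_main`:
`|X| ≥ 2 p + D - n - 31 z n`, and `2 p + D - n ≥ n - 2 r - m - 1 ≥ n - 3 ε n - 1` (`two_p_ge`, `m, r ≤ q ≤ ε n`), which
is more than `(1 - 1/320) n + 31 z n` for `n ≥ 10^6`. -/
theorem small_exp {V : Type} [Fintype V] {E : V → V → Prop} {D p q m r : ℕ} (h : Hag E D p q)
    (hD : D + m + 1 = Fintype.card V) (hq : q = m + r) (hn : 10 ^ 6 ≤ Fintype.card V)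
    (hqε : (q : ℝ) ≤ 1 / 10 ^ 10 * (Fintype.card V : ℝ)) (X : Finset V)
    (h1 : 1 / 320 * (Fintype.card V : ℝ) ≤ (X.card : ℝ))
    (h2 : (X.card : ℝ) ≤ (1 - 1 / 320) * (Fintype.card V : ℝ)) :
    (X.card : ℝ) + (1 / 20000) ^ 2 * (Fintype.card V : ℝ) ≤
      ((RN E ((1 / 20000) ^ 2 * (Fintype.card V : ℝ)) X).card : ℝ) := by
  have hn' : (10 : ℝ) ^ 6 ≤ (Fintype.card V : ℝ) := by exact_mod_cast hn
  have hn0 : (0 : ℝ) < (Fintype.card V : ℝ) := lt_of_lt_of_le (by norm_num) hn'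
  have : Nonempty V := by
    rw [← Fintype.card_pos_iff]
    exact_mod_cast hn0
  by_contra hcon
  rw [not_le] at hcon
  have hge := two_p_ge h hD hq
  have hgr : (Fintype.card V : ℝ) ≤ 2 * (p : ℝ) + 2 * (r : ℝ) := by exact_mod_cast hge
  have hDr : (D : ℝ) + (m : ℝ) + 1 = (Fintype.card V : ℝ) := by exact_mod_cast hD
  have hqr : (q : ℝ) = (m : ℝ) + (r : ℝ) := by exact_mod_cast hq
  have hm0 : (0 : ℝ) ≤ (m : ℝ) := Nat.cast_nonneg m
  have hr0 : (0 : ℝ) ≤ (r : ℝ) := Nat.cast_nonneg r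
  set T := RN E ((1 / 20000) ^ 2 * (Fintype.card V : ℝ)) X with hT
  have he : (eb E X Tᶜ : ℝ) ≤ (1 / 20000 : ℝ) ^ 2 * (Fintype.card V : ℝ) ^ 2 := by
    rw [eb_eq_sum_dIn, Nat.cast_sum]
    have h3 : ∀ y ∈ Tᶜ, (dIn E y X : ℝ) ≤ (1 / 20000) ^ 2 * (Fintype.card V : ℝ) := by
      intro y hy
      rw [mem_compl, hT] at hy
      unfold RN at hy
      rw [mem_filter] at hy
      by_contra hc
      exact hy ⟨mem_univ _, (not_le.1 hc).le⟩
    refine (sum_le_sum h3).trans ?_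
    rw [sum_const, nsmul_eq_mul]
    have h4 : (Tᶜ.card : ℝ) ≤ (Fintype.card V : ℝ) := by exact_mod_cast card_le_univ _
    have h5 := mul_le_mul_of_nonneg_right h4
      (show (0 : ℝ) ≤ (1 / 20000) ^ 2 * (Fintype.card V : ℝ) by positivity)
    refine h5.trans (le_of_eq ?_)
    ring
  obtain ⟨-, -, -, -, h6⟩ := num_main h X T (1 / 20000) (by norm_num) (by linarith) he
    (by linarith) (by linarith) (by linarith)
  rw [abs_le] at h6
  linarith [h6.1]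

/-- JOB HG-S5 (medium; uses `good_low`, `small_exp`, `glue0`, `exists_m_r`, `card_low`, `head_not_mem`).
**Small minimum indegree**.

Proof. `glue0 (1/40) ((1/20000)^2)` gives `κ`, `n1`; `ε = min (ε from good_low) (κ/3)`.  `exists_m_r` gives `m`, `r`.
`Z = univ.filter (dIn E v univ ≤ n/20)` is good: `L`, with `n - L.length = |Z| ≤ 3 ε n ≤ κ n` (`card_low`).  Last
elements: `dOut ≥ p ≥ n/2 - r ≥ n/40`.  First elements are not in `Z` (`head_not_mem`), so `dIn > n/20 ≥ n/40`.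
Expansion: `small_exp` (`η/8 = 1/320`).  A chain of `E x y ∧ y ∈ Z` is a chain of `E`. -/
theorem small_indeg : ∃ (ε : ℝ) (n0 : ℕ), 0 < ε ∧ ∀ (V : Type) [Fintype V] (E : V → V → Prop)
    (D p q : ℕ), Hag E D p q → n0 ≤ Fintype.card V → (q : ℝ) ≤ ε * (Fintype.card V : ℝ) →
    Ham E := by
  obtain ⟨ε1, hε10, hε1, hlow⟩ := good_low
  obtain ⟨κ, n1, hκ, hglue⟩ := glue0 (1 / 40) ((1 / 20000) ^ 2) (by norm_num) (by norm_num) (by norm_num)
  refine ⟨min ε1 (κ / 3), max n1 (10 ^ 6), lt_min hε10 (by linarith), ?_⟩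
  intro V _ E D p q h hn hqε
  set n : ℝ := (Fintype.card V : ℝ) with hndef
  have hn1 : n1 ≤ Fintype.card V := (le_max_left _ _).trans hn
  have hn6 : 10 ^ 6 ≤ Fintype.card V := (le_max_right _ _).trans hn
  have hn' : (10 : ℝ) ^ 6 ≤ n := by rw [hndef]; exact_mod_cast hn6
  have hn0 : (0 : ℝ) < n := lt_of_lt_of_le (by norm_num) hn'
  have : Nonempty V := by
    rw [← Fintype.card_pos_iff]
    rw [hndef] at hn0
    exact_mod_cast hn0
  obtain ⟨m, r, hD, hq, -⟩ := exists_m_r h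
  have hqε1 : (q : ℝ) ≤ ε1 * n := hqε.trans (mul_le_mul_of_nonneg_right (min_le_left _ _) hn0.le)
  have hqε2 : (q : ℝ) ≤ 1 / 10 ^ 10 * n := hqε1.trans (mul_le_mul_of_nonneg_right hε1 hn0.le)
  obtain ⟨L, hL, hLc⟩ := hlow V E D p q m r h hD hq hqε1
    (univ.filter fun v => (dIn E v univ : ℝ) ≤ n / 20) (by
      intro v hv
      exact (mem_filter.1 hv).2)
  have hZc := card_low h hD hq (min ε1 (κ / 3)) ((min_le_left _ _).trans (hε1.trans (by norm_num))) hqε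
    (univ.filter fun v => (dIn E v univ : ℝ) ≤ n / 20) (by
      intro v hv
      exact (mem_filter.1 hv).2)
  have hZκ : ((univ.filter fun v => (dIn E v univ : ℝ) ≤ n / 20).card : ℝ) ≤ κ * n := by
    refine hZc.trans (mul_le_mul_of_nonneg_right ?_ hn0.le)
    have := min_le_right ε1 (κ / 3)
    linarith
  have hLcr : (L.length : ℝ) + ((univ.filter fun v => (dIn E v univ : ℝ) ≤ n / 20).card : ℝ) = n := by
    rw [hndef]
    exact_mod_cast hLc
  have hge := two_p_ge h hD hq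
  have hgr : n ≤ 2 * (p : ℝ) + 2 * (r : ℝ) := by rw [hndef]; exact_mod_cast hge
  have hqr : (q : ℝ) = (m : ℝ) + (r : ℝ) := by exact_mod_cast hq
  have hm0 : (0 : ℝ) ≤ (m : ℝ) := Nat.cast_nonneg m
  refine hglue V E L hn1 ⟨fun l hl => ⟨(hL.1 l hl).1, (hL.1 l hl).2.imp fun x y hxy => hxy.1⟩, hL.2.1,
    hL.2.2⟩ ?_ ?_ ?_ ?_
  · rw [← hndef]
    linarith
  · intro l _ v _
    rw [← hndef]
    have h2 : (p : ℝ) ≤ (dOut E v univ : ℝ) := by exact_mod_cast h.out v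
    linarith
  · intro l hl v hv
    rw [← hndef]
    have h2 := head_not_mem E _ L hL hLc l hl v hv
    rw [mem_filter, not_and, not_le] at h2
    have h3 := h2 (mem_univ v)
    linarith
  · intro X hX1 hX2
    refine small_exp h hD hq hn6 hqε2 X ?_ ?_
    · refine le_trans (le_of_eq ?_) hX1
      norm_num
    · refine hX2.trans (le_of_eq ?_)
      norm_num

end HX
end

section

set_option autoImplicit false

namespace HX

open Finset Classical

/-- two of the three classes of `(S, T)` have at least `θ` elements -/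
def Two {V : Type} [Fintype V] (S T : Finset V) (θ : ℝ) : Prop :=
  (θ ≤ ((S ∩ T).card : ℝ) ∧ θ ≤ ((S \ T).card : ℝ)) ∨
  (θ ≤ ((S ∩ T).card : ℝ) ∧ θ ≤ (((S ∪ T)ᶜ).card : ℝ)) ∨
  (θ ≤ ((S \ T).card : ℝ) ∧ θ ≤ (((S ∪ T)ᶜ).card : ℝ))

/-- no vertex of `S` has `M` out-neighbours outside `T`, no vertex outside `T` has `M` in-neighbours in `S` -/
def Stuck {V : Type} [Fintype V] (E : V → V → Prop) (S T : Finset V) (M : ℝ) : Prop :=
  (∀ v ∈ S, (dOut E v Tᶜ : ℝ) < M) ∧ ∀ v, v ∉ T → (dIn E v S : ℝ) < M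

/-- JOB HG-V1 (easy; uses `lemE`, `lemE_zero`). The bound for independent sets under the parameters of section 5:
`M = 2 η n`, `16 M = 32 η n = 32 ρ² n/40 ≤ ρ n/2` (`ρ ≤ ε/4 ≤ 1/16`), and `ρ n/2 ≥ 1` (`4 ≤ η n`). -/
theorem indep_stuck {V : Type} [Fintype V] {E : V → V → Prop} {D p q : ℕ} {ε ρ η ν z' ξ κ : ℝ}
    {n0 : ℕ} {S T : Finset V} (P : Par ε ρ η ν z' ξ κ n0) (hn : n0 ≤ Fintype.card V)
    (h : Hag E D p q) (k : ℕ) (hk : 1 ≤ k) (hc : S.card = T.card + k)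
    (h2 : Two S T (ρ / 2 * (Fintype.card V : ℝ)))
    (hs : Stuck E S T (2 * η * (Fintype.card V : ℝ))) (I : Finset V)
    (hI : ∀ x ∈ I, ∀ y ∈ I, x ≠ y → ¬ (E x y ∧ x ∈ S ∧ y ∉ T)) :
    I.card + (k + 1) ≤ Fintype.card V := by
  have hb := P.big _ hn
  obtain ⟨n, hn'⟩ : ∃ n : ℝ, n = (Fintype.card V : ℝ) := ⟨_, rfl⟩
  rw [← hn'] at hb h2 hs
  have hη4 : 4 ≤ η * n := hb.2.2.1
  have hn0 : 0 ≤ n := by rw [hn']; exact Nat.cast_nonneg _
  have hρ0 := P.hρ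
  have hρ1 := P.hρ1
  have hε1 := P.hε1
  have hη := P.hη
  have h16' : 16 * (2 * η) ≤ ρ / 2 := by
    rw [hη]
    nlinarith
  have h16 : 16 * (2 * η * n) ≤ ρ / 2 * n := by
    have := mul_le_mul_of_nonneg_right h16' hn0
    linarith
  have h1 : 1 ≤ ρ / 2 * n := by linarith
  have key : ∀ W : Finset V, ρ / 2 * n ≤ (W.card : ℝ) → 16 * (2 * η * n) ≤ (W.card : ℝ) ∧ 1 ≤ W.card := by
    intro W hW
    refine ⟨h16.trans hW, ?_⟩
    have h3 : (1 : ℝ) ≤ (W.card : ℝ) := h1.trans hW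
    exact_mod_cast h3
  refine lemE h S T k (2 * η * n) hc hk (by linarith) (fun v hv => (hs.1 v hv).le)
    (fun v hv => (hs.2 v hv).le) ?_ I hI
  rcases h2 with ⟨a, b⟩ | ⟨a, b⟩ | ⟨a, b⟩
  · exact Or.inl ⟨(key _ a).1, (key _ a).2, (key _ b).1, (key _ b).2⟩
  · exact Or.inr (Or.inl ⟨(key _ a).1, (key _ a).2, (key _ b).1, (key _ b).2⟩)
  · exact Or.inr (Or.inr ⟨(key _ a).1, (key _ a).2, (key _ b).1, (key _ b).2⟩)

/-- JOB HG-V1 (medium; uses `end_a`, `indep_stuck`). The case `T ⊄ S`: `end_a` with `P.glue : GlueP (η/2) ν (ε/16) κ n0`,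
`Deg4.mono`, `Exp2.mono`.  If `k = 0` the bound for independent sets is `card_le_univ`. -/
theorem struct_a {V : Type} [Fintype V] {E : V → V → Prop} {D p q : ℕ} {ε ρ η ν z' ξ κ : ℝ}
    {n0 : ℕ} {S T : Finset V} (P : Par ε ρ η ν z' ξ κ n0) (hn : n0 ≤ Fintype.card V)
    (h : Hag E D p q) (k : ℕ) (hc : S.card = T.card + k)
    (hkξ : (k : ℝ) ≤ 100 * ξ * (Fintype.card V : ℝ))
    (hlo : ε / 8 * (Fintype.card V : ℝ) ≤ (S.card : ℝ))
    (hhi : (S.card : ℝ) ≤ (1 - ε / 8) * (Fintype.card V : ℝ))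
    (hdeg : Deg4 E S T (η * (Fintype.card V : ℝ)))
    (hexp : Exp2 E S T (η / 2 * (ε / 16) / 16) ν (2 * ν))
    (h2 : Two S T (ρ / 2 * (Fintype.card V : ℝ)))
    (hs : k = 0 ∨ Stuck E S T (2 * η * (Fintype.card V : ℝ))) (hTS : ¬ T ⊆ S) : Ham E := by
  have hn0 : (0 : ℝ) ≤ (Fintype.card V : ℝ) := Nat.cast_nonneg _
  have hε := P.hε
  have hν : 0 ≤ ν := by rw [P.hν]; positivity
  have hη0 : 0 ≤ η := by rw [P.hη]; positivity
  have hεn : 0 ≤ ε * (Fintype.card V : ℝ) := mul_nonneg hε.le hn0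
  refine end_a P.glue E S T k hn hc hTS ?_ ?_ ?_ ?_ (hdeg.mono ?_) (hexp.mono (by linarith))
  · intro I hI
    rcases Nat.eq_zero_or_pos k with hk | hk
    · rw [hk, add_zero]
      exact card_le_univ I
    · rcases hs with hs | hs
      · omega
      · have := indep_stuck P hn h k hk hc h2 hs I hI
        omega
  · have h3 : 200 * ξ * (Fintype.card V : ℝ) ≤ κ * (Fintype.card V : ℝ) :=
      mul_le_mul_of_nonneg_right P.hξ2 hn0
    have h4 : 0 ≤ ξ * (Fintype.card V : ℝ) := mul_nonneg P.hξ.le hn0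
    linarith
  · linarith
  · linarith
  · have h4 : 0 ≤ η * (Fintype.card V : ℝ) := mul_nonneg hη0 hn0
    linarith

/-- JOB HG-V2 (medium; uses `dense`). If almost all pairs are adjacent there are many arcs back from the outside class to
the intersection class.

Proof. `dense` for `X = (S ∪ T)ᶜ`, `Y = S ∩ T`: `c (D + a - n) ≤ eb E C A + eb E A C`, `eb E A C ≤ eb E S Tᶜ ≤ 100 ξ n²`,
`c ≥ ρ n/2`, `D + a - n ≥ ρ n/2 - 2 ξ n ≥ 0`; `101 ξ ≤ ρ²/8` (`10000 ξ ≤ η = ρ²/40`). -/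
theorem back {V : Type} [Fintype V] {E : V → V → Prop} {D p q : ℕ} {ε ρ η ν z' ξ κ : ℝ}
    {n0 : ℕ} {S T : Finset V} (P : Par ε ρ η ν z' ξ κ n0) (hn : n0 ≤ Fintype.card V)
    (h : Hag E D p q) (he : (eb E S Tᶜ : ℝ) ≤ 100 * ξ * (Fintype.card V : ℝ) ^ 2)
    (hD : (1 - 2 * ξ) * (Fintype.card V : ℝ) ≤ (D : ℝ))
    (ha : ρ / 2 * (Fintype.card V : ℝ) ≤ ((S ∩ T).card : ℝ))
    (hc : ρ / 2 * (Fintype.card V : ℝ) ≤ (((S ∪ T)ᶜ).card : ℝ)) :
    ρ ^ 2 / 8 * (Fintype.card V : ℝ) ^ 2 ≤ (eb E (S ∪ T)ᶜ (S ∩ T) : ℝ) := by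
  obtain ⟨n, hn'⟩ : ∃ n : ℝ, n = (Fintype.card V : ℝ) := ⟨_, rfl⟩
  have h1 := dense h (S ∪ T)ᶜ (S ∩ T)
  have h2 : (eb E (S ∩ T) (S ∪ T)ᶜ : ℝ) ≤ (eb E S Tᶜ : ℝ) := by
    exact_mod_cast eb_mono E inter_subset_left (compl_subset_compl.2 subset_union_right)
  rw [← hn'] at h1 he hD ha hc ⊢
  have hn0 : 0 ≤ n := by rw [hn']; exact Nat.cast_nonneg _
  have hρ0 := P.hρ
  have hρ1 := P.hρ1
  have hε1 := P.hε1
  have hξ := P.hξ
  have hξ3 := P.hξ3
  rw [P.hη] at hξ3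
  have h3 : (ρ / 2 - 2 * ξ) * n ≤ (D : ℝ) + ((S ∩ T).card : ℝ) - n := by linarith
  have h4 : 0 ≤ ρ / 2 - 2 * ξ := by nlinarith
  have h5 : (ρ / 2 * n) * ((ρ / 2 - 2 * ξ) * n) ≤
      (((S ∪ T)ᶜ).card : ℝ) * ((D : ℝ) + ((S ∩ T).card : ℝ) - n) :=
    mul_le_mul hc h3 (mul_nonneg h4 hn0) (Nat.cast_nonneg _)
  have h6 : ρ ^ 2 / 8 ≤ ρ / 2 * (ρ / 2 - 2 * ξ) - 100 * ξ := by nlinarith
  have h7 := mul_le_mul_of_nonneg_right h6 (sq_nonneg n)
  nlinarith

/-- JOB HG-V2 (medium; uses `end_b`, `indep_stuck`, `lemE_zero`, `back`). The case `T ⊆ S`.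

Proof. `end_b` with `P.glue : GlueP (η/2) ν (ε/16) κ n0`.  `X = {x ∈ T | ρ² n/16 ≤ dIn E x Sᶜ}`.  By `back`
(`(S ∪ T)ᶜ = Sᶜ`, `S ∩ T = T`) `ρ²/8 n² ≤ eb E Sᶜ T = ∑_{x ∈ T} dIn E x Sᶜ ≤ |X| n + n ρ² n/16`, so `|X| ≥ ρ² n/16`,
and `2 (k + 1) ≤ 200 ξ n + 2 ξ n < ρ² n/16` (`1 ≤ ξ n`, `10000 ξ ≤ ρ²/40`); `ρ² n/16 ≥ η n/2`.
Independent sets: `k ≥ 1`: `indep_stuck`; `k = 0`: `S = T`, `lemE_zero`. -/
theorem struct_b {V : Type} [Fintype V] {E : V → V → Prop} {D p q : ℕ} {ε ρ η ν z' ξ κ : ℝ}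
    {n0 : ℕ} {S T : Finset V} (P : Par ε ρ η ν z' ξ κ n0) (hn : n0 ≤ Fintype.card V)
    (h : Hag E D p q) (he : (eb E S Tᶜ : ℝ) ≤ 100 * ξ * (Fintype.card V : ℝ) ^ 2)
    (k : ℕ) (hc : S.card = T.card + k)
    (hkξ : (k : ℝ) ≤ 100 * ξ * (Fintype.card V : ℝ))
    (hlo : ε / 8 * (Fintype.card V : ℝ) ≤ (S.card : ℝ))
    (hhi : (S.card : ℝ) ≤ (1 - ε / 8) * (Fintype.card V : ℝ))
    (hdeg : Deg4 E S T (η * (Fintype.card V : ℝ)))
    (hexp : Exp2 E S T (η / 2 * (ε / 16) / 16) ν (2 * ν))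
    (hD : (1 - 2 * ξ) * (Fintype.card V : ℝ) ≤ (D : ℝ))
    (ha : ρ / 2 * (Fintype.card V : ℝ) ≤ ((S ∩ T).card : ℝ))
    (hcc : ρ / 2 * (Fintype.card V : ℝ) ≤ (((S ∪ T)ᶜ).card : ℝ))
    (hs : k = 0 ∨ Stuck E S T (2 * η * (Fintype.card V : ℝ))) (hTS : T ⊆ S) : Ham E := by
  obtain ⟨n, hn'⟩ : ∃ n : ℝ, n = (Fintype.card V : ℝ) := ⟨_, rfl⟩
  have hbk := back P hn h he hD ha hcc
  have hb := P.big _ hn
  have hun : S ∪ T = S := union_eq_left.2 hTS
  have hin : S ∩ T = T := inter_eq_right.2 hTS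
  rw [hun, hin, eb_eq_sum_dIn] at hbk
  have hn0 : 0 ≤ n := by rw [hn']; exact Nat.cast_nonneg _
  have hρ0 := P.hρ
  have hρ1 := P.hρ1
  have hε := P.hε
  have hε1 := P.hε1
  have hξ := P.hξ
  have hξ2 := P.hξ2
  have hξ3 := P.hξ3
  have hη := P.hη
  have hη0 : 0 ≤ η := by rw [hη]; positivity
  set X : Finset V := T.filter fun x => ρ ^ 2 * (Fintype.card V : ℝ) / 16 ≤ (dIn E x Sᶜ : ℝ) with hX
  have hXT : X ⊆ T := filter_subset _ _
  have hsum : ((∑ y ∈ T, dIn E y Sᶜ : ℕ) : ℝ) ≤ (X.card : ℝ) * n + n * (ρ ^ 2 * n / 16) := by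
    rw [← sum_filter_add_sum_filter_not T fun x => ρ ^ 2 * (Fintype.card V : ℝ) / 16 ≤ (dIn E x Sᶜ : ℝ)]
    push_cast
    refine add_le_add ?_ ?_
    · calc ∑ x ∈ X, (dIn E x Sᶜ : ℝ) ≤ ∑ _x ∈ X, n := by
            refine sum_le_sum fun x _ => ?_
            rw [hn']
            exact_mod_cast (dIn_le_card E x Sᶜ).trans (card_le_univ _)
        _ = (X.card : ℝ) * n := by rw [sum_const, nsmul_eq_mul]
    · calc ∑ x ∈ T.filter (fun x => ¬ ρ ^ 2 * (Fintype.card V : ℝ) / 16 ≤ (dIn E x Sᶜ : ℝ)), (dIn E x Sᶜ : ℝ)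
          ≤ ∑ _x ∈ T.filter (fun x => ¬ ρ ^ 2 * (Fintype.card V : ℝ) / 16 ≤ (dIn E x Sᶜ : ℝ)),
            (ρ ^ 2 * n / 16) := by
            refine sum_le_sum fun x hx => ?_
            have := (mem_filter.1 hx).2
            rw [hn']
            exact (not_le.1 this).le
        _ = ((T.filter (fun x => ¬ ρ ^ 2 * (Fintype.card V : ℝ) / 16 ≤ (dIn E x Sᶜ : ℝ))).card : ℝ) *
            (ρ ^ 2 * n / 16) := by rw [sum_const, nsmul_eq_mul]
        _ ≤ n * (ρ ^ 2 * n / 16) := by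
            refine mul_le_mul_of_nonneg_right ?_ (by positivity)
            rw [hn']
            exact_mod_cast card_le_univ _
  rw [← hn'] at hbk hb hkξ hlo hhi
  have hξn : 1 ≤ ξ * n := hb.2.2.2.1
  have hκn : 4 ≤ κ * n := hb.2.2.2.2
  have hηn : 4 ≤ η * n := hb.2.2.1
  have hνn : 4 ≤ ν * n := hb.1
  have hnpos : 0 < n := by
    rcases hn0.lt_or_eq with h0 | h0
    · exact h0
    · rw [← h0] at hξn; linarith
  have hXc : ρ ^ 2 * n / 16 ≤ (X.card : ℝ) := by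
    have h1 : ρ ^ 2 / 8 * n ^ 2 ≤ (X.card : ℝ) * n + n * (ρ ^ 2 * n / 16) := hbk.trans hsum
    have h2 : (ρ ^ 2 * n / 16) * n ≤ (X.card : ℝ) * n := by nlinarith
    exact le_of_mul_le_mul_right h2 hnpos
  have hρn : 0 < ρ ^ 2 * n := by positivity
  have hξρ : ξ * n ≤ ρ ^ 2 * n / 400000 := by
    have h1 : 10000 * ξ * n ≤ η * n := mul_le_mul_of_nonneg_right hξ3 hn0
    rw [hη] at h1
    linarith
  have hεn : 0 < ε * n := mul_pos hε hnpos
  refine end_b P.glue E S T X k hn ?_ ?_ hc hTS ?_ ?_ hXT ?_ ?_ ?_ ?_ (hdeg.mono ?_) hexp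
  · rw [← hn']; linarith
  · rw [← hn']; linarith
  · intro I hI
    rcases Nat.eq_zero_or_pos k with hk | hk
    · have hST : S = T := (eq_of_subset_of_card_le hTS (by omega)).symm
      subst hST
      rw [hk, zero_add]
      refine lemE_zero h S ?_ ?_ I hI
      · rw [← card_pos]
        have h1 : (0 : ℝ) < (S.card : ℝ) := by linarith
        exact_mod_cast h1
      · rw [← card_pos]
        have h1 := card_compl_add_card S
        have h2 : ((Sᶜ.card : ℕ) : ℝ) + (S.card : ℝ) = (Fintype.card V : ℝ) := by exact_mod_cast h1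
        have h3 : (0 : ℝ) < (Sᶜ.card : ℝ) := by rw [← hn'] at h2; linarith
        exact_mod_cast h3
    · rcases hs with hs | hs
      · omega
      · exact indep_stuck P hn h k hk hc (Or.inr (Or.inl ⟨ha, hcc⟩)) hs I hI
  · rw [← hn']
    push_cast
    have h3 : 200 * ξ * n ≤ κ * n := mul_le_mul_of_nonneg_right hξ2 hn0
    linarith
  · have h1 : (2 * ((k : ℝ) + 1)) < (X.card : ℝ) := by linarith
    exact_mod_cast h1
  · intro x hx
    have h1 := (mem_filter.1 hx).2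
    rw [← hn'] at h1 ⊢
    refine le_trans ?_ h1
    rw [hη]
    linarith
  · rw [← hn']; linarith
  · rw [← hn']; linarith
  · linarith

end HX
end

section

set_option autoImplicit false

namespace HX

open Finset Classical

/-- JOB HG-V3 (medium; uses `final_pair`, `exp_fp`, `struct_a`, `struct_b`, `back`). **Linear semidegrees, structured
case**.

Proof. `final_pair` gives `S'`, `T'` (write `S`, `T`); `exp_fp`.
If `|T| ≤ |S|`, `k = |S| - |T| ≤ 100 ξ n` (`FP.st`): if `T ⊄ S` use `struct_a`; if `T ⊆ S` then `|S \ T| = k ≤ 100 ξ n < ρ n/2`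
(`n > 0`), so the second alternative of `final_pair` holds: `struct_b`.
If `|S| < |T|`: use `(Sᶜ, Tᶜ)`, `k = |T| - |S|`, `Deg4.compl`, `Exp2.compl`, `Stuck E Sᶜ Tᶜ`.  Classes of `(Sᶜ, Tᶜ)`:
`Sᶜ ∩ Tᶜ = (S ∪ T)ᶜ`, `Sᶜ \ Tᶜ = T \ S` with `|T \ S| = |S \ T| + k ≥ |S \ T|`, `(Sᶜ ∪ Tᶜ)ᶜ = S ∩ T`: `Two` holds.
If `Tᶜ ⊄ Sᶜ`: `struct_a`.  Otherwise `S ⊆ T`, `S \ T = ∅`, so the second alternative of `final_pair` holds, and `back`
gives `ρ²/8 n² ≤ eb E (S ∪ T)ᶜ (S ∩ T) ≤ ∑_{v ∉ S} dOut E v T ≤ n · 2 η n = ρ²/20 n²`, a contradiction. -/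
theorem struct_ham {V : Type} [Fintype V] {E : V → V → Prop} {D p q : ℕ} {ε z : ℝ}
    {S T : Finset V} (h : Pair E D p q ε z S T) {ρ η ν z' ξ κ : ℝ} {n0 : ℕ}
    (P : Par ε ρ η ν z' ξ κ n0) (hn : n0 ≤ Fintype.card V) (hz : 100 * z ≤ ξ * ρ)
    (ha : ρ * (Fintype.card V : ℝ) ≤ ((S ∩ T).card : ℝ) ∨
      ((S ∩ T).card : ℝ) ≤ ξ * (Fintype.card V : ℝ))
    (hb : ρ * (Fintype.card V : ℝ) ≤ ((S \ T).card : ℝ) ∨
      ((S \ T).card : ℝ) ≤ ξ * (Fintype.card V : ℝ))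
    (hc : ρ * (Fintype.card V : ℝ) ≤ (((S ∪ T)ᶜ).card : ℝ) ∨
      (((S ∪ T)ᶜ).card : ℝ) ≤ ξ * (Fintype.card V : ℝ)) : Ham E := by
  obtain ⟨S', T', F, h2, h3, h4⟩ := final_pair h P hn hz ha hb hc
  have hexp := exp_fp P hn F
  obtain ⟨-, -, b1, -, -⟩ := P.big _ hn
  set n : ℝ := (Fintype.card V : ℝ) with hN
  have hρ := P.hρ
  have hξ0 := P.hξ
  have hη : η = ρ ^ 2 / 40 := P.hη
  have hη0 : 0 < η := by rw [hη]; positivity
  have hn0 : 0 < n := by
    by_contra h5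
    have h6 : η * n ≤ 0 := mul_nonpos_of_nonneg_of_nonpos hη0.le (not_lt.1 h5)
    linarith
  have hρ1 : ρ ≤ 1 / 16 := by have := P.hρ1; have := P.hε1; linarith
  have hξ3 := P.hξ3
  have hsmall : 100 * ξ * n < ρ / 2 * n := by
    refine mul_lt_mul_of_pos_right ?_ hn0
    nlinarith
  rcases le_or_gt T'.card S'.card with hle | hlt
  · obtain ⟨k, hk⟩ := Nat.exists_eq_add_of_le hle
    have hkr : (S'.card : ℝ) = T'.card + k := by exact_mod_cast hk
    have hkξ : (k : ℝ) ≤ 100 * ξ * n := by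
      have h5 := (le_abs_self _).trans F.st
      linarith
    have hs : k = 0 ∨ Stuck E S' T' (2 * η * n) := by
      rcases h4 with h5 | h5 | h5
      · left; omega
      · exact Or.inr h5.2
      · left; omega
    by_cases hTS : T' ⊆ S'
    · have h5 : ((S' \ T').card : ℝ) = k := by
        have h6 : (S' \ T').card = k := by rw [card_sdiff_of_subset hTS]; omega
        exact_mod_cast h6
      rcases h3 with h6 | ⟨h6, h7, h8⟩
      · rw [h5] at h6
        linarith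
      · exact struct_b P hn h.hag F.e k hk hkξ F.lo F.hi F.deg hexp h6 h7 h8 hs hTS
    · exact struct_a P hn h.hag k hk hkξ F.lo F.hi F.deg hexp h2 hs hTS
  · obtain ⟨k, hk⟩ := Nat.exists_eq_add_of_lt hlt
    have c1 : (S'ᶜ).card + S'.card = Fintype.card V := card_compl_add_card S'
    have c2 : (T'ᶜ).card + T'.card = Fintype.card V := card_compl_add_card T'
    have hc' : (S'ᶜ).card = (T'ᶜ).card + (k + 1) := by omega
    have c1' : ((S'ᶜ).card : ℝ) + S'.card = n := by rw [hN]; exact_mod_cast c1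
    have hkr : (T'.card : ℝ) = S'.card + ((k + 1 : ℕ) : ℝ) := by exact_mod_cast (by omega : T'.card = S'.card + (k + 1))
    have hkξ : ((k + 1 : ℕ) : ℝ) ≤ 100 * ξ * n := by
      have h5 := (neg_abs_le ((S'.card : ℝ) - (T'.card : ℝ)))
      have h6 := F.st
      linarith
    have hs : k + 1 = 0 ∨ Stuck E S'ᶜ T'ᶜ (2 * η * n) := by
      rcases h4 with h5 | h5 | h5
      · omega
      · omega
      · right
        refine ⟨fun v hv => ?_, fun v hv => ?_⟩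
        · rw [compl_compl]
          exact h5.2.1 v (mem_compl.1 hv)
        · exact h5.2.2 v (by simpa using hv)
    have e1 : S'ᶜ ∩ T'ᶜ = (S' ∪ T')ᶜ := by
      ext v; simp
    have e2 : S'ᶜ \ T'ᶜ = T' \ S' := by
      ext v; simp [and_comm]
    have e3 : (S'ᶜ ∪ T'ᶜ)ᶜ = S' ∩ T' := by
      ext v; simp
    have hd : ((S' \ T').card : ℝ) ≤ ((T' \ S').card : ℝ) := by
      have i1 := card_sdiff_add_card_inter S' T'
      have i2 := card_sdiff_add_card_inter T' S'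
      rw [inter_comm T' S'] at i2
      have i3 : (S' \ T').card ≤ (T' \ S').card := by omega
      exact_mod_cast i3
    have h2' : Two S'ᶜ T'ᶜ (ρ / 2 * n) := by
      unfold Two
      rw [e1, e2, e3]
      rcases h2 with h5 | h5 | h5
      · exact Or.inr (Or.inr ⟨h5.2.trans hd, h5.1⟩)
      · exact Or.inr (Or.inl ⟨h5.2, h5.1⟩)
      · exact Or.inl ⟨h5.2, h5.1.trans hd⟩
    have hTS : ¬ T'ᶜ ⊆ S'ᶜ := by
      intro h5
      have h6 : S' ⊆ T' := by
        intro v hv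
        by_contra h7
        exact (mem_compl.1 (h5 (mem_compl.2 h7))) hv
      have h7 : S' \ T' = ∅ := sdiff_eq_empty_iff_subset.2 h6
      have h8 : 0 < ρ / 2 * n := by positivity
      rcases h3 with h9 | ⟨h9, h10, h11⟩
      · rw [h7, card_empty, Nat.cast_zero] at h9
        linarith
      · have h12 := back P hn h.hag F.e h9 h10 h11
        have h13 : eb E (S' ∪ T')ᶜ (S' ∩ T') ≤ eb E S'ᶜ T' :=
          eb_mono E (compl_subset_compl.2 subset_union_left) inter_subset_right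
        have h14 : ((eb E (S' ∪ T')ᶜ (S' ∩ T') : ℕ) : ℝ) ≤ (eb E S'ᶜ T' : ℝ) := by exact_mod_cast h13
        have h15 : (eb E S'ᶜ T' : ℝ) ≤ (S'ᶜ).card * (2 * η * n) := by
          unfold eb
          push_cast
          rw [← nsmul_eq_mul]
          refine sum_le_card_nsmul _ _ _ fun v hv => ?_
          rcases h4 with h16 | h16 | h16
          · omega
          · omega
          · exact (h16.2.1 v (mem_compl.1 hv)).le
        have h16 : ((S'ᶜ).card : ℝ) ≤ n := by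
          have : (0 : ℝ) ≤ S'.card := Nat.cast_nonneg _
          linarith
        have h17 : ((S'ᶜ).card : ℝ) * (2 * η * n) ≤ n * (2 * η * n) :=
          mul_le_mul_of_nonneg_right h16 (by positivity)
        have h18 : n * (2 * η * n) = ρ ^ 2 / 20 * n ^ 2 := by rw [hη]; ring
        have h19 : ρ ^ 2 / 20 * n ^ 2 < ρ ^ 2 / 8 * n ^ 2 := by
          have : 0 < ρ ^ 2 * n ^ 2 := by positivity
          linarith
        linarith
    refine struct_a P hn h.hag (k + 1) hc' hkξ ?_ ?_ F.deg.compl hexp.compl h2' hs hTS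
    · have := F.hi
      rw [← hN] at this ⊢
      linarith
    · have := F.lo
      rw [← hN] at this ⊢
      linarith

end HX
end

section

set_option autoImplicit false

namespace HX

open Finset Classical

/-- JOB HG-W1 (medium). Not an expander: there is a `Pair`.

Proof. The degree conditions of `Expander E ε (z²)` hold (`Hag.out`, `Hag.inn`).  If the expansion fails for `S`, take
`T = RN E (z² n) S`: `|T| < |S| + z² n`, `eb E S Tᶜ = ∑_{y ∉ T} dIn E y S ≤ z² n · n`, `z² ≤ z ≤ ε/100`. -/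
theorem expander_or_pair {V : Type} [Fintype V] {E : V → V → Prop} {D p q : ℕ}
    (h : Hag E D p q) (hD : p + q ≤ D) (ε z : ℝ) (hε : ε ≤ 1) (hz : 0 < z) (hzε : 100 * z ≤ ε)
    (hp : ε * (Fintype.card V : ℝ) ≤ (p : ℝ)) (hq : ε * (Fintype.card V : ℝ) ≤ (q : ℝ))
    (hzn : 1 ≤ z * (Fintype.card V : ℝ)) :
    Expander E ε (z ^ 2) ∨ ∃ S T : Finset V, Pair E D p q ε z S T := by
  have hn0 : (0 : ℝ) ≤ (Fintype.card V : ℝ) := Nat.cast_nonneg _
  have hz1 : z ≤ 1 := by linarith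
  have hzz : z ^ 2 ≤ z := by nlinarith
  have hzn2 : z ^ 2 * (Fintype.card V : ℝ) ≤ z * (Fintype.card V : ℝ) :=
    mul_le_mul_of_nonneg_right hzz hn0
  have hzε2 : 100 * z * (Fintype.card V : ℝ) ≤ ε * (Fintype.card V : ℝ) :=
    mul_le_mul_of_nonneg_right hzε hn0
  by_cases hE : ∀ Z : Finset V, ε / 2 * (Fintype.card V : ℝ) ≤ (Z.card : ℝ) →
    (Z.card : ℝ) ≤ (1 - ε / 2) * (Fintype.card V : ℝ) →
    (Z.card : ℝ) + z ^ 2 * (Fintype.card V : ℝ) ≤
      ((RN E (z ^ 2 * (Fintype.card V : ℝ)) Z).card : ℝ)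
  · left
    refine ⟨fun x => hp.trans ?_, fun x => hq.trans ?_, hE⟩
    · exact_mod_cast h.out x
    · exact_mod_cast h.inn x
  · right
    push Not at hE
    obtain ⟨S, hS1, hS2, hS3⟩ := hE
    refine ⟨S, RN E (z ^ 2 * (Fintype.card V : ℝ)) S, h, hD, hp, hq, hz, hzε, hzn, ?_, ?_, ?_, ?_⟩
    · rw [eb_eq_sum_dIn, Nat.cast_sum]
      have h1 : ∀ y ∈ (RN E (z ^ 2 * (Fintype.card V : ℝ)) S)ᶜ,
          (dIn E y S : ℝ) ≤ z ^ 2 * (Fintype.card V : ℝ) := by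
        intro y hy
        rw [mem_compl, RN, mem_filter, not_and] at hy
        exact (not_le.1 (hy (mem_univ y))).le
      have h2 := Finset.sum_le_card_nsmul _ _ _ h1
      rw [nsmul_eq_mul] at h2
      refine h2.trans ?_
      have h3 : (((RN E (z ^ 2 * (Fintype.card V : ℝ)) S)ᶜ.card : ℕ) : ℝ) ≤
          (Fintype.card V : ℝ) := by exact_mod_cast card_le_univ _
      have h4 : 0 ≤ z ^ 2 * (Fintype.card V : ℝ) := by positivity
      calc _ ≤ (Fintype.card V : ℝ) * (z ^ 2 * (Fintype.card V : ℝ)) :=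
            mul_le_mul_of_nonneg_right h3 h4
        _ = z ^ 2 * (Fintype.card V : ℝ) ^ 2 := by ring
    · linarith
    · nlinarith
    · nlinarith

/-- JOB HG-W1 (easy). Three numbers and four disjoint intervals. (All `3 ^ 4` choices of numbers in the open intervals
`(r4, r3)`, `(r3, r2)`, `(r2, r1)`, `(r1, r0)` are contradictory.) -/
theorem pigeon (x y w r0 r1 r2 r3 r4 : ℝ) (h1 : r1 ≤ r0) (h2 : r2 ≤ r1) (h3 : r3 ≤ r2)
    (h4 : r4 ≤ r3) :
    ((r0 ≤ x ∨ x ≤ r1) ∧ (r0 ≤ y ∨ y ≤ r1) ∧ (r0 ≤ w ∨ w ≤ r1)) ∨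
    ((r1 ≤ x ∨ x ≤ r2) ∧ (r1 ≤ y ∨ y ≤ r2) ∧ (r1 ≤ w ∨ w ≤ r2)) ∨
    ((r2 ≤ x ∨ x ≤ r3) ∧ (r2 ≤ y ∨ y ≤ r3) ∧ (r2 ≤ w ∨ w ≤ r3)) ∨
    ((r3 ≤ x ∨ x ≤ r4) ∧ (r3 ≤ y ∨ y ≤ r4) ∧ (r3 ≤ w ∨ w ≤ r4)) := by
  by_contra hcon
  simp only [not_or, not_and_or, not_le] at hcon
  obtain ⟨c1, c2, c3, c4⟩ := hcon
  rcases c1 with ⟨a1, a2⟩ | ⟨a1, a2⟩ | ⟨a1, a2⟩ <;>
    rcases c2 with ⟨b1, b2⟩ | ⟨b1, b2⟩ | ⟨b1, b2⟩ <;>
      first
      | linarith
      | (rcases c3 with ⟨d1, d2⟩ | ⟨d1, d2⟩ | ⟨d1, d2⟩ <;>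
          first
          | linarith
          | (rcases c4 with ⟨e1, e2⟩ | ⟨e1, e2⟩ | ⟨e1, e2⟩ <;> linarith))

private theorem lin_step {ε ρ η ν z' ξ κ : ℝ} {n0 : ℕ} (P : Par ε ρ η ν z' ξ κ n0) : ξ ≤ ρ := by
  have h1 := P.hξ3
  have h2 := P.hη
  have h3 := P.hρ
  have h4 := P.hρ1
  have h5 := P.hε1
  rw [h2] at h1
  nlinarith

/-- JOB HG-W2 (medium; uses `par_exists`, `struct_ham`, `expander_or_pair`, `pigeon`, `ham_of_expander`). **Linear
semidegrees**.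

Proof. `r0 = ε/4`; `par_exists ε r0` gives `ξ = r1` (and the other parameters), `par_exists ε r1` gives `r2`, then `r3`,
`r4` (`10000 ξ ≤ η = ρ²/40`, so `r_{i+1} ≤ r_i ≤ ε/4`).  `z = min (ε/100) (r4 r3/100)`; `ham_of_expander ε (z²)`;
`n0` = maximum of the five numbers and of `1/z`.  `pigeon` for the class sizes and `r_i n`; `struct_ham` with
`ρ = r_i`, `ξ = r_{i+1}` (`100 z ≤ r4 r3 ≤ r_{i+1} r_i`). -/
theorem lin_case (ε : ℝ) (hε : 0 < ε) (hε1 : ε ≤ 1 / 4) :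
    ∃ n0 : ℕ, ∀ (V : Type) [Fintype V] (E : V → V → Prop) (D p q : ℕ), Hag E D p q →
      n0 ≤ Fintype.card V → p + q ≤ D → ε * (Fintype.card V : ℝ) ≤ (p : ℝ) →
      ε * (Fintype.card V : ℝ) ≤ (q : ℝ) → Ham E := by
  obtain ⟨r0, hr0⟩ : ∃ r0 : ℝ, r0 = ε / 4 := ⟨_, rfl⟩
  have p0 : 0 < r0 := by rw [hr0]; positivity
  have q0 : r0 ≤ ε / 4 := hr0.le
  obtain ⟨η1, ν1, z1, r1, κ1, n1, P1⟩ := par_exists ε r0 hε hε1 p0 q0
  have p1 : 0 < r1 := P1.hξ
  have s1 : r1 ≤ r0 := lin_step P1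
  have q1 : r1 ≤ ε / 4 := s1.trans q0
  obtain ⟨η2, ν2, z2, r2, κ2, n2, P2⟩ := par_exists ε r1 hε hε1 p1 q1
  have p2 : 0 < r2 := P2.hξ
  have s2 : r2 ≤ r1 := lin_step P2
  have q2 : r2 ≤ ε / 4 := s2.trans q1
  obtain ⟨η3, ν3, z3, r3, κ3, n3, P3⟩ := par_exists ε r2 hε hε1 p2 q2
  have p3 : 0 < r3 := P3.hξ
  have s3 : r3 ≤ r2 := lin_step P3
  have q3 : r3 ≤ ε / 4 := s3.trans q2
  obtain ⟨η4, ν4, z4, r4, κ4, n4, P4⟩ := par_exists ε r3 hε hε1 p3 q3
  have p4 : 0 < r4 := P4.hξ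
  have s4 : r4 ≤ r3 := lin_step P4
  obtain ⟨z, hz⟩ : ∃ z : ℝ, z = min (ε / 100) (r4 * r3 / 100) := ⟨_, rfl⟩
  have hz0 : 0 < z := by
    rw [hz]
    exact lt_min (by positivity) (by positivity)
  have hzε : 100 * z ≤ ε := by
    have : z ≤ ε / 100 := by rw [hz]; exact min_le_left _ _
    linarith
  have hzr : 100 * z ≤ r4 * r3 := by
    have : z ≤ r4 * r3 / 100 := by rw [hz]; exact min_le_right _ _
    linarith
  have hz1 : 100 * z ≤ r1 * r0 := by nlinarith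
  have hz2 : 100 * z ≤ r2 * r1 := by nlinarith
  have hz3 : 100 * z ≤ r3 * r2 := by nlinarith
  obtain ⟨n5, hX⟩ := ham_of_expander ε (z ^ 2) (by positivity) (by nlinarith) (by linarith)
  refine ⟨max (max n1 n2) (max (max n3 n4) (max n5 ⌈1 / z⌉₊)), ?_⟩
  intro V _ E D p q h hn hpq hp hq
  simp only [max_le_iff] at hn
  obtain ⟨⟨k1, k2⟩, ⟨k3, k4⟩, k5, k6⟩ := hn
  have hn0 : (0 : ℝ) ≤ (Fintype.card V : ℝ) := Nat.cast_nonneg _
  have hzn : 1 ≤ z * (Fintype.card V : ℝ) := by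
    have h1 : 1 / z ≤ (Fintype.card V : ℝ) := (Nat.le_ceil _).trans (by exact_mod_cast k6)
    rw [div_le_iff₀ hz0] at h1
    linarith
  rcases expander_or_pair h hpq ε z (by linarith) hz0 hzε hp hq hzn with hE | ⟨S, T, hP⟩
  · exact hX V E k5 hE
  · rcases pigeon ((S ∩ T).card : ℝ) ((S \ T).card : ℝ) (((S ∪ T)ᶜ).card : ℝ)
      (r0 * (Fintype.card V : ℝ)) (r1 * (Fintype.card V : ℝ)) (r2 * (Fintype.card V : ℝ))
      (r3 * (Fintype.card V : ℝ)) (r4 * (Fintype.card V : ℝ))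
      (mul_le_mul_of_nonneg_right s1 hn0) (mul_le_mul_of_nonneg_right s2 hn0)
      (mul_le_mul_of_nonneg_right s3 hn0) (mul_le_mul_of_nonneg_right s4 hn0) with
      ⟨a, b, c⟩ | ⟨a, b, c⟩ | ⟨a, b, c⟩ | ⟨a, b, c⟩
    · exact struct_ham hP P1 k1 hz1 a b c
    · exact struct_ham hP P2 k2 hz2 a b c
    · exact struct_ham hP P3 k3 hz3 a b c
    · exact struct_ham hP P4 k4 hzr a b c

end HX
end

section

set_option autoImplicit false

namespace HX

open Finset Classical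

/-- all large `n`, for `Hag` -/
theorem hag_ham : ∃ n0 : ℕ, ∀ (V : Type) [Fintype V] (E : V → V → Prop) (D p q : ℕ),
    Hag E D p q → n0 ≤ Fintype.card V → Ham E := by
  obtain ⟨ε0, n1, hε0, h1⟩ := small_indeg
  have hε : 0 < min ε0 (1 / 4) := lt_min hε0 (by norm_num)
  obtain ⟨n2, h2⟩ := lin_case (min ε0 (1 / 4)) hε (min_le_right _ _)
  refine ⟨max n1 n2, fun V _ E D p q h hn => ?_⟩
  have hn1 : n1 ≤ Fintype.card V := (le_max_left _ _).trans hn
  have hn2 : n2 ≤ Fintype.card V := (le_max_right _ _).trans hn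
  by_cases hq : (q : ℝ) ≤ ε0 * (Fintype.card V : ℝ)
  · exact h1 V E D p q h hn1 hq
  by_cases hp : (p : ℝ) ≤ ε0 * (Fintype.card V : ℝ)
  · exact Ham.of_rev (h1 V (fun x y => E y x) D q p h.rev hn1 hp)
  push Not at hp hq
  have hcast : (0 : ℝ) ≤ (Fintype.card V : ℝ) := Nat.cast_nonneg _
  have hmin : min ε0 (1 / 4) * (Fintype.card V : ℝ) ≤ ε0 * (Fintype.card V : ℝ) :=
    mul_le_mul_of_nonneg_right (min_le_left _ _) hcast
  exact h2 V E (max D (p + q)) p q h.mono_D hn2 (le_max_right _ _) (hmin.trans hp.le)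
    (hmin.trans hq.le)

/-- the same for permutations and natural cardinalities of subtypes -/
theorem large_n : ∃ n0 : ℕ, ∀ (V : Type) [Fintype V] (E : V → V → Prop), n0 ≤ Fintype.card V →
    (∀ u v, E u v → ¬ E v u) →
    ∀ d dp dm : ℕ,
      (∀ v, d ≤ Nat.card {w // E v w} + Nat.card {w // E w v}) →
      (∀ v, dp ≤ Nat.card {w // E v w}) →
      (∀ v, dm ≤ Nat.card {w // E w v}) →
      3 * Fintype.card V < 2 * (d + dp + dm) + 3 →
      ∃ σ : Equiv.Perm V, σ.IsCycle ∧ ∀ v, E v (σ v) := by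
  obtain ⟨n0, h0⟩ := hag_ham
  refine ⟨max n0 2, fun V _ E hn hori d dp dm hd hdp hdm hsum => ?_⟩
  have hn0 : n0 ≤ Fintype.card V := (le_max_left _ _).trans hn
  have hn2 : 2 ≤ Fintype.card V := (le_max_right _ _).trans hn
  have eo : ∀ v, Nat.card {w // E v w} = dOut E v univ := by
    intro v
    rw [Nat.card_eq_fintype_card, Fintype.card_subtype]
    rfl
  have ei : ∀ v, Nat.card {w // E w v} = dIn E v univ := by
    intro v
    rw [Nat.card_eq_fintype_card, Fintype.card_subtype]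
    rfl
  have H : Hag E d dp dm := by
    refine ⟨hori, fun v => ?_, fun v => ?_, fun v => ?_, by omega⟩
    · have := hd v
      rwa [eo, ei] at this
    · have := hdp v
      rwa [eo] at this
    · have := hdm v
      rwa [ei] at this
  exact (h0 V E d dp dm H hn0).exists_perm E hn2

end HX
end
end
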